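import Pool.Agent.Helper859.Br.Defs
set_option linter.all false
open Complex MeasureTheory Set Filter Topology Metric

namespace Pool.Agent.Helper859.Br.A1
open Pool.Agent.Helper859.Br

theorem trunc_exists (ε : ℝ) (hε : 0 < ε) : ∃ T : ℝ → ℝ, Trunc ε T := by
  obtain ⟨d, hd⟩ : ∃ d : ℝ → ℝ, ∀ s, d s = min 1 (max 0 (|s| / ε - 1)) := ⟨_, fun _ => rfl⟩
  have hde : d = fun s => min 1 (max 0 (|s| / ε - 1)) := funext hd
  have hdc : Continuous d := by
    rw [hde]
    exact continuous_const.min (continuous_const.max
      ((continuous_abs.div_const ε).sub continuous_const))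
  have hd0 : ∀ s, 0 ≤ d s := by
    intro s
    rw [hd]
    exact le_min zero_le_one (le_max_left _ _)
  have hd1 : ∀ s, d s ≤ 1 := by
    intro s
    rw [hd]
    exact min_le_left _ _
  have hdn : ∀ s, d (-s) = d s := by
    intro s
    rw [hd, hd, abs_neg]
  have hdz : ∀ s, |s| ≤ ε → d s = 0 := by
    intro s hs
    have h1 : |s| / ε - 1 ≤ 0 := by
      have : |s| / ε ≤ 1 := (div_le_one hε).2 hs
      linarith
    rw [hd, max_eq_left h1]
    exact min_eq_right zero_le_one
  have hdo : ∀ s, 2 * ε ≤ s → d s = 1 := by
    intro s hs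
    have h0 : 0 ≤ s := le_trans (by linarith) hs
    have h1 : 1 ≤ |s| / ε - 1 := by
      have : 2 ≤ |s| / ε := by
        rw [le_div_iff₀ hε, abs_of_nonneg h0]
        exact hs
      linarith
    rw [hd]
    exact min_eq_left (h1.trans (le_max_right _ _))
  obtain ⟨T, hT⟩ : ∃ T : ℝ → ℝ, ∀ x, T x = ∫ s in (0:ℝ)..x, d s := ⟨_, fun _ => rfl⟩
  have hTe : T = fun x => ∫ s in (0:ℝ)..x, d s := funext hT
  have hder : ∀ x, HasDerivAt T (d x) x := by
    intro x
    rw [hTe]
    exact intervalIntegral.integral_hasDerivAt_right (hdc.intervalIntegrable _ _)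
      (hdc.stronglyMeasurableAtFilter _ _) hdc.continuousAt
  have hderiv : deriv T = d := funext fun x => (hder x).deriv
  have hodd : ∀ x, T (-x) = -T x := by
    intro x
    rw [hT, hT]
    have h1 := intervalIntegral.integral_comp_neg (a := 0) (b := x) d
    have h2 : (∫ s in (0:ℝ)..x, d (-s)) = ∫ s in (0:ℝ)..x, d s := by
      congr 1
      funext s
      exact hdn s
    rw [h2, neg_zero] at h1
    rw [h1, intervalIntegral.integral_symm]
  have hcl0 : ∀ x, 0 ≤ x → |T x - x| ≤ 2 * ε := by
    intro x hx
    have hec : Continuous fun s => 1 - d s := continuous_const.sub hdc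
    have hE : ∀ y, T y - y = - ∫ s in (0:ℝ)..y, (1 - d s) := by
      intro y
      rw [intervalIntegral.integral_sub (continuous_const.intervalIntegrable _ _)
        (hdc.intervalIntegrable _ _), hT]
      simp
    have hb : ∀ y, 0 ≤ y → |∫ s in (0:ℝ)..y, (1 - d s)| ≤ y := by
      intro y hy
      have := intervalIntegral.norm_integral_le_of_norm_le_const (a := 0) (b := y) (C := 1)
        (f := fun s => 1 - d s) (by
          intro s _
          rw [Real.norm_eq_abs, abs_of_nonneg (by linarith [hd1 s])]
          linarith [hd0 s])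
      rw [Real.norm_eq_abs, sub_zero, one_mul, abs_of_nonneg hy] at this
      exact this
    rw [hE, abs_neg]
    by_cases hx2 : x ≤ 2 * ε
    · exact (hb x hx).trans hx2
    · push Not at hx2
      have h1 := intervalIntegral.integral_add_adjacent_intervals
        (hec.intervalIntegrable (μ := volume) 0 (2 * ε)) (hec.intervalIntegrable (2 * ε) x)
      have h2 : (∫ s in (2 * ε)..x, (1 - d s)) = 0 := by
        have : (∫ s in (2 * ε)..x, (1 - d s)) = ∫ s in (2 * ε)..x, (0 : ℝ) := by
          apply intervalIntegral.integral_congr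
          intro s hs
          rw [uIcc_of_le hx2.le] at hs
          show 1 - d s = 0
          rw [hdo s hs.1]
          ring
        rw [this]
        simp
      rw [h2, add_zero] at h1
      rw [← h1]
      exact hb _ (by linarith)
  refine ⟨T, ⟨?_, hodd, ?_, ?_, ?_, ?_⟩⟩
  · rw [contDiff_one_iff_deriv, hderiv]
    exact ⟨fun x => (hder x).differentiableAt, hdc⟩
  · intro x
    rw [hderiv]
    exact hd0 x
  · intro x
    rw [hderiv]
    exact hd1 x
  · intro x hx
    rw [hT]
    have : (∫ s in (0:ℝ)..x, d s) = ∫ s in (0:ℝ)..x, (0 : ℝ) := by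
      apply intervalIntegral.integral_congr
      intro s hs
      show d s = 0
      apply hdz
      refine le_trans ?_ hx
      rcases le_total 0 x with h | h
      · rw [uIcc_of_le h] at hs
        rw [abs_of_nonneg hs.1, abs_of_nonneg h]
        exact hs.2
      · rw [uIcc_of_ge h] at hs
        rw [abs_of_nonpos hs.2, abs_of_nonpos h]
        linarith [hs.1]
    rw [this]
    simp
  · intro x
    rcases le_total 0 x with h | h
    · exact hcl0 x h
    · have h1 := hcl0 (-x) (by linarith)
      rw [hodd] at h1
      have h2 : -T x - -x = -(T x - x) := by ring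
      rw [h2, abs_neg] at h1
      exact h1

end Pool.Agent.Helper859.Br.A1
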