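import Pool.Agent.Helper859.Br.Defs
set_option linter.all false
open Complex MeasureTheory Set Filter Topology Metric

namespace Pool.Agent.Helper859.Br.A2
open Pool.Agent.Helper859.Br

theorem det_mul (c : ℂ) : ((ContinuousLinearMap.toSpanSingleton ℂ c).restrictScalars ℝ).det = ‖c‖ ^ 2 := by
  have : (((ContinuousLinearMap.toSpanSingleton ℂ c).restrictScalars ℝ : ℂ →L[ℝ] ℂ) : ℂ →ₗ[ℝ] ℂ) = ((LinearMap.toSpanSingleton ℂ ℂ c).restrictScalars ℝ) := by
    ext <;> simp
  rw [ContinuousLinearMap.det, this, LinearMap.det_restrictScalars]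
  simp [Algebra.norm_complex_apply, Complex.normSq_eq_norm_sq]

theorem fderiv_ri (v : ℂ → ℝ) (w x : ℂ) :
    fderiv ℝ v w x = x.re * fderiv ℝ v w 1 + x.im * fderiv ℝ v w I := by
  have hx : x = x.re • (1 : ℂ) + x.im • I := by
    simp
  conv_lhs => rw [hx, map_add, map_smul, map_smul]
  rfl

theorem gn_comp {v : ℂ → ℝ} {h : ℂ → ℂ} {z h' : ℂ} (hh : HasDerivAt h h' z)
    (hv : DifferentiableAt ℝ v (h z)) : gn (fun z => v (h z)) z = gn v (h z) * ‖h'‖ ^ 2 := by
  have h1 : ∀ w, fderiv ℝ (fun z => v (h z)) z w = fderiv ℝ v (h z) (h' * w) := by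
    intro w
    have h2 : HasFDerivAt (fun z => v (h z)) ((fderiv ℝ v (h z)).comp
        ((ContinuousLinearMap.toSpanSingleton ℂ h').restrictScalars ℝ)) z :=
      hv.hasFDerivAt.comp z (hh.hasFDerivAt.restrictScalars ℝ)
    rw [h2.fderiv]
    simp [mul_comm]
  unfold gn
  rw [h1, h1, fderiv_ri v (h z) (h' * 1), fderiv_ri v (h z) (h' * I),
    ← Complex.normSq_eq_norm_sq, Complex.normSq_apply]
  have e1 : (h' * I).re = -h'.im := by simp
  have e2 : (h' * I).im = h'.re := by simp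
  rw [e1, e2, mul_one]
  ring

theorem gn_T {T : ℝ → ℝ} {H : ℂ → ℂ} {z H' : ℂ} (hT : ContDiff ℝ 1 T) (hH : HasDerivAt H H' z) :
    gn (fun z => T (H z).re) z = (deriv T (H z).re) ^ 2 * ‖H'‖ ^ 2 := by
  have hTd : HasDerivAt T (deriv T (H z).re) (H z).re :=
    (hT.differentiable (by norm_num) _).hasDerivAt
  have hv : HasFDerivAt (fun w : ℂ => T w.re)
      ((ContinuousLinearMap.toSpanSingleton ℝ (deriv T (H z).re)).comp Complex.reCLM) (H z) :=
    hTd.hasFDerivAt.comp (H z) Complex.reCLM.hasFDerivAt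
  have h1 := gn_comp (v := fun w : ℂ => T w.re) hH hv.differentiableAt
  rw [h1]
  congr 1
  unfold gn
  rw [hv.fderiv]
  simp

theorem gn_congr {v u : ℂ → ℝ} {z : ℂ} (h : v =ᶠ[𝓝 z] u) : gn v z = gn u z := by
  unfold gn
  rw [h.fderiv_eq]

/-- change of variables for injective holomorphic maps -/
theorem cv {f : ℂ → ℂ} {s A : Set ℂ} (hs : IsOpen s) (hf : DifferentiableOn ℂ f s) (hi : InjOn f s)
    (hA : MeasurableSet A) (hAs : A ⊆ s) (g : ℂ → ENNReal) :
    ∫⁻ w in f '' A, g w = ∫⁻ z in A, ENNReal.ofReal (‖deriv f z‖ ^ 2) * g (f z) := by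
  have h1 := MeasureTheory.lintegral_image_eq_lintegral_abs_det_fderiv_mul volume hA
    (f := f) (f' := fun z => (ContinuousLinearMap.toSpanSingleton ℂ (deriv f z)).restrictScalars ℝ)
    (fun z hz => ((hf.differentiableAt (hs.mem_nhds (hAs hz))).hasDerivAt.hasFDerivAt.restrictScalars
      ℝ).hasFDerivWithinAt) (hi.mono hAs) g
  rw [h1]
  apply lintegral_congr
  intro z
  rw [det_mul, abs_of_nonneg (sq_nonneg _)]

end Pool.Agent.Helper859.Br.A2
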