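import Pool.Agent.Helper859.Br.Defs
set_option linter.all false
open Complex MeasureTheory Set Filter Topology Metric

namespace Pool.Agent.Helper859.Br.A3
open Pool.Agent.Helper859.Br


theorem wirt_cont (f g k : ℝ → ℝ) (p f'p c : ℝ) (hf : HasDerivAt f f'p p) (hg : HasDerivAt g c p)
    (hfp : f p = 0) (hgp : g p = 0) (hc : c ≠ 0) (hk : ContinuousAt k p) :
    ContinuousAt (fun x => f x ^ 2 * k x / g x) p := by
  rw [continuousAt_iff_punctured_nhds]
  have h1 : Tendsto (slope f p) (𝓝[≠] p) (𝓝 f'p) := hasDerivAt_iff_tendsto_slope.1 hf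
  have h2 : Tendsto (slope g p) (𝓝[≠] p) (𝓝 c) := hasDerivAt_iff_tendsto_slope.1 hg
  have h3 : Tendsto f (𝓝[≠] p) (𝓝 0) := by
    have := hf.continuousAt.tendsto.mono_left (nhdsWithin_le_nhds (s := {p}ᶜ))
    rwa [hfp] at this
  have h4 : Tendsto k (𝓝[≠] p) (𝓝 (k p)) := hk.tendsto.mono_left nhdsWithin_le_nhds
  have h5 := (h3.mul h4).mul (h1.div h2 hc)
  have h6 : (fun x => f x * k x * (slope f p x / slope g p x)) =ᶠ[𝓝[≠] p]
      fun x => f x ^ 2 * k x / g x := by
    filter_upwards [self_mem_nhdsWithin] with x hx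
    have hx' : x - p ≠ 0 := sub_ne_zero.2 hx
    rw [slope_def_field, slope_def_field, hfp, hgp, sub_zero, sub_zero,
      div_div_div_cancel_right₀ hx']
    ring
  have h7 := h5.congr' h6
  simpa [hfp, hgp] using h7

theorem wirt_per (g : ℝ → ℝ) (hg : Continuous g) (hp : Function.Periodic g Real.pi) (a : ℝ) :
    ∫ θ in (0:ℝ)..(2 * Real.pi), g θ = 2 * ∫ θ in a..(a + Real.pi), g θ := by
  have h1 : ∫ θ in (0:ℝ)..(2 * Real.pi), g θ
      = (∫ θ in (0:ℝ)..Real.pi, g θ) + ∫ θ in Real.pi..(2 * Real.pi), g θ :=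
    (intervalIntegral.integral_add_adjacent_intervals (hg.intervalIntegrable _ _)
      (hg.intervalIntegrable _ _)).symm
  have h2 : ∫ θ in (0:ℝ)..Real.pi, g θ = ∫ θ in a..(a + Real.pi), g θ := by
    have := hp.intervalIntegral_add_eq 0 a
    rwa [zero_add] at this
  have h3 : ∫ θ in Real.pi..(2 * Real.pi), g θ = ∫ θ in a..(a + Real.pi), g θ := by
    have := hp.intervalIntegral_add_eq Real.pi a
    rwa [← two_mul] at this
  rw [h1, h2, h3, two_mul]

/-- Wirtinger inequality for anti-periodic functions (period pi sign change) -/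
theorem wirt (f f' : ℝ → ℝ) (hf : ∀ θ, HasDerivAt f (f' θ) θ) (hf' : Continuous f')
    (ho : ∀ θ, f (θ + Real.pi) = - f θ) :
    ∫ θ in (0:ℝ)..(2 * Real.pi), (f θ) ^ 2 ≤ ∫ θ in (0:ℝ)..(2 * Real.pi), (f' θ) ^ 2 := by
  have hfc : Continuous f := continuous_iff_continuousAt.2 (fun x => (hf x).continuousAt)
  have hpi := Real.pi_pos
  have ho' : ∀ θ, f' (θ + Real.pi) = - f' θ := by
    intro θ
    have h1 : HasDerivAt (fun x => f (x + Real.pi)) (f' (θ + Real.pi)) θ :=
      (hf (θ + Real.pi)).comp_add_const θ Real.pi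
    have h2 : HasDerivAt (fun x => f (x + Real.pi)) (- f' θ) θ := by
      have : (fun x => f (x + Real.pi)) = fun x => - f x := by
        funext x; exact ho x
      rw [this]
      exact (hf θ).neg
    exact h1.unique h2
  obtain ⟨a, ha⟩ : ∃ a, f a = 0 := by
    have h0 : f Real.pi = - f 0 := by have := ho 0; rwa [zero_add] at this
    rcases le_total (f 0) 0 with h | h
    · exact mem_range_of_exists_le_of_exists_ge hfc ⟨0, h⟩ ⟨Real.pi, by rw [h0]; linarith⟩
    · exact mem_range_of_exists_le_of_exists_ge hfc ⟨Real.pi, by rw [h0]; linarith⟩ ⟨0, h⟩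
  have hb : f (a + Real.pi) = 0 := by rw [ho, ha, neg_zero]
  have hq : Continuous (fun t => (f' t) ^ 2 - (f t) ^ 2) := (hf'.pow 2).sub (hfc.pow 2)
  have hprim : ∀ x, HasDerivAt (fun u => ∫ t in a..u, ((f' t) ^ 2 - (f t) ^ 2))
      ((f' x) ^ 2 - (f x) ^ 2) x := fun x => (hq.integral_hasStrictDerivAt a x).hasDerivAt
  have hsin : ∀ x, HasDerivAt (fun x => Real.sin (x - a)) (Real.cos (x - a)) x := by
    intro x
    exact (Real.hasDerivAt_sin (x - a)).comp_sub_const x a
  have hcos : ∀ x, HasDerivAt (fun x => Real.cos (x - a)) (- Real.sin (x - a)) x := by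
    intro x
    exact (Real.hasDerivAt_cos (x - a)).comp_sub_const x a
  have hcosc : Continuous (fun x => Real.cos (x - a)) :=
    continuous_iff_continuousAt.2 (fun x => (hcos x).continuousAt)
  have hsinpos : ∀ x, a < x → x < a + Real.pi → 0 < Real.sin (x - a) := by
    intro x h1 h2
    exact Real.sin_pos_of_pos_of_lt_pi (by linarith) (by linarith)
  have hder : ∀ x, a < x → x < a + Real.pi →
      HasDerivAt (fun u => (∫ t in a..u, ((f' t) ^ 2 - (f t) ^ 2))
        - f u ^ 2 * Real.cos (u - a) / Real.sin (u - a))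
        ((f' x - f x * Real.cos (x - a) / Real.sin (x - a)) ^ 2) x := by
    intro x h1 h2
    have hs := hsinpos x h1 h2
    have h3 : HasDerivAt (fun u => f u ^ 2) (2 * f x * f' x) x := by
      have := (hf x).mul (hf x)
      have e1 : (fun u => f u ^ 2) = f * f := by funext u; simp [sq]
      rw [e1]
      have e2 : 2 * f x * f' x = f' x * f x + f x * f' x := by ring
      rw [e2]
      exact this
    have h4 := (h3.mul (hcos x)).div (hsin x) hs.ne'
    have h5 := (hprim x).sub h4
    have hsc := Real.sin_sq_add_cos_sq (x - a)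
    refine HasDerivAt.congr_deriv h5 ?_
    simp only [Pi.mul_apply]
    have hne := hs.ne'
    generalize Real.sin (x - a) = s at *
    generalize Real.cos (x - a) = c at *
    generalize f x = y at *
    generalize f' x = z at *
    have hc2 : c ^ 2 = 1 - s ^ 2 := by linarith
    field_simp
    ring
  have hcontG : ∀ x ∈ Icc a (a + Real.pi),
      ContinuousAt (fun u => f u ^ 2 * Real.cos (u - a) / Real.sin (u - a)) x := by
    intro x hx
    rcases hx.1.eq_or_lt with h1 | h1
    · subst h1
      exact wirt_cont f (fun u => Real.sin (u - a)) (fun u => Real.cos (u - a)) a _ _ (hf a) (hsin a) ha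
        (by simp) (by simp) hcosc.continuousAt
    · rcases hx.2.eq_or_lt with h2 | h2
      · rw [h2]
        exact wirt_cont f (fun u => Real.sin (u - a)) (fun u => Real.cos (u - a)) (a + Real.pi) _ _
          (hf _) (hsin _) hb (by simp) (by simp) hcosc.continuousAt
      · have h3 := hder x h1 h2
        exact ((hfc.continuousAt.pow 2).mul hcosc.continuousAt).div (hsin x).continuousAt
          (hsinpos x h1 h2).ne'
  have hmono : MonotoneOn (fun u => (∫ t in a..u, ((f' t) ^ 2 - (f t) ^ 2))
        - f u ^ 2 * Real.cos (u - a) / Real.sin (u - a)) (Icc a (a + Real.pi)) := by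
    apply monotoneOn_of_deriv_nonneg (convex_Icc _ _)
    · intro x hx
      exact ((hprim x).continuousAt.sub (hcontG x hx)).continuousWithinAt
    · intro x hx
      rw [interior_Icc] at hx
      exact (hder x hx.1 hx.2).differentiableAt.differentiableWithinAt
    · intro x hx
      rw [interior_Icc] at hx
      rw [(hder x hx.1 hx.2).deriv]
      positivity
  have h8 := hmono (left_mem_Icc.2 (by linarith)) (right_mem_Icc.2 (by linarith))
    (by linarith : a ≤ a + Real.pi)
  simp only [ha, hb, intervalIntegral.integral_same] at h8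
  norm_num at h8
  have h9 : ∫ t in a..(a + Real.pi), ((f' t) ^ 2 - (f t) ^ 2)
      = (∫ t in a..(a + Real.pi), (f' t) ^ 2) - ∫ t in a..(a + Real.pi), (f t) ^ 2 :=
    intervalIntegral.integral_sub (f := fun t => (f' t) ^ 2) (g := fun t => (f t) ^ 2)
      ((hf'.pow 2).intervalIntegrable _ _) ((hfc.pow 2).intervalIntegrable _ _)
  rw [h9] at h8
  rw [wirt_per (fun θ => (f θ) ^ 2) (hfc.pow 2) (fun θ => by simp only [ho]; ring) a,
    wirt_per (fun θ => (f' θ) ^ 2) (hf'.pow 2) (fun θ => by simp only [ho']; ring) a]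
  linarith

end Pool.Agent.Helper859.Br.A3
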