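import Pool.Agent.Helper859.Br.Defs
set_option linter.all false
open Complex MeasureTheory Set Filter Topology Metric

namespace Pool.Agent.Helper859.Br.A4
open Pool.Agent.Helper859.Br

/-- the frequencies -/
def SS : Finset ℕ := {3, 5, 7}

/-- trigonometric polynomial -/
noncomputable def tp (b : ℕ → ℂ) (θ : ℝ) : ℝ :=
  ∑ k ∈ SS, (b k * exp ((k : ℂ) * θ * I)).re

theorem tp_cont (b : ℕ → ℂ) : Continuous (tp b) := by
  unfold tp
  fun_prop

theorem J_int (n : ℤ) : ∫ θ in (0:ℝ)..(2 * Real.pi), exp ((n : ℂ) * θ * I) =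
    if n = 0 then 2 * (Real.pi : ℂ) else 0 := by
  by_cases hn : n = 0
  · rw [if_pos hn, hn]
    simp
  · rw [if_neg hn]
    have hc : (n : ℂ) * I ≠ 0 := mul_ne_zero (Int.cast_ne_zero.2 hn) I_ne_zero
    have h1 : ∀ θ : ℝ, exp ((n : ℂ) * θ * I) = exp ((n : ℂ) * I * θ) := by
      intro θ
      congr 1
      ring
    simp_rw [h1]
    rw [integral_exp_mul_complex hc]
    have h2 : (n : ℂ) * I * ((2 * Real.pi : ℝ) : ℂ) = n * (2 * Real.pi * I) := by
      push_cast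
      ring
    rw [h2, Complex.exp_int_mul_two_pi_mul_I]
    simp

/-- the integral of a function against one harmonic -/
theorem int_one (h : ℝ → ℝ) (hh : Continuous h) (b : ℂ) (k : ℕ) :
    ∫ θ in (0:ℝ)..(2 * Real.pi), h θ * (b * exp ((k : ℂ) * θ * I)).re =
      Real.pi * (b * (starRingEnd ℂ) (fk h k)).re := by
  have h1 : ∀ θ : ℝ, h θ * (b * exp ((k : ℂ) * θ * I)).re =
      (Complex.reCLM.comp ((ContinuousLinearMap.mul ℝ ℂ b).comp
        (Complex.conjCLE : ℂ →L[ℝ] ℂ))) ((h θ : ℂ) * exp (-((k : ℂ) * θ * I))) := by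
    intro θ
    have h2 : (starRingEnd ℂ) ((h θ : ℂ) * exp (-((k : ℂ) * θ * I))) =
        (h θ : ℂ) * exp ((k : ℂ) * θ * I) := by
      rw [map_mul, Complex.conj_ofReal, ← Complex.exp_conj]
      congr 2
      simp
    show h θ * (b * exp ((k : ℂ) * θ * I)).re =
      (b * (starRingEnd ℂ) ((h θ : ℂ) * exp (-((k : ℂ) * θ * I)))).re
    rw [h2, mul_left_comm, Complex.re_ofReal_mul]
  simp_rw [h1]
  rw [ContinuousLinearMap.intervalIntegral_comp_comm]
  · show (b * (starRingEnd ℂ) (∫ θ in (0:ℝ)..(2 * Real.pi),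
      (h θ : ℂ) * exp (-((k : ℂ) * θ * I)))).re = _
    have h3 : (∫ θ in (0:ℝ)..(2 * Real.pi), (h θ : ℂ) * exp (-((k : ℂ) * θ * I))) =
        (Real.pi : ℂ) * fk h k := by
      rw [fk, ← mul_assoc, mul_inv_cancel₀ (Complex.ofReal_ne_zero.2 Real.pi_ne_zero), one_mul]
    rw [h3, map_mul, Complex.conj_ofReal, mul_left_comm, Complex.re_ofReal_mul]
  · apply Continuous.intervalIntegrable
    fun_prop

theorem int_tp (h : ℝ → ℝ) (hh : Continuous h) (b : ℕ → ℂ) :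
    ∫ θ in (0:ℝ)..(2 * Real.pi), h θ * tp b θ =
      Real.pi * ∑ k ∈ SS, (b k * (starRingEnd ℂ) (fk h k)).re := by
  unfold tp
  simp_rw [Finset.mul_sum]
  rw [intervalIntegral.integral_finset_sum]
  · refine Finset.sum_congr rfl fun k _ => ?_
    exact int_one h hh (b k) k
  · intro k _
    apply Continuous.intervalIntegrable
    fun_prop

theorem fk_tp (b : ℕ → ℂ) (k : ℕ) (hk : k ∈ SS) : fk (tp b) k = b k := by
  have h1 : ∀ θ : ℝ, ((tp b θ : ℝ) : ℂ) * exp (-((k : ℂ) * θ * I)) =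
      ∑ l ∈ SS, (b l / 2 * exp (((((l : ℤ) - k : ℤ)) : ℂ) * θ * I) +
        (starRingEnd ℂ) (b l) / 2 * exp ((((-((l : ℤ) + k) : ℤ)) : ℂ) * θ * I)) := by
    intro θ
    rw [tp, Complex.ofReal_sum, Finset.sum_mul]
    refine Finset.sum_congr rfl fun l _ => ?_
    have e1 : exp (((((l : ℤ) - k : ℤ)) : ℂ) * θ * I) =
        exp ((l : ℂ) * θ * I) * exp (-((k : ℂ) * θ * I)) := by
      rw [← Complex.exp_add]
      congr 1
      push_cast
      ring
    have e2 : exp ((((-((l : ℤ) + k) : ℤ)) : ℂ) * θ * I) =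
        (starRingEnd ℂ) (exp ((l : ℂ) * θ * I)) * exp (-((k : ℂ) * θ * I)) := by
      rw [← Complex.exp_conj, ← Complex.exp_add]
      congr 1
      simp only [map_mul, Complex.conj_ofReal, Complex.conj_I, map_natCast]
      push_cast
      ring
    rw [Complex.re_eq_add_conj, map_mul, e1, e2]
    ring
  have h2 : ∀ l ∈ SS, (∫ θ in (0:ℝ)..(2 * Real.pi),
      (b l / 2 * exp (((((l : ℤ) - k : ℤ)) : ℂ) * θ * I) +
        (starRingEnd ℂ) (b l) / 2 * exp ((((-((l : ℤ) + k) : ℤ)) : ℂ) * θ * I))) =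
      if l = k then (Real.pi : ℂ) * b l else 0 := by
    intro l hl
    rw [intervalIntegral.integral_add, intervalIntegral.integral_const_mul,
      intervalIntegral.integral_const_mul, J_int, J_int]
    · have hk0 : (k : ℤ) ≠ 0 := by
        intro h
        have : k = 0 := by exact_mod_cast h
        rw [this] at hk
        revert hk
        decide
      have e3 : ¬ (-((l : ℤ) + k) = 0) := by omega
      rw [if_neg e3, mul_zero, add_zero]
      by_cases hlk : l = k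
      · have e4 : (l : ℤ) - k = 0 := by omega
        rw [if_pos e4, if_pos hlk]
        ring
      · have e4 : ¬ ((l : ℤ) - k = 0) := by omega
        rw [if_neg e4, if_neg hlk, mul_zero]
    · apply Continuous.intervalIntegrable
      fun_prop
    · apply Continuous.intervalIntegrable
      fun_prop
  rw [fk]
  simp_rw [h1]
  rw [intervalIntegral.integral_finset_sum]
  · rw [Finset.sum_congr rfl h2, Finset.sum_ite_eq', if_pos hk, ← mul_assoc,
      inv_mul_cancel₀ (Complex.ofReal_ne_zero.2 Real.pi_ne_zero), one_mul]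
  · intro l _
    apply Continuous.intervalIntegrable
    fun_prop

theorem int_tp_sq (b : ℕ → ℂ) :
    ∫ θ in (0:ℝ)..(2 * Real.pi), (tp b θ) ^ 2 = Real.pi * ∑ k ∈ SS, ‖b k‖ ^ 2 := by
  have h := int_tp (tp b) (tp_cont b) b
  have h1 : ∀ θ, (tp b θ) ^ 2 = tp b θ * tp b θ := fun θ => by ring
  simp_rw [h1]
  rw [h]
  congr 1
  refine Finset.sum_congr rfl fun k hk => ?_
  rw [fk_tp b k hk, Complex.mul_conj, Complex.ofReal_re, Complex.normSq_eq_norm_sq]

theorem tp_deriv (b : ℕ → ℂ) (θ : ℝ) :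
    HasDerivAt (tp b) (tp (fun k => I * k * b k) θ) θ := by
  unfold tp
  apply HasDerivAt.fun_sum
  intro k _
  have h1 : HasDerivAt (fun θ : ℝ => b k * exp ((k : ℂ) * θ * I))
      (b k * (exp ((k : ℂ) * θ * I) * ((k : ℂ) * 1 * I))) θ := by
    have h2 : HasDerivAt (fun θ : ℝ => (θ : ℂ)) 1 θ := Complex.ofRealCLM.hasDerivAt
    exact (((h2.const_mul (k : ℂ)).mul_const I).cexp).const_mul (b k)
  have h3 := (Complex.reCLM.hasFDerivAt (x := b k * exp ((k : ℂ) * θ * I))).comp_hasDerivAt θ h1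
  have h4 : (I * k * b k * exp ((k : ℂ) * θ * I)).re =
      Complex.reCLM (b k * (exp ((k : ℂ) * θ * I) * ((k : ℂ) * 1 * I))) := by
    show _ = (b k * (exp ((k : ℂ) * θ * I) * ((k : ℂ) * 1 * I))).re
    congr 1
    ring
  rw [h4]
  exact h3

theorem tp_anti (b : ℕ → ℂ) (θ : ℝ) : tp b (θ + Real.pi) = - tp b θ := by
  unfold tp
  rw [← Finset.sum_neg_distrib]
  refine Finset.sum_congr rfl fun k hk => ?_
  have hodd : Odd k := by
    rw [SS] at hk
    simp only [Finset.mem_insert, Finset.mem_singleton] at hk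
    rcases hk with h | h | h <;> rw [h] <;> decide
  obtain ⟨j, hj⟩ := hodd
  have h1 : exp ((k : ℂ) * ((θ + Real.pi : ℝ) : ℂ) * I) = - exp ((k : ℂ) * θ * I) := by
    have h2 : (k : ℂ) * ((θ + Real.pi : ℝ) : ℂ) * I = (k : ℂ) * θ * I + (Real.pi * I +
        j * (2 * Real.pi * I)) := by
      rw [hj]
      push_cast
      ring
    rw [h2, Complex.exp_add, Complex.exp_add, Complex.exp_pi_mul_I,
      Complex.exp_nat_mul_two_pi_mul_I]
    ring
  rw [h1, mul_neg, Complex.neg_re]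

theorem fk_deriv (f f' : ℝ → ℝ) (hf : ∀ θ, HasDerivAt f (f' θ) θ) (hf' : Continuous f')
    (hp : f (2 * Real.pi) = f 0) (k : ℕ) : fk f' k = I * k * fk f k := by
  have hfc : Continuous f := continuous_iff_continuousAt.2 fun θ => (hf θ).continuousAt
  have h1 : ∀ θ : ℝ, HasDerivAt (fun θ : ℝ => (f θ : ℂ) * exp (-((k : ℂ) * θ * I)))
      ((f' θ : ℂ) * exp (-((k : ℂ) * θ * I)) +
        (f θ : ℂ) * (exp (-((k : ℂ) * θ * I)) * (-((k : ℂ) * 1 * I)))) θ := by
    intro θ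
    have h2 : HasDerivAt (fun θ : ℝ => (θ : ℂ)) 1 θ := Complex.ofRealCLM.hasDerivAt
    have h3 := ((h2.const_mul (k : ℂ)).mul_const I).neg.cexp
    exact (hf θ).ofReal_comp.mul h3
  have h4 := intervalIntegral.integral_eq_sub_of_hasDerivAt (a := 0) (b := 2 * Real.pi)
    (fun θ _ => h1 θ) (by
      apply Continuous.intervalIntegrable
      fun_prop)
  have h5 : exp (-((k : ℂ) * ((2 * Real.pi : ℝ) : ℂ) * I)) = 1 := by
    have : -((k : ℂ) * ((2 * Real.pi : ℝ) : ℂ) * I) = -(k * (2 * Real.pi * I)) := by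
      push_cast
      ring
    rw [this, Complex.exp_neg, Complex.exp_nat_mul_two_pi_mul_I, inv_one]
  have h6 : exp (-((k : ℂ) * ((0 : ℝ) : ℂ) * I)) = 1 := by simp
  rw [h5, h6, hp, sub_self, intervalIntegral.integral_add] at h4
  · have h7 : (∫ θ in (0:ℝ)..(2 * Real.pi),
        (f θ : ℂ) * (exp (-((k : ℂ) * θ * I)) * (-((k : ℂ) * 1 * I)))) =
        (-((k : ℂ) * I)) * ∫ θ in (0:ℝ)..(2 * Real.pi), (f θ : ℂ) * exp (-((k : ℂ) * θ * I)) := by
      rw [← intervalIntegral.integral_const_mul]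
      refine intervalIntegral.integral_congr fun θ _ => ?_
      show (f θ : ℂ) * (exp (-((k : ℂ) * θ * I)) * (-((k : ℂ) * 1 * I))) =
        (-((k : ℂ) * I)) * ((f θ : ℂ) * exp (-((k : ℂ) * θ * I)))
      ring
    rw [h7] at h4
    rw [fk, fk]
    linear_combination (Real.pi : ℂ)⁻¹ * h4
  · apply Continuous.intervalIntegrable
    fun_prop
  · apply Continuous.intervalIntegrable
    fun_prop

/-- expansion of the integral of the square of `f + tp b` -/
theorem int_sq_add (f : ℝ → ℝ) (hf : Continuous f) (b : ℕ → ℂ) :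
    ∫ θ in (0:ℝ)..(2 * Real.pi), (f θ + tp b θ) ^ 2 =
      (∫ θ in (0:ℝ)..(2 * Real.pi), (f θ) ^ 2) +
        2 * (Real.pi * ∑ k ∈ SS, (b k * (starRingEnd ℂ) (fk f k)).re) +
        Real.pi * ∑ k ∈ SS, ‖b k‖ ^ 2 := by
  have hc := tp_cont b
  have h1 : ∀ θ, (f θ + tp b θ) ^ 2 = (f θ) ^ 2 + 2 * (f θ * tp b θ) + (tp b θ) ^ 2 :=
    fun θ => by ring
  simp_rw [h1]
  rw [intervalIntegral.integral_add, intervalIntegral.integral_add,
    intervalIntegral.integral_const_mul, int_tp f hf b, int_tp_sq]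
  all_goals
    apply Continuous.intervalIntegrable
    fun_prop

/-- refined form; `wirt` is available as hypothesis -/
theorem rw_ineq
    (wirt : ∀ f f' : ℝ → ℝ, (∀ θ, HasDerivAt f (f' θ) θ) → Continuous f' →
      (∀ θ, f (θ + Real.pi) = - f θ) →
      ∫ θ in (0:ℝ)..(2 * Real.pi), (f θ) ^ 2 ≤ ∫ θ in (0:ℝ)..(2 * Real.pi), (f' θ) ^ 2)
    (f f' g : ℝ → ℝ) (hf : ∀ θ, HasDerivAt f (f' θ) θ) (hf' : Continuous f')
    (ho : ∀ θ, f (θ + Real.pi) = - f θ) (hg : Continuous g) :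
    |2 * (∫ θ in (0:ℝ)..(2 * Real.pi), f θ * g θ) +
      2 * Real.pi * ∑ k ∈ ({3, 5, 7} : Finset ℕ), ((k : ℝ) - 1) * (fk f k * (starRingEnd ℂ) (fk g k)).re|
    ≤ (∫ θ in (0:ℝ)..(2 * Real.pi), (f' θ) ^ 2) + ∫ θ in (0:ℝ)..(2 * Real.pi), (g θ) ^ 2 := by
  have hfc : Continuous f := continuous_iff_continuousAt.2 fun θ => (hf θ).continuousAt
  have hper : f (2 * Real.pi) = f 0 := by
    have h1 := ho 0
    have h2 := ho (0 + Real.pi)
    rw [h1, neg_neg] at h2
    rw [← h2]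
    congr 1
    ring
  have h2pi : (0:ℝ) ≤ 2 * Real.pi := by positivity
  -- Wirtinger
  have hw := wirt (fun θ => f θ + tp (fun k => -fk f k) θ)
    (fun θ => f' θ + tp (fun k => I * k * (-fk f k)) θ)
    (fun θ => (hf θ).add (tp_deriv _ θ)) (hf'.add (tp_cont _)) (fun θ => by
      show f (θ + Real.pi) + tp (fun k => -fk f k) (θ + Real.pi) =
        -(f θ + tp (fun k => -fk f k) θ)
      rw [ho, tp_anti]
      ring)
  have hw' : ∫ θ in (0:ℝ)..(2 * Real.pi), (f θ + tp (fun k => -fk f k) θ) ^ 2 ≤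
    ∫ θ in (0:ℝ)..(2 * Real.pi), (f' θ + tp (fun k => I * k * (-fk f k)) θ) ^ 2 := hw
  rw [int_sq_add f hfc, int_sq_add f' hf'] at hw'
  have e1 : ∑ k ∈ SS, ((fun k => -fk f k) k * (starRingEnd ℂ) (fk f k)).re =
      - ∑ k ∈ SS, ‖fk f k‖ ^ 2 := by
    rw [← Finset.sum_neg_distrib]
    refine Finset.sum_congr rfl fun k _ => ?_
    show (-fk f k * (starRingEnd ℂ) (fk f k)).re = _
    rw [neg_mul, Complex.neg_re, Complex.mul_conj, Complex.ofReal_re, Complex.normSq_eq_norm_sq]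
  have e2 : ∑ k ∈ SS, ‖(fun k => -fk f k) k‖ ^ 2 = ∑ k ∈ SS, ‖fk f k‖ ^ 2 := by
    refine Finset.sum_congr rfl fun k _ => ?_
    show ‖-fk f k‖ ^ 2 = _
    rw [norm_neg]
  have e3 : ∑ k ∈ SS, ((fun k => I * k * (-fk f k)) k * (starRingEnd ℂ) (fk f' k)).re =
      - ∑ k ∈ SS, (k : ℝ) ^ 2 * ‖fk f k‖ ^ 2 := by
    rw [← Finset.sum_neg_distrib]
    refine Finset.sum_congr rfl fun k _ => ?_
    show (I * k * (-fk f k) * (starRingEnd ℂ) (fk f' k)).re = _
    rw [fk_deriv f f' hf hf' hper]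
    have : I * k * (-fk f k) * (starRingEnd ℂ) (I * k * fk f k) =
        -((I * k * fk f k) * (starRingEnd ℂ) (I * k * fk f k)) := by ring
    rw [this, Complex.neg_re, Complex.mul_conj, Complex.ofReal_re, Complex.normSq_eq_norm_sq,
      norm_mul, norm_mul, Complex.norm_I, Complex.norm_natCast]
    ring
  have e4 : ∑ k ∈ SS, ‖(fun k => I * k * (-fk f k)) k‖ ^ 2 =
      ∑ k ∈ SS, (k : ℝ) ^ 2 * ‖fk f k‖ ^ 2 := by
    refine Finset.sum_congr rfl fun k _ => ?_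
    show ‖I * k * (-fk f k)‖ ^ 2 = _
    rw [norm_mul, norm_mul, norm_neg, Complex.norm_I, Complex.norm_natCast]
    ring
  rw [e1, e2, e3, e4] at hw'
  -- the square of `f + p1`
  have hs := int_sq_add f hfc (fun k => ((k : ℝ) - 1 : ℝ) * fk f k)
  have e5 : ∑ k ∈ SS, ((fun k : ℕ => (((k : ℝ) - 1 : ℝ) : ℂ) * fk f k) k *
      (starRingEnd ℂ) (fk f k)).re = ∑ k ∈ SS, ((k : ℝ) - 1) * ‖fk f k‖ ^ 2 := by
    refine Finset.sum_congr rfl fun k _ => ?_
    show ((((k : ℝ) - 1 : ℝ) : ℂ) * fk f k * (starRingEnd ℂ) (fk f k)).re = _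
    rw [mul_assoc, Complex.re_ofReal_mul, Complex.mul_conj, Complex.ofReal_re,
      Complex.normSq_eq_norm_sq]
  have e6 : ∑ k ∈ SS, ‖(fun k : ℕ => (((k : ℝ) - 1 : ℝ) : ℂ) * fk f k) k‖ ^ 2 =
      ∑ k ∈ SS, ((k : ℝ) - 1) ^ 2 * ‖fk f k‖ ^ 2 := by
    refine Finset.sum_congr rfl fun k _ => ?_
    show ‖(((k : ℝ) - 1 : ℝ) : ℂ) * fk f k‖ ^ 2 = _
    rw [norm_mul, Complex.norm_real, Real.norm_eq_abs, mul_pow, sq_abs]
  rw [e5, e6] at hs
  have e7 : ∑ k ∈ SS, (k : ℝ) ^ 2 * ‖fk f k‖ ^ 2 =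
      2 * ∑ k ∈ SS, ((k : ℝ) - 1) * ‖fk f k‖ ^ 2 + ∑ k ∈ SS, ((k : ℝ) - 1) ^ 2 * ‖fk f k‖ ^ 2 +
      ∑ k ∈ SS, ‖fk f k‖ ^ 2 := by
    rw [Finset.mul_sum, ← Finset.sum_add_distrib, ← Finset.sum_add_distrib]
    refine Finset.sum_congr rfl fun k _ => ?_
    ring
  have hle : ∫ θ in (0:ℝ)..(2 * Real.pi), (f θ + tp (fun k => ((k : ℝ) - 1 : ℝ) * fk f k) θ) ^ 2 ≤
      ∫ θ in (0:ℝ)..(2 * Real.pi), (f' θ) ^ 2 := by
    rw [hs]
    rw [e7] at hw'
    nlinarith
  -- the left side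
  have hlhs : 2 * (∫ θ in (0:ℝ)..(2 * Real.pi), f θ * g θ) +
      2 * Real.pi * ∑ k ∈ ({3, 5, 7} : Finset ℕ), ((k : ℝ) - 1) *
        (fk f k * (starRingEnd ℂ) (fk g k)).re =
      ∫ θ in (0:ℝ)..(2 * Real.pi), 2 * ((f θ + tp (fun k => ((k : ℝ) - 1 : ℝ) * fk f k) θ) * g θ) := by
    have h1 : ∀ θ, 2 * ((f θ + tp (fun k => ((k : ℝ) - 1 : ℝ) * fk f k) θ) * g θ) =
        2 * (f θ * g θ) + 2 * (g θ * tp (fun k => ((k : ℝ) - 1 : ℝ) * fk f k) θ) :=
      fun θ => by ring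
    simp_rw [h1]
    have hc := tp_cont (fun k => ((k : ℝ) - 1 : ℝ) * fk f k)
    rw [intervalIntegral.integral_add, intervalIntegral.integral_const_mul,
      intervalIntegral.integral_const_mul, int_tp g hg]
    · have h2 : ∑ k ∈ SS, ((fun k : ℕ => (((k : ℝ) - 1 : ℝ) : ℂ) * fk f k) k *
          (starRingEnd ℂ) (fk g k)).re = ∑ k ∈ ({3, 5, 7} : Finset ℕ), ((k : ℝ) - 1) *
        (fk f k * (starRingEnd ℂ) (fk g k)).re := by
        refine Finset.sum_congr rfl fun k _ => ?_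
        show ((((k : ℝ) - 1 : ℝ) : ℂ) * fk f k * (starRingEnd ℂ) (fk g k)).re = _
        rw [mul_assoc, Complex.re_ofReal_mul]
      rw [h2]
      ring
    · apply Continuous.intervalIntegrable
      fun_prop
    · apply Continuous.intervalIntegrable
      fun_prop
  rw [hlhs]
  have hc := tp_cont (fun k => ((k : ℝ) - 1 : ℝ) * fk f k)
  calc |∫ θ in (0:ℝ)..(2 * Real.pi), 2 * ((f θ + tp (fun k => ((k : ℝ) - 1 : ℝ) * fk f k) θ) * g θ)|
      ≤ ∫ θ in (0:ℝ)..(2 * Real.pi),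
          |2 * ((f θ + tp (fun k => ((k : ℝ) - 1 : ℝ) * fk f k) θ) * g θ)| :=
        intervalIntegral.abs_integral_le_integral_abs h2pi
    _ ≤ ∫ θ in (0:ℝ)..(2 * Real.pi), ((f θ + tp (fun k => ((k : ℝ) - 1 : ℝ) * fk f k) θ) ^ 2 +
          (g θ) ^ 2) := by
        apply intervalIntegral.integral_mono_on h2pi
        · apply Continuous.intervalIntegrable
          fun_prop
        · apply Continuous.intervalIntegrable
          fun_prop
        · intro θ _
          rw [abs_le]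
          constructor
          · nlinarith [sq_nonneg ((f θ + tp (fun k => ((k : ℝ) - 1 : ℝ) * fk f k) θ) + g θ)]
          · nlinarith [sq_nonneg ((f θ + tp (fun k => ((k : ℝ) - 1 : ℝ) * fk f k) θ) - g θ)]
    _ = (∫ θ in (0:ℝ)..(2 * Real.pi), (f θ + tp (fun k => ((k : ℝ) - 1 : ℝ) * fk f k) θ) ^ 2) +
          ∫ θ in (0:ℝ)..(2 * Real.pi), (g θ) ^ 2 := by
        apply intervalIntegral.integral_add
        · apply Continuous.intervalIntegrable
          fun_prop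
        · apply Continuous.intervalIntegrable
          fun_prop
    _ ≤ _ := by linarith

end Pool.Agent.Helper859.Br.A4
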