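import Pool.Agent.Helper859.Br.Defs
set_option linter.all false
open Complex MeasureTheory Set Filter Topology Metric

namespace Pool.Agent.Helper859.Br.A5
open Pool.Agent.Helper859.Br



theorem par_deriv {E : Type*} [NormedAddCommGroup E] [NormedSpace ℝ E] (F F' : ℝ → ℝ → E) (a b r₀ : ℝ)
    (hF : Continuous (Function.uncurry F)) (hF' : Continuous (Function.uncurry F'))
    (hd : ∀ r ∈ Ioo a b, ∀ θ, HasDerivAt (fun r => F r θ) (F' r θ) r) (hr : r₀ ∈ Ioo a b) (c d : ℝ) :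
    HasDerivAt (fun r => ∫ θ in c..d, F r θ) (∫ θ in c..d, F' r₀ θ) r₀ := by
  obtain ⟨M, hM⟩ := (isCompact_Icc.prod isCompact_uIcc :
    IsCompact (Icc a b ×ˢ uIcc c d)).exists_bound_of_continuousOn hF'.continuousOn
  have hFc : ∀ r, Continuous (F r) := fun r => hF.comp (by fun_prop : Continuous (fun θ : ℝ => (r, θ)))
  have hFc' : ∀ r, Continuous (F' r) := fun r => hF'.comp (by fun_prop : Continuous (fun θ : ℝ => (r, θ)))
  refine (intervalIntegral.hasDerivAt_integral_of_dominated_loc_of_deriv_le (s := Ioo a b)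
    (bound := fun _ => M) (Ioo_mem_nhds hr.1 hr.2) ?_ ?_ ?_ ?_ ?_ ?_).2
  · exact Filter.Eventually.of_forall fun r => (hFc r).aestronglyMeasurable
  · exact (hFc r₀).intervalIntegrable _ _
  · exact (hFc' r₀).aestronglyMeasurable
  · refine Filter.Eventually.of_forall fun t ht r hr => ?_
    exact hM (r, t) ⟨Ioo_subset_Icc_self hr, uIoc_subset_uIcc ht⟩
  · exact continuous_const.intervalIntegrable _ _
  · exact Filter.Eventually.of_forall fun t ht r hr => hd r hr t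

theorem nsq_deriv (z : ℝ → ℂ) (z' : ℂ) (r : ℝ) (h : HasDerivAt z z' r) :
    HasDerivAt (fun r => ‖z r‖ ^ 2) (2 * (z r * (starRingEnd ℂ) z').re) r := by
  have := h.norm_sq
  refine this.congr_deriv ?_
  rw [Complex.inner]
  simp
  ring

noncomputable def rho (a b r : ℝ) : ℝ := max a (min b r)

theorem rho_cont (a b : ℝ) : Continuous (rho a b) := by
  unfold rho
  fun_prop

theorem rho_mem (a b r : ℝ) (h : a < b) : a ≤ rho a b r ∧ rho a b r ≤ b := by
  unfold rho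
  exact ⟨le_max_left _ _, max_le h.le (min_le_left _ _)⟩

theorem rho_id (a b r : ℝ) (h : r ∈ Icc a b) : rho a b r = r := by
  unfold rho
  rw [min_eq_right h.2, max_eq_right h.1]

theorem rho_ev (a b r : ℝ) (h : r ∈ Ioo a b) : ∀ᶠ s in 𝓝 r, rho a b s = s := by
  filter_upwards [Ioo_mem_nhds h.1 h.2] with s hs
  exact rho_id a b s (Ioo_subset_Icc_self hs)

noncomputable def pp (a b r θ : ℝ) : ℂ := circleMap 0 (rho a b r) θ

theorem pp_norm (a b r θ : ℝ) (ha : 0 < a) (h : a < b) : ‖pp a b r θ‖ = rho a b r := by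
  unfold pp
  rw [norm_circleMap_zero, abs_of_pos (lt_of_lt_of_le ha (rho_mem a b r h).1)]

theorem pp_cont (a b : ℝ) : Continuous (fun x : ℝ × ℝ => pp a b x.1 x.2) := by
  unfold pp circleMap
  have := rho_cont a b
  fun_prop

theorem V_cont (v : ℂ → ℝ) (a b : ℝ) (ha : 0 < a) (hab : a < b)
    (hv : ∀ w : ℂ, a ≤ ‖w‖ → ‖w‖ ≤ b → ContDiffAt ℝ 1 v w) :
    Continuous (fun x : ℝ × ℝ => v (pp a b x.1 x.2)) := by
  rw [continuous_iff_continuousAt]
  intro x
  have h1 := pp_norm a b x.1 x.2 ha hab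
  have h2 := rho_mem a b x.1 hab
  exact ContinuousAt.comp (f := fun x : ℝ × ℝ => pp a b x.1 x.2)
    (hv (pp a b x.1 x.2) (by rw [h1]; exact h2.1) (by rw [h1]; exact h2.2)).continuousAt
    (pp_cont a b).continuousAt

theorem D_cont (v : ℂ → ℝ) (a b : ℝ) (ha : 0 < a) (hab : a < b)
    (hv : ∀ w : ℂ, a ≤ ‖w‖ → ‖w‖ ≤ b → ContDiffAt ℝ 1 v w) :
    Continuous (fun x : ℝ × ℝ => fderiv ℝ v (pp a b x.1 x.2)) := by
  rw [continuous_iff_continuousAt]
  intro x
  have h1 := pp_norm a b x.1 x.2 ha hab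
  have h2 := rho_mem a b x.1 hab
  exact ContinuousAt.comp (f := fun x : ℝ × ℝ => pp a b x.1 x.2)
    ((hv (pp a b x.1 x.2) (by rw [h1]; exact h2.1) (by rw [h1]; exact h2.2)).fderiv_right
      (m := 0) (by norm_num)).continuousAt
    (pp_cont a b).continuousAt

theorem V_dr (v : ℂ → ℝ) (a b : ℝ) (ha : 0 < a) (hab : a < b)
    (hv : ∀ w : ℂ, a ≤ ‖w‖ → ‖w‖ ≤ b → ContDiffAt ℝ 1 v w) (r : ℝ) (hr : r ∈ Ioo a b) (θ : ℝ) :
    HasDerivAt (fun r => v (pp a b r θ)) (fderiv ℝ v (pp a b r θ) (exp (θ * I))) r := by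
  have h1 := pp_norm a b r θ ha hab
  have h2 := rho_mem a b r hab
  have hd : DifferentiableAt ℝ v (pp a b r θ) :=
    (hv (pp a b r θ) (by rw [h1]; exact h2.1) (by rw [h1]; exact h2.2)).differentiableAt (by norm_num)
  have hp : HasDerivAt (fun r => pp a b r θ) (exp (θ * I)) r := by
    have h3 : HasDerivAt (fun r : ℝ => (r : ℂ) * exp (θ * I)) (1 * exp (θ * I)) r :=
      (Complex.ofRealCLM.hasDerivAt (x := r)).mul_const _
    rw [one_mul] at h3
    refine h3.congr_of_eventuallyEq ?_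
    filter_upwards [rho_ev a b r hr] with s hs
    unfold pp circleMap
    rw [hs, zero_add]
  exact hd.hasFDerivAt.comp_hasDerivAt r hp

theorem V_dt (v : ℂ → ℝ) (a b : ℝ) (ha : 0 < a) (hab : a < b)
    (hv : ∀ w : ℂ, a ≤ ‖w‖ → ‖w‖ ≤ b → ContDiffAt ℝ 1 v w) (r : ℝ) (θ : ℝ) :
    HasDerivAt (fun θ => v (pp a b r θ)) (fderiv ℝ v (pp a b r θ) (pp a b r θ * I)) θ := by
  have h1 := pp_norm a b r θ ha hab
  have h2 := rho_mem a b r hab
  have hd : DifferentiableAt ℝ v (pp a b r θ) :=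
    (hv (pp a b r θ) (by rw [h1]; exact h2.1) (by rw [h1]; exact h2.2)).differentiableAt (by norm_num)
  have hp : HasDerivAt (fun θ => pp a b r θ) (pp a b r θ * I) θ := hasDerivAt_circleMap 0 (rho a b r) θ
  exact hd.hasFDerivAt.comp_hasDerivAt θ hp

theorem fk_deriv (F F' : ℝ → ℝ → ℝ) (a b r₀ : ℝ)
    (hF : Continuous (Function.uncurry F)) (hF' : Continuous (Function.uncurry F'))
    (hd : ∀ r ∈ Ioo a b, ∀ θ, HasDerivAt (fun r => F r θ) (F' r θ) r) (hr : r₀ ∈ Ioo a b) (k : ℕ) :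
    HasDerivAt (fun r => fk (F r) k) (fk (F' r₀) k) r₀ := by
  unfold fk
  refine HasDerivAt.const_mul _ ?_
  refine par_deriv (fun r θ => (F r θ : ℂ) * exp (-((k : ℂ) * θ * I)))
    (fun r θ => (F' r θ : ℂ) * exp (-((k : ℂ) * θ * I))) a b r₀ ?_ ?_ ?_ hr _ _
  · have : Continuous (fun x : ℝ × ℝ => F x.1 x.2) := hF
    simp only [Function.uncurry_def]
    fun_prop
  · have : Continuous (fun x : ℝ × ℝ => F' x.1 x.2) := hF'
    simp only [Function.uncurry_def]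
    fun_prop
  · intro r hr θ
    exact ((hd r hr θ).ofReal_comp).mul_const _

theorem fk_cont (F : ℝ → ℝ → ℝ)
    (hF : Continuous (Function.uncurry F)) (k : ℕ) :
    Continuous (fun r => fk (F r) k) := by
  unfold fk
  refine Continuous.mul continuous_const ?_
  refine intervalIntegral.continuous_parametric_intervalIntegral_of_continuous' ?_ _ _
  have : Continuous (fun x : ℝ × ℝ => F x.1 x.2) := hF
  simp only [Function.uncurry_def]
  fun_prop

theorem Wn_cont (F : ℝ → ℝ → ℝ)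
    (hF : Continuous (Function.uncurry F)) :
    Continuous (fun r => Wn (F r)) := by
  unfold Wn
  refine Continuous.add ?_ (Continuous.mul continuous_const ?_)
  · refine intervalIntegral.continuous_parametric_intervalIntegral_of_continuous' ?_ _ _
    have : Continuous (fun x : ℝ × ℝ => F x.1 x.2) := hF
    simp only [Function.uncurry_def]
    fun_prop
  · refine continuous_finsetSum _ fun k _ => ?_
    exact continuous_const.mul ((fk_cont F hF k).norm.pow 2)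

theorem Wn_deriv (F F' : ℝ → ℝ → ℝ) (a b r₀ : ℝ)
    (hF : Continuous (Function.uncurry F)) (hF' : Continuous (Function.uncurry F'))
    (hd : ∀ r ∈ Ioo a b, ∀ θ, HasDerivAt (fun r => F r θ) (F' r θ) r) (hr : r₀ ∈ Ioo a b) :
    HasDerivAt (fun r => Wn (F r)) (2 * (∫ θ in (0:ℝ)..(2 * Real.pi), F r₀ θ * F' r₀ θ) +
        2 * Real.pi * ∑ k ∈ ({3, 5, 7} : Finset ℕ), ((k : ℝ) - 1) *
          (fk (F r₀) k * (starRingEnd ℂ) (fk (F' r₀) k)).re) r₀ := by
  unfold Wn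
  have h1 : HasDerivAt (fun r => ∫ θ in (0:ℝ)..(2 * Real.pi), (F r θ) ^ 2)
      (∫ θ in (0:ℝ)..(2 * Real.pi), 2 * F r₀ θ * F' r₀ θ) r₀ := by
    refine par_deriv (fun r θ => (F r θ) ^ 2) (fun r θ => 2 * F r θ * F' r θ) a b r₀ ?_ ?_ ?_ hr _ _
    · have : Continuous (fun x : ℝ × ℝ => F x.1 x.2) := hF
      simp only [Function.uncurry_def]
      fun_prop
    · have : Continuous (fun x : ℝ × ℝ => F x.1 x.2) := hF
      have : Continuous (fun x : ℝ × ℝ => F' x.1 x.2) := hF'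
      simp only [Function.uncurry_def]
      fun_prop
    · intro r hr θ
      have := (hd r hr θ).pow 2
      refine this.congr_deriv ?_
      norm_num
  have h2 : HasDerivAt (fun r => Real.pi * ∑ k ∈ ({3, 5, 7} : Finset ℕ), ((k : ℝ) - 1) * ‖fk (F r) k‖ ^ 2)
      (Real.pi * ∑ k ∈ ({3, 5, 7} : Finset ℕ), ((k : ℝ) - 1) *
        (2 * (fk (F r₀) k * (starRingEnd ℂ) (fk (F' r₀) k)).re)) r₀ := by
    refine HasDerivAt.const_mul _ ?_
    refine HasDerivAt.fun_sum fun k _ => ?_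
    refine HasDerivAt.const_mul _ ?_
    exact nsq_deriv _ _ _ (fk_deriv F F' a b r₀ hF hF' hd hr k)
  refine (h1.add h2).congr_deriv ?_
  congr 1
  · rw [← intervalIntegral.integral_const_mul]
    refine intervalIntegral.integral_congr fun θ _ => ?_
    ring
  · rw [Finset.mul_sum, Finset.mul_sum]
    refine Finset.sum_congr rfl fun k _ => ?_
    ring

theorem fk_smul (c : ℝ) (φ : ℝ → ℝ) (k : ℕ) : fk (fun θ => c * φ θ) k = c * fk φ k := by
  unfold fk
  rw [mul_left_comm]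
  congr 1
  rw [← intervalIntegral.integral_const_mul]
  refine intervalIntegral.integral_congr fun θ _ => ?_
  push_cast
  ring

theorem gn_rot (v : ℂ → ℝ) (w : ℂ) (θ : ℝ) :
    (fderiv ℝ v w (exp (θ * I))) ^ 2 + (fderiv ℝ v w (exp (θ * I) * I)) ^ 2 = gn v w := by
  unfold gn
  have e1 : exp (θ * I) = Real.cos θ • (1 : ℂ) + Real.sin θ • I := by
    rw [exp_mul_I, ← ofReal_cos, ← ofReal_sin]
    simp
  have e2 : exp (θ * I) * I = (-Real.sin θ) • (1 : ℂ) + Real.cos θ • I := by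
    rw [exp_mul_I, ← ofReal_cos, ← ofReal_sin]
    simp
    rw [add_mul, mul_assoc, I_mul_I]
    ring
  rw [e1] at *
  rw [e2]
  simp only [map_add, map_smul, smul_eq_mul]
  have := Real.sin_sq_add_cos_sq θ
  linear_combination ((fderiv ℝ v w 1) ^ 2 + (fderiv ℝ v w I) ^ 2) * this

theorem gn_nonneg (v : ℂ → ℝ) (w : ℂ) : 0 ≤ gn v w := by
  unfold gn
  positivity

theorem G_cont (v : ℂ → ℝ) (a b : ℝ) (ha : 0 < a) (hab : a < b)
    (hv : ∀ w : ℂ, a ≤ ‖w‖ → ‖w‖ ≤ b → ContDiffAt ℝ 1 v w) :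
    Continuous (fun x : ℝ × ℝ => gn v (pp a b x.1 x.2)) := by
  have h := D_cont v a b ha hab hv
  unfold gn
  have h1 : Continuous (fun x : ℝ × ℝ => fderiv ℝ v (pp a b x.1 x.2) 1) := h.clm_apply continuous_const
  have h2 : Continuous (fun x : ℝ × ℝ => fderiv ℝ v (pp a b x.1 x.2) I) := h.clm_apply continuous_const
  exact (h1.pow 2).add (h2.pow 2)

theorem Vr_cont (v : ℂ → ℝ) (a b : ℝ) (ha : 0 < a) (hab : a < b)
    (hv : ∀ w : ℂ, a ≤ ‖w‖ → ‖w‖ ≤ b → ContDiffAt ℝ 1 v w) :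
    Continuous (fun x : ℝ × ℝ => fderiv ℝ v (pp a b x.1 x.2) (exp (x.2 * I))) := by
  have h := D_cont v a b ha hab hv
  refine h.clm_apply ?_
  fun_prop

theorem Vt_cont (v : ℂ → ℝ) (a b : ℝ) (ha : 0 < a) (hab : a < b)
    (hv : ∀ w : ℂ, a ≤ ‖w‖ → ‖w‖ ≤ b → ContDiffAt ℝ 1 v w) :
    Continuous (fun x : ℝ × ℝ => fderiv ℝ v (pp a b x.1 x.2) (pp a b x.1 x.2 * I)) := by
  have h := D_cont v a b ha hab hv
  refine h.clm_apply ?_
  exact (pp_cont a b).mul continuous_const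

theorem W_e1 (v : ℂ → ℝ) (a b r : ℝ) :
    (∫ θ in (0:ℝ)..(2 * Real.pi), v (pp a b r θ) * (r * fderiv ℝ v (pp a b r θ) (exp (θ * I)))) =
      r * (∫ θ in (0:ℝ)..(2 * Real.pi), v (pp a b r θ) * fderiv ℝ v (pp a b r θ) (exp (θ * I))) := by
  rw [← intervalIntegral.integral_const_mul]
  refine intervalIntegral.integral_congr fun θ _ => ?_
  exact mul_left_comm _ _ _

theorem W_e2 (f g : ℝ → ℝ) (r : ℝ) (k : ℕ) : (fk f k *
      (starRingEnd ℂ) (fk (fun θ => r * g θ) k)).re =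
      r * (fk f k * (starRingEnd ℂ) (fk g k)).re := by
  rw [fk_smul, map_mul, conj_ofReal, mul_left_comm, re_ofReal_mul]

theorem W_e5 (v : ℂ → ℝ) (a b r : ℝ) (hr : r ∈ Ioo a b) (θ : ℝ) :
    (fderiv ℝ v (pp a b r θ) (pp a b r θ * I)) ^ 2 +
      (r * fderiv ℝ v (pp a b r θ) (exp (θ * I))) ^ 2 = r ^ 2 * gn v (pp a b r θ) := by
  have h4 : pp a b r θ * I = r • (exp (θ * I) * I) := by
    unfold pp circleMap
    rw [rho_id a b r (Ioo_subset_Icc_self hr), zero_add, mul_assoc]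
    rfl
  have h5 : fderiv ℝ v (pp a b r θ) (pp a b r θ * I) = r * fderiv ℝ v (pp a b r θ) (exp (θ * I) * I) := by
    conv_lhs => rw [h4]
    rw [map_smul]
    rfl
  rw [← gn_rot v (pp a b r θ) θ, h5]
  ring

theorem W_e3 (v : ℂ → ℝ) (a b : ℝ) (ha : 0 < a) (hab : a < b)
    (hv : ∀ w : ℂ, a ≤ ‖w‖ → ‖w‖ ≤ b → ContDiffAt ℝ 1 v w) (r : ℝ) (hr : r ∈ Ioo a b) :
    (∫ θ in (0:ℝ)..(2 * Real.pi), (fderiv ℝ v (pp a b r θ) (pp a b r θ * I)) ^ 2) +
      ∫ θ in (0:ℝ)..(2 * Real.pi), (r * fderiv ℝ v (pp a b r θ) (exp (θ * I))) ^ 2 =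
      r ^ 2 * ∫ θ in (0:ℝ)..(2 * Real.pi), gn v (pp a b r θ) := by
  have hcr : Continuous (fun θ : ℝ => (r, θ)) := by fun_prop
  have hVr : Continuous (fun θ : ℝ => fderiv ℝ v (pp a b r θ) (exp (θ * I))) :=
    (Vr_cont v a b ha hab hv).comp hcr
  have hVt : Continuous (fun θ : ℝ => fderiv ℝ v (pp a b r θ) (pp a b r θ * I)) :=
    (Vt_cont v a b ha hab hv).comp hcr
  have c1 : Continuous (fun θ : ℝ => (fderiv ℝ v (pp a b r θ) (pp a b r θ * I)) ^ 2) := hVt.pow 2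
  have c2 : Continuous (fun θ : ℝ => (r * fderiv ℝ v (pp a b r θ) (exp (θ * I))) ^ 2) :=
    (continuous_const.mul hVr).pow 2
  rw [← intervalIntegral.integral_add (c1.intervalIntegrable _ _)
      (c2.intervalIntegrable _ _), ← intervalIntegral.integral_const_mul]
  refine intervalIntegral.integral_congr fun θ _ => ?_
  exact W_e5 v a b r hr θ

theorem W_e4 (r A : ℝ) (f g : ℝ → ℝ) :
    2 * (r * A) +
        2 * Real.pi * ∑ k ∈ ({3, 5, 7} : Finset ℕ), ((k : ℝ) - 1) *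
          (fk f k * (starRingEnd ℂ) (fk (fun θ => r * g θ) k)).re =
      r * (2 * A + 2 * Real.pi * ∑ k ∈ ({3, 5, 7} : Finset ℕ), ((k : ℝ) - 1) *
          (fk f k * (starRingEnd ℂ) (fk g k)).re) := by
  simp only [W_e2]
  have e : ∑ k ∈ ({3, 5, 7} : Finset ℕ), ((k : ℝ) - 1) *
      (r * (fk f k * (starRingEnd ℂ) (fk g k)).re) =
      r * ∑ k ∈ ({3, 5, 7} : Finset ℕ), ((k : ℝ) - 1) * (fk f k * (starRingEnd ℂ) (fk g k)).re := by
    rw [Finset.mul_sum]
    refine Finset.sum_congr rfl fun k _ => ?_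
    ring
  rw [e]
  ring

theorem W_odd (v : ℂ → ℝ) (a b : ℝ) (ha : 0 < a) (hab : a < b)
    (ho : ∀ w : ℂ, a ≤ ‖w‖ → ‖w‖ ≤ b → v (-w) = - v w) (r θ : ℝ) :
    v (pp a b r (θ + Real.pi)) = - v (pp a b r θ) := by
  have h1 : pp a b r (θ + Real.pi) = - pp a b r θ := by
    unfold pp circleMap
    rw [ofReal_add, add_mul, exp_add, exp_pi_mul_I]
    ring
  rw [h1]
  have h2 := pp_norm a b r θ ha hab
  have h3 := rho_mem a b r hab
  exact ho _ (by rw [h2]; exact h3.1) (by rw [h2]; exact h3.2)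

theorem W_bound 
    (rwi : ∀ f f' g : ℝ → ℝ, (∀ θ, HasDerivAt f (f' θ) θ) → Continuous f' →
      (∀ θ, f (θ + Real.pi) = - f θ) → Continuous g →
      |2 * (∫ θ in (0:ℝ)..(2 * Real.pi), f θ * g θ) +
        2 * Real.pi * ∑ k ∈ ({3, 5, 7} : Finset ℕ), ((k : ℝ) - 1) * (fk f k * (starRingEnd ℂ) (fk g k)).re|
      ≤ (∫ θ in (0:ℝ)..(2 * Real.pi), (f' θ) ^ 2) + ∫ θ in (0:ℝ)..(2 * Real.pi), (g θ) ^ 2)
    (v : ℂ → ℝ) (a b : ℝ) (ha : 0 < a) (hab : a < b)
    (hv : ∀ w : ℂ, a ≤ ‖w‖ → ‖w‖ ≤ b → ContDiffAt ℝ 1 v w)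
    (ho : ∀ w : ℂ, a ≤ ‖w‖ → ‖w‖ ≤ b → v (-w) = - v w) (r : ℝ) (hr : r ∈ Ioo a b) :
    |2 * (∫ θ in (0:ℝ)..(2 * Real.pi), v (pp a b r θ) * fderiv ℝ v (pp a b r θ) (exp (θ * I))) +
        2 * Real.pi * ∑ k ∈ ({3, 5, 7} : Finset ℕ), ((k : ℝ) - 1) *
          (fk (fun θ => v (pp a b r θ)) k *
            (starRingEnd ℂ) (fk (fun θ => fderiv ℝ v (pp a b r θ) (exp (θ * I))) k)).re|
      ≤ r * ∫ θ in (0:ℝ)..(2 * Real.pi), gn v (pp a b r θ) := by
  have hr0 : 0 < r := ha.trans hr.1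
  have hcr : Continuous (fun θ : ℝ => (r, θ)) := by fun_prop
  have hVr : Continuous (fun θ : ℝ => fderiv ℝ v (pp a b r θ) (exp (θ * I))) :=
    (Vr_cont v a b ha hab hv).comp hcr
  have hVt : Continuous (fun θ : ℝ => fderiv ℝ v (pp a b r θ) (pp a b r θ * I)) :=
    (Vt_cont v a b ha hab hv).comp hcr
  have key := rwi (fun θ => v (pp a b r θ)) (fun θ => fderiv ℝ v (pp a b r θ) (pp a b r θ * I))
    (fun θ => r * fderiv ℝ v (pp a b r θ) (exp (θ * I)))
    (fun θ => V_dt v a b ha hab hv r θ) hVt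
    (W_odd v a b ha hab ho r)
    (continuous_const.mul hVr)
  rw [W_e3 v a b ha hab hv r hr, W_e1] at key
  have e6 : r ^ 2 * ∫ θ in (0:ℝ)..(2 * Real.pi), gn v (pp a b r θ) =
    r * (r * ∫ θ in (0:ℝ)..(2 * Real.pi), gn v (pp a b r θ)) := by ring
  rw [W_e4, abs_mul, abs_of_pos hr0, e6] at key
  exact le_of_mul_le_mul_left key hr0

theorem W_diff
    (rwi : ∀ f f' g : ℝ → ℝ, (∀ θ, HasDerivAt f (f' θ) θ) → Continuous f' →
      (∀ θ, f (θ + Real.pi) = - f θ) → Continuous g →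
      |2 * (∫ θ in (0:ℝ)..(2 * Real.pi), f θ * g θ) +
        2 * Real.pi * ∑ k ∈ ({3, 5, 7} : Finset ℕ), ((k : ℝ) - 1) * (fk f k * (starRingEnd ℂ) (fk g k)).re|
      ≤ (∫ θ in (0:ℝ)..(2 * Real.pi), (f' θ) ^ 2) + ∫ θ in (0:ℝ)..(2 * Real.pi), (g θ) ^ 2)
    (v : ℂ → ℝ) (a b : ℝ) (ha : 0 < a) (hab : a < b)
    (hv : ∀ w : ℂ, a ≤ ‖w‖ → ‖w‖ ≤ b → ContDiffAt ℝ 1 v w)
    (ho : ∀ w : ℂ, a ≤ ‖w‖ → ‖w‖ ≤ b → v (-w) = - v w) :
    |Wn (fun θ => v (pp a b b θ)) - Wn (fun θ => v (pp a b a θ))|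
      ≤ ∫ r in a..b, r * ∫ θ in (0:ℝ)..(2 * Real.pi), gn v (pp a b r θ) := by
  have hWc : Continuous (fun r => Wn (fun θ => v (pp a b r θ))) :=
    Wn_cont (fun r θ => v (pp a b r θ)) (V_cont v a b ha hab hv)
  have hGc : Continuous (fun r => r * ∫ θ in (0:ℝ)..(2 * Real.pi), gn v (pp a b r θ)) := by
    refine continuous_id.mul ?_
    exact intervalIntegral.continuous_parametric_intervalIntegral_of_continuous' (G_cont v a b ha hab hv) _ _
  have hder := fun r (hr : r ∈ Ioo a b) => Wn_deriv (fun r θ => v (pp a b r θ))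
    (fun r θ => fderiv ℝ v (pp a b r θ) (exp (θ * I))) a b r (V_cont v a b ha hab hv)
    (Vr_cont v a b ha hab hv) (fun r hr θ => V_dr v a b ha hab hv r hr θ) hr
  have hbd := fun r (hr : r ∈ Ioo a b) => W_bound rwi v a b ha hab hv ho r hr
  have up := intervalIntegral.sub_le_integral_of_hasDeriv_right_of_le hab.le hWc.continuousOn
    (fun r hr => (hder r hr).hasDerivWithinAt) hGc.continuousOn.integrableOn_Icc
    (fun r hr => (le_abs_self _).trans (hbd r hr))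
  have dn := intervalIntegral.sub_le_integral_of_hasDeriv_right_of_le hab.le hWc.neg.continuousOn
    (fun r hr => (hder r hr).neg.hasDerivWithinAt) hGc.continuousOn.integrableOn_Icc
    (fun r hr => (neg_le_abs _).trans (hbd r hr))
  rw [abs_le]
  constructor
  · have := dn
    simp only [Pi.neg_apply] at this
    linarith
  · exact up

theorem pp_per (a b r θ : ℝ) : pp a b r (θ + 2 * Real.pi) = pp a b r θ := by
  unfold pp
  exact periodic_circleMap 0 _ θ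

theorem per_int (v : ℂ → ℝ) (a b r : ℝ) : ∫ θ in (0:ℝ)..(2 * Real.pi), gn v (pp a b r θ) =
    ∫ θ in (-Real.pi)..Real.pi, gn v (pp a b r θ) := by
  have hper : Function.Periodic (fun θ => gn v (pp a b r θ)) (2 * Real.pi) := by
    intro θ
    simp only [pp_per]
  have h1 := hper.intervalIntegral_add_eq 0 (-Real.pi)
  have e1 : (0:ℝ) + 2 * Real.pi = 2 * Real.pi := by ring
  have e2 : -Real.pi + 2 * Real.pi = Real.pi := by ring
  rw [e1, e2] at h1
  exact h1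

theorem to_lint (v : ℂ → ℝ) (a b : ℝ) (ha : 0 < a) (hab : a < b)
    (hv : ∀ w : ℂ, a ≤ ‖w‖ → ‖w‖ ≤ b → ContDiffAt ℝ 1 v w) :
    ENNReal.ofReal (∫ r in a..b, r * ∫ θ in (0:ℝ)..(2 * Real.pi), gn v (pp a b r θ)) =
      ∫⁻ p in Ioc a b ×ˢ Ioc (-Real.pi) Real.pi, ENNReal.ofReal (p.1 * gn v (pp a b p.1 p.2)) := by
  have hGc : Continuous (fun r => r * ∫ θ in (0:ℝ)..(2 * Real.pi), gn v (pp a b r θ)) := by
    refine continuous_id.mul ?_
    exact intervalIntegral.continuous_parametric_intervalIntegral_of_continuous' (G_cont v a b ha hab hv) _ _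
  have hG := G_cont v a b ha hab hv
  have hGG : Continuous (fun p : ℝ × ℝ => p.1 * gn v (pp a b p.1 p.2)) := continuous_fst.mul hG
  have hpi := Real.pi_pos
  have hmm : Measurable (fun p : ℝ × ℝ => ENNReal.ofReal (p.1 * gn v (pp a b p.1 p.2))) :=
    ENNReal.measurable_ofReal.comp hGG.measurable
  rw [intervalIntegral.integral_of_le hab.le, ofReal_integral_eq_lintegral_ofReal]
  · rw [Measure.volume_eq_prod, ← Measure.prod_restrict, lintegral_prod _ hmm.aemeasurable]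
    refine setLIntegral_congr_fun measurableSet_Ioc fun r hr => ?_
    have hr0 : 0 < r := ha.trans hr.1
    rw [per_int, intervalIntegral.integral_of_le (by linarith), ← integral_const_mul]
    rw [ofReal_integral_eq_lintegral_ofReal]
    · exact (hGG.comp (by fun_prop : Continuous (fun θ : ℝ => (r, θ)))).integrableOn_Ioc
    · exact Filter.Eventually.of_forall fun θ => mul_nonneg hr0.le (gn_nonneg _ _)
  · exact hGc.integrableOn_Ioc
  · refine (ae_restrict_iff' measurableSet_Ioc).2 (Filter.Eventually.of_forall fun r hr => ?_)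
    have hr0 : 0 < r := ha.trans hr.1
    refine mul_nonneg hr0.le ?_
    exact intervalIntegral.integral_nonneg (by linarith) fun θ _ => gn_nonneg _ _

theorem fin_lint (v : ℂ → ℝ) (a b : ℝ) (ha : 0 < a) (hab : a < b) :
      ∫⁻ p in Ioc a b ×ˢ Ioc (-Real.pi) Real.pi, ENNReal.ofReal (p.1 * gn v (pp a b p.1 p.2))
      ≤ ∫⁻ w in {w : ℂ | a < ‖w‖ ∧ ‖w‖ < b}, ENNReal.ofReal (gn v w) := by
  have hS : MeasurableSet {w : ℂ | a < ‖w‖ ∧ ‖w‖ < b} :=
    (measurableSet_lt measurable_const measurable_norm).inter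
      (measurableSet_lt measurable_norm measurable_const)
  rw [← lintegral_indicator hS, ← Complex.lintegral_comp_polarCoord_symm, polarCoord_target]
  have h1 : ∫⁻ p in Ioc a b ×ˢ Ioc (-Real.pi) Real.pi, ENNReal.ofReal (p.1 * gn v (pp a b p.1 p.2)) =
      ∫⁻ p in Ioo a b ×ˢ Ioo (-Real.pi) Real.pi, ENNReal.ofReal (p.1 * gn v (pp a b p.1 p.2)) := by
    rw [Measure.volume_eq_prod, ← Measure.prod_restrict, ← Measure.prod_restrict,
      Measure.restrict_congr_set Ioo_ae_eq_Ioc, Measure.restrict_congr_set Ioo_ae_eq_Ioc]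
  rw [h1]
  refine le_trans (le_of_eq ?_) (lintegral_mono_set (s := Ioo a b ×ˢ Ioo (-Real.pi) Real.pi) ?_)
  · refine setLIntegral_congr_fun (measurableSet_Ioo.prod measurableSet_Ioo) fun p hp => ?_
    have hp0 : 0 < p.1 := ha.trans hp.1.1
    have e1 : Complex.polarCoord.symm p = pp a b p.1 p.2 := by
      unfold pp circleMap
      rw [Complex.polarCoord_symm_apply, rho_id a b p.1 (Ioo_subset_Icc_self hp.1), zero_add,
        exp_mul_I, ← ofReal_cos, ← ofReal_sin]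
    rw [e1, indicator_of_mem, ENNReal.ofReal_mul hp0.le]
    · rfl
    · rw [mem_setOf_eq, pp_norm a b _ _ ha hab, rho_id a b p.1 (Ioo_subset_Icc_self hp.1)]
      exact hp.1
  · exact Set.prod_mono (fun x hx => ha.trans hx.1) (fun x hx => hx)

/-- energy inequality on an annulus; `rwi` is the one-dimensional inequality (proved elsewhere) -/
theorem annulus_energy
    (rwi : ∀ f f' g : ℝ → ℝ, (∀ θ, HasDerivAt f (f' θ) θ) → Continuous f' →
      (∀ θ, f (θ + Real.pi) = - f θ) → Continuous g →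
      |2 * (∫ θ in (0:ℝ)..(2 * Real.pi), f θ * g θ) +
        2 * Real.pi * ∑ k ∈ ({3, 5, 7} : Finset ℕ), ((k : ℝ) - 1) * (fk f k * (starRingEnd ℂ) (fk g k)).re|
      ≤ (∫ θ in (0:ℝ)..(2 * Real.pi), (f' θ) ^ 2) + ∫ θ in (0:ℝ)..(2 * Real.pi), (g θ) ^ 2)
    (v : ℂ → ℝ) (a b : ℝ) (ha : 0 < a) (hab : a < b)
    (hv : ∀ w : ℂ, a ≤ ‖w‖ → ‖w‖ ≤ b → ContDiffAt ℝ 1 v w)
    (ho : ∀ w : ℂ, a ≤ ‖w‖ → ‖w‖ ≤ b → v (-w) = - v w) :
    ENNReal.ofReal |Wn (fun θ => v (circleMap 0 b θ)) - Wn (fun θ => v (circleMap 0 a θ))|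
      ≤ ∫⁻ w in {w : ℂ | a < ‖w‖ ∧ ‖w‖ < b}, ENNReal.ofReal (gn v w) := by
  have h1 := W_diff rwi v a b ha hab hv ho
  have e1 : (fun θ => v (circleMap 0 b θ)) = fun θ => v (pp a b b θ) := by
    funext θ
    unfold pp
    rw [rho_id a b b (right_mem_Icc.2 hab.le)]
  have e2 : (fun θ => v (circleMap 0 a θ)) = fun θ => v (pp a b a θ) := by
    funext θ
    unfold pp
    rw [rho_id a b a (left_mem_Icc.2 hab.le)]
  rw [e1, e2]
  refine (ENNReal.ofReal_le_ofReal h1).trans ?_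
  rw [to_lint v a b ha hab hv]
  exact fin_lint v a b ha hab

end Pool.Agent.Helper859.Br.A5
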