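import Pool.Agent.Helper859.Br.Defs
set_option linter.all false
open Complex MeasureTheory Set Filter Topology Metric

namespace Pool.Agent.Helper859.Br.A6
open Pool.Agent.Helper859.Br

private theorem wn_cont (v : ℂ → ℝ) (a b : ℝ) (ha : 0 ≤ a) (hab : a ≤ b)
    (hc : ContinuousOn v {w : ℂ | a ≤ ‖w‖ ∧ ‖w‖ ≤ b}) :
    Continuous (fun r : ℝ => Wn (fun θ => v (circleMap 0 (max a (min b r)) θ))) := by
  have hg : Continuous (fun p : ℝ × ℝ => v (circleMap 0 (max a (min b p.1)) p.2)) := by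
    refine hc.comp_continuous ?_ ?_
    · unfold circleMap
      fun_prop
    · intro p
      have h1 : a ≤ max a (min b p.1) := le_max_left _ _
      have h2 : max a (min b p.1) ≤ b := max_le hab (min_le_left _ _)
      have h3 : ‖circleMap 0 (max a (min b p.1)) p.2‖ = max a (min b p.1) := by
        rw [norm_circleMap_zero, abs_of_nonneg (ha.trans h1)]
      show a ≤ ‖circleMap 0 (max a (min b p.1)) p.2‖ ∧ ‖circleMap 0 (max a (min b p.1)) p.2‖ ≤ b
      rw [h3]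
      exact ⟨h1, h2⟩
  unfold Wn fk
  refine Continuous.add ?_ (Continuous.mul continuous_const
    (continuous_finset_sum _ fun k _ => ?_))
  · exact intervalIntegral.continuous_parametric_intervalIntegral_of_continuous'
      (f := fun r θ => (v (circleMap 0 (max a (min b r)) θ)) ^ 2)
      ((continuous_pow 2).comp hg) 0 (2 * Real.pi)
  · refine continuous_const.mul ((continuous_norm.comp (continuous_const.mul ?_)).pow 2)
    refine intervalIntegral.continuous_parametric_intervalIntegral_of_continuous'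
      (f := fun r θ => ((v (circleMap 0 (max a (min b r)) θ) : ℝ) : ℂ) *
        exp (-((k : ℂ) * (θ : ℝ) * I))) ?_ 0 (2 * Real.pi)
    refine (Complex.continuous_ofReal.comp hg).mul ?_
    fun_prop

private theorem clamp_of_mem {a b r : ℝ} (h1 : a ≤ r) (h2 : r ≤ b) : max a (min b r) = r := by
  rw [min_eq_right h2, max_eq_right h1]

private theorem wn_zero : Wn (fun _ => (0:ℝ)) = 0 := by
  unfold Wn fk
  simp

/-- continuity up to the boundary is enough on one or both sides -/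
theorem annulus_energy_cont
    (ae : ∀ (v : ℂ → ℝ) (a b : ℝ), 0 < a → a < b →
      (∀ w : ℂ, a ≤ ‖w‖ → ‖w‖ ≤ b → ContDiffAt ℝ 1 v w) →
      (∀ w : ℂ, a ≤ ‖w‖ → ‖w‖ ≤ b → v (-w) = - v w) →
      ENNReal.ofReal |Wn (fun θ => v (circleMap 0 b θ)) - Wn (fun θ => v (circleMap 0 a θ))|
        ≤ ∫⁻ w in {w : ℂ | a < ‖w‖ ∧ ‖w‖ < b}, ENNReal.ofReal (gn v w))
    (v : ℂ → ℝ) (a b : ℝ) (ha : 0 < a) (hab : a < b)
    (hv : ∀ w : ℂ, a < ‖w‖ → ‖w‖ < b → ContDiffAt ℝ 1 v w)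
    (hc : ContinuousOn v {w : ℂ | a ≤ ‖w‖ ∧ ‖w‖ ≤ b})
    (ho : ∀ w : ℂ, a ≤ ‖w‖ → ‖w‖ ≤ b → v (-w) = - v w) :
    ENNReal.ofReal |Wn (fun θ => v (circleMap 0 b θ)) - Wn (fun θ => v (circleMap 0 a θ))|
      ≤ ∫⁻ w in {w : ℂ | a < ‖w‖ ∧ ‖w‖ < b}, ENNReal.ofReal (gn v w) := by
  have hcont := wn_cont v a b ha.le hab.le hc
  have ht : Tendsto (fun n : ℕ => (b - a) / ((n : ℝ) + 3)) atTop (𝓝 0) := by
    have h1 : Tendsto (fun n : ℕ => (n : ℝ) + 3) atTop atTop :=
      tendsto_atTop_add_const_right _ _ tendsto_natCast_atTop_atTop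
    exact h1.const_div_atTop (b - a)
  have hta : Tendsto (fun n : ℕ => a + (b - a) / ((n : ℝ) + 3)) atTop (𝓝 a) := by
    simpa using ht.const_add a
  have htb : Tendsto (fun n : ℕ => b - (b - a) / ((n : ℝ) + 3)) atTop (𝓝 b) := by
    simpa using ht.const_sub b
  have h1 := (hcont.tendsto b).comp htb
  have h2 := (hcont.tendsto a).comp hta
  have h3 := (ENNReal.continuous_ofReal.tendsto _).comp ((h1.sub h2).abs)
  rw [clamp_of_mem hab.le le_rfl, clamp_of_mem le_rfl hab.le] at h3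
  refine le_of_tendsto' h3 ?_
  intro n
  have hn : (0:ℝ) ≤ n := Nat.cast_nonneg n
  have hd : 0 < (b - a) / ((n : ℝ) + 3) := div_pos (by linarith) (by linarith)
  have hd2 : (b - a) / ((n : ℝ) + 3) * 3 ≤ b - a := by
    rw [div_mul_eq_mul_div, div_le_iff₀ (by linarith)]
    nlinarith
  have g1 : a + (b - a) / ((n : ℝ) + 3) < b - (b - a) / ((n : ℝ) + 3) := by linarith
  have key := ae v (a + (b - a) / ((n : ℝ) + 3)) (b - (b - a) / ((n : ℝ) + 3)) (by linarith) g1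
    (fun w hw1 hw2 => hv w (by linarith) (by linarith))
    (fun w hw1 hw2 => ho w (by linarith) (by linarith))
  simp only [Function.comp]
  rw [clamp_of_mem (a := a) (b := b) (r := a + (b - a) / ((n : ℝ) + 3)) (by linarith) (by linarith),
    clamp_of_mem (a := a) (b := b) (r := b - (b - a) / ((n : ℝ) + 3)) (by linarith) (by linarith)]
  refine key.trans (lintegral_mono_set ?_)
  rintro w ⟨hw1, hw2⟩
  exact ⟨by linarith, by linarith⟩

/-- version on the full disc -/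
theorem disc_energy
    (aec : ∀ (v : ℂ → ℝ) (a b : ℝ), 0 < a → a < b →
      (∀ w : ℂ, a < ‖w‖ → ‖w‖ < b → ContDiffAt ℝ 1 v w) →
      ContinuousOn v {w : ℂ | a ≤ ‖w‖ ∧ ‖w‖ ≤ b} →
      (∀ w : ℂ, a ≤ ‖w‖ → ‖w‖ ≤ b → v (-w) = - v w) →
      ENNReal.ofReal |Wn (fun θ => v (circleMap 0 b θ)) - Wn (fun θ => v (circleMap 0 a θ))|
        ≤ ∫⁻ w in {w : ℂ | a < ‖w‖ ∧ ‖w‖ < b}, ENNReal.ofReal (gn v w))
    (v : ℂ → ℝ)
    (hv : ∀ w : ℂ, ‖w‖ < 1 → ContDiffAt ℝ 1 v w)
    (hc : ContinuousOn v (closedBall 0 1))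
    (ho : ∀ w : ℂ, ‖w‖ ≤ 1 → v (-w) = - v w) :
    ENNReal.ofReal (Wn (fun θ => v (circleMap 0 1 θ)))
      ≤ ∫⁻ w in ball (0:ℂ) 1, ENNReal.ofReal (gn v w) := by
  have hset : {w : ℂ | (0:ℝ) ≤ ‖w‖ ∧ ‖w‖ ≤ 1} = closedBall 0 1 := by
    ext w
    rw [mem_closedBall_zero_iff]
    exact ⟨fun h => h.2, fun h => ⟨norm_nonneg _, h⟩⟩
  have hcont := wn_cont v 0 1 le_rfl zero_le_one (by rw [hset]; exact hc)
  have ht : Tendsto (fun n : ℕ => 1 / ((n : ℝ) + 2)) atTop (𝓝 0) := by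
    have h1 : Tendsto (fun n : ℕ => (n : ℝ) + 2) atTop atTop :=
      tendsto_atTop_add_const_right _ _ tendsto_natCast_atTop_atTop
    exact h1.const_div_atTop 1
  have h2 := (hcont.tendsto 0).comp ht
  have h3 := (ENNReal.continuous_ofReal.tendsto _).comp
    (((tendsto_const_nhds (x := Wn (fun θ => v (circleMap 0 1 θ)))).sub h2).abs)
  have hv0 : v 0 = 0 := by
    have := ho 0 (by simp)
    rw [neg_zero] at this
    linarith
  have hW0 : Wn (fun θ => v (circleMap 0 (max 0 (min 1 0)) θ)) = 0 := by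
    rw [clamp_of_mem le_rfl zero_le_one]
    have : (fun θ => v (circleMap 0 0 θ)) = fun _ => (0:ℝ) := by
      funext θ
      rw [circleMap_zero_radius]
      exact hv0
    rw [this]
    exact wn_zero
  rw [hW0, sub_zero] at h3
  refine (ENNReal.ofReal_le_ofReal (le_abs_self _)).trans (le_of_tendsto' h3 ?_)
  intro n
  have hn : (0:ℝ) ≤ n := Nat.cast_nonneg n
  have hd : 0 < 1 / ((n : ℝ) + 2) := div_pos (by linarith) (by linarith)
  have hd2 : 1 / ((n : ℝ) + 2) < 1 := by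
    rw [div_lt_one (by linarith)]
    linarith
  have key := aec v (1 / ((n : ℝ) + 2)) 1 hd hd2 (fun w _ hw2 => hv w hw2)
    (hc.mono (fun w hw => by rw [mem_closedBall_zero_iff]; exact hw.2))
    (fun w _ hw2 => ho w hw2)
  simp only [Function.comp]
  rw [clamp_of_mem (a := 0) (b := 1) (r := 1 / ((n : ℝ) + 2)) hd.le hd2.le]
  refine key.trans (lintegral_mono_set ?_)
  rintro w ⟨hw1, hw2⟩
  rw [mem_ball_zero_iff]
  exact hw2

end Pool.Agent.Helper859.Br.A6
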