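import Pool.Agent.Helper859.Br.Defs
set_option linter.all false
open Complex MeasureTheory Set Filter Topology Metric

namespace Pool.Agent.Helper859.Br.B0
open Pool.Agent.Helper859.Br

theorem b0_dnz {U : Set ℂ} (hU : IsOpen U) {f : ℂ → ℂ} (hf : DifferentiableOn ℂ f U)
    (hi : InjOn f U) {z0 : ℂ} (hz : z0 ∈ U) : deriv f z0 ≠ 0 := by
  intro hd
  have ha : AnalyticAt ℂ f z0 := hf.analyticAt (hU.mem_nhds hz)
  have ha' : AnalyticAt ℂ (fun z => f z - f z0) z0 := ha.sub analyticAt_const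
  have hne : ¬ ∀ᶠ z in 𝓝 z0, f z - f z0 = 0 := by
    intro h
    have h1 : ∀ᶠ z in 𝓝[≠] z0, f z - f z0 = 0 ∧ z ∈ U :=
      (h.and (hU.mem_nhds hz)).filter_mono nhdsWithin_le_nhds
    obtain ⟨z, ⟨h2, h3⟩, h4⟩ := (h1.and self_mem_nhdsWithin).exists
    exact h4 (hi h3 hz (sub_eq_zero.1 h2))
  obtain ⟨n, g, hg, hg0, hfg⟩ := (ha'.exists_eventuallyEq_pow_smul_nonzero_iff).2 hne
  have hn0 : n ≠ 0 := by
    intro h
    have h1 := hfg.self_of_nhds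
    rw [h, sub_self, pow_zero, one_smul] at h1
    exact hg0 h1.symm
  have hn1 : n ≠ 1 := by
    intro h
    have h1 : HasDerivAt (fun z => (z - z0) ^ n • g z) (g z0) z0 := by
      rw [h]
      have h2 := (((hasDerivAt_id z0).sub_const z0)).mul hg.differentiableAt.hasDerivAt
      have h3 : (1 : ℂ) * g z0 + (id z0 - z0) * deriv g z0 = g z0 := by
        simp
      rw [h3] at h2
      refine h2.congr_of_eventuallyEq (Eventually.of_forall fun z => ?_)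
      simp
    have h4 : HasDerivAt (fun z => f z - f z0) (g z0) z0 := h1.congr_of_eventuallyEq hfg
    have h5 : HasDerivAt (fun z => f z - f z0) (deriv f z0) z0 :=
      ha.differentiableAt.hasDerivAt.sub_const (f z0)
    have h6 := h4.unique h5
    rw [hd] at h6
    exact hg0 h6
  have hn2 : 1 < n := by omega
  have hnC : (n : ℂ) ≠ 0 := Nat.cast_ne_zero.2 hn0
  obtain ⟨h, hh⟩ : ∃ h : ℂ → ℂ, h = fun z => exp (log (g z0) / n) * exp (log (g z / g z0) / n) :=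
    ⟨_, rfl⟩
  have hpow : ∀ z, g z ≠ 0 → (h z) ^ n = g z := by
    intro z hgz
    rw [hh]
    show (exp (log (g z0) / n) * exp (log (g z / g z0) / n)) ^ n = g z
    rw [mul_pow, ← Complex.exp_nat_mul, ← Complex.exp_nat_mul, mul_div_cancel₀ _ hnC,
      mul_div_cancel₀ _ hnC, Complex.exp_log hg0, Complex.exp_log (div_ne_zero hgz hg0),
      mul_div_cancel₀ _ hg0]
  have hha : AnalyticAt ℂ h z0 := by
    rw [hh]
    refine analyticAt_const.mul (AnalyticAt.cexp ?_)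
    refine AnalyticAt.div (AnalyticAt.clog (hg.div analyticAt_const hg0) ?_) analyticAt_const hnC
    rw [div_self hg0]
    exact Complex.one_mem_slitPlane
  have hh0 : h z0 ≠ 0 := by
    rw [hh]
    exact mul_ne_zero (exp_ne_zero _) (exp_ne_zero _)
  have hφ : HasStrictDerivAt (fun z => (z - z0) * h z) (h z0) z0 := by
    have h1 : HasStrictDerivAt (fun z : ℂ => z - z0) 1 z0 := (hasStrictDerivAt_id z0).sub_const z0
    have h2 : HasStrictDerivAt (fun z => (z - z0) * h z)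
        (1 * h z0 + (z0 - z0) * deriv h z0) z0 := h1.mul hha.hasStrictDerivAt
    have h3 : (1 : ℂ) * h z0 + (z0 - z0) * deriv h z0 = h z0 := by
      simp
    rw [h3] at h2
    exact h2
  have hmap := hφ.map_nhds_eq hh0
  have hU' : ∀ᶠ z in 𝓝 z0, z ∈ U := hU.mem_nhds hz
  have hV : {z | (z ∈ U ∧ f z - f z0 = (z - z0) ^ n • g z) ∧ g z ≠ 0} ∈ 𝓝 z0 :=
    ((hU'.and hfg).and (hg.continuousAt.eventually_ne hg0))
  have himg := Filter.image_mem_map (m := fun z => (z - z0) * h z) hV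
  rw [hmap] at himg
  simp only [sub_self, zero_mul] at himg
  obtain ⟨ε, hε, hball⟩ := Metric.mem_nhds_iff.1 himg
  obtain ⟨ω, hω⟩ : ∃ ω : ℂ, ω = exp (2 * Real.pi * I / n) := ⟨_, rfl⟩
  have hprim : IsPrimitiveRoot ω n := hω ▸ Complex.isPrimitiveRoot_exp n hn0
  have hω1 : ω ≠ 1 := hprim.ne_one hn2
  have hωn : ω ^ n = 1 := hprim.pow_eq_one
  have hωa : ‖ω‖ = 1 := norm_eq_one_of_pow_eq_one hωn hn0
  have hw : ((ε / 2 : ℝ) : ℂ) ∈ ball (0 : ℂ) ε := by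
    rw [mem_ball_zero_iff, Complex.norm_real, Real.norm_of_nonneg (by positivity)]
    linarith
  have hw' : ω * ((ε / 2 : ℝ) : ℂ) ∈ ball (0 : ℂ) ε := by
    rw [mem_ball_zero_iff, norm_mul, hωa, one_mul, Complex.norm_real,
      Real.norm_of_nonneg (by positivity)]
    linarith
  obtain ⟨z1, ⟨⟨a1, b1⟩, c1⟩, d1⟩ := hball hw
  obtain ⟨z2, ⟨⟨a2, b2⟩, c2⟩, d2⟩ := hball hw'
  have e1 : f z1 - f z0 = ((ε / 2 : ℝ) : ℂ) ^ n := by
    rw [b1, smul_eq_mul, ← hpow z1 c1, ← mul_pow]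
    exact congrArg (· ^ n) d1
  have e2 : f z2 - f z0 = ((ε / 2 : ℝ) : ℂ) ^ n := by
    rw [b2, smul_eq_mul, ← hpow z2 c2, ← mul_pow]
    have : ((z2 - z0) * h z2) ^ n = (ω * ((ε / 2 : ℝ) : ℂ)) ^ n := congrArg (· ^ n) d2
    rw [this, mul_pow, hωn, one_mul]
  have e3 : f z1 = f z2 := by
    have := e1.trans e2.symm
    exact sub_left_inj.1 this
  have e4 : z1 = z2 := hi a1 a2 e3
  rw [← e4] at d2
  have e5 : ((ε / 2 : ℝ) : ℂ) = ω * ((ε / 2 : ℝ) : ℂ) := d1.symm.trans d2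
  have e6 : ((ε / 2 : ℝ) : ℂ) ≠ 0 := by
    rw [Ne, Complex.ofReal_eq_zero]
    positivity
  apply hω1
  have e7 : (1 : ℂ) * ((ε / 2 : ℝ) : ℂ) = ω * ((ε / 2 : ℝ) : ℂ) := by rw [one_mul]; exact e5
  exact (mul_right_cancel₀ e6 e7).symm

theorem b0_map {U : Set ℂ} (hU : IsOpen U) {f : ℂ → ℂ} (hf : DifferentiableOn ℂ f U)
    (hi : InjOn f U) {z : ℂ} (hz : z ∈ U) : map f (𝓝 z) = 𝓝 (f z) :=
  ((hf.analyticAt (hU.mem_nhds hz)).hasStrictDerivAt).map_nhds_eq (b0_dnz hU hf hi hz)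

theorem b0_open {U : Set ℂ} (hU : IsOpen U) {f : ℂ → ℂ} (hf : DifferentiableOn ℂ f U)
    (hi : InjOn f U) : IsOpen (f '' U) := by
  rw [isOpen_iff_mem_nhds]
  rintro _ ⟨z, hz, rfl⟩
  rw [← b0_map hU hf hi hz]
  exact Filter.image_mem_map (hU.mem_nhds hz)

theorem b0_left {U : Set ℂ} {f : ℂ → ℂ} (hi : InjOn f U) (z : ℂ) (hz : z ∈ U) :
    Function.invFunOn f U (f z) = z := hi.leftInvOn_invFunOn hz

theorem b0_diff {U : Set ℂ} (hU : IsOpen U) {f : ℂ → ℂ} (hf : DifferentiableOn ℂ f U)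
    (hi : InjOn f U) : DifferentiableOn ℂ (Function.invFunOn f U) (f '' U) := by
  rintro _ ⟨z, hz, rfl⟩
  have hs : HasStrictDerivAt f (deriv f z) z := (hf.analyticAt (hU.mem_nhds hz)).hasStrictDerivAt
  have h1 : HasStrictDerivAt (Function.invFunOn f U) (deriv f z)⁻¹ (f z) := by
    apply hs.to_local_left_inverse (b0_dnz hU hf hi hz)
    filter_upwards [hU.mem_nhds hz] with x hx
    exact b0_left hi x hx
  exact h1.hasDerivAt.differentiableAt.differentiableWithinAt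

theorem b0_seq {P : ℂ → ℂ} (dP : DifferentiableOn ℂ P (ball 0 1)) (iP : InjOn P (ball 0 1))
    (z : ℕ → ℂ) (hz : ∀ n, z n ∈ ball (0:ℂ) 1) (z0 : ℂ)
    (hz0 : z0 ∈ ball (0:ℂ) 1) (h : Tendsto (fun n => P (z n)) atTop (𝓝 (P z0))) :
    Tendsto z atTop (𝓝 z0) := by
  intro s hs
  have h1 : s ∩ ball 0 1 ∈ 𝓝 z0 := Filter.inter_mem hs (isOpen_ball.mem_nhds hz0)
  have h2 : P '' (s ∩ ball 0 1) ∈ 𝓝 (P z0) := by
    rw [← b0_map isOpen_ball dP iP hz0]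
    exact Filter.image_mem_map h1
  have h3 : ∀ᶠ n in atTop, P (z n) ∈ P '' (s ∩ ball 0 1) := h h2
  show ∀ᶠ n in atTop, z n ∈ s
  filter_upwards [h3] with n hn
  obtain ⟨x, hx, hxe⟩ := hn
  have : x = z n := iP hx.2 (hz n) hxe
  show z n ∈ s
  rw [← this]
  exact hx.1

theorem b0_zero {P : ℂ → ℂ} (oP : ∀ z ∈ ball (0:ℂ) 1, P (-z) = -P z) : P 0 = 0 := by
  have h := oP 0 (mem_ball_self one_pos)
  rw [neg_zero] at h
  exact self_eq_neg.1 h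

/-- basic facts: images are open, the inverse functions are continuous on them -/
theorem basic {F P Q : ℂ → ℂ} (c : Cfg F P Q) :
    IsOpen (F '' ball 0 1) ∧ IsOpen (P '' ball 0 1) ∧ IsOpen (Q '' ball 0 1) ∧
    IsOpen (Us P Q) ∧ MeasurableSet (Vs P Q) ∧
    ContDiffOn ℝ 1 (Function.invFunOn F (ball 0 1)) (F '' ball 0 1) ∧
    (∀ z ∈ ball (0:ℂ) 1, Function.invFunOn F (ball 0 1) (F z) = z) ∧
    (∀ z ∈ Us P Q, ‖F z‖ < 1 ∧ Q (F z) = P z) ∧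
    P 0 = 0 ∧ Q 0 = 0 ∧ F 0 = 0 ∧ (0:ℂ) ∈ Us P Q ∧
    (∀ z ∈ ball (0:ℂ) 1, deriv F z ≠ 0) ∧ (∀ z ∈ ball (0:ℂ) 1, deriv P z ≠ 0) ∧
    (∀ z ∈ ball (0:ℂ) 1, deriv Q z ≠ 0) := by
  have oF := b0_open isOpen_ball c.dF c.iF
  have oP := b0_open isOpen_ball c.dP c.iP
  have oQ := b0_open isOpen_ball c.dQ c.iQ
  have oU : IsOpen (Us P Q) := c.dP.continuousOn.isOpen_inter_preimage isOpen_ball oQ
  have hP0 := b0_zero c.oP
  have hQ0 := b0_zero c.oQ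
  have hF0 := b0_zero c.oF
  refine ⟨oF, oP, oQ, oU, ?_, ?_, fun z hz => b0_left c.iF z hz, ?_, hP0, hQ0, hF0, ?_,
    fun z hz => b0_dnz isOpen_ball c.dF c.iF hz, fun z hz => b0_dnz isOpen_ball c.dP c.iP hz,
    fun z hz => b0_dnz isOpen_ball c.dQ c.iQ hz⟩
  · have : Vs P Q = ball 0 1 \ Us P Q := by
      ext z
      constructor
      · rintro ⟨h1, h2⟩
        exact ⟨h1, fun h3 => h2 h3.2⟩
      · rintro ⟨h1, h2⟩
        exact ⟨h1, fun h3 => h2 ⟨h1, h3⟩⟩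
    rw [this]
    exact isOpen_ball.measurableSet.diff oU.measurableSet
  · exact ((b0_diff isOpen_ball c.dF c.iF).contDiffOn oF).restrict_scalars ℝ
  · rintro z ⟨hz, w, hw, hwe⟩
    have h1 := c.rel z hz w hw hwe.symm
    rw [← h1]
    exact ⟨mem_ball_zero_iff.1 hw, hwe⟩
  · refine ⟨mem_ball_self one_pos, 0, mem_ball_self one_pos, ?_⟩
    rw [hP0, hQ0]

/-- sequential compactness facts: (1) a sequence z_n in the disc with P z_n -> P z converges to z -/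
theorem seqP {F P Q : ℂ → ℂ} (c : Cfg F P Q) (z : ℕ → ℂ) (hz : ∀ n, z n ∈ ball (0:ℂ) 1) (z0 : ℂ)
    (hz0 : z0 ∈ ball (0:ℂ) 1) (h : Tendsto (fun n => P (z n)) atTop (𝓝 (P z0))) :
    Tendsto z atTop (𝓝 z0) := by
  exact b0_seq c.dP c.iP z hz z0 hz0 h

theorem seqQ {F P Q : ℂ → ℂ} (c : Cfg F P Q) (z : ℕ → ℂ) (hz : ∀ n, z n ∈ ball (0:ℂ) 1) (z0 : ℂ)
    (hz0 : z0 ∈ ball (0:ℂ) 1) (h : Tendsto (fun n => Q (z n)) atTop (𝓝 (Q z0))) :
    Tendsto z atTop (𝓝 z0) := by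
  exact b0_seq c.dQ c.iQ z hz z0 hz0 h

theorem seqF {F P Q : ℂ → ℂ} (c : Cfg F P Q) (z : ℕ → ℂ) (hz : ∀ n, z n ∈ ball (0:ℂ) 1) (z0 : ℂ)
    (hz0 : z0 ∈ ball (0:ℂ) 1) (h : Tendsto (fun n => F (z n)) atTop (𝓝 (F z0))) :
    Tendsto z atTop (𝓝 z0) := by
  exact b0_seq c.dF c.iF z hz z0 hz0 h

end Pool.Agent.Helper859.Br.B0
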