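import Pool.Agent.Helper859.Br.Defs
set_option linter.all false
open Complex MeasureTheory Set Filter Topology Metric

namespace Pool.Agent.Helper859.Br.B1
open Pool.Agent.Helper859.Br

theorem b1_open {G : ℂ → ℂ} (hd : DifferentiableOn ℂ G (ball 0 1)) (hi : InjOn G (ball 0 1))
    (s : Set ℂ) (hs : IsOpen s) (hsub : s ⊆ ball (0:ℂ) 1) : IsOpen (G '' s) := by
  have ha : AnalyticOnNhd ℂ G (ball (0:ℂ) 1) := hd.analyticOnNhd isOpen_ball
  rcases ha.is_constant_or_isOpen (convex_ball (0:ℂ) 1).isPreconnected with h | h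
  · exfalso
    obtain ⟨w, hw⟩ := h
    have h0 : (0:ℂ) ∈ ball (0:ℂ) 1 := by simp
    have h1 : (1/2:ℂ) ∈ ball (0:ℂ) 1 := by
      rw [mem_ball_zero_iff]
      norm_num
    have := hi h0 h1 ((hw _ h0).trans (hw _ h1).symm)
    norm_num at this
  · exact h s hsub hs

theorem b1_conv {G : ℂ → ℂ} (hd : DifferentiableOn ℂ G (ball 0 1)) (hi : InjOn G (ball 0 1))
    (z : ℂ) (hz : z ∈ ball (0:ℂ) 1) (zs : ℕ → ℂ) (hzs : ∀ᶠ n in atTop, zs n ∈ ball (0:ℂ) 1)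
    (ht : Tendsto (fun n => G (zs n)) atTop (𝓝 (G z))) : Tendsto zs atTop (𝓝 z) := by
  rw [_root_.tendsto_nhds]
  intro s hs hzs'
  have ho : IsOpen (G '' (s ∩ ball (0:ℂ) 1)) :=
    b1_open hd hi _ (hs.inter isOpen_ball) inter_subset_right
  have hm : G z ∈ G '' (s ∩ ball (0:ℂ) 1) := ⟨z, ⟨hzs', hz⟩, rfl⟩
  have h1 := ht.eventually (ho.mem_nhds hm)
  filter_upwards [h1, hzs] with n hn hn2
  obtain ⟨y, ⟨hy1, hy2⟩, hy3⟩ := hn
  have := hi hy2 hn2 hy3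
  rw [mem_preimage, ← this]
  exact hy1

theorem b1_core {F P Q : ℂ → ℂ} (c : Cfg F P Q) (w0 : ℂ) (h1 : ‖w0‖ = 1) (r : ℝ) (hr : r < 1)
    (ws : ℕ → ℂ) (hws : Tendsto ws atTop (𝓝 w0)) (hb : ∀ n, ws n ∈ ball (0:ℂ) 1)
    (hq : ∀ n, ‖Q (ws n)‖ ≤ r) :
    ∃ φ : ℕ → ℕ, StrictMono φ ∧ w0 ∈ F '' ball 0 1 ∧
      ∀ᶠ n in atTop, ∃ z' ∈ ball (0:ℂ) 1, F z' = ws (φ n) ∧ P z' = Q (ws (φ n)) := by
  obtain ⟨t, ht, φ, hφ, hlim⟩ := (isCompact_closedBall (0:ℂ) r).tendsto_subseq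
    (x := fun n => Q (ws n)) (fun n => by simpa using hq n)
  have ht1 : t ∈ ball (0:ℂ) 1 := by
    rw [mem_closedBall_zero_iff] at ht
    rw [mem_ball_zero_iff]
    linarith
  have hwsφ : Tendsto (fun n => ws (φ n)) atTop (𝓝 w0) := hws.comp hφ.tendsto_atTop
  rcases c.cov ht1 with ⟨z, hz, hzt⟩ | ⟨w, hw, hwt⟩
  · have ho : IsOpen (P '' ball (0:ℂ) 1) := b1_open c.dP c.iP _ isOpen_ball (subset_refl _)
    have hev : ∀ᶠ n in atTop, Q (ws (φ n)) ∈ P '' ball (0:ℂ) 1 :=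
      hlim.eventually (ho.mem_nhds ⟨z, hz, hzt⟩)
    let zs : ℕ → ℂ := fun n => Function.invFunOn P (ball (0:ℂ) 1) (Q (ws (φ n)))
    have hzs : ∀ᶠ n in atTop, zs n ∈ ball (0:ℂ) 1 ∧ P (zs n) = Q (ws (φ n)) := by
      filter_upwards [hev] with n hn
      exact ⟨Function.invFunOn_mem hn, Function.invFunOn_eq hn⟩
    have hlim2 : Tendsto (fun n => P (zs n)) atTop (𝓝 (P z)) := by
      rw [hzt]
      refine hlim.congr' ?_
      filter_upwards [hzs] with n hn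
      exact hn.2.symm
    have hzlim := b1_conv c.dP c.iP z hz zs (hzs.mono fun n h => h.1) hlim2
    have hFc : ContinuousAt F z := (c.dF.differentiableAt (isOpen_ball.mem_nhds hz)).continuousAt
    have hFlim : Tendsto (fun n => F (zs n)) atTop (𝓝 (F z)) := hFc.tendsto.comp hzlim
    have hrel : ∀ᶠ n in atTop, ws (φ n) = F (zs n) := by
      filter_upwards [hzs] with n hn
      exact c.rel _ hn.1 _ (hb _) hn.2
    have hw0 : w0 = F z := tendsto_nhds_unique hwsφ (hFlim.congr' (hrel.mono fun n h => h.symm))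
    refine ⟨φ, hφ, ⟨z, hz, hw0.symm⟩, ?_⟩
    filter_upwards [hzs, hrel] with n hn hn2
    exact ⟨zs n, hn.1, hn2.symm, hn.2⟩
  · exfalso
    have hlim2 : Tendsto (fun n => Q (ws (φ n))) atTop (𝓝 (Q w)) := by
      rw [hwt]
      exact hlim
    have h3 := b1_conv c.dQ c.iQ w hw (fun n => ws (φ n)) (Eventually.of_forall fun n => hb _) hlim2
    have h4 : w0 = w := tendsto_nhds_unique hwsφ h3
    rw [← h4, mem_ball_zero_iff, h1] at hw
    exact lt_irrefl _ hw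

/-- (LA) away from the image of F -/
theorem LA {F P Q : ℂ → ℂ} (c : Cfg F P Q) (w0 : ℂ) (hw0 : w0 ∉ F '' ball 0 1) (r : ℝ) (hr : r < 1) :
    ∀ᶠ w in 𝓝 w0, ∀ z ∈ Vs P Q, F z = w → r < ‖P z‖ := by
  by_contra hcon
  have hf : ∃ᶠ w in 𝓝 w0, ¬ (∀ z ∈ Vs P Q, F z = w → r < ‖P z‖) := Filter.not_eventually.1 hcon
  obtain ⟨ws, hws, hp⟩ := Filter.exists_seq_forall_of_frequently hf
  have hz : ∀ n, ∃ z ∈ Vs P Q, F z = ws n ∧ ‖P z‖ ≤ r := by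
    intro n
    have := hp n
    push Not at this
    exact this
  choose zs hzV hzF hzr using hz
  obtain ⟨t, ht, φ, hφ, hlim⟩ := (isCompact_closedBall (0:ℂ) r).tendsto_subseq
    (x := fun n => P (zs n)) (fun n => by simpa using hzr n)
  have ht1 : t ∈ ball (0:ℂ) 1 := by
    rw [mem_closedBall_zero_iff] at ht
    rw [mem_ball_zero_iff]
    linarith
  rcases c.cov ht1 with ⟨z, hz, hzt⟩ | hQ
  · have hlim2 : Tendsto (fun n => P (zs (φ n))) atTop (𝓝 (P z)) := by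
      rw [hzt]
      exact hlim
    have hzlim := b1_conv c.dP c.iP z hz (fun n => zs (φ n)) (Eventually.of_forall fun n => (hzV _).1) hlim2
    have hFc : ContinuousAt F z := (c.dF.differentiableAt (isOpen_ball.mem_nhds hz)).continuousAt
    have hFlim : Tendsto (fun n => F (zs (φ n))) atTop (𝓝 (F z)) := hFc.tendsto.comp hzlim
    have hwsφ : Tendsto (fun n => ws (φ n)) atTop (𝓝 w0) := hws.comp hφ.tendsto_atTop
    have h5 : w0 = F z := tendsto_nhds_unique hwsφ (hFlim.congr fun n => hzF (φ n))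
    exact hw0 ⟨z, hz, h5.symm⟩
  · have ho : IsOpen (Q '' ball (0:ℂ) 1) := b1_open c.dQ c.iQ _ isOpen_ball (subset_refl _)
    have hev : ∀ᶠ n in atTop, P (zs (φ n)) ∈ Q '' ball (0:ℂ) 1 := hlim.eventually (ho.mem_nhds hQ)
    obtain ⟨n, hn⟩ := hev.exists
    exact (hzV (φ n)).2 hn

/-- (LB) -/
theorem LB {F P Q : ℂ → ℂ} (c : Cfg F P Q) (w0 : ℂ) (h1 : ‖w0‖ = 1) (hw0 : w0 ∉ F '' ball 0 1)
    (r : ℝ) (hr : r < 1) :
    ∀ᶠ w in 𝓝 w0, w ∈ ball (0:ℂ) 1 → r < ‖Q w‖ := by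
  by_contra hcon
  have hf : ∃ᶠ w in 𝓝 w0, ¬ (w ∈ ball (0:ℂ) 1 → r < ‖Q w‖) := Filter.not_eventually.1 hcon
  obtain ⟨ws, hws, hp⟩ := Filter.exists_seq_forall_of_frequently hf
  have hp1 : ∀ n, ws n ∈ ball (0:ℂ) 1 := fun n => by
    have := hp n
    push Not at this
    exact this.1
  have hp2 : ∀ n, ‖Q (ws n)‖ ≤ r := fun n => by
    have := hp n
    push Not at this
    exact this.2
  obtain ⟨φ, hφ, h2, h3⟩ := b1_core c w0 h1 r hr ws hws hp1 hp2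
  exact hw0 h2

/-- (LC2) -/
theorem LC2 {F P Q : ℂ → ℂ} (c : Cfg F P Q) (w0 : ℂ) (h1 : ‖w0‖ = 1) (hw0 : w0 ∈ F '' ball 0 1)
    (hV : ∀ᶠ w in 𝓝 w0, w ∈ ball (0:ℂ) 1 → ∀ z ∈ ball (0:ℂ) 1, F z = w → z ∈ Vs P Q)
    (r : ℝ) (hr : r < 1) :
    ∀ᶠ w in 𝓝 w0, w ∈ ball (0:ℂ) 1 → r < ‖Q w‖ := by
  by_contra hcon
  have hf : ∃ᶠ w in 𝓝 w0, ¬ (w ∈ ball (0:ℂ) 1 → r < ‖Q w‖) := Filter.not_eventually.1 hcon
  obtain ⟨ws, hws, hp⟩ := Filter.exists_seq_forall_of_frequently hf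
  have hp1 : ∀ n, ws n ∈ ball (0:ℂ) 1 := fun n => by
    have := hp n
    push Not at this
    exact this.1
  have hp2 : ∀ n, ‖Q (ws n)‖ ≤ r := fun n => by
    have := hp n
    push Not at this
    exact this.2
  obtain ⟨φ, hφ, h2, h3⟩ := b1_core c w0 h1 r hr ws hws hp1 hp2
  have hwsφ : Tendsto (fun n => ws (φ n)) atTop (𝓝 w0) := hws.comp hφ.tendsto_atTop
  obtain ⟨n, hn, hn2⟩ := (h3.and (hwsφ.eventually hV)).exists
  obtain ⟨z', hz', hF, hP⟩ := hn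
  have h6 := hn2 (hp1 _) z' hz' hF
  exact h6.2 ⟨ws (φ n), hp1 _, hP.symm⟩


end Pool.Agent.Helper859.Br.B1
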