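import Pool.Agent.Helper859.Br.Defs
set_option linter.all false
open Complex MeasureTheory Set Filter Topology Metric

namespace Pool.Agent.Helper859.Br.B2
open Pool.Agent.Helper859.Br

theorem img_open {f : ℂ → ℂ} (hd : DifferentiableOn ℂ f (ball 0 1)) (hi : InjOn f (ball 0 1))
    (s : Set ℂ) (hs : s ⊆ ball 0 1) (hso : IsOpen s) : IsOpen (f '' s) := by
  have ha : AnalyticOnNhd ℂ f (ball 0 1) := hd.analyticOnNhd isOpen_ball
  rcases ha.is_constant_or_isOpen (convex_ball (0 : ℂ) 1).isPreconnected with ⟨w, hw⟩ | h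
  · exfalso
    have h0 : (0 : ℂ) ∈ ball (0 : ℂ) 1 := by simp
    have h1 : (1 / 2 : ℂ) ∈ ball (0 : ℂ) 1 := by
      rw [mem_ball_zero_iff]; norm_num
    have := hi h0 h1 ((hw _ h0).trans (hw _ h1).symm)
    norm_num at this
  · exact h s hs hso

theorem Us_ev {F P Q : ℂ → ℂ} (c : Cfg F P Q) (z0 : ℂ) (h0 : z0 ∈ Us P Q) :
    ∀ᶠ z in 𝓝 z0, z ∈ Us P Q := by
  obtain ⟨hb, hq⟩ := h0
  have ho : IsOpen (Q '' ball 0 1) := img_open c.dQ c.iQ _ Subset.rfl isOpen_ball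
  have hPc : ContinuousAt P z0 := (c.dP.differentiableAt (isOpen_ball.mem_nhds hb)).continuousAt
  filter_upwards [isOpen_ball.mem_nhds hb, hPc.preimage_mem_nhds (ho.mem_nhds hq)] with z h1 h2
  exact ⟨h1, h2⟩

theorem Vint' {F P Q : ℂ → ℂ} (c : Cfg F P Q) (z0 : ℂ) (h0 : z0 ∈ Vs P Q) (h1 : ‖F z0‖ ≠ 1) :
    ∀ᶠ z in 𝓝 z0, z ∈ Vs P Q := by
  obtain ⟨hb, hq⟩ := h0
  have hFc : ContinuousAt F z0 := (c.dF.differentiableAt (isOpen_ball.mem_nhds hb)).continuousAt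
  have hPc : ContinuousAt P z0 := (c.dP.differentiableAt (isOpen_ball.mem_nhds hb)).continuousAt
  rcases lt_or_gt_of_ne h1 with hlt | hgt
  · have hFb : F z0 ∈ ball (0 : ℂ) 1 := by rw [mem_ball_zero_iff]; exact hlt
    have hQc : ContinuousAt Q (F z0) :=
      (c.dQ.differentiableAt (isOpen_ball.mem_nhds hFb)).continuousAt
    have hne : P z0 - Q (F z0) ≠ 0 := by
      intro h
      rw [sub_eq_zero] at h
      exact hq ⟨F z0, hFb, h.symm⟩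
    have hc : ContinuousAt (fun z => P z - Q (F z)) z0 :=
      hPc.sub (ContinuousAt.comp (g := Q) (f := F) hQc hFc)
    filter_upwards [isOpen_ball.mem_nhds hb, hc.eventually_ne hne] with z h2 h3
    refine ⟨h2, ?_⟩
    rintro ⟨w, hw, hwz⟩
    have := c.rel z h2 w hw hwz.symm
    apply h3
    rw [← this, hwz, sub_self]
  · have h4 : ∀ᶠ z in 𝓝 z0, 1 < ‖F z‖ := hFc.norm.eventually (lt_mem_nhds hgt)
    filter_upwards [isOpen_ball.mem_nhds hb, h4] with z h2 h3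
    refine ⟨h2, ?_⟩
    rintro ⟨w, hw, hwz⟩
    have := c.rel z h2 w hw hwz.symm
    rw [← this] at h3
    rw [mem_ball_zero_iff] at hw
    linarith

/-- (LC) dichotomy at points of the unit circle covered by F -/
theorem LC {F P Q : ℂ → ℂ} (c : Cfg F P Q) (w0 : ℂ) (h1 : ‖w0‖ = 1) (hw0 : w0 ∈ F '' ball 0 1) :
    (∀ᶠ w in 𝓝 w0, w ∈ ball (0:ℂ) 1 → ∀ z ∈ ball (0:ℂ) 1, F z = w → z ∈ Us P Q) ∨
    (∀ᶠ w in 𝓝 w0, w ∈ ball (0:ℂ) 1 → ∀ z ∈ ball (0:ℂ) 1, F z = w → z ∈ Vs P Q) := by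
  have hoF : IsOpen (F '' ball 0 1) := img_open c.dF c.iF _ Subset.rfl isOpen_ball
  obtain ⟨ε, hε, hεF⟩ := Metric.isOpen_iff.1 hoF w0 hw0
  have hpre : IsPreconnected (ball w0 ε ∩ ball (0 : ℂ) 1) :=
    ((convex_ball w0 ε).inter (convex_ball (0 : ℂ) 1)).isPreconnected
  have hUo : IsOpen (Us P Q) := by
    rw [isOpen_iff_mem_nhds]
    intro z hz
    exact Us_ev c z hz
  set V' : Set ℂ := {z | z ∈ Vs P Q ∧ ‖F z‖ < 1} with hV'
  have hVo : IsOpen V' := by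
    rw [isOpen_iff_mem_nhds]
    intro z hz
    have hFc : ContinuousAt F z :=
      (c.dF.differentiableAt (isOpen_ball.mem_nhds hz.1.1)).continuousAt
    filter_upwards [Vint' c z hz.1 hz.2.ne, hFc.norm.eventually (gt_mem_nhds hz.2)] with y a b
    exact ⟨a, b⟩
  have hUs : Us P Q ⊆ ball 0 1 := fun z hz => hz.1
  have hVs : V' ⊆ ball 0 1 := fun z hz => hz.1.1
  have o1 := img_open c.dF c.iF _ hUs hUo
  have o2 := img_open c.dF c.iF _ hVs hVo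
  have hcov : ball w0 ε ∩ ball (0 : ℂ) 1 ⊆ F '' Us P Q ∪ F '' V' := by
    rintro w ⟨hw1, hw2⟩
    obtain ⟨z, hz, rfl⟩ := hεF hw1
    by_cases h : P z ∈ Q '' ball 0 1
    · exact Or.inl ⟨z, ⟨hz, h⟩, rfl⟩
    · refine Or.inr ⟨z, ⟨⟨hz, h⟩, ?_⟩, rfl⟩
      rwa [mem_ball_zero_iff] at hw2
  have hdis : (ball w0 ε ∩ ball (0 : ℂ) 1) ∩ (F '' Us P Q ∩ F '' V') = ∅ := by
    rw [Set.eq_empty_iff_forall_notMem]
    rintro w ⟨-, ⟨z, hz, hzw⟩, ⟨z', hz', hzw'⟩⟩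
    have : z = z' := c.iF hz.1 hz'.1.1 (hzw.trans hzw'.symm)
    subst this
    exact hz'.1.2 hz.2
  rcases isPreconnected_iff_subset_of_disjoint.1 hpre _ _ o1 o2 hcov hdis with h | h
  · left
    filter_upwards [ball_mem_nhds w0 hε] with w hw hw1 z hz hzw
    obtain ⟨z', hz', hzw'⟩ := h ⟨hw, hw1⟩
    have : z = z' := c.iF hz hz'.1 (hzw.trans hzw'.symm)
    rw [this]; exact hz'
  · right
    filter_upwards [ball_mem_nhds w0 hε] with w hw hw1 z hz hzw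
    obtain ⟨z', hz', hzw'⟩ := h ⟨hw, hw1⟩
    have : z = z' := c.iF hz hz'.1.1 (hzw.trans hzw'.symm)
    rw [this]; exact hz'.1

/-- interior of the second sheet -/
theorem Vint {F P Q : ℂ → ℂ} (c : Cfg F P Q) (z0 : ℂ) (h0 : z0 ∈ Vs P Q) (h1 : ‖F z0‖ ≠ 1) :
    ∀ᶠ z in 𝓝 z0, z ∈ Vs P Q := Vint' c z0 h0 h1

end Pool.Agent.Helper859.Br.B2
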