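import Pool.Agent.Helper859.Br.Defs
set_option linter.all false
open Complex MeasureTheory Set Filter Topology Metric

namespace Pool.Agent.Helper859.Br.B3
open Pool.Agent.Helper859.Br

/-- trace dichotomy; all needed facts are given as hypotheses -/
theorem trace_dich {F P Q H : ℂ → ℂ} (c : Cfg F P Q) (hH : Adm H) {ε : ℝ} (hε : 0 < ε) {T : ℝ → ℝ} (hT : Trunc ε T)
    (LA : ∀ w0 : ℂ, w0 ∉ F '' ball 0 1 → ∀ r < (1:ℝ), ∀ᶠ w in 𝓝 w0, ∀ z ∈ Vs P Q, F z = w → r < ‖P z‖)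
    (LB : ∀ w0 : ℂ, ‖w0‖ = 1 → w0 ∉ F '' ball 0 1 → ∀ r < (1:ℝ), ∀ᶠ w in 𝓝 w0, w ∈ ball (0:ℂ) 1 → r < ‖Q w‖)
    (LC2 : ∀ w0 : ℂ, ‖w0‖ = 1 → w0 ∈ F '' ball 0 1 →
      (∀ᶠ w in 𝓝 w0, w ∈ ball (0:ℂ) 1 → ∀ z ∈ ball (0:ℂ) 1, F z = w → z ∈ Vs P Q) →
      ∀ r < (1:ℝ), ∀ᶠ w in 𝓝 w0, w ∈ ball (0:ℂ) 1 → r < ‖Q w‖)
    (LC : ∀ w0 : ℂ, ‖w0‖ = 1 → w0 ∈ F '' ball 0 1 →
      (∀ᶠ w in 𝓝 w0, w ∈ ball (0:ℂ) 1 → ∀ z ∈ ball (0:ℂ) 1, F z = w → z ∈ Us P Q) ∨
      (∀ᶠ w in 𝓝 w0, w ∈ ball (0:ℂ) 1 → ∀ z ∈ ball (0:ℂ) 1, F z = w → z ∈ Vs P Q))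
    (hFo : IsOpen (F '' ball 0 1))
    (hinv : ContinuousOn (Function.invFunOn F (ball 0 1)) (F '' ball 0 1))
    (hinv2 : ∀ z ∈ ball (0:ℂ) 1, Function.invFunOn F (ball 0 1) (F z) = z)
    (w0 : ℂ) (h1 : ‖w0‖ = 1) :
    (Tendsto (v1 T H Q) (𝓝[ball 0 1] w0) (𝓝 (Wf T H F P Q w0)) ∧ Tendsto (Wf T H F P Q) (𝓝[ball 0 1] w0) (𝓝 0)) ∨
    (Tendsto (v1 T H Q) (𝓝[ball 0 1] w0) (𝓝 0) ∧ Tendsto (Wf T H F P Q) (𝓝[ball 0 1] w0) (𝓝 (Wf T H F P Q w0))) := by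
  obtain ⟨r, hr1, hr⟩ := hH.b ε hε
  have hz : ∀ t ∈ ball (0:ℂ) 1, r < ‖t‖ → T (H t).re = 0 := by
    intro t ht h
    rw [mem_ball_zero_iff] at ht
    exact hT.z _ (hr t h.le ht)
  have hW1 : ∀ z ∈ Vs P Q, Wf T H F P Q (F z) = T (H (P z)).re := by
    intro z hzV
    have hm : F z ∈ F '' Vs P Q := ⟨z, hzV, rfl⟩
    unfold Wf
    rw [if_pos hm, hinv2 z hzV.1]
  have hW0 : ∀ w, w ∉ F '' Vs P Q → Wf T H F P Q w = 0 := by
    intro w hw
    unfold Wf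
    rw [if_neg hw]
  by_cases hw0 : w0 ∈ F '' ball 0 1
  · obtain ⟨z0, hz0, hz0w⟩ := hw0
    have hz0V : z0 ∈ Vs P Q := by
      refine ⟨hz0, ?_⟩
      rintro ⟨w', hw', hPQ⟩
      have h2 := c.rel z0 hz0 w' hw' hPQ.symm
      rw [h2, hz0w, mem_ball_zero_iff, h1] at hw'
      exact lt_irrefl _ hw'
    have h0B : (0:ℂ) ∈ ball (0:ℂ) 1 := mem_ball_self one_pos
    have hQ0 : Q 0 = 0 := by
      have h2 := c.oQ 0 h0B
      rw [neg_zero] at h2
      have h3 : (2:ℂ) * Q 0 = 0 := by linear_combination h2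
      exact (mul_eq_zero.1 h3).resolve_left two_ne_zero
    have hP0 : P z0 ≠ 0 := by
      intro h
      apply hz0V.2
      rw [h]
      exact ⟨0, h0B, hQ0⟩
    have hHc : ContinuousAt H (P z0) :=
      (hH.d.differentiableAt (isOpen_compl_singleton.mem_nhds hP0)).continuousAt
    have hPc : ContinuousAt P z0 :=
      (c.dP.differentiableAt (isOpen_ball.mem_nhds hz0)).continuousAt
    have hw0F : w0 ∈ F '' ball 0 1 := ⟨z0, hz0, hz0w⟩
    have hic : ContinuousAt (Function.invFunOn F (ball 0 1)) w0 :=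
      hinv.continuousAt (hFo.mem_nhds hw0F)
    have hiw0 : Function.invFunOn F (ball 0 1) w0 = z0 := by
      rw [← hz0w]; exact hinv2 z0 hz0
    have hΦ : Tendsto (fun w => T (H (P (Function.invFunOn F (ball 0 1) w))).re) (𝓝 w0)
        (𝓝 (T (H (P z0)).re)) := by
      have h2 : Tendsto (Function.invFunOn F (ball 0 1)) (𝓝 w0) (𝓝 z0) := by
        have := hic.tendsto; rwa [hiw0] at this
      have h3 := hT.c1.continuous.continuousAt (x := (H (P z0)).re)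
      exact h3.tendsto.comp ((Complex.continuous_re.continuousAt.tendsto.comp
        (hHc.tendsto.comp (hPc.tendsto.comp h2))))
    have hWw0 : Wf T H F P Q w0 = T (H (P z0)).re := by
      rw [← hz0w]; exact hW1 z0 hz0V
    have hΦ' : Tendsto (fun w => T (H (P (Function.invFunOn F (ball 0 1) w))).re) (𝓝[ball 0 1] w0)
        (𝓝 (Wf T H F P Q w0)) := by
      rw [hWw0]; exact hΦ.mono_left nhdsWithin_le_nhds
    have hFn : ∀ᶠ w in 𝓝[ball 0 1] w0, w ∈ F '' ball 0 1 :=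
      nhdsWithin_le_nhds (hFo.mem_nhds hw0F)
    have hB : ∀ᶠ w in 𝓝[ball 0 1] w0, w ∈ ball (0:ℂ) 1 := self_mem_nhdsWithin
    rcases LC w0 h1 hw0F with ha | hb
    · left
      have ha' := nhdsWithin_le_nhds (s := ball (0:ℂ) 1) ha
      constructor
      · refine hΦ'.congr' ?_
        filter_upwards [ha', hFn, hB] with w h2 h3 h4
        obtain ⟨z, hz, hzw⟩ := h3
        obtain ⟨-, w', hw', hPQ⟩ := h2 h4 z hz hzw
        have h5 := c.rel z hz w' hw' hPQ.symm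
        have h6 : Q w = P z := by rw [← hPQ, h5, hzw]
        show T (H (P (Function.invFunOn F (ball 0 1) w))).re = T (H (Q w)).re
        rw [h6, ← hzw, hinv2 z hz]
      · refine tendsto_const_nhds.congr' ?_
        filter_upwards [ha', hB] with w h2 h4
        symm
        apply hW0
        rintro ⟨z, hz, hzw⟩
        exact hz.2 (h2 h4 z hz.1 hzw).2
    · right
      have hb' := nhdsWithin_le_nhds (s := ball (0:ℂ) 1) hb
      constructor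
      · refine tendsto_const_nhds.congr' ?_
        filter_upwards [nhdsWithin_le_nhds (s := ball (0:ℂ) 1) (LC2 w0 h1 hw0F hb r hr1), hB]
          with w h2 h4
        exact (hz (Q w) (c.mQ h4) (h2 h4)).symm
      · refine hΦ'.congr' ?_
        filter_upwards [hb', hFn, hB] with w h2 h3 h4
        obtain ⟨z, hz, hzw⟩ := h3
        have h5 := h2 h4 z hz hzw
        rw [← hzw, hW1 z h5, hinv2 z hz]
  · left
    have hWw0 : Wf T H F P Q w0 = 0 := by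
      apply hW0
      rintro ⟨z, hz, hzw⟩
      exact hw0 ⟨z, hz.1, hzw⟩
    have hB : ∀ᶠ w in 𝓝[ball 0 1] w0, w ∈ ball (0:ℂ) 1 := self_mem_nhdsWithin
    constructor
    · rw [hWw0]
      refine tendsto_const_nhds.congr' ?_
      filter_upwards [nhdsWithin_le_nhds (s := ball (0:ℂ) 1) (LB w0 h1 hw0 r hr1), hB] with w h2 h4
      exact (hz (Q w) (c.mQ h4) (h2 h4)).symm
    · refine tendsto_const_nhds.congr' ?_
      filter_upwards [nhdsWithin_le_nhds (s := ball (0:ℂ) 1) (LA w0 hw0 r hr1)] with w h2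
      symm
      by_cases hw : w ∈ F '' Vs P Q
      · obtain ⟨z, hzV, hzw⟩ := hw
        rw [← hzw, hW1 z hzV]
        exact hz (P z) (c.mP hzV.1) (h2 z hzV hzw)
      · exact hW0 w hw


end Pool.Agent.Helper859.Br.B3
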