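import Pool.Agent.Helper859.Br.Defs
set_option linter.all false
open Complex MeasureTheory Set Filter Topology Metric

namespace Pool.Agent.Helper859.Br.B4
open Pool.Agent.Helper859.Br

theorem Wf_reg_zero {G : ℂ → ℂ} (h : ∀ z ∈ ball (0:ℂ) 1, G (-z) = -G z) : G 0 = 0 := by
  have h0 : (0:ℂ) ∈ ball (0:ℂ) 1 := mem_ball_self one_pos
  have h1 := h 0 h0
  rw [neg_zero] at h1
  have h2 : G 0 + G 0 = 0 := by
    nth_rewrite 1 [h1]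
    ring
  have h3 : (2:ℂ) * G 0 = 0 := by
    rw [two_mul]
    exact h2
  exact (mul_eq_zero.1 h3).resolve_left two_ne_zero

theorem Wf_reg_ne {F P Q : ℂ → ℂ} (c : Cfg F P Q) {z : ℂ} (hz : z ∈ Vs P Q) : P z ≠ 0 := by
  intro h
  refine hz.2 ⟨0, mem_ball_self one_pos, ?_⟩
  rw [h]
  exact Wf_reg_zero c.oQ

theorem Wf_reg_contDiffAt {F P Q H : ℂ → ℂ} (c : Cfg F P Q) (hH : Adm H) {ε : ℝ} {T : ℝ → ℝ}
    (hT : Trunc ε T)
    (hFo : IsOpen (F '' ball 0 1))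
    (hinv : ContDiffOn ℝ 1 (Function.invFunOn F (ball 0 1)) (F '' ball 0 1))
    (hinv2 : ∀ z ∈ ball (0:ℂ) 1, Function.invFunOn F (ball 0 1) (F z) = z)
    {z0 : ℂ} (hz0 : z0 ∈ Vs P Q) :
    ContDiffAt ℝ 1 (fun w => T (H (P (Function.invFunOn F (ball 0 1) w))).re) (F z0) := by
  have hzb : z0 ∈ ball (0:ℂ) 1 := hz0.1
  have h1 : ContDiffAt ℝ 1 (Function.invFunOn F (ball 0 1)) (F z0) :=
    hinv.contDiffAt (hFo.mem_nhds ⟨z0, hzb, rfl⟩)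
  have h2 : ContDiffAt ℝ 1 P (Function.invFunOn F (ball 0 1) (F z0)) := by
    rw [hinv2 z0 hzb]
    exact ((c.dP.contDiffOn isOpen_ball).contDiffAt (isOpen_ball.mem_nhds hzb)).restrict_scalars ℝ
  have h3 : ContDiffAt ℝ 1 H (P (Function.invFunOn F (ball 0 1) (F z0))) := by
    rw [hinv2 z0 hzb]
    have ho : IsOpen ({0}ᶜ : Set ℂ) := isOpen_compl_singleton
    exact ((hH.d.contDiffOn ho).contDiffAt (ho.mem_nhds (Wf_reg_ne c hz0))).restrict_scalars ℝ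
  have h4 : ContDiffAt ℝ 1 (fun w => P (Function.invFunOn F (ball 0 1) w)) (F z0) :=
    h2.comp (F z0) h1
  have h5 : ContDiffAt ℝ 1 (fun w => H (P (Function.invFunOn F (ball 0 1) w))) (F z0) :=
    ContDiffAt.comp (F z0) h3 h4
  have h6 : ContDiffAt ℝ 1 (fun w => (H (P (Function.invFunOn F (ball 0 1) w))).re) (F z0) :=
    Complex.reCLM.contDiff.contDiffAt.comp (F z0) h5
  exact hT.c1.contDiffAt.comp (F z0) h6

theorem Wf_reg_val {F P Q H : ℂ → ℂ} {T : ℝ → ℝ}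
    (hinv2 : ∀ z ∈ ball (0:ℂ) 1, Function.invFunOn F (ball 0 1) (F z) = z)
    {z : ℂ} (hz : z ∈ Vs P Q) : Wf T H F P Q (F z) = T (H (P z)).re := by
  unfold Wf
  rw [if_pos ⟨z, hz, rfl⟩, hinv2 z hz.1]

theorem Wf_reg_L1 {F P Q H : ℂ → ℂ} (c : Cfg F P Q) (hH : Adm H) {ε : ℝ} (hε : 0 < ε) {T : ℝ → ℝ}
    (hT : Trunc ε T)
    (LA : ∀ w0 : ℂ, w0 ∉ F '' ball 0 1 → ∀ r < (1:ℝ), ∀ᶠ w in 𝓝 w0, ∀ z ∈ Vs P Q, F z = w → r < ‖P z‖)
    (hinv2 : ∀ z ∈ ball (0:ℂ) 1, Function.invFunOn F (ball 0 1) (F z) = z)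
    {w0 : ℂ} (hw0 : w0 ∉ F '' ball 0 1) : ∀ᶠ w in 𝓝 w0, Wf T H F P Q w = 0 := by
  obtain ⟨r, hr1, hr⟩ := hH.b ε hε
  filter_upwards [LA w0 hw0 r hr1] with w hw
  by_cases h : w ∈ F '' Vs P Q
  · obtain ⟨z, hz, rfl⟩ := h
    rw [Wf_reg_val hinv2 hz]
    apply hT.z
    refine hr _ (hw z hz rfl).le ?_
    have := c.mP hz.1
    rwa [mem_ball_zero_iff] at this
  · unfold Wf
    rw [if_neg h]

theorem Wf_reg_L2 {F P Q H : ℂ → ℂ} {T : ℝ → ℝ}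
    (hUo : IsOpen (Us P Q))
    (hFo : IsOpen (F '' ball 0 1))
    (hinv : ContDiffOn ℝ 1 (Function.invFunOn F (ball 0 1)) (F '' ball 0 1))
    (hinv2 : ∀ z ∈ ball (0:ℂ) 1, Function.invFunOn F (ball 0 1) (F z) = z)
    {z0 : ℂ} (hz0 : z0 ∈ Us P Q) : ∀ᶠ w in 𝓝 (F z0), Wf T H F P Q w = 0 := by
  have hzb : z0 ∈ ball (0:ℂ) 1 := hz0.1
  have hc : ContinuousAt (Function.invFunOn F (ball 0 1)) (F z0) :=
    (hinv.contDiffAt (hFo.mem_nhds ⟨z0, hzb, rfl⟩)).continuousAt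
  have hU : Us P Q ∈ 𝓝 (Function.invFunOn F (ball 0 1) (F z0)) := by
    rw [hinv2 z0 hzb]
    exact hUo.mem_nhds hz0
  filter_upwards [hc.eventually_mem hU] with w hw
  unfold Wf
  rw [if_neg]
  rintro ⟨z, hz, rfl⟩
  rw [hinv2 z hz.1] at hw
  exact hz.2 hw.2

theorem Wf_reg_dich {P Q : ℂ → ℂ} {z : ℂ} (hz : z ∈ ball (0:ℂ) 1) :
    z ∈ Us P Q ∨ z ∈ Vs P Q := by
  by_cases h : P z ∈ Q '' ball 0 1
  · exact Or.inl ⟨hz, h⟩
  · exact Or.inr ⟨hz, h⟩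

theorem Wf_reg_neg {F P Q : ℂ → ℂ} (c : Cfg F P Q) {z : ℂ} (hz : z ∈ Vs P Q) :
    -z ∈ Vs P Q := by
  have hb : -z ∈ ball (0:ℂ) 1 := by
    rw [mem_ball_zero_iff, norm_neg, ← mem_ball_zero_iff]
    exact hz.1
  refine ⟨hb, ?_⟩
  rintro ⟨u, hu, hu2⟩
  refine hz.2 ⟨-u, ?_, ?_⟩
  · rw [mem_ball_zero_iff, norm_neg, ← mem_ball_zero_iff]
    exact hu
  · rw [c.oQ u hu, hu2, c.oP z hz.1, neg_neg]

/-- regularity of the second-sheet function -/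
theorem Wf_reg {F P Q H : ℂ → ℂ} (c : Cfg F P Q) (hH : Adm H) {ε : ℝ} (hε : 0 < ε) {T : ℝ → ℝ} (hT : Trunc ε T)
    (LA : ∀ w0 : ℂ, w0 ∉ F '' ball 0 1 → ∀ r < (1:ℝ), ∀ᶠ w in 𝓝 w0, ∀ z ∈ Vs P Q, F z = w → r < ‖P z‖)
    (Vint : ∀ z0 ∈ Vs P Q, ‖F z0‖ ≠ 1 → ∀ᶠ z in 𝓝 z0, z ∈ Vs P Q)
    (hUo : IsOpen (Us P Q))
    (hUs : ∀ z ∈ Us P Q, ‖F z‖ < 1 ∧ Q (F z) = P z)
    (hFo : IsOpen (F '' ball 0 1))
    (hinv : ContDiffOn ℝ 1 (Function.invFunOn F (ball 0 1)) (F '' ball 0 1))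
    (hinv2 : ∀ z ∈ ball (0:ℂ) 1, Function.invFunOn F (ball 0 1) (F z) = z) :
    (∀ w : ℂ, ‖w‖ ≠ 1 → ContDiffAt ℝ 1 (Wf T H F P Q) w) ∧
    ContinuousOn (Wf T H F P Q) {w | 1 ≤ ‖w‖} ∧
    (∃ R : ℝ, 1 < R ∧ ∀ w : ℂ, R ≤ ‖w‖ → Wf T H F P Q w = 0) ∧
    (∀ w : ℂ, Wf T H F P Q (-w) = - Wf T H F P Q w) ∧
    (∀ w : ℂ, ‖w‖ ≠ 1 → w ∉ F '' Vs P Q → ∀ᶠ w' in 𝓝 w, Wf T H F P Q w' = 0) ∧
    (∀ z ∈ Vs P Q, ‖F z‖ ≠ 1 → ∀ᶠ z' in 𝓝 z, Wf T H F P Q (F z') = T (H (P z')).re) := by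
  have L1 : ∀ {w0 : ℂ}, w0 ∉ F '' ball 0 1 → ∀ᶠ w in 𝓝 w0, Wf T H F P Q w = 0 :=
    fun hw0 => Wf_reg_L1 c hH hε hT LA hinv2 hw0
  have L2 : ∀ {z0 : ℂ}, z0 ∈ Us P Q → ∀ᶠ w in 𝓝 (F z0), Wf T H F P Q w = 0 :=
    fun hz0 => Wf_reg_L2 hUo hFo hinv hinv2 hz0
  have hzero : ∀ {w0 : ℂ}, (∀ᶠ w in 𝓝 w0, Wf T H F P Q w = 0) →
      ContDiffAt ℝ 1 (Wf T H F P Q) w0 := by
    intro w0 h
    exact (contDiffAt_const (c := (0:ℝ))).congr_of_eventuallyEq h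
  have hcinv : ∀ {z0 : ℂ}, z0 ∈ ball (0:ℂ) 1 →
      ContinuousAt (Function.invFunOn F (ball 0 1)) (F z0) := fun {z0} hz0 =>
    (hinv.contDiffAt (hFo.mem_nhds ⟨z0, hz0, rfl⟩)).continuousAt
  have hFinv : ∀ w ∈ F '' ball (0:ℂ) 1, F (Function.invFunOn F (ball 0 1) w) = w := by
    rintro w ⟨z, hz, rfl⟩
    rw [hinv2 z hz]
  have hWeq : ∀ w ∈ F '' ball (0:ℂ) 1, Function.invFunOn F (ball 0 1) w ∈ Vs P Q →
      Wf T H F P Q w = T (H (P (Function.invFunOn F (ball 0 1) w))).re := by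
    intro w hw h
    have := Wf_reg_val (T := T) (H := H) hinv2 h
    rw [hFinv w hw] at this
    exact this
  refine ⟨?_, ?_, ?_, ?_, ?_, ?_⟩
  · intro w hw
    by_cases h : w ∈ F '' ball 0 1
    · obtain ⟨z, hz, rfl⟩ := h
      rcases Wf_reg_dich (P := P) (Q := Q) hz with hU | hV
      · exact hzero (L2 hU)
      · refine (Wf_reg_contDiffAt c hH hT hFo hinv hinv2 hV).congr_of_eventuallyEq ?_
        have hV' : ∀ᶠ z' in 𝓝 (Function.invFunOn F (ball 0 1) (F z)), z' ∈ Vs P Q := by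
          rw [hinv2 z hz]
          exact Vint z hV hw
        filter_upwards [(hcinv hz).eventually hV', hFo.mem_nhds ⟨z, hz, rfl⟩] with w' hw' hw''
        exact hWeq w' hw'' hw'
    · exact hzero (L1 h)
  · intro w0 hw0
    by_cases h : w0 ∈ F '' ball 0 1
    · obtain ⟨z, hz, rfl⟩ := h
      have hV : z ∈ Vs P Q := by
        rcases Wf_reg_dich (P := P) (Q := Q) hz with hU | hV
        · exact absurd (hUs z hU).1 (not_lt.2 hw0)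
        · exact hV
      have hcont := (Wf_reg_contDiffAt c hH hT hFo hinv hinv2 hV).continuousAt.continuousWithinAt
        (s := {w : ℂ | 1 ≤ ‖w‖})
      have hev : ∀ w' ∈ F '' ball (0:ℂ) 1, 1 ≤ ‖w'‖ →
          Wf T H F P Q w' = T (H (P (Function.invFunOn F (ball 0 1) w'))).re := by
        rintro w' ⟨z', hz', rfl⟩ h1
        refine hWeq _ ⟨z', hz', rfl⟩ ?_
        rw [hinv2 z' hz']
        rcases Wf_reg_dich (P := P) (Q := Q) hz' with hU | hV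
        · exact absurd (hUs z' hU).1 (not_lt.2 h1)
        · exact hV
      refine hcont.congr_of_eventuallyEq ?_ (hev _ ⟨z, hz, rfl⟩ hw0)
      filter_upwards [mem_nhdsWithin_of_mem_nhds (hFo.mem_nhds ⟨z, hz, rfl⟩),
        self_mem_nhdsWithin] with w' hw' hw''
      exact hev w' hw' hw''
    · exact (hzero (L1 h)).continuousAt.continuousWithinAt
  · obtain ⟨C, hC⟩ := c.bF
    refine ⟨max C 1 + 1, by linarith [le_max_right C 1], ?_⟩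
    intro w hw
    unfold Wf
    rw [if_neg]
    rintro ⟨z, hz, rfl⟩
    have h1 := hC z hz.1
    have h2 := le_max_left C 1
    linarith
  · intro w
    by_cases h : w ∈ F '' Vs P Q
    · obtain ⟨z, hz, rfl⟩ := h
      have h1 : -F z = F (-z) := (c.oF z hz.1).symm
      rw [h1, Wf_reg_val hinv2 (Wf_reg_neg c hz), Wf_reg_val hinv2 hz, c.oP z hz.1, hH.odd,
        Complex.neg_re, hT.odd]
    · have h' : -w ∉ F '' Vs P Q := by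
        rintro ⟨z, hz, hzw⟩
        refine h ⟨-z, Wf_reg_neg c hz, ?_⟩
        rw [c.oF z hz.1, hzw, neg_neg]
      unfold Wf
      rw [if_neg h, if_neg h', neg_zero]
  · intro w hw hwV
    by_cases h : w ∈ F '' ball 0 1
    · obtain ⟨z, hz, rfl⟩ := h
      rcases Wf_reg_dich (P := P) (Q := Q) hz with hU | hV
      · exact L2 hU
      · exact absurd ⟨z, hV, rfl⟩ hwV
    · exact L1 h
  · intro z hz hFz
    filter_upwards [Vint z hz hFz] with z' hz'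
    exact Wf_reg_val hinv2 hz'


end Pool.Agent.Helper859.Br.B4
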