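import Pool.Agent.Helper859.Br.Defs
set_option linter.all false
open Complex MeasureTheory Set Filter Topology Metric

namespace Pool.Agent.Helper859.Br.B5
open Pool.Agent.Helper859.Br

/-- energy of the second sheet function -/
theorem Wf_energy {F P Q H : ℂ → ℂ} (c : Cfg F P Q) (hH : Adm H) {ε : ℝ} (hε : 0 < ε) {T : ℝ → ℝ} (hT : Trunc ε T)
    (cv : ∀ (f : ℂ → ℂ) (s A : Set ℂ), IsOpen s → DifferentiableOn ℂ f s → InjOn f s → MeasurableSet A → A ⊆ s →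
      ∀ g : ℂ → ENNReal, ∫⁻ w in f '' A, g w = ∫⁻ z in A, ENNReal.ofReal (‖deriv f z‖ ^ 2) * g (f z))
    (gn_comp : ∀ (v : ℂ → ℝ) (h : ℂ → ℂ) (z h' : ℂ), HasDerivAt h h' z →
      DifferentiableAt ℝ v (h z) → gn (fun z => v (h z)) z = gn v (h z) * ‖h'‖ ^ 2)
    (gn_T : ∀ (T : ℝ → ℝ) (H : ℂ → ℂ) (z H' : ℂ), ContDiff ℝ 1 T → HasDerivAt H H' z →
      gn (fun z => T (H z).re) z = (deriv T (H z).re) ^ 2 * ‖H'‖ ^ 2)
    (gn_congr : ∀ (v u : ℂ → ℝ) (z : ℂ), v =ᶠ[𝓝 z] u → gn v z = gn u z)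
    (Vint : ∀ z0 ∈ Vs P Q, ‖F z0‖ ≠ 1 → ∀ᶠ z in 𝓝 z0, z ∈ Vs P Q)
    (hVm : MeasurableSet (Vs P Q))
    (hd : ∀ w : ℂ, ‖w‖ ≠ 1 → ContDiffAt ℝ 1 (Wf T H F P Q) w)
    (hz : ∀ w : ℂ, ‖w‖ ≠ 1 → w ∉ F '' Vs P Q → ∀ᶠ w' in 𝓝 w, Wf T H F P Q w' = 0)
    (hw : ∀ z ∈ Vs P Q, ‖F z‖ ≠ 1 → ∀ᶠ z' in 𝓝 z, Wf T H F P Q (F z') = T (H (P z')).re)
    (hF' : ∀ z ∈ ball (0:ℂ) 1, deriv F z ≠ 0) :
    ∫⁻ w in {w : ℂ | ‖w‖ ≠ 1}, ENNReal.ofReal (gn (Wf T H F P Q) w) ≤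
      ∫⁻ t in ball (0:ℂ) 1 \ (Q '' ball 0 1), ENNReal.ofReal (deriv T (H t).re * ‖deriv H t‖ ^ 2) := by
  have hQ0 : Q 0 = 0 := by
    have h1 := c.oQ 0 (by simp)
    rw [neg_zero] at h1
    exact self_eq_neg.1 h1
  set A : Set ℂ := {z | z ∈ Vs P Q ∧ ‖F z‖ ≠ 1} with hA
  have hAb : A ⊆ ball 0 1 := fun z hz => hz.1.1
  have hAo : IsOpen A := by
    rw [isOpen_iff_mem_nhds]
    intro z hz
    have h1 : ContinuousAt F z := (c.dF.differentiableAt (isOpen_ball.mem_nhds (hAb hz))).continuousAt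
    have h2 : ∀ᶠ z' in 𝓝 z, ‖F z'‖ ≠ 1 := h1.norm.eventually_ne hz.2
    filter_upwards [Vint z hz.1 hz.2, h2] with z' h3 h4
    exact ⟨h3, h4⟩
  have hAm : MeasurableSet A := hAo.measurableSet
  have hFA : MeasurableSet (F '' A) :=
    hAm.image_of_continuousOn_injOn (c.dF.continuousOn.mono hAb) (c.iF.mono hAb)
  have hS : MeasurableSet {w : ℂ | ‖w‖ ≠ 1} :=
    (isOpen_ne.preimage continuous_norm).measurableSet
  have h0 : ∀ z, gn (fun _ => (0:ℝ)) z = 0 := by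
    intro z
    simp [gn]
  have hstep1 : ∫⁻ w in {w : ℂ | ‖w‖ ≠ 1}, ENNReal.ofReal (gn (Wf T H F P Q) w) ≤
      ∫⁻ w in F '' A, ENNReal.ofReal (gn (Wf T H F P Q) w) := by
    rw [← lintegral_indicator hFA]
    refine le_trans ?_ (setLIntegral_le_lintegral {w : ℂ | ‖w‖ ≠ 1} _)
    refine setLIntegral_mono' hS ?_
    intro w hw1
    by_cases hwA : w ∈ F '' Vs P Q
    · have h2 : w ∈ F '' A := by
        obtain ⟨z, hz1, rfl⟩ := hwA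
        exact ⟨z, ⟨hz1, hw1⟩, rfl⟩
      rw [Set.indicator_of_mem h2]
    · rw [gn_congr _ _ _ (hz w hw1 hwA), h0]
      simp
  refine hstep1.trans ?_
  rw [cv F (ball 0 1) A isOpen_ball c.dF c.iF hAm hAb]
  have hPA : P '' A ⊆ ball (0:ℂ) 1 \ (Q '' ball 0 1) := by
    rintro _ ⟨z, hz1, rfl⟩
    exact ⟨c.mP (hAb hz1), hz1.1.2⟩
  refine le_trans ?_ (lintegral_mono_set hPA)
  rw [cv P (ball 0 1) A isOpen_ball c.dP c.iP hAm hAb]
  refine setLIntegral_mono' hAm ?_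
  intro z hzA
  have hzb := hAb hzA
  have hdF : HasDerivAt F (deriv F z) z :=
    (c.dF.differentiableAt (isOpen_ball.mem_nhds hzb)).hasDerivAt
  have hdP : HasDerivAt P (deriv P z) z :=
    (c.dP.differentiableAt (isOpen_ball.mem_nhds hzb)).hasDerivAt
  have hP0 : P z ≠ 0 := by
    intro h
    apply hzA.1.2
    rw [h]
    exact ⟨0, by simp, hQ0⟩
  have hdH : HasDerivAt H (deriv H (P z)) (P z) :=
    (hH.d.differentiableAt (isOpen_compl_singleton.mem_nhds hP0)).hasDerivAt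
  have hdHP : HasDerivAt (fun z => H (P z)) (deriv H (P z) * deriv P z) z := hdH.comp z hdP
  have e1 := gn_comp (Wf T H F P Q) F z (deriv F z) hdF
    ((hd (F z) hzA.2).differentiableAt one_ne_zero)
  have e2 := gn_congr _ _ z (hw z hzA.1 hzA.2)
  have e3 := gn_T T (fun z => H (P z)) z _ hT.c1 hdHP
  rw [← ENNReal.ofReal_mul (by positivity), ← ENNReal.ofReal_mul (by positivity)]
  apply ENNReal.ofReal_le_ofReal
  rw [mul_comm, ← e1, e2, e3, norm_mul]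
  have hd0 := hT.d0 (H (P z)).re
  have hd1 := hT.d1 (H (P z)).re
  have h5 : (deriv T (H (P z)).re) ^ 2 ≤ deriv T (H (P z)).re := by nlinarith
  have h6 : 0 ≤ (‖deriv H (P z)‖ * ‖deriv P z‖) ^ 2 := by positivity
  calc (deriv T (H (P z)).re) ^ 2 * (‖deriv H (P z)‖ * ‖deriv P z‖) ^ 2
      ≤ deriv T (H (P z)).re * (‖deriv H (P z)‖ * ‖deriv P z‖) ^ 2 :=
        mul_le_mul_of_nonneg_right h5 h6
    _ = ‖deriv P z‖ ^ 2 * (deriv T (H (P z)).re * ‖deriv H (P z)‖ ^ 2) := by ring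

end Pool.Agent.Helper859.Br.B5
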