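import Pool.Agent.Helper859.Br.Defs
set_option linter.all false
open Complex MeasureTheory Set Filter Topology Metric

namespace Pool.Agent.Helper859.Br.C2
open Pool.Agent.Helper859.Br

theorem ext_cd {n : WithTop ℕ∞} (b : ℂ → ℝ)
    (h1 : ∀ t : ℂ, t ≠ 0 → ‖t‖ < 1 → ContDiffAt ℝ n b t)
    (h0 : ∀ᶠ t in 𝓝 (0:ℂ), b t = 0) (r : ℝ) (hr1 : r < 1)
    (hr : ∀ t : ℂ, r < ‖t‖ → ‖t‖ < 1 → b t = 0) : ContDiff ℝ n ((ball (0:ℂ) 1).indicator b) := by
  rw [contDiff_iff_contDiffAt]
  intro t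
  by_cases ht : ‖t‖ < 1
  · have hev : (ball (0:ℂ) 1).indicator b =ᶠ[𝓝 t] b := by
      filter_upwards [isOpen_ball.mem_nhds (mem_ball_zero_iff.2 ht)] with s hs
      exact indicator_of_mem hs b
    by_cases h : t = 0
    · subst h
      have : (ball (0:ℂ) 1).indicator b =ᶠ[𝓝 (0:ℂ)] fun _ => (0:ℝ) := hev.trans h0
      exact contDiffAt_const.congr_of_eventuallyEq this
    · exact (h1 t h ht).congr_of_eventuallyEq hev
  · have hlt : r < ‖t‖ := lt_of_lt_of_le hr1 (not_lt.1 ht)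
    have hev : (ball (0:ℂ) 1).indicator b =ᶠ[𝓝 t] fun _ => (0:ℝ) := by
      filter_upwards [(isOpen_lt continuous_const continuous_norm).mem_nhds hlt] with s hs
      by_cases hs1 : s ∈ ball (0:ℂ) 1
      · rw [indicator_of_mem hs1]
        exact hr s hs (mem_ball_zero_iff.1 hs1)
      · exact indicator_of_notMem hs1 b
    exact contDiffAt_const.congr_of_eventuallyEq hev

theorem ext_cs (b : ℂ → ℝ) : HasCompactSupport ((ball (0:ℂ) 1).indicator b) := by
  refine HasCompactSupport.intro (isCompact_closedBall (0:ℂ) 1) (fun x hx => ?_)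
  exact indicator_of_notMem (fun h => hx (ball_subset_closedBall h)) b

theorem ext_int (b : ℂ → ℝ) (hb : ContDiff ℝ 0 ((ball (0:ℂ) 1).indicator b)) :
    IntegrableOn b (ball 0 1) := by
  have h := hb.continuous.integrable_of_hasCompactSupport (μ := volume) (ext_cs b)
  rwa [integrable_indicator_iff measurableSet_ball] at h

theorem int_zero (Z : ℂ → ℝ) (hZ : ContDiff ℝ 1 Z) (hc : HasCompactSupport Z) (v : ℂ) :
    Integrable (fun t => fderiv ℝ Z t v) ∧ ∫ t, fderiv ℝ Z t v = 0 := by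
  have hcont : Continuous (fun t => fderiv ℝ Z t v) :=
    (hZ.continuous_fderiv (by norm_num)).clm_apply continuous_const
  have hi : Integrable (fun t => fderiv ℝ Z t v) :=
    hcont.integrable_of_hasCompactSupport (hc.fderiv_apply (𝕜 := ℝ) v)
  refine ⟨hi, ?_⟩
  have key := integral_mul_fderiv_eq_neg_fderiv_mul_of_integrable (μ := (volume : Measure ℂ))
    (f := fun _ : ℂ => (1:ℝ)) (g := Z) (v := v) (by simp) (by simpa using hi)
    (by simpa using hZ.continuous.integrable_of_hasCompactSupport hc)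
    (fun x _ => differentiableAt_const _) (fun x _ => (hZ.differentiable (by norm_num)) x)
  simpa using key

theorem dT_zero {ε : ℝ} (hε : 0 < ε) {T : ℝ → ℝ} (hT : Trunc ε T) (x : ℝ) (hx : |x| ≤ ε) :
    deriv T x = 0 := by
  have hc : IsClosed {x | deriv T x = 0} :=
    isClosed_eq (hT.c1.continuous_deriv (by norm_num)) continuous_const
  have hsub : Ioo (-ε) ε ⊆ {x | deriv T x = 0} := by
    intro y hy
    have : T =ᶠ[𝓝 y] fun _ => (0:ℝ) := by
      filter_upwards [isOpen_Ioo.mem_nhds hy] with s hs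
      exact hT.z s (abs_le.2 ⟨hs.1.le, hs.2.le⟩)
    show deriv T y = 0
    rw [this.deriv_eq]
    simp
  have h2 := closure_minimal hsub hc
  rw [closure_Ioo (by linarith)] at h2
  exact h2 (abs_le.1 hx)

/-- integration by parts with truncation (no boundary term since T(Re H) vanishes near the unit circle) -/
theorem partsT {H : ℂ → ℂ} (hH : Adm H) {ε : ℝ} (hε : 0 < ε) {T : ℝ → ℝ} (hT : Trunc ε T)
    {Φ : ℂ → ℝ} (hΦ : ContDiff ℝ 1 Φ) (hΦ0 : ∀ᶠ t in 𝓝 (0:ℂ), Φ t = 0) :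
    IntegrableOn (fun t => Φ t * (deriv T (H t).re * ‖deriv H t‖ ^ 2)) (ball 0 1) ∧
    ∫ t in ball (0:ℂ) 1, Φ t * (deriv T (H t).re * ‖deriv H t‖ ^ 2) =
      - ∫ t in ball (0:ℂ) 1, T (H t).re * fderiv ℝ Φ t ((starRingEnd ℂ) (deriv H t)) := by
  -- the radius
  obtain ⟨r0, hr0, hrb0⟩ := hH.b ε hε
  set r := r0 with hr
  have hu : ∀ t : ℂ, r < ‖t‖ → ‖t‖ < 1 → |(H t).re| ≤ ε := fun t h1 h2 => hrb0 t h1.le h2
  have hTc := hT.c1
  have hdTc : Continuous (deriv T) := hTc.continuous_deriv (by norm_num)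
  have hopen : IsOpen ({0}ᶜ : Set ℂ) := isOpen_compl_singleton
  have hAn : ∀ t : ℂ, t ≠ 0 → AnalyticAt ℂ H t := fun t ht =>
    hH.d.analyticAt (hopen.mem_nhds ht)
  have hAn' : ∀ t : ℂ, t ≠ 0 → AnalyticAt ℂ (deriv H) t := fun t ht => (hAn t ht).deriv
  have cH : ∀ {n : WithTop ℕ∞} (t : ℂ), t ≠ 0 → ContDiffAt ℝ n H t := fun t ht =>
    ((hAn t ht).contDiffAt).restrict_scalars ℝ
  have cH' : ∀ {n : WithTop ℕ∞} (t : ℂ), t ≠ 0 → ContDiffAt ℝ n (deriv H) t := fun t ht =>
    ((hAn' t ht).contDiffAt).restrict_scalars ℝ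
  have cu : ∀ {n : WithTop ℕ∞} (t : ℂ), t ≠ 0 → ContDiffAt ℝ n (fun s => (H s).re) t :=
    fun t ht => reCLM.contDiff.contDiffAt.comp t (cH t ht)
  have cre : ∀ {n : WithTop ℕ∞} (t : ℂ), t ≠ 0 → ContDiffAt ℝ n (fun s => (deriv H s).re) t :=
    fun t ht => reCLM.contDiff.contDiffAt.comp t (cH' t ht)
  have cim : ∀ {n : WithTop ℕ∞} (t : ℂ), t ≠ 0 → ContDiffAt ℝ n (fun s => (deriv H s).im) t :=
    fun t ht => imCLM.contDiff.contDiffAt.comp t (cH' t ht)
  have cTu : ∀ t : ℂ, t ≠ 0 → ContDiffAt ℝ 1 (fun s => T (H s).re) t :=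
    fun t ht => hTc.contDiffAt.comp t (cu t ht)
  have cp : ∀ t : ℂ, t ≠ 0 → ContDiffAt ℝ 1 (fun s => Φ s * T (H s).re) t :=
    fun t ht => hΦ.contDiffAt.mul (cTu t ht)
  set b1 : ℂ → ℝ := fun t => Φ t * T (H t).re * (deriv H t).re with hb1
  set b2 : ℂ → ℝ := fun t => Φ t * T (H t).re * (-(deriv H t).im) with hb2
  set b3 : ℂ → ℝ := fun t => Φ t * (deriv T (H t).re * ‖deriv H t‖ ^ 2) with hb3
  set b4 : ℂ → ℝ := fun t => T (H t).re * fderiv ℝ Φ t ((starRingEnd ℂ) (deriv H t)) with hb4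
  have hfd0 : ∀ᶠ t in 𝓝 (0:ℂ), fderiv ℝ Φ t = 0 := by
    have h1 := hΦ0.eventually_nhds
    filter_upwards [h1] with t ht
    have : Φ =ᶠ[𝓝 t] fun _ => (0:ℝ) := ht
    rw [this.fderiv_eq]; simp
  have z1 : ContDiff ℝ 1 ((ball (0:ℂ) 1).indicator b1) := by
    refine ext_cd b1 (fun t ht _ => (cp t ht).mul (cre t ht)) ?_ r hr0 ?_
    · filter_upwards [hΦ0] with t ht
      simp [hb1, ht]
    · intro t h1 h2
      simp [hb1, hT.z _ (hu t h1 h2)]
  have z2 : ContDiff ℝ 1 ((ball (0:ℂ) 1).indicator b2) := by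
    refine ext_cd b2 (fun t ht _ => (cp t ht).mul (cim t ht).neg) ?_ r hr0 ?_
    · filter_upwards [hΦ0] with t ht
      simp [hb2, ht]
    · intro t h1 h2
      simp [hb2, hT.z _ (hu t h1 h2)]
  have z3 : ContDiff ℝ 0 ((ball (0:ℂ) 1).indicator b3) := by
    refine ext_cd b3 (fun t ht _ => ?_) ?_ r hr0 ?_
    · have e1 : ContDiffAt ℝ 0 (fun s => deriv T (H s).re) t :=
        (contDiff_zero.2 hdTc).contDiffAt.comp t (cu t ht)
      have e2 : ContDiffAt ℝ 0 (fun s => ‖deriv H s‖ ^ 2) t :=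
        (contDiff_zero.2 (continuous_norm.pow 2) :
          ContDiff ℝ 0 (fun z : ℂ => ‖z‖ ^ 2)).contDiffAt.comp t (cH' t ht)
      exact (hΦ.of_le (by norm_num)).contDiffAt.mul (e1.mul e2)
    · filter_upwards [hΦ0] with t ht
      simp [hb3, ht]
    · intro t h1 h2
      simp [hb3, dT_zero hε hT _ (hu t h1 h2)]
  have z4 : ContDiff ℝ 0 ((ball (0:ℂ) 1).indicator b4) := by
    refine ext_cd b4 (fun t ht _ => ?_) ?_ r hr0 ?_
    · have e1 : ContDiffAt ℝ 0 (fun s => T (H s).re) t := (cTu t ht).of_le (by norm_num)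
      have e2 : ContDiffAt ℝ 0 (fun s => fderiv ℝ Φ s) t :=
        (contDiff_zero.2 (hΦ.continuous_fderiv (by norm_num))).contDiffAt
      have e3 : ContDiffAt ℝ 0 (fun s => (starRingEnd ℂ) (deriv H s)) t :=
        Complex.conjCLE.contDiff.contDiffAt.comp t (cH' t ht)
      exact e1.mul (e2.clm_apply e3)
    · filter_upwards [hfd0] with t ht
      simp [hb4, ht]
    · intro t h1 h2
      simp [hb4, hT.z _ (hu t h1 h2)]
  have i3 := ext_int b3 z3
  have i4 := ext_int b4 z4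
  refine ⟨i3, ?_⟩
  obtain ⟨j1, k1⟩ := int_zero _ z1 (ext_cs b1) 1
  obtain ⟨j2, k2⟩ := int_zero _ z2 (ext_cs b2) I
  have key : ∀ t, fderiv ℝ ((ball (0:ℂ) 1).indicator b1) t 1 +
      fderiv ℝ ((ball (0:ℂ) 1).indicator b2) t I = (ball (0:ℂ) 1).indicator (fun t => b3 t + b4 t) t := by
    intro t
    by_cases ht : ‖t‖ < 1
    · have hmem : t ∈ ball (0:ℂ) 1 := mem_ball_zero_iff.2 ht
      have hev : ∀ b : ℂ → ℝ, (ball (0:ℂ) 1).indicator b =ᶠ[𝓝 t] b := by
        intro b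
        filter_upwards [isOpen_ball.mem_nhds hmem] with s hs
        exact indicator_of_mem hs b
      rw [(hev b1).fderiv_eq, (hev b2).fderiv_eq, indicator_of_mem hmem]
      by_cases h0 : t = 0
      · subst h0
        have e1 : b1 =ᶠ[𝓝 (0:ℂ)] fun _ => (0:ℝ) := by
          filter_upwards [hΦ0] with t ht
          simp [hb1, ht]
        have e2 : b2 =ᶠ[𝓝 (0:ℂ)] fun _ => (0:ℝ) := by
          filter_upwards [hΦ0] with t ht
          simp [hb2, ht]
        rw [e1.fderiv_eq, e2.fderiv_eq]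
        simp [hb3, hb4, hΦ0.self_of_nhds, hfd0.self_of_nhds]
      · -- derivatives
        have dH : HasFDerivAt H ((deriv H t) • (1 : ℂ →L[ℝ] ℂ)) t :=
          (hAn t h0).differentiableAt.hasDerivAt.complexToReal_fderiv
        have dH' : HasFDerivAt (deriv H) ((deriv (deriv H) t) • (1 : ℂ →L[ℝ] ℂ)) t :=
          (hAn' t h0).differentiableAt.hasDerivAt.complexToReal_fderiv
        have du : HasFDerivAt (fun s => (H s).re) (reCLM.comp ((deriv H t) • (1 : ℂ →L[ℝ] ℂ))) t :=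
          reCLM.hasFDerivAt.comp t dH
        have dre : HasFDerivAt (fun s => (deriv H s).re)
            (reCLM.comp ((deriv (deriv H) t) • (1 : ℂ →L[ℝ] ℂ))) t :=
          reCLM.hasFDerivAt.comp t dH'
        have dim : HasFDerivAt (fun s => (deriv H s).im)
            (imCLM.comp ((deriv (deriv H) t) • (1 : ℂ →L[ℝ] ℂ))) t :=
          imCLM.hasFDerivAt.comp t dH'
        have dT : HasDerivAt T (deriv T (H t).re) (H t).re :=
          ((hTc.differentiable (by norm_num)) _).hasDerivAt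
        have dTu : HasFDerivAt (fun s => T (H s).re)
            ((deriv T (H t).re) • (reCLM.comp ((deriv H t) • (1 : ℂ →L[ℝ] ℂ)))) t :=
          dT.comp_hasFDerivAt t du
        have dΦ : HasFDerivAt Φ (fderiv ℝ Φ t) t := ((hΦ.differentiable (by norm_num)) t).hasFDerivAt
        have dp := dΦ.mul dTu
        have d1 := dp.mul dre
        have d2 := dp.mul dim.neg
        have f1 : fderiv ℝ b1 t = _ := d1.fderiv
        have f2 : fderiv ℝ b2 t = _ := d2.fderiv
        rw [f1, f2]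
        have hconj : (starRingEnd ℂ) (deriv H t) =
            (deriv H t).re • (1:ℂ) + (-(deriv H t).im) • I := by
          apply Complex.ext <;> simp
        have hns : ‖deriv H t‖ ^ 2 = (deriv H t).re ^ 2 + (deriv H t).im ^ 2 := by
          rw [← Complex.normSq_eq_norm_sq, Complex.normSq_apply]; ring
        have hlin : fderiv ℝ Φ t ((starRingEnd ℂ) (deriv H t)) =
            (deriv H t).re * fderiv ℝ Φ t 1 + (-(deriv H t).im) * fderiv ℝ Φ t I := by
          rw [hconj, map_add, map_smul, map_smul, smul_eq_mul, smul_eq_mul]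
        simp only [hb3, hb4]
        rw [hlin, hns]
        simp
        ring
    · have hlt : r < ‖t‖ := lt_of_lt_of_le hr0 (not_lt.1 ht)
      have hzero : ∀ b : ℂ → ℝ, (∀ s : ℂ, r < ‖s‖ → ‖s‖ < 1 → b s = 0) →
          (ball (0:ℂ) 1).indicator b =ᶠ[𝓝 t] fun _ => (0:ℝ) := by
        intro b hb
        filter_upwards [(isOpen_lt continuous_const continuous_norm).mem_nhds hlt] with s hs
        by_cases hs1 : s ∈ ball (0:ℂ) 1
        · rw [indicator_of_mem hs1]
          exact hb s hs (mem_ball_zero_iff.1 hs1)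
        · exact indicator_of_notMem hs1 b
      rw [(hzero b1 (fun s h1 h2 => by simp [hb1, hT.z _ (hu s h1 h2)])).fderiv_eq,
        (hzero b2 (fun s h1 h2 => by simp [hb2, hT.z _ (hu s h1 h2)])).fderiv_eq,
        indicator_of_notMem (fun h => ht (mem_ball_zero_iff.1 h))]
      simp
  have hsum : ∫ t, (ball (0:ℂ) 1).indicator (fun t => b3 t + b4 t) t = 0 := by
    simp_rw [← key]
    rw [integral_add j1 j2, k1, k2, add_zero]
  rw [integral_indicator measurableSet_ball, integral_add i3 i4] at hsum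
  linarith

end Pool.Agent.Helper859.Br.C2
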