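import Pool.Agent.Helper859.Br.Defs
set_option linter.all false
open Complex MeasureTheory Set Filter Topology Metric

namespace Pool.Agent.Helper859.Br.C3
open Pool.Agent.Helper859.Br

private theorem c3_det_mul (c : ℂ) :
    ((ContinuousLinearMap.toSpanSingleton ℂ c).restrictScalars ℝ).det = ‖c‖ ^ 2 := by
  have : (((ContinuousLinearMap.toSpanSingleton ℂ c).restrictScalars ℝ : ℂ →L[ℝ] ℂ) : ℂ →ₗ[ℝ] ℂ) = ((LinearMap.toSpanSingleton ℂ ℂ c).restrictScalars ℝ) := by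
    ext <;> simp
  rw [ContinuousLinearMap.det, this, LinearMap.det_restrictScalars]
  simp [Algebra.norm_complex_apply, Complex.normSq_eq_norm_sq]

/-- gradient as complex number -/
private noncomputable def c3_gr (Φ : ℂ → ℝ) (w : ℂ) : ℂ :=
  (fderiv ℝ Φ w 1 : ℝ) + (fderiv ℝ Φ w I : ℝ) * I

private theorem c3_fderiv_eq_gr {Φ : ℂ → ℝ} (w v : ℂ) :
    fderiv ℝ Φ w v = ((starRingEnd ℂ) (c3_gr Φ w) * v).re := by
  have hv : v = v.re • (1 : ℂ) + v.im • I := by
    simp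
  conv_lhs => rw [hv, map_add, map_smul, map_smul]
  simp [c3_gr]
  ring

private theorem c3_gr_comp {Φ : ℂ → ℝ} {h : ℂ → ℂ} {z h' : ℂ} (hh : HasDerivAt h h' z)
    (hΦ : DifferentiableAt ℝ Φ (h z)) :
    c3_gr (fun z => Φ (h z)) z = c3_gr Φ (h z) * (starRingEnd ℂ) h' := by
  have h1 : ∀ v, fderiv ℝ (fun z => Φ (h z)) z v = fderiv ℝ Φ (h z) (h' * v) := by
    intro v
    have h2 : HasFDerivAt (fun z => Φ (h z)) ((fderiv ℝ Φ (h z)).comp
        ((ContinuousLinearMap.toSpanSingleton ℂ h').restrictScalars ℝ)) z :=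
      hΦ.hasFDerivAt.comp z (hh.hasFDerivAt.restrictScalars ℝ)
    rw [h2.fderiv]
    simp [mul_comm]
  unfold c3_gr
  rw [h1, h1, c3_fderiv_eq_gr, c3_fderiv_eq_gr]
  unfold c3_gr
  apply Complex.ext <;> simp

private theorem c3_gr_radial {χ : ℝ → ℝ} (hχ : Differentiable ℝ χ) (z : ℂ) :
    c3_gr (fun z => χ (‖z‖ ^ 2)) z = ((deriv χ (‖z‖ ^ 2) : ℝ) : ℂ) * (2 * z) := by
  have h1 : HasFDerivAt (fun z : ℂ => ‖z‖ ^ 2) (2 • (innerSL ℝ z)) z := (hasStrictFDerivAt_norm_sq z).hasFDerivAt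
  have h2 : HasFDerivAt (fun z : ℂ => χ (‖z‖ ^ 2)) (deriv χ (‖z‖ ^ 2) • (2 • (innerSL ℝ z))) z :=
    (hχ _).hasDerivAt.comp_hasFDerivAt z h1
  unfold c3_gr
  rw [h2.fderiv]
  simp [Complex.inner]
  apply Complex.ext <;> simp

private theorem c3_polar {f : ℂ → ℝ} (hf : Continuous f) (hf0 : ∀ z, 1 ≤ ‖z‖ → f z = 0) :
    ∫ z, f z = ∫ r in Ioo (0:ℝ) 1, r * ∫ θ in (0:ℝ)..(2 * Real.pi), f (circleMap 0 r θ) := by
  set g : ℝ × ℝ → ℝ := fun p => p.1 • f (circleMap 0 p.1 p.2) with hg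
  have hcm : Continuous fun p : ℝ × ℝ => circleMap 0 p.1 p.2 := by
    unfold circleMap
    fun_prop
  have hgc : Continuous g := continuous_fst.smul (hf.comp hcm)
  have e1 : ∫ z, f z = ∫ p in polarCoord.target, g p := by
    rw [← Complex.integral_comp_polarCoord_symm]
    apply MeasureTheory.setIntegral_congr_fun polarCoord.open_target.measurableSet
    intro p _
    simp only [hg]
    congr 2
    rw [Complex.polarCoord_symm_apply, circleMap, zero_add, exp_mul_I, ofReal_cos, ofReal_sin]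
  have e2 : ∫ p in polarCoord.target, g p = ∫ p in Ioo (0:ℝ) 1 ×ˢ Ioo (-Real.pi) Real.pi, g p := by
    apply MeasureTheory.setIntegral_eq_of_subset_of_forall_sdiff_eq_zero polarCoord.open_target.measurableSet
    · rw [polarCoord_target]
      exact prod_mono Ioo_subset_Ioi_self Subset.rfl
    · rintro ⟨r, θ⟩ ⟨h1, h2⟩
      rw [polarCoord_target] at h1
      have hr : 1 ≤ r := by
        by_contra hlt
        push Not at hlt
        exact h2 ⟨⟨h1.1, hlt⟩, h1.2⟩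
      simp only [hg]
      rw [hf0 _ (by simpa [abs_of_nonneg (zero_le_one.trans hr)] using hr), smul_zero]
  have hint : IntegrableOn g (Ioo (0:ℝ) 1 ×ˢ Ioo (-Real.pi) Real.pi) (volume.prod volume) := by
    have h1 : IntegrableOn g (Icc (0:ℝ) 1 ×ˢ Icc (-Real.pi) Real.pi) (volume.prod volume) :=
      hgc.continuousOn.integrableOn_compact (isCompact_Icc.prod isCompact_Icc)
    exact h1.mono_set (prod_mono Ioo_subset_Icc_self Ioo_subset_Icc_self)
  have e3 : ∫ p in Ioo (0:ℝ) 1 ×ˢ Ioo (-Real.pi) Real.pi, g p = ∫ r in Ioo (0:ℝ) 1, ∫ θ in Ioo (-Real.pi) Real.pi, g (r, θ) :=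
    setIntegral_prod g hint
  have e4 : ∀ r : ℝ, ∫ θ in Ioo (-Real.pi) Real.pi, g (r, θ) = r * ∫ θ in (0:ℝ)..(2 * Real.pi), f (circleMap 0 r θ) := by
    intro r
    have hper : Function.Periodic (fun θ => f (circleMap 0 r θ)) (2 * Real.pi) := (periodic_circleMap 0 r).comp f
    have h2 := hper.intervalIntegral_add_eq (-Real.pi) 0
    rw [zero_add, show -Real.pi + 2 * Real.pi = Real.pi by ring] at h2
    rw [← h2, intervalIntegral.integral_of_le (by linarith [Real.pi_pos]), integral_Ioc_eq_integral_Ioo, ← integral_const_mul]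
    simp only [hg, smul_eq_mul]
  simp only [e4] at e3
  rw [e1, e2]
  exact e3

private theorem c3_d0 {χ : ℝ → ℝ} {c s : ℝ} {U : Set ℝ} (hU : IsOpen U) (hs : s ∈ U)
    (h : ∀ x ∈ U, χ x = c) : deriv χ s = 0 := by
  have h8 : χ =ᶠ[𝓝 s] fun _ => c := by
    filter_upwards [hU.mem_nhds hs] with x hx
    exact h x hx
  rw [h8.deriv_eq]
  simp

/-- pull back to the disc of Q -/
theorem pull {H Q : ℂ → ℂ} (hH : Adm H) (dQ : DifferentiableOn ℂ Q (ball 0 1)) (iQ : InjOn Q (ball 0 1))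
    (mQ : MapsTo Q (ball 0 1) (ball 0 1)) (Q0 : Q 0 = 0) {T : ℝ → ℝ} (hT : ContDiff ℝ 1 T)
    {χ : ℝ → ℝ} (hχ : ContDiff ℝ 1 χ) {a b : ℝ} (ha : 0 < a) (hab : a < b) (hb : b < 1)
    (h0 : ∀ s ≤ a, χ s = 0) (h1 : ∀ s, b ≤ s → χ s = 1)
    {Φ : ℂ → ℝ} (hΦ : ContDiff ℝ 1 Φ) (hΦQ : ∀ ω ∈ ball (0:ℂ) 1, Φ (Q ω) = χ (‖ω‖ ^ 2))
    (hΦ1 : ∀ t : ℂ, t ∉ Q '' ball 0 1 → ∀ᶠ v in 𝓝 t, Φ v = 1) :
    ∫ t in ball (0:ℂ) 1, T (H t).re * fderiv ℝ Φ t ((starRingEnd ℂ) (deriv H t)) =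
      ∫ ω in ball (0:ℂ) 1, T (H (Q ω)).re * (2 * deriv χ (‖ω‖ ^ 2) * (ω * deriv (fun x => H (Q x)) ω).re) := by
  have hχd : Differentiable ℝ χ := hχ.differentiable (by norm_num)
  have e1 : ∫ t in ball (0:ℂ) 1, T (H t).re * fderiv ℝ Φ t ((starRingEnd ℂ) (deriv H t)) =
      ∫ t in Q '' ball 0 1, T (H t).re * fderiv ℝ Φ t ((starRingEnd ℂ) (deriv H t)) := by
    apply MeasureTheory.setIntegral_eq_of_subset_of_forall_sdiff_eq_zero isOpen_ball.measurableSet
    · exact mQ.image_subset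
    · rintro t ⟨_, ht⟩
      have h2 : Φ =ᶠ[𝓝 t] fun _ => 1 := hΦ1 t ht
      rw [h2.fderiv_eq]
      simp
  have e2 : ∫ t in Q '' ball 0 1, T (H t).re * fderiv ℝ Φ t ((starRingEnd ℂ) (deriv H t)) =
      ∫ ω in ball (0:ℂ) 1, |((ContinuousLinearMap.toSpanSingleton ℂ
        (deriv Q ω)).restrictScalars ℝ).det| • (T (H (Q ω)).re * fderiv ℝ Φ (Q ω)
          ((starRingEnd ℂ) (deriv H (Q ω)))) := by
    apply integral_image_eq_integral_abs_det_fderiv_smul volume isOpen_ball.measurableSet _ iQ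
    intro z hz
    exact (((dQ z hz).differentiableAt (isOpen_ball.mem_nhds hz)).hasDerivAt.hasFDerivAt.restrictScalars ℝ).hasFDerivWithinAt
  rw [e1, e2]
  apply MeasureTheory.setIntegral_congr_fun isOpen_ball.measurableSet
  intro ω hω
  have hdω := ((dQ ω hω).differentiableAt (isOpen_ball.mem_nhds hω)).hasDerivAt
  have h3 := c3_gr_comp hdω (hΦ.differentiable (by norm_num) (Q ω))
  have h4 : c3_gr (fun z => Φ (Q z)) ω = c3_gr (fun z => χ (‖z‖ ^ 2)) ω := by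
    have h5 : (fun z => Φ (Q z)) =ᶠ[𝓝 ω] fun z => χ (‖z‖ ^ 2) := by
      filter_upwards [isOpen_ball.mem_nhds hω] with y hy
      exact hΦQ y hy
    unfold c3_gr
    rw [h5.fderiv_eq]
  rw [h4, c3_gr_radial hχd] at h3
  simp only
  rw [c3_det_mul, abs_of_nonneg (by positivity), smul_eq_mul, c3_fderiv_eq_gr]
  have h6 : ((‖deriv Q ω‖ ^ 2 : ℝ) : ℂ) = (starRingEnd ℂ) (deriv Q ω) * deriv Q ω := by
    rw [← Complex.normSq_eq_norm_sq, Complex.normSq_eq_conj_mul_self]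
  have h7 : ‖deriv Q ω‖ ^ 2 * (T (H (Q ω)).re * ((starRingEnd ℂ) (c3_gr Φ (Q ω)) *
      (starRingEnd ℂ) (deriv H (Q ω))).re) = T (H (Q ω)).re *
      (((‖deriv Q ω‖ ^ 2 : ℝ) : ℂ) * ((starRingEnd ℂ) (c3_gr Φ (Q ω)) *
      (starRingEnd ℂ) (deriv H (Q ω)))).re := by
    rw [Complex.re_ofReal_mul]
    ring
  rw [h7]
  congr 1
  have h8 := congrArg (starRingEnd ℂ) h3
  rw [map_mul (starRingEnd ℂ), map_mul (starRingEnd ℂ), map_mul (starRingEnd ℂ), Complex.conj_ofReal,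
    Complex.conj_conj, map_ofNat] at h8
  have h9 : (((‖deriv Q ω‖ ^ 2 : ℝ) : ℂ) * ((starRingEnd ℂ) (c3_gr Φ (Q ω)) *
      (starRingEnd ℂ) (deriv H (Q ω)))) = ((2 * deriv χ (‖ω‖ ^ 2) : ℝ) : ℂ) *
      (starRingEnd ℂ) (ω * (deriv H (Q ω) * deriv Q ω)) := by
    rw [h6, map_mul (starRingEnd ℂ), map_mul (starRingEnd ℂ)]
    push_cast
    linear_combination (-(starRingEnd ℂ) (deriv Q ω) * (starRingEnd ℂ) (deriv H (Q ω))) * h8
  rw [h9, Complex.re_ofReal_mul, Complex.conj_re]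
  congr 1
  by_cases hω0 : ω = 0
  · rw [hω0, zero_mul, zero_mul]
  · have hQω : Q ω ≠ 0 := by
      intro h10
      exact hω0 (iQ hω (mem_ball_self one_pos) (h10.trans Q0.symm))
    have hHd : HasDerivAt H (deriv H (Q ω)) (Q ω) :=
      ((hH.d (Q ω) hQω).differentiableAt (isOpen_compl_singleton.mem_nhds hQω)).hasDerivAt
    have h11 : deriv (fun x => H (Q x)) ω = deriv H (Q ω) * deriv Q ω :=
      (hHd.comp ω hdω).deriv
    rw [h11]

/-- polar form -/
theorem pull_polar {h : ℂ → ℂ} (hh : DifferentiableOn ℂ h (ball 0 1 \ {0})) {T : ℝ → ℝ} (hT : Continuous T)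
    {χ : ℝ → ℝ} (hχ : ContDiff ℝ 1 χ) {a b : ℝ} (ha : 0 < a) (hab : a < b) (hb : b < 1)
    (h0 : ∀ s ≤ a, χ s = 0) (h1 : ∀ s, b ≤ s → χ s = 1) :
    ∫ ω in ball (0:ℂ) 1, T (h ω).re * (2 * deriv χ (‖ω‖ ^ 2) * (ω * deriv h ω).re) =
      ∫ r in (0:ℝ)..1, 2 * deriv χ (r ^ 2) * r *
        ∫ θ in (0:ℝ)..(2 * Real.pi), T (h (circleMap 0 r θ)).re *
          (circleMap 0 r θ * deriv h (circleMap 0 r θ)).re := by
  have hχc : Continuous (deriv χ) := hχ.continuous_deriv (by norm_num)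
  have hlow : ∀ s < a, deriv χ s = 0 := fun s hs =>
    c3_d0 isOpen_Iio hs (fun x hx => h0 x (le_of_lt hx))
  have hhigh : ∀ s, b < s → deriv χ s = 0 := fun s hs =>
    c3_d0 isOpen_Ioi hs (fun x hx => h1 x (le_of_lt hx))
  set f : ℂ → ℝ := fun ω => T (h ω).re * (2 * deriv χ (‖ω‖ ^ 2) * (ω * deriv h ω).re) with hfdef
  have hnc : Continuous fun z : ℂ => ‖z‖ ^ 2 := by fun_prop
  have hfc : Continuous f := by
    rw [continuous_iff_continuousAt]
    intro ω
    by_cases c1 : ‖ω‖ ^ 2 < a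
    · have : f =ᶠ[𝓝 ω] fun _ => 0 := by
        filter_upwards [(isOpen_Iio.preimage hnc).mem_nhds c1] with z hz
        simp only [hfdef]
        rw [hlow _ hz]
        simp
      exact this.continuousAt
    · by_cases c2 : b < ‖ω‖ ^ 2
      · have : f =ᶠ[𝓝 ω] fun _ => 0 := by
          filter_upwards [(isOpen_Ioi.preimage hnc).mem_nhds c2] with z hz
          simp only [hfdef]
          rw [hhigh _ hz]
          simp
        exact this.continuousAt
      · rw [not_lt] at c1 c2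
        have hω0 : ω ≠ 0 := by
          intro h2
          rw [h2, norm_zero] at c1
          norm_num at c1
          linarith
        have hω1 : ‖ω‖ < 1 := by
          by_contra h2
          rw [not_lt] at h2
          nlinarith
        have hU : IsOpen (ball (0:ℂ) 1 \ {0}) := isOpen_ball.sdiff isClosed_singleton
        have hmem : ω ∈ ball (0:ℂ) 1 \ {0} := ⟨by rwa [mem_ball_zero_iff], hω0⟩
        have ch : ContinuousAt h ω := ((hh ω hmem).differentiableAt (hU.mem_nhds hmem)).continuousAt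
        have chd : ContinuousAt (deriv h) ω :=
          ((hh.deriv hU).continuousOn).continuousAt (hU.mem_nhds hmem)
        have c3 : ContinuousAt (fun ω => T (h ω).re) ω :=
          hT.continuousAt.comp (Complex.continuous_re.continuousAt.comp ch)
        have c4 : ContinuousAt (fun ω : ℂ => deriv χ (‖ω‖ ^ 2)) ω :=
          (hχc.comp hnc).continuousAt
        have c5 : ContinuousAt (fun ω : ℂ => (ω * deriv h ω).re) ω :=
          Complex.continuous_re.continuousAt.comp (continuousAt_id.mul chd)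
        exact c3.mul ((continuousAt_const.mul c4).mul c5)
  have hf0 : ∀ z, 1 ≤ ‖z‖ → f z = 0 := by
    intro z hz
    simp only [hfdef]
    rw [hhigh _ (by nlinarith)]
    simp
  have e1 : ∫ ω in ball (0:ℂ) 1, f ω = ∫ ω, f ω := by
    apply MeasureTheory.setIntegral_eq_integral_of_forall_compl_eq_zero
    intro z hz
    rw [mem_ball_zero_iff, not_lt] at hz
    exact hf0 z hz
  rw [e1, c3_polar hfc hf0, intervalIntegral.integral_of_le zero_le_one,
    integral_Ioc_eq_integral_Ioo]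
  apply MeasureTheory.setIntegral_congr_fun measurableSet_Ioo
  intro r hr
  simp only [hfdef]
  have hnr : ∀ θ : ℝ, ‖circleMap 0 r θ‖ = r := by
    intro θ
    rw [norm_circleMap_zero, abs_of_nonneg hr.1.le]
  have e2 : ∀ θ : ℝ, T (h (circleMap 0 r θ)).re * (2 * deriv χ (‖circleMap 0 r θ‖ ^ 2) *
      (circleMap 0 r θ * deriv h (circleMap 0 r θ)).re) =
      (2 * deriv χ (r ^ 2)) * (T (h (circleMap 0 r θ)).re *
      (circleMap 0 r θ * deriv h (circleMap 0 r θ)).re) := by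
    intro θ
    rw [hnr θ]
    ring
  simp only [e2]
  rw [intervalIntegral.integral_const_mul]
  ring

end Pool.Agent.Helper859.Br.C3
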