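import Pool.Agent.Helper859.Br.Defs
set_option linter.all false
open Complex MeasureTheory Set Filter Topology Metric

namespace Pool.Agent.Helper859.Br.C4
open Pool.Agent.Helper859.Br

theorem orth (r : ℝ) (j l : ℕ) :
    ∫ θ in (0:ℝ)..(2 * Real.pi), (starRingEnd ℂ) (circleMap 0 r θ ^ l) * circleMap 0 r θ ^ j
      = if l = j then ((2 * Real.pi * r ^ (2 * j) : ℝ) : ℂ) else 0 := by
  have h1 : ∀ θ : ℝ, (starRingEnd ℂ) (circleMap 0 r θ ^ l) * circleMap 0 r θ ^ j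
      = (r : ℂ) ^ (l + j) * exp ((((j : ℂ) - l) * I) * θ) := by
    intro θ
    simp only [circleMap, zero_add, map_pow, map_mul, conj_ofReal, ← exp_conj, conj_I, mul_pow, ← exp_nat_mul]
    rw [pow_add, mul_mul_mul_comm, ← exp_add]
    congr 2
    simp only [map_natCast]
    ring
  simp only [h1]
  rw [intervalIntegral.integral_const_mul]
  split_ifs with h
  · subst h
    simp
    ring
  · have hne : (((j : ℂ) - l) * I) ≠ 0 := by
      apply mul_ne_zero _ I_ne_zero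
      rw [sub_ne_zero]
      exact_mod_cast fun h' : j = l => h h'.symm
    rw [integral_exp_mul_complex hne]
    have : exp (((j : ℂ) - l) * I * ((2 * Real.pi : ℝ) : ℂ)) = 1 := by
      rw [exp_eq_one_iff]
      refine ⟨(j : ℤ) - l, ?_⟩
      push_cast
      ring
    rw [this]
    simp

theorem parseval {P Q : ℂ → ℂ} {a b : ℕ → ℂ} {r : ℝ} (hr : 0 ≤ r)
    (ha : Summable fun j => ‖a j‖ * r ^ j) (hb : Summable fun j => ‖b j‖ * r ^ j)
    (hP : ∀ z, ‖z‖ = r → HasSum (fun j => a j * z ^ j) (P z))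
    (hQ : ∀ z, ‖z‖ = r → HasSum (fun j => b j * z ^ j) (Q z)) :
    HasSum (fun j => (starRingEnd ℂ) (a j) * b j * ((r ^ (2 * j) : ℝ) : ℂ))
      ((2 * Real.pi : ℂ)⁻¹ * ∫ θ in (0:ℝ)..(2 * Real.pi), (starRingEnd ℂ) (P (circleMap 0 r θ)) * Q (circleMap 0 r θ)) := by
  have hc : ∀ θ, ‖circleMap 0 r θ‖ = r := fun θ => by simp [abs_of_nonneg hr]
  have hcc : Continuous (circleMap 0 r) := continuous_circleMap 0 r
  have hPs : ∀ z, ‖z‖ = r → HasSum (fun j => (starRingEnd ℂ) (a j * z ^ j)) ((starRingEnd ℂ) (P z)) := fun z hz => by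
    have := (hP z hz).mapL (Complex.conjCLE : ℂ →L[ℝ] ℂ)
    simpa using this
  -- continuity of P on circle
  have hPc : Continuous fun θ => (starRingEnd ℂ) (P (circleMap 0 r θ)) := by
    have h2 : (fun θ => (starRingEnd ℂ) (P (circleMap 0 r θ))) = fun θ => ∑' j, (starRingEnd ℂ) (a j * circleMap 0 r θ ^ j) := by
      ext θ
      exact (hPs _ (hc θ)).tsum_eq.symm
    rw [h2]
    apply continuous_tsum (fun j => ?_) ha (fun j θ => ?_)
    · exact Complex.continuous_conj.comp (continuous_const.mul (hcc.pow j))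
    · rw [RCLike.norm_conj, norm_mul, norm_pow, hc]
  have hstep : ∀ j : ℕ, ∫ θ in (0:ℝ)..(2 * Real.pi), (starRingEnd ℂ) (P (circleMap 0 r θ)) * circleMap 0 r θ ^ j
      = (starRingEnd ℂ) (a j) * ((2 * Real.pi * r ^ (2 * j) : ℝ) : ℂ) := by
    intro j
    have h3 : HasSum (fun l => ∫ θ in (0:ℝ)..(2 * Real.pi), (starRingEnd ℂ) (a l * circleMap 0 r θ ^ l) * circleMap 0 r θ ^ j)
        (∫ θ in (0:ℝ)..(2 * Real.pi), (starRingEnd ℂ) (P (circleMap 0 r θ)) * circleMap 0 r θ ^ j) := by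
      apply intervalIntegral.hasSum_integral_of_dominated_convergence (fun l _ => ‖a l‖ * r ^ l * r ^ j)
      · intro l
        exact (Continuous.aestronglyMeasurable (by fun_prop))
      · intro l
        refine Eventually.of_forall fun θ _ => ?_
        rw [norm_mul, RCLike.norm_conj, norm_mul, norm_pow, norm_pow, hc]
      · exact Eventually.of_forall fun θ _ => ha.mul_right _
      · exact intervalIntegrable_const
      · refine Eventually.of_forall fun θ _ => ?_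
        exact (hPs _ (hc θ)).mul_right _
    have h4 : (fun l => ∫ θ in (0:ℝ)..(2 * Real.pi), (starRingEnd ℂ) (a l * circleMap 0 r θ ^ l) * circleMap 0 r θ ^ j)
        = fun l => if l = j then (starRingEnd ℂ) (a j) * ((2 * Real.pi * r ^ (2 * j) : ℝ) : ℂ) else 0 := by
      funext l
      have e : ∀ θ : ℝ, (starRingEnd ℂ) (a l * circleMap 0 r θ ^ l) * circleMap 0 r θ ^ j
        = (starRingEnd ℂ) (a l) * ((starRingEnd ℂ) (circleMap 0 r θ ^ l) * circleMap 0 r θ ^ j) := fun θ => by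
        rw [map_mul, mul_assoc]
      simp only [e]
      rw [intervalIntegral.integral_const_mul, orth r j l]
      split_ifs with h
      · subst h; rfl
      · simp
    rw [h4] at h3
    exact h3.unique (hasSum_ite_eq j _)
  have h5 : HasSum (fun j => ∫ θ in (0:ℝ)..(2 * Real.pi), (starRingEnd ℂ) (P (circleMap 0 r θ)) * (b j * circleMap 0 r θ ^ j))
      (∫ θ in (0:ℝ)..(2 * Real.pi), (starRingEnd ℂ) (P (circleMap 0 r θ)) * Q (circleMap 0 r θ)) := by
    obtain ⟨M, hM⟩ : ∃ M, ∀ θ, ‖(starRingEnd ℂ) (P (circleMap 0 r θ))‖ ≤ M := by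
      refine ⟨∑' j, ‖a j‖ * r ^ j, fun θ => ?_⟩
      rw [← (hPs _ (hc θ)).tsum_eq]
      refine tsum_of_norm_bounded ha.hasSum fun j => ?_
      rw [RCLike.norm_conj, norm_mul, norm_pow, hc]
    apply intervalIntegral.hasSum_integral_of_dominated_convergence (fun l _ => M * (‖b l‖ * r ^ l))
    · intro l
      exact (Continuous.aestronglyMeasurable (by fun_prop))
    · intro l
      refine Eventually.of_forall fun θ _ => ?_
      rw [norm_mul, norm_mul, norm_pow, hc]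
      exact mul_le_mul_of_nonneg_right (hM θ) (by positivity)
    · exact Eventually.of_forall fun θ _ => hb.mul_left _
    · exact intervalIntegrable_const
    · refine Eventually.of_forall fun θ _ => ?_
      exact (hQ _ (hc θ)).mul_left _
  have h6 := h5.mul_left (2 * Real.pi : ℂ)⁻¹
  have h7 : (fun j => (2 * Real.pi : ℂ)⁻¹ * ∫ θ in (0:ℝ)..(2 * Real.pi), (starRingEnd ℂ) (P (circleMap 0 r θ)) * (b j * circleMap 0 r θ ^ j))
      = fun j => (starRingEnd ℂ) (a j) * b j * ((r ^ (2 * j) : ℝ) : ℂ) := by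
    funext j
    have : ∀ θ : ℝ, (starRingEnd ℂ) (P (circleMap 0 r θ)) * (b j * circleMap 0 r θ ^ j) = b j * ((starRingEnd ℂ) (P (circleMap 0 r θ)) * circleMap 0 r θ ^ j) := fun θ => by ring
    simp only [this]
    rw [intervalIntegral.integral_const_mul, hstep]
    have hpi : (Real.pi : ℂ) ≠ 0 := by exact_mod_cast Real.pi_ne_zero
    push_cast
    field_simp
  rw [h7] at h6
  exact h6


theorem summable_of_hasSum {P : ℂ → ℂ} {a : ℕ → ℂ} (ha : ∀ z ∈ ball (0:ℂ) 1, HasSum (fun j => a j * z ^ j) (P z))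
    {r : ℝ} (hr0 : 0 ≤ r) (hr1 : r < 1) : Summable fun j => ‖a j‖ * r ^ j := by
  have h1 := (ha (r : ℂ) (by rw [mem_ball_zero_iff, Complex.norm_real, Real.norm_of_nonneg hr0]; exact hr1)).summable.norm
  simpa [abs_of_nonneg hr0] using h1

theorem hasSum_Q {P : ℂ → ℂ} {a : ℕ → ℂ} (ha : ∀ z ∈ ball (0:ℂ) 1, HasSum (fun j => a j * z ^ j) (P z)) (m : ℕ) :
    ∀ z ∈ ball (0:ℂ) 1, HasSum (fun j : ℕ => (((j : ℂ) - m) * a j) * z ^ j) (z * deriv P z - m * P z) := by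
  intro z hz
  rw [mem_ball_zero_iff] at hz
  obtain ⟨ρ, hρ1, hρ2⟩ := exists_between hz
  have hρ0 : 0 ≤ ρ := (norm_nonneg z).trans hρ1.le
  have h1 : HasSum (fun j => deriv (fun w => a j * w ^ j) z) (deriv (fun w => ∑' j, a j * w ^ j) z) := by
    apply Complex.hasSum_deriv_of_summable_norm (u := fun j => ‖a j‖ * ρ ^ j) (U := ball 0 ρ)
      (summable_of_hasSum ha hρ0 hρ2) _ isOpen_ball _ (by rwa [mem_ball_zero_iff])
    · intro j
      fun_prop
    · intro j w hw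
      rw [mem_ball_zero_iff] at hw
      rw [norm_mul, norm_pow]
      gcongr
  have h2 : deriv (fun w => ∑' j, a j * w ^ j) z = deriv P z := by
    apply Filter.EventuallyEq.deriv_eq
    filter_upwards [isOpen_ball.mem_nhds (show z ∈ ball (0:ℂ) 1 by rwa [mem_ball_zero_iff])] with w hw
    exact (ha w hw).tsum_eq
  rw [h2] at h1
  have h3 := (h1.mul_left z).sub ((ha z (by rwa [mem_ball_zero_iff])).mul_left (m : ℂ))
  convert! h3 using 1
  funext j
  have : deriv (fun w => a j * w ^ j) z = a j * (j * z ^ (j - 1)) := by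
    simp
  rw [this]
  rcases Nat.eq_zero_or_pos j with hj | hj
  · subst hj; simp
  · have : z ^ j = z * z ^ (j - 1) := by
      rw [← pow_succ', Nat.sub_add_cancel hj]
    rw [this]; ring


section C4aux
variable {h : ℂ → ℂ} {a : ℕ → ℂ}

theorem c4_sum (ha : ∀ ω ∈ ball (0:ℂ) 1, ω ≠ 0 → HasSum (fun j => a j * ω ^ j) (ω ^ 7 * h ω)) :
    ∀ z ∈ ball (0:ℂ) 1, HasSum (fun j => a j * z ^ j) (∑' j, a j * z ^ j) := by
  intro z hz
  by_cases h0 : z = 0
  · subst h0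
    exact (hasSum_single 0 (fun j hj => by simp [hj])).summable.hasSum
  · exact (ha z hz h0).summable.hasSum

theorem c4_eq (ha : ∀ ω ∈ ball (0:ℂ) 1, ω ≠ 0 → HasSum (fun j => a j * ω ^ j) (ω ^ 7 * h ω))
    (z : ℂ) (hz : z ∈ ball (0:ℂ) 1) (h0 : z ≠ 0) : (∑' j, a j * z ^ j) = z ^ 7 * h z :=
  (ha z hz h0).tsum_eq

theorem c4_der (hh : DifferentiableOn ℂ h (ball 0 1 \ {0}))
    (ha : ∀ ω ∈ ball (0:ℂ) 1, ω ≠ 0 → HasSum (fun j => a j * ω ^ j) (ω ^ 7 * h ω))
    (z : ℂ) (hz : z ∈ ball (0:ℂ) 1) (h0 : z ≠ 0) :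
    z * deriv (fun w => ∑' j, a j * w ^ j) z - (7 : ℕ) * (∑' j, a j * z ^ j) = z ^ 7 * (z * deriv h z) := by
  have ho : IsOpen (ball (0:ℂ) 1 \ {0}) := isOpen_ball.sdiff isClosed_singleton
  have hm : z ∈ ball (0:ℂ) 1 \ {0} := ⟨hz, h0⟩
  have hd := ((hh z hm).differentiableAt (ho.mem_nhds hm)).hasDerivAt
  have h1 : HasDerivAt (fun w => w ^ 7 * h w) (((7 : ℕ) : ℂ) * z ^ (7 - 1) * h z + z ^ 7 * deriv h z) z :=
    (hasDerivAt_pow 7 z).mul hd
  have h2 : deriv (fun w => ∑' j, a j * w ^ j) z = ((7 : ℕ) : ℂ) * z ^ (7 - 1) * h z + z ^ 7 * deriv h z := by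
    rw [← h1.deriv]
    apply Filter.EventuallyEq.deriv_eq
    filter_upwards [ho.mem_nhds hm] with w hw
    exact c4_eq ha w hw.1 hw.2
  rw [h2, c4_eq ha z hz h0]
  push_cast
  ring

theorem c4_conj (r : ℝ) (θ : ℝ) : (starRingEnd ℂ) (circleMap 0 r θ) * circleMap 0 r θ = ((r ^ 2 : ℝ) : ℂ) := by
  rw [← Complex.normSq_eq_conj_mul_self, Complex.normSq_eq_norm_sq, norm_circleMap_zero, sq_abs]

theorem c4_coef (ha : ∀ ω ∈ ball (0:ℂ) 1, ω ≠ 0 → HasSum (fun j => a j * ω ^ j) (ω ^ 7 * h ω))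
    (r : ℝ) (hr0 : 0 < r) (hr1 : r < 1) (l : ℕ) :
    ∫ θ in (0:ℝ)..(2 * Real.pi), (starRingEnd ℂ) (circleMap 0 r θ ^ l) * (∑' j, a j * circleMap 0 r θ ^ j)
      = 2 * Real.pi * (a l * (r : ℂ) ^ (2 * l)) := by
  have ha' := c4_sum ha
  have hs1 : ∀ z : ℂ, HasSum (fun j => (if j = l then (1:ℂ) else 0) * z ^ j) (z ^ l) := by
    intro z
    have := hasSum_ite_eq l (z ^ l)
    convert this using 1
    funext j
    by_cases hj : j = l
    · subst hj; simp
    · simp [hj]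
  have hs2 : Summable fun j => ‖(if j = l then (1:ℂ) else 0)‖ * r ^ j := by
    have := (hasSum_ite_eq l (r ^ l)).summable
    convert this using 1
    funext j
    by_cases hj : j = l
    · subst hj; simp
    · simp [hj]
  have h1 := parseval (P := fun z => z ^ l) (Q := fun z => ∑' j, a j * z ^ j) (r := r) hr0.le hs2
    (summable_of_hasSum ha' hr0.le hr1) (fun z _ => hs1 z)
    (fun z hz => ha' z (by rw [mem_ball_zero_iff, hz]; exact hr1))
  have h2 : (fun j => (starRingEnd ℂ) (if j = l then (1:ℂ) else 0) * a j * ((r ^ (2 * j) : ℝ) : ℂ))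
      = fun j => if j = l then a l * ((r ^ (2 * l) : ℝ) : ℂ) else 0 := by
    funext j
    by_cases hj : j = l
    · subst hj; simp
    · simp [hj]
  rw [h2] at h1
  have h3 := h1.unique (hasSum_ite_eq l _)
  have hpi : (Real.pi : ℂ) ≠ 0 := by exact_mod_cast Real.pi_ne_zero
  have h4 : (2 * Real.pi : ℂ) ≠ 0 := mul_ne_zero two_ne_zero hpi
  rw [inv_mul_eq_iff_eq_mul₀ h4] at h3
  rw [h3]
  push_cast
  ring

theorem c4_ball (r : ℝ) (hr0 : 0 < r) (hr1 : r < 1) (θ : ℝ) :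
    circleMap 0 r θ ∈ ball (0:ℂ) 1 ∧ circleMap 0 r θ ≠ 0 := by
  have h1 : ‖circleMap 0 r θ‖ = r := by simp [abs_of_pos hr0]
  constructor
  · rw [mem_ball_zero_iff, h1]; exact hr1
  · intro h2
    rw [h2, norm_zero] at h1
    linarith

end C4aux

/-- Parseval on a circle -/
theorem fourS {h : ℂ → ℂ} (hh : DifferentiableOn ℂ h (ball 0 1 \ {0})) {a : ℕ → ℂ}
    (ha : ∀ ω ∈ ball (0:ℂ) 1, ω ≠ 0 → HasSum (fun j => a j * ω ^ j) (ω ^ 7 * h ω)) (r : ℝ) (hr0 : 0 < r) (hr1 : r < 1) :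
    -∫ θ in (0:ℝ)..(2 * Real.pi), (h (circleMap 0 r θ)).re * (circleMap 0 r θ * deriv h (circleMap 0 r θ)).re
      ≤ Real.pi * Sr a r := by
  have hcb := c4_ball r hr0 hr1
  have ho : IsOpen (ball (0:ℂ) 1 \ {0}) := isOpen_ball.sdiff isClosed_singleton
  have hmem : ∀ θ, circleMap 0 r θ ∈ ball (0:ℂ) 1 \ {0} := fun θ => ⟨(hcb θ).1, (hcb θ).2⟩
  set A : ℝ → ℂ := fun θ => h (circleMap 0 r θ) with hA
  set B : ℝ → ℂ := fun θ => circleMap 0 r θ * deriv h (circleMap 0 r θ) with hB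
  have hcc : Continuous (circleMap 0 r) := continuous_circleMap 0 r
  have hAc : Continuous A := hh.continuousOn.comp_continuous hcc hmem
  have hBc : Continuous B := hcc.mul ((hh.deriv ho).continuousOn.comp_continuous hcc hmem)
  have hAd : ∀ θ, HasDerivAt A (I * B θ) θ := by
    intro θ
    have hd := ((hh _ (hmem θ)).differentiableAt (ho.mem_nhds (hmem θ))).hasDerivAt
    have h1 := hd.scomp θ (hasDerivAt_circleMap 0 r θ)
    refine HasDerivAt.congr_deriv h1 ?_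
    simp only [hB, smul_eq_mul]
    ring
  have hAB : ∫ θ in (0:ℝ)..(2 * Real.pi), A θ * B θ = 0 := by
    have h1 : ∫ θ in (0:ℝ)..(2 * Real.pi), (2 * I) * (A θ * B θ) = A (2 * Real.pi) ^ 2 - A 0 ^ 2 := by
      apply intervalIntegral.integral_eq_sub_of_hasDerivAt (f := fun θ => A θ ^ 2)
      · intro θ _
        refine HasDerivAt.congr_deriv ((hAd θ).pow 2) ?_
        simp
        ring
      · exact (continuous_const.mul (hAc.mul hBc)).intervalIntegrable _ _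
    have h2 : A (2 * Real.pi) = A 0 := by
      simp only [hA]
      have := periodic_circleMap 0 r 0
      rw [zero_add] at this
      rw [this]
    rw [h2, sub_self, intervalIntegral.integral_const_mul] at h1
    rcases mul_eq_zero.1 h1 with h3 | h3
    · exfalso
      have : (2 * I : ℂ) ≠ 0 := mul_ne_zero two_ne_zero I_ne_zero
      exact this h3
    · exact h3
  set P : ℂ → ℂ := fun z => ∑' j, a j * z ^ j with hP
  have ha' : ∀ z ∈ ball (0:ℂ) 1, HasSum (fun j => a j * z ^ j) (P z) := c4_sum ha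
  set Q : ℂ → ℂ := fun z => z * deriv P z - (7 : ℕ) * P z with hQ
  have hQs : ∀ z ∈ ball (0:ℂ) 1, HasSum (fun j : ℕ => (((j : ℂ) - (7:ℕ)) * a j) * z ^ j) (Q z) := hasSum_Q ha' 7
  have hCAB : ∀ θ, (starRingEnd ℂ) (A θ) * B θ = ((r ^ 14 : ℝ) : ℂ)⁻¹ * ((starRingEnd ℂ) (P (circleMap 0 r θ)) * Q (circleMap 0 r θ)) := by
    intro θ
    have h1 : P (circleMap 0 r θ) = circleMap 0 r θ ^ 7 * A θ := c4_eq ha _ (hcb θ).1 (hcb θ).2
    have h2 : Q (circleMap 0 r θ) = circleMap 0 r θ ^ 7 * B θ := c4_der hh ha _ (hcb θ).1 (hcb θ).2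
    rw [h1, h2, map_mul, map_pow]
    have h3 := c4_conj r θ
    have h4 : (starRingEnd ℂ) (circleMap 0 r θ) ^ 7 * circleMap 0 r θ ^ 7 = ((r ^ 14 : ℝ) : ℂ) := by
      rw [← mul_pow, h3]
      push_cast
      ring
    have h5 : ((r ^ 14 : ℝ) : ℂ) ≠ 0 := by
      have : r ^ 14 ≠ 0 := by positivity
      exact_mod_cast this
    rw [eq_inv_mul_iff_mul_eq₀ h5, ← h4]
    ring
  have hpar := parseval (P := P) (Q := Q) (r := r) hr0.le
    (summable_of_hasSum ha' hr0.le hr1) (summable_of_hasSum hQs hr0.le hr1)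
    (fun z hz => ha' z (by rw [mem_ball_zero_iff, hz]; exact hr1))
    (fun z hz => hQs z (by rw [mem_ball_zero_iff, hz]; exact hr1))
  set c0 : ℂ := (2 * Real.pi : ℂ)⁻¹ * ∫ θ in (0:ℝ)..(2 * Real.pi), (starRingEnd ℂ) (P (circleMap 0 r θ)) * Q (circleMap 0 r θ) with hc0
  have hre := Complex.hasSum_re hpar
  have hterm : (fun j : ℕ => ((starRingEnd ℂ) (a j) * (((j : ℂ) - (7:ℕ)) * a j) * ((r ^ (2 * j) : ℝ) : ℂ)).re)
      = fun j : ℕ => ((j : ℝ) - 7) * ‖a j‖ ^ 2 * r ^ (2 * j) := by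
    funext j
    have h3 : ((‖a j‖ ^ 2 : ℝ) : ℂ) = (starRingEnd ℂ) (a j) * a j := by
      rw [← Complex.normSq_eq_norm_sq, Complex.normSq_eq_conj_mul_self]
    have h4 : (starRingEnd ℂ) (a j) * (((j : ℂ) - (7:ℕ)) * a j) * ((r ^ (2 * j) : ℝ) : ℂ)
        = ((((j : ℝ) - 7) * ‖a j‖ ^ 2 * r ^ (2 * j) : ℝ) : ℂ) := by
      rw [ofReal_mul, ofReal_mul, h3]
      push_cast
      ring
    rw [h4, ofReal_re]
  rw [hterm] at hre
  have hle : ∑ j ∈ Finset.range 15, ((j : ℝ) - 7) * ‖a j‖ ^ 2 * r ^ (2 * j) ≤ c0.re := by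
    apply sum_le_hasSum (Finset.range 15) _ hre
    intro j hj
    rw [Finset.mem_range, not_lt] at hj
    have : (7:ℝ) ≤ j := by
      have : (15:ℝ) ≤ j := by exact_mod_cast hj
      linarith
    have h5 : 0 ≤ (j:ℝ) - 7 := by linarith
    positivity
  have hpi : (Real.pi : ℂ) ≠ 0 := by exact_mod_cast Real.pi_ne_zero
  have hint : ∫ θ in (0:ℝ)..(2 * Real.pi), (starRingEnd ℂ) (A θ) * B θ = ((r ^ 14 : ℝ) : ℂ)⁻¹ * (2 * Real.pi * c0) := by
    simp only [hCAB]
    rw [intervalIntegral.integral_const_mul, hc0]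
    congr 1
    field_simp
  have hmain : ∫ θ in (0:ℝ)..(2 * Real.pi), (A θ).re * (B θ).re = Real.pi * (r ^ 14)⁻¹ * c0.re := by
    have e1 : ∀ θ, (A θ).re * (B θ).re = (1/2) * (Complex.reCLM ((starRingEnd ℂ) (A θ) * B θ + A θ * B θ)) := by
      intro θ
      simp
      ring
    have hi1 : IntervalIntegrable (fun θ => (starRingEnd ℂ) (A θ) * B θ) volume 0 (2 * Real.pi) :=
      ((Complex.continuous_conj.comp hAc).mul hBc).intervalIntegrable _ _
    have hi2 : IntervalIntegrable (fun θ => A θ * B θ) volume 0 (2 * Real.pi) :=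
      (hAc.mul hBc).intervalIntegrable _ _
    simp only [e1]
    rw [intervalIntegral.integral_const_mul, ContinuousLinearMap.intervalIntegral_comp_comm _ (hi1.add hi2),
      intervalIntegral.integral_add hi1 hi2, hAB, add_zero, hint]
    have e2 : ((r ^ 14 : ℝ) : ℂ)⁻¹ * (2 * Real.pi * c0) = (((r ^ 14)⁻¹ * (2 * Real.pi) : ℝ) : ℂ) * c0 := by
      push_cast
      ring
    rw [e2]
    show (1/2) * ((((r ^ 14)⁻¹ * (2 * Real.pi) : ℝ) : ℂ) * c0).re = _
    rw [Complex.re_ofReal_mul]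
    ring
  show -∫ θ in (0:ℝ)..(2 * Real.pi), (A θ).re * (B θ).re ≤ _
  rw [hmain]
  have hSr : Sr a r = -((r ^ 14)⁻¹ * ∑ j ∈ Finset.range 15, ((j : ℝ) - 7) * ‖a j‖ ^ 2 * r ^ (2 * j)) := by
    have hr : r ≠ 0 := hr0.ne'
    have e3 : (Finset.Icc 1 7 : Finset ℕ) = {1, 2, 3, 4, 5, 6, 7} := by decide
    unfold Sr
    rw [e3]
    simp only [Finset.sum_range_succ, Finset.sum_range_zero]
    rw [Finset.sum_insert (by decide), Finset.sum_insert (by decide), Finset.sum_insert (by decide),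
      Finset.sum_insert (by decide), Finset.sum_insert (by decide), Finset.sum_insert (by decide), Finset.sum_singleton]
    norm_num
    field_simp
    ring
  rw [hSr]
  have hp : 0 < Real.pi * (r ^ 14)⁻¹ := by have := Real.pi_pos; positivity
  nlinarith [mul_le_mul_of_nonneg_left hle hp.le]

/-- doubled Fourier coefficients of Re h on a circle -/
theorem fourK {h : ℂ → ℂ} (hh : DifferentiableOn ℂ h (ball 0 1 \ {0})) {a : ℕ → ℂ}
    (ha : ∀ ω ∈ ball (0:ℂ) 1, ω ≠ 0 → HasSum (fun j => a j * ω ^ j) (ω ^ 7 * h ω)) (r : ℝ) (hr0 : 0 < r) (hr1 : r < 1)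
    (k : ℕ) (hk : 1 ≤ k) (hk7 : k ≤ 7) :
    fk (fun θ => (h (circleMap 0 r θ)).re) k = a (7 + k) * (r : ℂ) ^ k + (starRingEnd ℂ) (a (7 - k)) * ((r : ℂ) ^ k)⁻¹ := by
  have hcb := c4_ball r hr0 hr1
  have ho : IsOpen (ball (0:ℂ) 1 \ {0}) := isOpen_ball.sdiff isClosed_singleton
  have hmem : ∀ θ, circleMap 0 r θ ∈ ball (0:ℂ) 1 \ {0} := fun θ => ⟨(hcb θ).1, (hcb θ).2⟩
  have hcc : Continuous (circleMap 0 r) := continuous_circleMap 0 r
  have hAc : Continuous (fun θ => h (circleMap 0 r θ)) := hh.continuousOn.comp_continuous hcc hmem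
  have hrC : (r : ℂ) ≠ 0 := by exact_mod_cast hr0.ne'
  obtain ⟨m, hm⟩ : ∃ m, 7 - k = m := ⟨_, rfl⟩
  have hmk : m + k = 7 := by omega
  rw [hm]
  have hP : ∀ θ, h (circleMap 0 r θ) = ((r : ℂ) ^ 7)⁻¹ * exp (-((7 : ℂ) * θ * I)) * (∑' j, a j * circleMap 0 r θ ^ j) := by
    intro θ
    rw [c4_eq ha _ (hcb θ).1 (hcb θ).2]
    have e1 : circleMap 0 r θ ^ 7 = (r : ℂ) ^ 7 * exp ((7 : ℂ) * θ * I) := by
      rw [circleMap, zero_add, mul_pow, ← exp_nat_mul]
      congr 2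
      push_cast
      ring
    rw [e1]
    have e2 : exp (-((7 : ℂ) * θ * I)) * exp ((7 : ℂ) * θ * I) = 1 := by
      rw [← exp_add]
      simp
    have e3 : ((r : ℂ) ^ 7)⁻¹ * (r : ℂ) ^ 7 = 1 := inv_mul_cancel₀ (pow_ne_zero _ hrC)
    linear_combination (-(h (circleMap 0 r θ)) * (((r : ℂ) ^ 7)⁻¹ * (r : ℂ) ^ 7)) * e2 - h (circleMap 0 r θ) * e3
  have hcj : ∀ (θ : ℝ) (l : ℕ), (starRingEnd ℂ) (circleMap 0 r θ ^ l) = (r : ℂ) ^ l * exp (-((l : ℂ) * θ * I)) := by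
    intro θ l
    rw [map_pow, circleMap, zero_add, map_mul, conj_ofReal, ← exp_conj, mul_pow, ← exp_nat_mul]
    congr 2
    simp
    ring
  have h1 : ∀ θ : ℝ, h (circleMap 0 r θ) * exp (-((k : ℂ) * θ * I))
      = ((r : ℂ) ^ (14 + k))⁻¹ * ((starRingEnd ℂ) (circleMap 0 r θ ^ (7 + k)) * (∑' j, a j * circleMap 0 r θ ^ j)) := by
    intro θ
    rw [hP, hcj]
    have e1 : exp (-(((7 + k : ℕ) : ℂ) * θ * I)) = exp (-((7 : ℂ) * θ * I)) * exp (-((k : ℂ) * θ * I)) := by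
      rw [← exp_add]
      congr 1
      push_cast
      ring
    rw [e1]
    have e2 : ((r : ℂ) ^ (14 + k))⁻¹ * (r : ℂ) ^ (7 + k) = ((r : ℂ) ^ 7)⁻¹ := by
      field_simp
      ring
    linear_combination (-(exp (-((7 : ℂ) * θ * I)) * exp (-((k : ℂ) * θ * I)) * (∑' j, a j * circleMap 0 r θ ^ j))) * e2
  have h2 : ∀ θ : ℝ, h (circleMap 0 r θ) * exp ((k : ℂ) * θ * I)
      = ((r : ℂ) ^ (7 + m))⁻¹ * ((starRingEnd ℂ) (circleMap 0 r θ ^ m) * (∑' j, a j * circleMap 0 r θ ^ j)) := by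
    intro θ
    rw [hP, hcj]
    have e1 : exp (-((m : ℂ) * θ * I)) = exp (-((7 : ℂ) * θ * I)) * exp ((k : ℂ) * θ * I) := by
      rw [← exp_add]
      congr 1
      have : (7 : ℂ) = (m : ℂ) + k := by exact_mod_cast hmk.symm
      rw [this]
      ring
    rw [e1]
    have e2 : ((r : ℂ) ^ (7 + m))⁻¹ * (r : ℂ) ^ m = ((r : ℂ) ^ 7)⁻¹ := by
      field_simp
      ring
    linear_combination (-(exp (-((7 : ℂ) * θ * I)) * exp ((k : ℂ) * θ * I) * (∑' j, a j * circleMap 0 r θ ^ j))) * e2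
  have i1 : ∫ θ in (0:ℝ)..(2 * Real.pi), h (circleMap 0 r θ) * exp (-((k : ℂ) * θ * I))
      = 2 * Real.pi * (a (7 + k) * (r : ℂ) ^ k) := by
    simp only [h1]
    rw [intervalIntegral.integral_const_mul, c4_coef ha r hr0 hr1]
    field_simp
    ring
  have i2 : ∫ θ in (0:ℝ)..(2 * Real.pi), h (circleMap 0 r θ) * exp ((k : ℂ) * θ * I)
      = 2 * Real.pi * (a m * ((r : ℂ) ^ k)⁻¹) := by
    simp only [h2]
    rw [intervalIntegral.integral_const_mul, c4_coef ha r hr0 hr1]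
    have e3 : (r : ℂ) ^ 7 = (r : ℂ) ^ m * (r : ℂ) ^ k := by rw [← pow_add, hmk]
    have e4 : ((r : ℂ) ^ (7 + m))⁻¹ * (r : ℂ) ^ (2 * m) = ((r : ℂ) ^ k)⁻¹ := by
      rw [pow_add, e3, two_mul, pow_add]
      field_simp
    linear_combination (2 * (Real.pi : ℂ) * a m) * e4
  have i3 : ∫ θ in (0:ℝ)..(2 * Real.pi), (starRingEnd ℂ) (h (circleMap 0 r θ) * exp ((k : ℂ) * θ * I))
      = (starRingEnd ℂ) (2 * Real.pi * (a m * ((r : ℂ) ^ k)⁻¹)) := by
    rw [← i2]
    have hi : IntervalIntegrable (fun θ : ℝ => h (circleMap 0 r θ) * exp ((k : ℂ) * θ * I)) volume 0 (2 * Real.pi) :=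
      (hAc.mul (by fun_prop)).intervalIntegrable _ _
    have := ContinuousLinearMap.intervalIntegral_comp_comm (Complex.conjCLE : ℂ →L[ℝ] ℂ) hi
    exact this
  have hexpc : Continuous (fun θ : ℝ => exp (-((k : ℂ) * θ * I))) := by fun_prop
  have hexpc2 : Continuous (fun θ : ℝ => exp ((k : ℂ) * θ * I)) := by fun_prop
  unfold fk
  have e1 : ∀ θ : ℝ, (((h (circleMap 0 r θ)).re : ℝ) : ℂ) * exp (-((k : ℂ) * θ * I))
      = (1/2) * (h (circleMap 0 r θ) * exp (-((k : ℂ) * θ * I)) + (starRingEnd ℂ) (h (circleMap 0 r θ) * exp ((k : ℂ) * θ * I))) := by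
    intro θ
    have e2 : (((h (circleMap 0 r θ)).re : ℝ) : ℂ) = (h (circleMap 0 r θ) + (starRingEnd ℂ) (h (circleMap 0 r θ))) / 2 := by
      rw [Complex.re_eq_add_conj]
    have e3 : (starRingEnd ℂ) (exp ((k : ℂ) * θ * I)) = exp (-((k : ℂ) * θ * I)) := by
      rw [← exp_conj]
      congr 1
      simp
    rw [e2, map_mul, e3]
    ring
  simp only [e1]
  have hj1 : IntervalIntegrable (fun θ : ℝ => h (circleMap 0 r θ) * exp (-((k : ℂ) * θ * I))) volume 0 (2 * Real.pi) :=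
    (hAc.mul hexpc).intervalIntegrable _ _
  have hj2 : IntervalIntegrable (fun θ : ℝ => (starRingEnd ℂ) (h (circleMap 0 r θ) * exp ((k : ℂ) * θ * I))) volume 0 (2 * Real.pi) :=
    (Complex.continuous_conj.comp (hAc.mul hexpc2)).intervalIntegrable _ _
  rw [intervalIntegral.integral_const_mul, intervalIntegral.integral_add hj1 hj2, i1, i3]
  have hpi : (Real.pi : ℂ) ≠ 0 := by exact_mod_cast Real.pi_ne_zero
  simp only [map_mul, map_inv₀, map_pow, conj_ofReal, map_ofNat]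
  field_simp


end Pool.Agent.Helper859.Br.C4
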