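import Pool.Agent.Helper859.Br.Defs
set_option linter.all false
open Complex MeasureTheory Set Filter Topology Metric

namespace Pool.Agent.Helper859.Br.C5
open Pool.Agent.Helper859.Br


theorem exists_cut {p q : ℝ} (hpq : p < q) : ∃ χ : ℝ → ℝ, ContDiff ℝ 1 χ ∧ (∀ s ≤ p, χ s = 0) ∧
    (∀ s, q ≤ s → χ s = 1) ∧ (∀ s, 0 ≤ χ s) ∧ (∀ s, 0 ≤ deriv χ s) ∧
    (∀ s, s ≤ p → deriv χ s = 0) ∧ (∀ s, q ≤ s → deriv χ s = 0) := by
  set g : ℝ → ℝ := fun s => max 0 ((s - p) * (q - s)) with hg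
  have gc : Continuous g := by fun_prop
  have g0 : ∀ s, 0 ≤ g s := fun s => le_max_left _ _
  have gl : ∀ s ≤ p, g s = 0 := by
    intro s hs
    exact max_eq_left (mul_nonpos_of_nonpos_of_nonneg (by linarith) (by linarith))
  have gr : ∀ s, q ≤ s → g s = 0 := by
    intro s hs
    exact max_eq_left (mul_nonpos_of_nonneg_of_nonpos (by linarith) (by linarith))
  set G : ℝ := ∫ s in p..q, g s with hGdef
  have hG : 0 < G := by
    refine intervalIntegral.intervalIntegral_pos_of_pos_on (gc.intervalIntegrable _ _) ?_ hpq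
    intro x hx
    exact lt_max_of_lt_right (mul_pos (by linarith [hx.1]) (by linarith [hx.2]))
  have hd : ∀ s, HasDerivAt (fun s => (∫ t in p..s, g t) / G) (g s / G) s := fun s =>
    ((gc.integral_hasStrictDerivAt p s).hasDerivAt).div_const _
  have hder : deriv (fun s => (∫ t in p..s, g t) / G) = fun s => g s / G :=
    funext fun s => (hd s).deriv
  have z1 : ∀ s ≤ p, ∫ t in p..s, g t = 0 := by
    intro s hs
    have : ∫ t in p..s, g t = ∫ t in p..s, (0 : ℝ) := by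
      refine intervalIntegral.integral_congr ?_
      intro x hx
      rw [uIcc_of_ge hs] at hx
      exact gl x hx.2
    rw [this, intervalIntegral.integral_zero]
  refine ⟨fun s => (∫ t in p..s, g t) / G, ?_, ?_, ?_, ?_, ?_, ?_, ?_⟩
  · rw [contDiff_one_iff_deriv]
    refine ⟨fun s => (hd s).differentiableAt, ?_⟩
    rw [hder]
    exact gc.div_const _
  · intro s hs
    show (∫ t in p..s, g t) / G = 0
    rw [z1 s hs, zero_div]
  · intro s hs
    show (∫ t in p..s, g t) / G = 1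
    have h1 : ∫ t in q..s, g t = 0 := by
      have : ∫ t in q..s, g t = ∫ t in q..s, (0 : ℝ) := by
        refine intervalIntegral.integral_congr ?_
        intro x hx
        rw [uIcc_of_le hs] at hx
        exact gr x hx.1
      rw [this, intervalIntegral.integral_zero]
    have h2 : (∫ t in p..q, g t) + ∫ t in q..s, g t = ∫ t in p..s, g t :=
      intervalIntegral.integral_add_adjacent_intervals (gc.intervalIntegrable _ _)
        (gc.intervalIntegrable _ _)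
    rw [← h2, h1, add_zero]
    exact div_self hG.ne'
  · intro s
    show 0 ≤ (∫ t in p..s, g t) / G
    rcases le_total s p with h | h
    · rw [z1 s h, zero_div]
    · exact div_nonneg (intervalIntegral.integral_nonneg h fun x _ => g0 x) hG.le
  · intro s
    rw [hder]
    exact div_nonneg (g0 s) hG.le
  · intro s hs
    rw [hder]
    show g s / G = 0
    rw [gl s hs, zero_div]
  · intro s hs
    rw [hder]
    show g s / G = 0
    rw [gr s hs, zero_div]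

theorem Sr_anti (a : ℕ → ℂ) {δ r : ℝ} (hδ : 0 < δ) (hr : δ ≤ r) : Sr a r ≤ Sr a δ := by
  unfold Sr
  refine Finset.sum_le_sum ?_
  intro k hk
  have hr0 : 0 < r := lt_of_lt_of_le hδ hr
  have h1 : δ ^ (2 * k) ≤ r ^ (2 * k) := pow_le_pow_left₀ hδ.le hr _
  have h2 : (r ^ (2 * k))⁻¹ ≤ (δ ^ (2 * k))⁻¹ := inv_anti₀ (by positivity) h1
  refine mul_le_mul_of_nonneg_left ?_ (Nat.cast_nonneg k)
  have h3 : ‖a (7 - k)‖ ^ 2 * (r ^ (2 * k))⁻¹ ≤ ‖a (7 - k)‖ ^ 2 * (δ ^ (2 * k))⁻¹ :=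
    mul_le_mul_of_nonneg_left h2 (by positivity)
  have h4 : ‖a (7 + k)‖ ^ 2 * δ ^ (2 * k) ≤ ‖a (7 + k)‖ ^ 2 * r ^ (2 * k) :=
    mul_le_mul_of_nonneg_left h1 (by positivity)
  linarith

/-- the estimate on one circle -/
theorem circle_est {h : ℂ → ℂ} (hd : DifferentiableOn ℂ h (ball 0 1 \ {0})) {ε : ℝ} {T : ℝ → ℝ}
    (hT : Trunc ε T) {r M S : ℝ} (hr : 0 < r) (hr1 : r < 1) (hε : 0 < ε)
    (hM : ∀ θ : ℝ, ‖circleMap 0 r θ * deriv h (circleMap 0 r θ)‖ ≤ M)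
    (hS : -∫ θ in (0:ℝ)..(2 * Real.pi), (h (circleMap 0 r θ)).re *
      (circleMap 0 r θ * deriv h (circleMap 0 r θ)).re ≤ S) :
    -∫ θ in (0:ℝ)..(2 * Real.pi), T (h (circleMap 0 r θ)).re *
      (circleMap 0 r θ * deriv h (circleMap 0 r θ)).re ≤ S + ε * (4 * Real.pi * M) := by
  have hopen : IsOpen (ball (0:ℂ) 1 \ {0}) := isOpen_ball.sdiff isClosed_singleton
  have hmem : ∀ θ : ℝ, circleMap 0 r θ ∈ ball (0:ℂ) 1 \ {0} := by
    intro θ
    have hn : ‖circleMap 0 r θ‖ = r := by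
      rw [norm_circleMap_zero, abs_of_pos hr]
    refine ⟨?_, ?_⟩
    · rw [mem_ball_zero_iff, hn]; exact hr1
    · intro h0
      rw [mem_singleton_iff] at h0
      rw [h0, norm_zero] at hn
      exact hr.ne hn
  have c1 : Continuous fun θ : ℝ => h (circleMap 0 r θ) :=
    hd.continuousOn.comp_continuous (continuous_circleMap 0 r) hmem
  have c2 : Continuous fun θ : ℝ => deriv h (circleMap 0 r θ) :=
    (hd.deriv hopen).continuousOn.comp_continuous (continuous_circleMap 0 r) hmem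
  have c3 : Continuous fun θ : ℝ => (circleMap 0 r θ * deriv h (circleMap 0 r θ)).re :=
    Complex.continuous_re.comp ((continuous_circleMap 0 r).mul c2)
  have c4 : Continuous fun θ : ℝ => (h (circleMap 0 r θ)).re := Complex.continuous_re.comp c1
  have c5 : Continuous fun θ : ℝ => T (h (circleMap 0 r θ)).re := hT.c1.continuous.comp c4
  have hpi : (0:ℝ) ≤ 2 * Real.pi := by positivity
  have e1 : (∫ θ in (0:ℝ)..(2 * Real.pi), (h (circleMap 0 r θ)).re *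
      (circleMap 0 r θ * deriv h (circleMap 0 r θ)).re) -
      (∫ θ in (0:ℝ)..(2 * Real.pi), T (h (circleMap 0 r θ)).re *
      (circleMap 0 r θ * deriv h (circleMap 0 r θ)).re) =
      ∫ θ in (0:ℝ)..(2 * Real.pi), ((h (circleMap 0 r θ)).re *
        (circleMap 0 r θ * deriv h (circleMap 0 r θ)).re - T (h (circleMap 0 r θ)).re *
        (circleMap 0 r θ * deriv h (circleMap 0 r θ)).re) := by
    rw [intervalIntegral.integral_sub]
    · exact (c4.mul c3).intervalIntegrable _ _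
    · exact (c5.mul c3).intervalIntegrable _ _
  have e2 : ∫ θ in (0:ℝ)..(2 * Real.pi), ((h (circleMap 0 r θ)).re *
        (circleMap 0 r θ * deriv h (circleMap 0 r θ)).re - T (h (circleMap 0 r θ)).re *
        (circleMap 0 r θ * deriv h (circleMap 0 r θ)).re) ≤
      ∫ θ in (0:ℝ)..(2 * Real.pi), 2 * ε * M := by
    refine intervalIntegral.integral_mono_on hpi ?_ ?_ ?_
    · exact ((c4.mul c3).sub (c5.mul c3)).intervalIntegrable _ _
    · exact intervalIntegrable_const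
    · intro θ _
      have h1 := hT.cl (h (circleMap 0 r θ)).re
      have h2 : |(circleMap 0 r θ * deriv h (circleMap 0 r θ)).re| ≤ M :=
        (Complex.abs_re_le_norm _).trans (hM θ)
      have hM0 : 0 ≤ M := (abs_nonneg _).trans h2
      have h3 : (h (circleMap 0 r θ)).re *
        (circleMap 0 r θ * deriv h (circleMap 0 r θ)).re - T (h (circleMap 0 r θ)).re *
        (circleMap 0 r θ * deriv h (circleMap 0 r θ)).re =
        ((h (circleMap 0 r θ)).re - T (h (circleMap 0 r θ)).re) *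
          (circleMap 0 r θ * deriv h (circleMap 0 r θ)).re := by ring
      rw [h3]
      refine (le_abs_self _).trans ?_
      rw [abs_mul]
      rw [abs_sub_comm] at h1
      exact mul_le_mul h1 h2 (abs_nonneg _) (by positivity)
  rw [intervalIntegral.integral_const, smul_eq_mul] at e2
  have e3 : (2 * Real.pi - 0) * (2 * ε * M) = ε * (4 * Real.pi * M) := by ring
  rw [e3] at e2
  linarith

/-- upper bound of the energy outside the image of Q -/
theorem energy_up {H Q : ℂ → ℂ} (hH : Adm H) (dQ : DifferentiableOn ℂ Q (ball 0 1)) (iQ : InjOn Q (ball 0 1))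
    (mQ : MapsTo Q (ball 0 1) (ball 0 1)) (Q0 : Q 0 = 0)
    {a : ℕ → ℂ} (ha : ∀ ω ∈ ball (0:ℂ) 1, ω ≠ 0 → HasSum (fun j => a j * ω ^ j) (ω ^ 7 * H (Q ω)))
    (cutQ : ∀ {χ : ℝ → ℝ}, ContDiff ℝ 1 χ → ∀ {a b : ℝ}, 0 < a → a < b → b < 1 →
      (∀ s ≤ a, χ s = 0) → (∀ s, b ≤ s → χ s = 1) → (∀ s, 0 ≤ χ s) →
      ∃ Φ : ℂ → ℝ, ContDiff ℝ 1 Φ ∧ (∀ ω ∈ ball (0:ℂ) 1, Φ (Q ω) = χ (‖ω‖ ^ 2)) ∧
        (∀ t : ℂ, t ∉ Q '' ball 0 1 → ∀ᶠ v in 𝓝 t, Φ v = 1) ∧ (∀ t, 0 ≤ Φ t) ∧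
        (∀ᶠ t in 𝓝 (0:ℂ), Φ t = 0))
    (partsT : ∀ {ε : ℝ}, 0 < ε → ∀ {T : ℝ → ℝ}, Trunc ε T → ∀ {Φ : ℂ → ℝ}, ContDiff ℝ 1 Φ → (∀ᶠ t in 𝓝 (0:ℂ), Φ t = 0) →
      IntegrableOn (fun t => Φ t * (deriv T (H t).re * ‖deriv H t‖ ^ 2)) (ball 0 1) ∧
      ∫ t in ball (0:ℂ) 1, Φ t * (deriv T (H t).re * ‖deriv H t‖ ^ 2) =
        - ∫ t in ball (0:ℂ) 1, T (H t).re * fderiv ℝ Φ t ((starRingEnd ℂ) (deriv H t)))
    (pull : ∀ {T : ℝ → ℝ}, ContDiff ℝ 1 T → ∀ {χ : ℝ → ℝ}, ContDiff ℝ 1 χ → ∀ {a b : ℝ}, 0 < a → a < b → b < 1 →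
      (∀ s ≤ a, χ s = 0) → (∀ s, b ≤ s → χ s = 1) →
      ∀ {Φ : ℂ → ℝ}, ContDiff ℝ 1 Φ → (∀ ω ∈ ball (0:ℂ) 1, Φ (Q ω) = χ (‖ω‖ ^ 2)) →
      (∀ t : ℂ, t ∉ Q '' ball 0 1 → ∀ᶠ v in 𝓝 t, Φ v = 1) →
      ∫ t in ball (0:ℂ) 1, T (H t).re * fderiv ℝ Φ t ((starRingEnd ℂ) (deriv H t)) =
        ∫ ω in ball (0:ℂ) 1, T (H (Q ω)).re * (2 * deriv χ (‖ω‖ ^ 2) * (ω * deriv (fun x => H (Q x)) ω).re))
    (polar : ∀ {h : ℂ → ℂ}, DifferentiableOn ℂ h (ball 0 1 \ {0}) → ∀ {T : ℝ → ℝ}, Continuous T →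
      ∀ {χ : ℝ → ℝ}, ContDiff ℝ 1 χ → ∀ {a b : ℝ}, 0 < a → a < b → b < 1 →
      (∀ s ≤ a, χ s = 0) → (∀ s, b ≤ s → χ s = 1) →
      ∫ ω in ball (0:ℂ) 1, T (h ω).re * (2 * deriv χ (‖ω‖ ^ 2) * (ω * deriv h ω).re) =
        ∫ r in (0:ℝ)..1, 2 * deriv χ (r ^ 2) * r *
          ∫ θ in (0:ℝ)..(2 * Real.pi), T (h (circleMap 0 r θ)).re *
            (circleMap 0 r θ * deriv h (circleMap 0 r θ)).re)
    (fourS : ∀ {h : ℂ → ℂ}, DifferentiableOn ℂ h (ball 0 1 \ {0}) → ∀ {a : ℕ → ℂ},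
      (∀ ω ∈ ball (0:ℂ) 1, ω ≠ 0 → HasSum (fun j => a j * ω ^ j) (ω ^ 7 * h ω)) → ∀ r : ℝ, 0 < r → r < 1 →
      -∫ θ in (0:ℝ)..(2 * Real.pi), (h (circleMap 0 r θ)).re * (circleMap 0 r θ * deriv h (circleMap 0 r θ)).re
        ≤ Real.pi * Sr a r)
    (δ : ℝ) (hδ : 0 < δ) (hδ1 : δ < 1) :
    ∃ C : ℝ, ∀ ε > (0:ℝ), ∀ T : ℝ → ℝ, Trunc ε T →
      ∫⁻ t in ball (0:ℂ) 1 \ (Q '' ball 0 1), ENNReal.ofReal (deriv T (H t).re * ‖deriv H t‖ ^ 2) ≤
        ENNReal.ofReal (Real.pi * Sr a δ + ε * C) := by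
  have hQne : ∀ w ∈ ball (0:ℂ) 1, w ≠ 0 → Q w ≠ 0 := by
    intro w hw hw0 h0
    exact hw0 (iQ hw (mem_ball_self one_pos) (h0.trans Q0.symm))
  set h : ℂ → ℂ := fun x => H (Q x) with hh
  have hd : DifferentiableOn ℂ h (ball 0 1 \ {0}) := by
    refine hH.d.comp (dQ.mono diff_subset) ?_
    intro w hw
    exact hQne w hw.1 hw.2
  have hopen : IsOpen (ball (0:ℂ) 1 \ {0}) := isOpen_ball.sdiff isClosed_singleton
  have hδ2 : δ ^ 2 < 1 := by nlinarith
  have hδ20 : 0 < δ ^ 2 := by positivity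
  set b : ℝ := (1 + δ ^ 2) / 2 with hb
  have hab : δ ^ 2 < b := by rw [hb]; linarith
  have hb1 : b < 1 := by rw [hb]; linarith
  have hb0 : 0 < b := by linarith
  obtain ⟨χ, χc, χ0, χ1, χn, χd, χd0, χd1⟩ := exists_cut hab
  obtain ⟨Φ, Φc, ΦQ, Φ1, Φn, Φ0⟩ := cutQ χc hδ20 hab hb1 χ0 χ1 χn
  -- the bound on the annulus
  have hK : IsCompact (closedBall (0:ℂ) (Real.sqrt b) ∩ {w | δ ≤ ‖w‖}) :=
    (isCompact_closedBall 0 _).inter_right (isClosed_le continuous_const continuous_norm)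
  have hsb1 : Real.sqrt b < 1 := by
    rw [Real.sqrt_lt' one_pos]; linarith
  have hKsub : closedBall (0:ℂ) (Real.sqrt b) ∩ {w | δ ≤ ‖w‖} ⊆ ball (0:ℂ) 1 \ {0} := by
    intro w hw
    have h1 : ‖w‖ ≤ Real.sqrt b := by simpa using hw.1
    have h2 : δ ≤ ‖w‖ := hw.2
    refine ⟨?_, ?_⟩
    · rw [mem_ball_zero_iff]; linarith
    · intro h0
      rw [mem_singleton_iff] at h0
      rw [h0, norm_zero] at h2
      linarith
  have hKc : ContinuousOn (fun w : ℂ => w * deriv h w)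
      (closedBall (0:ℂ) (Real.sqrt b) ∩ {w | δ ≤ ‖w‖}) :=
    continuousOn_id.mul ((hd.deriv hopen).continuousOn.mono hKsub)
  obtain ⟨M, hM⟩ := hK.exists_bound_of_continuousOn hKc
  refine ⟨4 * Real.pi * M, ?_⟩
  intro ε hε T hT
  obtain ⟨hI, hE⟩ := partsT hε hT Φc Φ0
  have hpull := pull hT.c1 χc hδ20 hab hb1 χ0 χ1 Φc ΦQ Φ1
  have hpolar := polar hd hT.c1.continuous χc hδ20 hab hb1 χ0 χ1
  have step1 : ∫⁻ t in ball (0:ℂ) 1 \ (Q '' ball 0 1), ENNReal.ofReal (deriv T (H t).re * ‖deriv H t‖ ^ 2) ≤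
      ENNReal.ofReal (∫ t in ball (0:ℂ) 1, Φ t * (deriv T (H t).re * ‖deriv H t‖ ^ 2)) := by
    have hnn : ∀ t, 0 ≤ Φ t * (deriv T (H t).re * ‖deriv H t‖ ^ 2) := fun t =>
      mul_nonneg (Φn t) (mul_nonneg (hT.d0 _) (by positivity))
    rw [ofReal_integral_eq_lintegral_ofReal hI (Filter.Eventually.of_forall hnn)]
    have hm : AEMeasurable (fun t => ENNReal.ofReal (Φ t * (deriv T (H t).re * ‖deriv H t‖ ^ 2)))
        (volume.restrict (ball (0:ℂ) 1 \ (Q '' ball 0 1))) :=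
      (hI.aestronglyMeasurable.aemeasurable.ennreal_ofReal).mono_measure
        (Measure.restrict_mono diff_subset le_rfl)
    calc ∫⁻ t in ball (0:ℂ) 1 \ (Q '' ball 0 1), ENNReal.ofReal (deriv T (H t).re * ‖deriv H t‖ ^ 2)
        ≤ ∫⁻ t in ball (0:ℂ) 1 \ (Q '' ball 0 1),
          ENNReal.ofReal (Φ t * (deriv T (H t).re * ‖deriv H t‖ ^ 2)) := by
          refine setLIntegral_mono_ae hm (Filter.Eventually.of_forall ?_)
          intro t ht
          have : Φ t = 1 := (Φ1 t ht.2).self_of_nhds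
          rw [this, one_mul]
      _ ≤ _ := lintegral_mono_set diff_subset
  refine step1.trans ?_
  rw [hE, hpull]
  have hpolar' : ∫ ω in ball (0:ℂ) 1, T (H (Q ω)).re * (2 * deriv χ (‖ω‖ ^ 2) * (ω * deriv (fun x => H (Q x)) ω).re) =
      ∫ r in (0:ℝ)..1, 2 * deriv χ (r ^ 2) * r *
          ∫ θ in (0:ℝ)..(2 * Real.pi), T (h (circleMap 0 r θ)).re *
            (circleMap 0 r θ * deriv h (circleMap 0 r θ)).re := hpolar
  rw [hpolar']
  by_cases hint : IntervalIntegrable (fun r : ℝ => 2 * deriv χ (r ^ 2) * r *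
          ∫ θ in (0:ℝ)..(2 * Real.pi), T (h (circleMap 0 r θ)).re *
            (circleMap 0 r θ * deriv h (circleMap 0 r θ)).re) volume 0 1
  swap
  · rw [intervalIntegral.integral_undef hint, neg_zero, ENNReal.ofReal_zero]
    exact zero_le
  refine ENNReal.ofReal_le_ofReal ?_
  set K0 : ℝ := Real.pi * Sr a δ + ε * (4 * Real.pi * M) with hK0
  have χdc : Continuous (deriv χ) := (contDiff_one_iff_deriv.mp χc).2
  have χdiff : Differentiable ℝ χ := (contDiff_one_iff_deriv.mp χc).1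
  have hG : ∫ r in (0:ℝ)..1, 2 * deriv χ (r ^ 2) * r * K0 = K0 := by
    have h1 : ∀ r ∈ uIcc (0:ℝ) 1, HasDerivAt (fun r : ℝ => χ (r ^ 2) * K0)
        (2 * deriv χ (r ^ 2) * r * K0) r := by
      intro r _
      have h2 : HasDerivAt (fun r : ℝ => r ^ 2) (2 * r) r := by
        simpa using hasDerivAt_pow 2 r
      have h3 := ((χdiff (r ^ 2)).hasDerivAt.comp r h2).mul_const K0
      have h4 : deriv χ (r ^ 2) * (2 * r) * K0 = 2 * deriv χ (r ^ 2) * r * K0 := by ring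
      rw [h4] at h3
      exact h3
    have h5 : Continuous fun r : ℝ => 2 * deriv χ (r ^ 2) * r * K0 := by fun_prop
    rw [intervalIntegral.integral_eq_sub_of_hasDerivAt h1 (h5.intervalIntegrable _ _)]
    have h6 : χ ((1:ℝ) ^ 2) = 1 := χ1 _ (by rw [one_pow]; exact hb1.le)
    have h7 : χ ((0:ℝ) ^ 2) = 0 := χ0 _ (by rw [zero_pow two_ne_zero]; exact hδ20.le)
    rw [h6, h7]; ring
  rw [← intervalIntegral.integral_neg, ← hG]
  have hGc : Continuous fun r : ℝ => 2 * deriv χ (r ^ 2) * r * K0 := by fun_prop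
  refine intervalIntegral.integral_mono_on zero_le_one hint.neg (hGc.intervalIntegrable _ _) ?_
  intro r hr
  have hw : 0 ≤ 2 * deriv χ (r ^ 2) * r :=
    mul_nonneg (mul_nonneg zero_le_two (χd _)) hr.1
  by_cases h1 : r ^ 2 ≤ δ ^ 2
  · rw [χd0 _ h1]; simp
  by_cases h2 : b ≤ r ^ 2
  · rw [χd1 _ h2]; simp
  rw [not_le] at h1 h2
  have hrδ : δ < r := lt_of_pow_lt_pow_left₀ 2 hr.1 h1
  have hr0 : 0 < r := hδ.trans hrδ
  have hrb : r < Real.sqrt b := Real.lt_sqrt_of_sq_lt h2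
  have hr1 : r < 1 := hrb.trans hsb1
  have hest := circle_est hd hT hr0 hr1 hε (M := M) (S := Real.pi * Sr a r) (by
    intro θ
    refine hM (circleMap 0 r θ) ⟨?_, ?_⟩
    · rw [mem_closedBall_zero_iff, norm_circleMap_zero, abs_of_pos hr0]; exact hrb.le
    · show δ ≤ ‖circleMap 0 r θ‖
      rw [norm_circleMap_zero, abs_of_pos hr0]; exact hrδ.le) (fourS hd ha r hr0 hr1)
  have hSr : Real.pi * Sr a r ≤ Real.pi * Sr a δ :=
    mul_le_mul_of_nonneg_left (Sr_anti a hδ hrδ.le) Real.pi_pos.le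
  have h3 : -(∫ θ in (0:ℝ)..(2 * Real.pi), T (h (circleMap 0 r θ)).re *
            (circleMap 0 r θ * deriv h (circleMap 0 r θ)).re) ≤ K0 := by
    rw [hK0]; linarith
  have h4 := mul_le_mul_of_nonneg_left h3 hw
  have h5 : -(2 * deriv χ (r ^ 2) * r * ∫ θ in (0:ℝ)..(2 * Real.pi), T (h (circleMap 0 r θ)).re *
            (circleMap 0 r θ * deriv h (circleMap 0 r θ)).re) =
      2 * deriv χ (r ^ 2) * r * -(∫ θ in (0:ℝ)..(2 * Real.pi), T (h (circleMap 0 r θ)).re *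
            (circleMap 0 r θ * deriv h (circleMap 0 r θ)).re) := by ring
  show -(2 * deriv χ (r ^ 2) * r * ∫ θ in (0:ℝ)..(2 * Real.pi), T (h (circleMap 0 r θ)).re *
            (circleMap 0 r θ * deriv h (circleMap 0 r θ)).re) ≤ _
  rw [h5]
  exact h4

end Pool.Agent.Helper859.Br.C5
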