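import Pool.Agent.Helper859.Br.Defs
set_option linter.all false
open Complex MeasureTheory Set Filter Topology Metric

namespace Pool.Agent.Helper859.Br.D0
open Pool.Agent.Helper859.Br

private theorem d0_conj (h : ℝ → ℝ) (k : ℕ) :
    ‖∫ θ in (0:ℝ)..(2 * Real.pi), (h θ : ℂ) * exp (-((-(k:ℂ)) * θ * I))‖ =
    ‖∫ θ in (0:ℝ)..(2 * Real.pi), (h θ : ℂ) * exp (-((k:ℂ) * θ * I))‖ := by
  have hpi : (0:ℝ) ≤ 2 * Real.pi := Real.two_pi_pos.le
  have key : ∫ θ in (0:ℝ)..(2 * Real.pi), (h θ : ℂ) * exp (-((-(k:ℂ)) * θ * I)) =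
      (starRingEnd ℂ) (∫ θ in (0:ℝ)..(2 * Real.pi), (h θ : ℂ) * exp (-((k:ℂ) * θ * I))) := by
    rw [intervalIntegral.integral_of_le hpi, intervalIntegral.integral_of_le hpi,
      ← integral_conj]
    congr 1
    funext θ
    rw [map_mul (starRingEnd ℂ), Complex.conj_ofReal, ← Complex.exp_conj]
    congr 2
    simp
  rw [key, Complex.norm_conj]

private theorem d0_coeff (h : ℝ → ℝ) (k : ℤ) :
    ‖fourierCoeffOn Real.two_pi_pos (fun θ => (h θ : ℂ)) k‖ =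
      (1 / (2 * Real.pi)) *
        ‖∫ θ in (0:ℝ)..(2 * Real.pi), (h θ : ℂ) * exp (-((k:ℂ) * θ * I))‖ := by
  rw [fourierCoeffOn_eq_integral, norm_smul]
  congr 1
  · rw [sub_zero, Real.norm_of_nonneg (by positivity)]
  · congr 1
    apply intervalIntegral.integral_congr
    intro θ _
    simp only
    rw [fourier_coe_apply, smul_eq_mul, mul_comm]
    congr 2
    push_cast
    have : (Real.pi : ℂ) ≠ 0 := by exact_mod_cast Real.pi_ne_zero
    field_simp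
    ring

private theorem d0_fk (h : ℝ → ℝ) (k : ℕ) : ‖fk h k‖ =
    (1 / Real.pi) * ‖∫ θ in (0:ℝ)..(2 * Real.pi), (h θ : ℂ) * exp (-((k:ℂ) * θ * I))‖ := by
  unfold fk
  rw [norm_mul, norm_inv, Complex.norm_real, Real.norm_of_nonneg Real.pi_pos.le, one_div]

private theorem d0_pos (h : ℝ → ℝ) (k : ℕ) :
    ‖fourierCoeffOn Real.two_pi_pos (fun θ => (h θ : ℂ)) (k : ℤ)‖ ^ 2 = ‖fk h k‖ ^ 2 / 4 := by
  rw [d0_coeff, d0_fk]
  push_cast
  generalize ‖∫ θ in (0:ℝ)..(2 * Real.pi), (h θ : ℂ) * exp (-((k:ℂ) * θ * I))‖ = N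
  field_simp
  ring

private theorem d0_neg (h : ℝ → ℝ) (k : ℕ) :
    ‖fourierCoeffOn Real.two_pi_pos (fun θ => (h θ : ℂ)) (-(k : ℤ))‖ ^ 2 = ‖fk h k‖ ^ 2 / 4 := by
  rw [d0_coeff, d0_fk]
  push_cast
  rw [d0_conj]
  generalize ‖∫ θ in (0:ℝ)..(2 * Real.pi), (h θ : ℂ) * exp (-((k:ℂ) * θ * I))‖ = N
  field_simp
  ring

private theorem d0_sum4 (f : ℕ → ℝ) : ∑ k ∈ ({1, 3, 5, 7} : Finset ℕ), f k =
    f 1 + f 3 + f 5 + f 7 := by
  rw [Finset.sum_insert (by decide), Finset.sum_insert (by decide),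
    Finset.sum_insert (by decide), Finset.sum_singleton]
  ring

private theorem d0_sum3 (f : ℕ → ℝ) : ∑ k ∈ ({3, 5, 7} : Finset ℕ), f k =
    f 3 + f 5 + f 7 := by
  rw [Finset.sum_insert (by decide), Finset.sum_insert (by decide), Finset.sum_singleton]
  ring

private theorem d0_bessel (h : ℝ → ℝ) (hc : Continuous h) :
    Real.pi * (‖fk h 1‖ ^ 2 + ‖fk h 3‖ ^ 2 + ‖fk h 5‖ ^ 2 + ‖fk h 7‖ ^ 2) ≤
      ∫ θ in (0:ℝ)..(2 * Real.pi), (h θ) ^ 2 := by
  have hcc : Continuous (fun θ => (h θ : ℂ)) := Complex.continuous_ofReal.comp hc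
  have hm : MemLp (fun θ => (h θ : ℂ)) 2 (volume.restrict (Ioc 0 (2 * Real.pi))) := by
    obtain ⟨C, hC⟩ := (isCompact_Icc (a := (0:ℝ)) (b := 2 * Real.pi)).exists_bound_of_continuousOn
      hcc.continuousOn
    refine MemLp.of_bound hcc.aestronglyMeasurable C ?_
    refine (ae_restrict_iff' measurableSet_Ioc).2 (Filter.Eventually.of_forall fun x hx => ?_)
    exact hC x (Ioc_subset_Icc_self hx)
  have hs := hasSum_sq_fourierCoeffOn Real.two_pi_pos hm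
  have h1 := sum_le_hasSum ({1, 3, 5, 7, -1, -3, -5, -7} : Finset ℤ)
    (fun _ _ => by positivity) hs
  rw [Finset.sum_insert (by decide), Finset.sum_insert (by decide),
    Finset.sum_insert (by decide), Finset.sum_insert (by decide), Finset.sum_insert (by decide),
    Finset.sum_insert (by decide), Finset.sum_insert (by decide), Finset.sum_singleton] at h1
  have p1 := d0_pos h 1
  have p3 := d0_pos h 3
  have p5 := d0_pos h 5
  have p7 := d0_pos h 7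
  have n1 := d0_neg h 1
  have n3 := d0_neg h 3
  have n5 := d0_neg h 5
  have n7 := d0_neg h 7
  push_cast at p1 p3 p5 p7 n1 n3 n5 n7
  rw [p1, p3, p5, p7, n1, n3, n5, n7, sub_zero, smul_eq_mul] at h1
  have e : ∫ x in (0:ℝ)..(2 * Real.pi), ‖((h x : ℝ) : ℂ)‖ ^ 2 =
      ∫ x in (0:ℝ)..(2 * Real.pi), (h x) ^ 2 := by
    congr 1
    funext x
    rw [Complex.norm_real, Real.norm_eq_abs, sq_abs]
  rw [e] at h1
  have hpi := Real.pi_pos
  have h2 := mul_le_mul_of_nonneg_left h1 (by positivity : (0:ℝ) ≤ 2 * Real.pi)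
  rw [← mul_assoc, mul_inv_cancel₀ (by positivity), one_mul] at h2
  linarith

private theorem d0_alg (a b : ℂ) (k : ℝ) (hk : 1 ≤ k) :
    (k ^ 2 + 2 * k - 1) / (2 * k) * ‖a‖ ^ 2 ≤
      ‖a‖ ^ 2 + 2 * ‖b‖ ^ 2 + (k - 1) * (‖a + b‖ ^ 2 + ‖b‖ ^ 2) := by
  rw [Complex.sq_norm, Complex.sq_norm, Complex.sq_norm, Complex.normSq_apply,
    Complex.normSq_apply, Complex.normSq_apply, Complex.add_re, Complex.add_im]
  have hk0 : k ≠ 0 := by linarith
  have key : a.re * a.re + a.im * a.im + 2 * (b.re * b.re + b.im * b.im) +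
      (k - 1) * ((a.re + b.re) * (a.re + b.re) + (a.im + b.im) * (a.im + b.im) +
        (b.re * b.re + b.im * b.im)) -
      (k ^ 2 + 2 * k - 1) / (2 * k) * (a.re * a.re + a.im * a.im) =
      2 * k * ((b.re + (k - 1) / (2 * k) * a.re) ^ 2 + (b.im + (k - 1) / (2 * k) * a.im) ^ 2) := by
    field_simp
    ring
  have : 0 ≤ 2 * k * ((b.re + (k - 1) / (2 * k) * a.re) ^ 2 +
      (b.im + (k - 1) / (2 * k) * a.im) ^ 2) := by positivity
  linarith

private theorem d0_fk_add (φ ψ : ℝ → ℝ) (hφ : Continuous φ) (hψ : Continuous ψ) (k : ℕ) :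
    fk (fun θ => φ θ + ψ θ) k = fk φ k + fk ψ k := by
  unfold fk
  rw [← mul_add, ← intervalIntegral.integral_add]
  · congr 2
    funext θ
    push_cast
    ring
  · apply Continuous.intervalIntegrable
    fun_prop
  · apply Continuous.intervalIntegrable
    fun_prop

theorem alg_low (φ ψ : ℝ → ℝ) (hφ : Continuous φ) (hψ : Continuous ψ) (h0 : ∀ θ, φ θ * ψ θ = 0) :
    Real.pi * ∑ k ∈ ({1, 3, 5, 7} : Finset ℕ), vp k * ‖fk φ k‖ ^ 2 ≤ Wn (fun θ => φ θ + ψ θ) + Wn ψ := by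
  have hint : ∫ θ in (0:ℝ)..(2 * Real.pi), (φ θ + ψ θ) ^ 2 =
      (∫ θ in (0:ℝ)..(2 * Real.pi), (φ θ) ^ 2) + ∫ θ in (0:ℝ)..(2 * Real.pi), (ψ θ) ^ 2 := by
    rw [← intervalIntegral.integral_add (by apply Continuous.intervalIntegrable; fun_prop)
      (by apply Continuous.intervalIntegrable; fun_prop)]
    congr 1
    funext θ
    have := h0 θ
    linear_combination 2 * this
  have b1 := d0_bessel φ hφ
  have b2 := d0_bessel ψ hψ
  have hpi := Real.pi_pos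
  unfold Wn
  rw [hint, d0_sum4, d0_sum3, d0_sum3, d0_fk_add φ ψ hφ hψ, d0_fk_add φ ψ hφ hψ,
    d0_fk_add φ ψ hφ hψ]
  have g1 := d0_alg (fk φ 1) (fk ψ 1) 1 le_rfl
  have g3 := d0_alg (fk φ 3) (fk ψ 3) 3 (by norm_num)
  have g5 := d0_alg (fk φ 5) (fk ψ 5) 5 (by norm_num)
  have g7 := d0_alg (fk φ 7) (fk ψ 7) 7 (by norm_num)
  unfold vp
  push_cast
  have hall := mul_le_mul_of_nonneg_left (add_le_add (add_le_add (add_le_add g1 g3) g5) g7) hpi.le
  norm_num at hall b1 b2 ⊢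
  linarith

theorem Wn_nonneg (φ : ℝ → ℝ) : 0 ≤ Wn φ := by
  unfold Wn
  have h1 : 0 ≤ ∫ θ in (0:ℝ)..(2 * Real.pi), (φ θ) ^ 2 :=
    intervalIntegral.integral_nonneg Real.two_pi_pos.le (fun _ _ => sq_nonneg _)
  rw [d0_sum3]
  have hpi := Real.pi_pos
  push_cast
  positivity

end Pool.Agent.Helper859.Br.D0
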