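import Pool.Agent.Helper859.Br.Defs
set_option linter.all false
open Complex MeasureTheory Set Filter Topology Metric

namespace Pool.Agent.Helper859.Br.D1
open Pool.Agent.Helper859.Br

theorem energy_low {F P Q H : ℂ → ℂ} (c : Cfg F P Q) (hH : Adm H) {ε : ℝ} (hε : 0 < ε) {T : ℝ → ℝ} (hT : Trunc ε T)
    (td : ∀ w0 : ℂ, ‖w0‖ = 1 →
      (Tendsto (v1 T H Q) (𝓝[ball 0 1] w0) (𝓝 (Wf T H F P Q w0)) ∧ Tendsto (Wf T H F P Q) (𝓝[ball 0 1] w0) (𝓝 0)) ∨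
      (Tendsto (v1 T H Q) (𝓝[ball 0 1] w0) (𝓝 0) ∧ Tendsto (Wf T H F P Q) (𝓝[ball 0 1] w0) (𝓝 (Wf T H F P Q w0))))
    (r1 : ∀ w : ℂ, ‖w‖ ≠ 1 → ContDiffAt ℝ 1 (Wf T H F P Q) w)
    (r2 : ContinuousOn (Wf T H F P Q) {w | 1 ≤ ‖w‖})
    (r3 : ∃ R : ℝ, 1 < R ∧ ∀ w : ℂ, R ≤ ‖w‖ → Wf T H F P Q w = 0)
    (r4 : ∀ w : ℂ, Wf T H F P Q (-w) = - Wf T H F P Q w)
    (en : ∫⁻ w in {w : ℂ | ‖w‖ ≠ 1}, ENNReal.ofReal (gn (Wf T H F P Q) w) ≤
      ∫⁻ t in ball (0:ℂ) 1 \ (Q '' ball 0 1), ENNReal.ofReal (deriv T (H t).re * ‖deriv H t‖ ^ 2))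
    (aec : ∀ (v : ℂ → ℝ) (a b : ℝ), 0 < a → a < b →
      (∀ w : ℂ, a < ‖w‖ → ‖w‖ < b → ContDiffAt ℝ 1 v w) →
      ContinuousOn v {w : ℂ | a ≤ ‖w‖ ∧ ‖w‖ ≤ b} →
      (∀ w : ℂ, a ≤ ‖w‖ → ‖w‖ ≤ b → v (-w) = - v w) →
      ENNReal.ofReal |Wn (fun θ => v (circleMap 0 b θ)) - Wn (fun θ => v (circleMap 0 a θ))|
        ≤ ∫⁻ w in {w : ℂ | a < ‖w‖ ∧ ‖w‖ < b}, ENNReal.ofReal (gn v w))
    (de : ∀ v : ℂ → ℝ, (∀ w : ℂ, ‖w‖ < 1 → ContDiffAt ℝ 1 v w) → ContinuousOn v (closedBall 0 1) →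
      (∀ w : ℂ, ‖w‖ ≤ 1 → v (-w) = - v w) →
      ENNReal.ofReal (Wn (fun θ => v (circleMap 0 1 θ))) ≤ ∫⁻ w in ball (0:ℂ) 1, ENNReal.ofReal (gn v w))
    (alg_low : ∀ φ ψ : ℝ → ℝ, Continuous φ → Continuous ψ → (∀ θ, φ θ * ψ θ = 0) →
      Real.pi * ∑ k ∈ ({1, 3, 5, 7} : Finset ℕ), vp k * ‖fk φ k‖ ^ 2 ≤ Wn (fun θ => φ θ + ψ θ) + Wn ψ)
    (Wn_nonneg : ∀ φ : ℝ → ℝ, 0 ≤ Wn φ) :
    ∃ φ : ℝ → ℝ, Continuous φ ∧
      (∀ θ : ℝ, Tendsto (v1 T H Q) (𝓝[ball 0 1] (circleMap 0 1 θ)) (𝓝 (φ θ))) ∧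
      ENNReal.ofReal (Real.pi * ∑ k ∈ ({1, 3, 5, 7} : Finset ℕ), vp k * ‖fk φ k‖ ^ 2) ≤
        ∫⁻ t in ball (0:ℂ) 1 \ (Q '' ball 0 1), ENNReal.ofReal (deriv T (H t).re * ‖deriv H t‖ ^ 2) := by
  set W := Wf T H F P Q with hW
  set v2 : ℂ → ℝ := extendFrom (ball (0 : ℂ) 1) W with hv2
  have hcl : closure (ball (0 : ℂ) 1) = closedBall 0 1 := closure_ball _ one_ne_zero
  have hin : ∀ w : ℂ, w ∈ ball (0 : ℂ) 1 → Tendsto W (𝓝[ball 0 1] w) (𝓝 (W w)) := by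
    intro w hw
    have hw' : ‖w‖ ≠ 1 := (mem_ball_zero_iff.1 hw).ne
    exact (r1 w hw').continuousAt.continuousWithinAt
  have hlim : ∀ w ∈ closedBall (0 : ℂ) 1, ∃ y, Tendsto W (𝓝[ball 0 1] w) (𝓝 y) := by
    intro w hw
    rcases (mem_closedBall_zero_iff.1 hw).lt_or_eq with h | h
    · exact ⟨_, hin w (mem_ball_zero_iff.2 h)⟩
    · rcases td w h with h' | h'
      · exact ⟨_, h'.2⟩
      · exact ⟨_, h'.2⟩
  have hv2c : ContinuousOn v2 (closedBall 0 1) := continuousOn_extendFrom hcl.ge hlim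
  have hv2W : ∀ w ∈ ball (0 : ℂ) 1, v2 w = W w := fun w hw =>
    extendFrom_eq (subset_closure hw) (hin w hw)
  have hv2e : ∀ w ∈ ball (0 : ℂ) 1, v2 =ᶠ[𝓝 w] W := fun w hw =>
    (isOpen_ball.mem_nhds hw) |> fun h => Filter.mem_of_superset h hv2W
  have hv2odd : ∀ w : ℂ, ‖w‖ ≤ 1 → v2 (-w) = -v2 w := by
    have h1 : EqOn (fun w => v2 (-w)) (fun w => -v2 w) (ball 0 1) := by
      intro w hw
      have hw' : -w ∈ ball (0 : ℂ) 1 := by
        rw [mem_ball_zero_iff, norm_neg]; exact mem_ball_zero_iff.1 hw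
      show v2 (-w) = -v2 w
      rw [hv2W _ hw', hv2W _ hw, r4]
    have h2 : EqOn (fun w => v2 (-w)) (fun w => -v2 w) (closedBall 0 1) := by
      refine h1.of_subset_closure ?_ hv2c.neg ball_subset_closedBall hcl.ge
      refine hv2c.comp continuous_neg.continuousOn ?_
      intro w hw
      rw [mem_closedBall_zero_iff, norm_neg]
      exact mem_closedBall_zero_iff.1 hw
    intro w hw
    exact h2 (mem_closedBall_zero_iff.2 hw)
  have hcn : ∀ θ : ℝ, ‖circleMap 0 1 θ‖ = 1 := by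
    intro θ
    have := circleMap_mem_sphere (0 : ℂ) zero_le_one θ
    simpa using this
  have hcc : Continuous (fun θ : ℝ => circleMap 0 1 θ) := continuous_circleMap 0 1
  have hWc : Continuous (fun θ : ℝ => W (circleMap 0 1 θ)) := by
    refine r2.comp_continuous hcc (fun θ => ?_)
    rw [mem_setOf_eq, hcn]
  have hψc : Continuous (fun θ : ℝ => v2 (circleMap 0 1 θ)) := by
    refine hv2c.comp_continuous hcc (fun θ => ?_)
    rw [mem_closedBall_zero_iff, hcn]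
  have hcases : ∀ θ : ℝ, (Tendsto (v1 T H Q) (𝓝[ball 0 1] (circleMap 0 1 θ))
        (𝓝 (W (circleMap 0 1 θ))) ∧ v2 (circleMap 0 1 θ) = 0) ∨
      (Tendsto (v1 T H Q) (𝓝[ball 0 1] (circleMap 0 1 θ)) (𝓝 0) ∧
        v2 (circleMap 0 1 θ) = W (circleMap 0 1 θ)) := by
    intro θ
    have hmem : circleMap 0 1 θ ∈ closure (ball (0 : ℂ) 1) := by
      rw [hcl, mem_closedBall_zero_iff, hcn]
    rcases td _ (hcn θ) with h | h
    · exact Or.inl ⟨h.1, extendFrom_eq hmem h.2⟩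
    · exact Or.inr ⟨h.1, extendFrom_eq hmem h.2⟩
  refine ⟨fun θ => W (circleMap 0 1 θ) - v2 (circleMap 0 1 θ), hWc.sub hψc, ?_, ?_⟩
  · intro θ
    rcases hcases θ with ⟨h1, h2⟩ | ⟨h1, h2⟩
    · show Tendsto _ _ (𝓝 (W (circleMap 0 1 θ) - v2 (circleMap 0 1 θ)))
      rw [h2, sub_zero]
      exact h1
    · show Tendsto _ _ (𝓝 (W (circleMap 0 1 θ) - v2 (circleMap 0 1 θ)))
      rw [h2, sub_self]
      exact h1
  · have halg := alg_low (fun θ => W (circleMap 0 1 θ) - v2 (circleMap 0 1 θ))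
      (fun θ => v2 (circleMap 0 1 θ)) (hWc.sub hψc) hψc (by
        intro θ
        rcases hcases θ with ⟨h1, h2⟩ | ⟨h1, h2⟩
        · show (W (circleMap 0 1 θ) - v2 (circleMap 0 1 θ)) * v2 (circleMap 0 1 θ) = 0
          rw [h2, mul_zero]
        · show (W (circleMap 0 1 θ) - v2 (circleMap 0 1 θ)) * v2 (circleMap 0 1 θ) = 0
          rw [h2, sub_self, zero_mul])
    have hsum : (fun θ : ℝ => (W (circleMap 0 1 θ) - v2 (circleMap 0 1 θ)) +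
        v2 (circleMap 0 1 θ)) = fun θ => W (circleMap 0 1 θ) := by
      funext θ; ring
    rw [hsum] at halg
    obtain ⟨R, hR1, hR⟩ := r3
    -- inner part
    have hde := de v2 (fun w hw => (r1 w hw.ne).congr_of_eventuallyEq
      (hv2e w (mem_ball_zero_iff.2 hw))) hv2c hv2odd
    have hgn : ∫⁻ w in ball (0 : ℂ) 1, ENNReal.ofReal (gn v2 w) =
        ∫⁻ w in ball (0 : ℂ) 1, ENNReal.ofReal (gn W w) := by
      refine setLIntegral_congr_fun measurableSet_ball fun w hw => ?_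
      show ENNReal.ofReal (gn v2 w) = ENNReal.ofReal (gn W w)
      unfold gn
      rw [(hv2e w hw).fderiv_eq]
    rw [hgn] at hde
    -- outer part
    have haec := aec W 1 R one_pos hR1 (fun w hw _ => r1 w hw.ne')
      (r2.mono fun w hw => hw.1) (fun w _ _ => r4 w)
    have hRz : (fun θ : ℝ => W (circleMap 0 R θ)) = fun _ => 0 := by
      funext θ
      refine hR _ ?_
      have := circleMap_mem_sphere (0 : ℂ) (by linarith : (0 : ℝ) ≤ R) θ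
      rw [mem_sphere_zero_iff_norm] at this
      exact this.ge
    have hWn0 : Wn (fun _ => 0) = 0 := by
      unfold Wn fk
      simp
    rw [hRz, hWn0, zero_sub, abs_neg, abs_of_nonneg (Wn_nonneg _)] at haec
    have hmA : MeasurableSet {w : ℂ | 1 < ‖w‖ ∧ ‖w‖ < R} := by
      refine MeasurableSet.inter ?_ ?_
      · exact (isOpen_lt continuous_const continuous_norm).measurableSet
      · exact (isOpen_lt continuous_norm continuous_const).measurableSet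
    have hdisj : Disjoint (ball (0 : ℂ) 1) {w : ℂ | 1 < ‖w‖ ∧ ‖w‖ < R} := by
      rw [Set.disjoint_left]
      intro w hw hw'
      have h1 := mem_ball_zero_iff.1 hw
      exact absurd h1 (not_lt.2 hw'.1.le)
    have hsub : ball (0 : ℂ) 1 ∪ {w : ℂ | 1 < ‖w‖ ∧ ‖w‖ < R} ⊆ {w : ℂ | ‖w‖ ≠ 1} := by
      rintro w (hw | hw)
      · exact (mem_ball_zero_iff.1 hw).ne
      · exact hw.1.ne'
    calc ENNReal.ofReal (Real.pi * ∑ k ∈ ({1, 3, 5, 7} : Finset ℕ), vp k *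
          ‖fk (fun θ => W (circleMap 0 1 θ) - v2 (circleMap 0 1 θ)) k‖ ^ 2)
        ≤ ENNReal.ofReal (Wn (fun θ => W (circleMap 0 1 θ)) +
            Wn (fun θ => v2 (circleMap 0 1 θ))) := ENNReal.ofReal_le_ofReal halg
      _ = ENNReal.ofReal (Wn (fun θ => W (circleMap 0 1 θ))) +
            ENNReal.ofReal (Wn (fun θ => v2 (circleMap 0 1 θ))) :=
          ENNReal.ofReal_add (Wn_nonneg _) (Wn_nonneg _)
      _ ≤ (∫⁻ w in {w : ℂ | 1 < ‖w‖ ∧ ‖w‖ < R}, ENNReal.ofReal (gn W w)) +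
            ∫⁻ w in ball (0 : ℂ) 1, ENNReal.ofReal (gn W w) := add_le_add haec hde
      _ = ∫⁻ w in ball (0 : ℂ) 1 ∪ {w : ℂ | 1 < ‖w‖ ∧ ‖w‖ < R}, ENNReal.ofReal (gn W w) := by
          rw [lintegral_union hmA hdisj, add_comm]
      _ ≤ ∫⁻ w in {w : ℂ | ‖w‖ ≠ 1}, ENNReal.ofReal (gn W w) := lintegral_mono_set hsub
      _ ≤ _ := en

end Pool.Agent.Helper859.Br.D1
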