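import Pool.Agent.Helper859.Br.Defs
set_option linter.all false
open Complex MeasureTheory Set Filter Topology Metric

namespace Pool.Agent.Helper859.Br.D2
open Pool.Agent.Helper859.Br

theorem main_ineq_Q0 {F P Q : ℂ → ℂ} (c : Cfg F P Q) : Q 0 = 0 := by
  have h := c.oQ 0 (mem_ball_self one_pos)
  rw [neg_zero] at h
  have h2 : (2:ℂ) * Q 0 = 0 := by linear_combination h
  rcases mul_eq_zero.mp h2 with h3 | h3
  · norm_num at h3
  · exact h3

theorem main_ineq_Qne {F P Q : ℂ → ℂ} (c : Cfg F P Q) {w : ℂ} (hw : w ∈ ball (0:ℂ) 1)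
    (h0 : w ≠ 0) : Q w ≠ 0 := by
  intro h
  exact h0 (c.iQ hw (mem_ball_self one_pos) (h.trans (main_ineq_Q0 c).symm))

theorem main_ineq_dh {F P Q H : ℂ → ℂ} (c : Cfg F P Q) (hH : Adm H) :
    DifferentiableOn ℂ (fun w => H (Q w)) (ball 0 1 \ {0}) := by
  refine DifferentiableOn.comp (t := {0}ᶜ) hH.d (c.dQ.mono diff_subset) ?_
  intro w hw
  exact main_ineq_Qne c hw.1 hw.2

theorem main_ineq_cont {F P Q H : ℂ → ℂ} (c : Cfg F P Q) (hH : Adm H) {r : ℝ} (h0 : 0 < r)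
    (h1 : r < 1) : Continuous (fun θ : ℝ => (H (Q (circleMap 0 r θ))).re) := by
  have h := (main_ineq_dh c hH).continuousOn
  have h2 : Continuous (fun θ : ℝ => H (Q (circleMap 0 r θ))) := by
    refine h.comp_continuous (continuous_circleMap 0 r) ?_
    intro θ
    refine ⟨?_, ?_⟩
    · rw [mem_ball_zero_iff, norm_circleMap_zero, abs_of_pos h0]; exact h1
    · exact circleMap_ne_center h0.ne'
  exact continuous_re.comp h2

theorem main_ineq_fkb {x y : ℝ → ℝ} (hx : Continuous x) (hy : Continuous y) {M : ℝ}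
    (h : ∀ θ, |x θ - y θ| ≤ M) (k : ℕ) : ‖fk x k - fk y k‖ ≤ 2 * M := by
  unfold fk
  rw [← mul_sub, ← intervalIntegral.integral_sub]
  · have h2 : ‖∫ θ in (0:ℝ)..(2*Real.pi), ((x θ : ℂ) * exp (-((k:ℂ) * θ * I)) -
        (y θ : ℂ) * exp (-((k:ℂ)*θ*I)))‖ ≤ M * |2 * Real.pi - 0| := by
      apply intervalIntegral.norm_integral_le_of_norm_le_const
      intro θ _
      have h3 : ‖exp (-((k:ℂ) * θ * I))‖ = 1 := by
        have h4 : -((k:ℂ) * θ * I) = ((-(k*θ) : ℝ) : ℂ) * I := by push_cast; ring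
        rw [h4, Complex.norm_exp_ofReal_mul_I]
      rw [← sub_mul, norm_mul, ← ofReal_sub, Complex.norm_real, Real.norm_eq_abs, h3, mul_one]
      exact h θ
    rw [norm_mul, norm_inv, Complex.norm_real, Real.norm_of_nonneg Real.pi_pos.le]
    rw [sub_zero, abs_of_pos (by positivity)] at h2
    calc Real.pi⁻¹ * ‖∫ θ in (0:ℝ)..(2*Real.pi), ((x θ : ℂ) * exp (-((k:ℂ) * θ * I)) -
        (y θ : ℂ) * exp (-((k:ℂ)*θ*I)))‖ ≤ Real.pi⁻¹ * (M * (2*Real.pi)) := by gcongr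
      _ = 2 * M := by field_simp
  · exact (Continuous.intervalIntegrable (by fun_prop) _ _)
  · exact (Continuous.intervalIntegrable (by fun_prop) _ _)

theorem main_ineq_lim {F P Q H : ℂ → ℂ} (c : Cfg F P Q) (hH : Adm H) {T : ℝ → ℝ}
    (hT : Continuous T) {φ : ℝ → ℝ} (hφ : Continuous φ)
    (hlim : ∀ θ : ℝ, Tendsto (v1 T H Q) (𝓝[ball 0 1] (circleMap 0 1 θ)) (𝓝 (φ θ))) (k : ℕ) :
    Tendsto (fun r : ℝ => fk (fun θ => T (H (Q (circleMap 0 r θ))).re) k) (𝓝[<] 1)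
      (𝓝 (fk φ k)) := by
  unfold fk
  refine Tendsto.const_mul _ ?_
  obtain ⟨C, hC⟩ := (isCompact_Icc (a := (0:ℝ)) (b := 2*Real.pi)).exists_bound_of_continuousOn
    hφ.continuousOn
  have hcm : ∀ θ : ℝ, ContinuousAt (fun z : ℝ × ℝ => circleMap 0 z.1 z.2) (1, θ) := by
    intro θ
    unfold circleMap
    fun_prop
  have hev : ∀ᶠ r in 𝓝 (1:ℝ), ∀ θ ∈ Icc (0:ℝ) (2*Real.pi), circleMap 0 r θ ∈ ball (0:ℂ) 1 →
      |v1 T H Q (circleMap 0 r θ)| ≤ C + 1 := by
    apply isCompact_Icc.eventually_forall_of_forall_eventually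
    intro θ hθ
    have h1 : ∀ᶠ w in 𝓝[ball 0 1] (circleMap 0 1 θ), |v1 T H Q w| < C + 1 := by
      have h2 := (hlim θ).abs
      refine h2.eventually (gt_mem_nhds ?_)
      have h3 := hC θ hθ
      rw [Real.norm_eq_abs] at h3
      linarith
    rw [eventually_nhdsWithin_iff] at h1
    have h3 := (hcm θ).eventually h1
    filter_upwards [h3] with z hz hb
    exact (hz hb).le
  have hr01 : ∀ᶠ r in 𝓝[<] (1:ℝ), 0 < r ∧ r < 1 := by
    filter_upwards [self_mem_nhdsWithin,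
      nhdsWithin_le_nhds (lt_mem_nhds (show (0:ℝ) < 1 by norm_num))] with r hr1 hr0
    exact ⟨hr0, hr1⟩
  have hnorm : ∀ θ : ℝ, ‖exp (-((k:ℂ) * θ * I))‖ = 1 := by
    intro θ
    have h4 : -((k:ℂ) * θ * I) = ((-(k*θ) : ℝ) : ℂ) * I := by push_cast; ring
    rw [h4, Complex.norm_exp_ofReal_mul_I]
  refine intervalIntegral.tendsto_integral_filter_of_dominated_convergence (fun _ => C + 1)
    ?_ ?_ ?_ ?_
  · filter_upwards [hr01] with r hr
    have h5 := main_ineq_cont c hH hr.1 hr.2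
    apply Continuous.aestronglyMeasurable
    have h6 : Continuous (fun θ : ℝ => T (H (Q (circleMap 0 r θ))).re) := hT.comp h5
    fun_prop
  · filter_upwards [hr01, nhdsWithin_le_nhds hev] with r hr he
    refine Filter.Eventually.of_forall fun θ hθ => ?_
    rw [uIoc_of_le (by positivity)] at hθ
    rw [norm_mul, hnorm, mul_one, Complex.norm_real, Real.norm_eq_abs]
    refine he θ ⟨hθ.1.le, hθ.2⟩ ?_
    rw [mem_ball_zero_iff, norm_circleMap_zero, abs_of_pos hr.1]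
    exact hr.2
  · exact intervalIntegrable_const
  · refine Filter.Eventually.of_forall fun θ _ => ?_
    refine Tendsto.mul_const _ ?_
    refine (continuous_ofReal.tendsto _).comp ?_
    refine (hlim θ).comp ?_
    rw [tendsto_nhdsWithin_iff]
    constructor
    · have h7 : Continuous (fun r : ℝ => circleMap 0 r θ) := by
        unfold circleMap
        fun_prop
      exact (h7.tendsto 1).mono_left nhdsWithin_le_nhds
    · filter_upwards [hr01] with r hr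
      rw [mem_ball_zero_iff, norm_circleMap_zero, abs_of_pos hr.1]
      exact hr.2

theorem main_ineq {F P Q H : ℂ → ℂ} (c : Cfg F P Q) (hH : Adm H)
    {a : ℕ → ℂ} (ha : ∀ ω ∈ ball (0:ℂ) 1, ω ≠ 0 → HasSum (fun j => a j * ω ^ j) (ω ^ 7 * H (Q ω)))
    (h1 : a 1 = 0) (h3 : a 3 = 0) (h5 : a 5 = 0)
    (trunc_exists : ∀ ε : ℝ, 0 < ε → ∃ T : ℝ → ℝ, Trunc ε T)
    (low : ∀ ε > (0:ℝ), ∀ T : ℝ → ℝ, Trunc ε T → ∃ φ : ℝ → ℝ, Continuous φ ∧
      (∀ θ : ℝ, Tendsto (v1 T H Q) (𝓝[ball 0 1] (circleMap 0 1 θ)) (𝓝 (φ θ))) ∧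
      ENNReal.ofReal (Real.pi * ∑ k ∈ ({1, 3, 5, 7} : Finset ℕ), vp k * ‖fk φ k‖ ^ 2) ≤
        ∫⁻ t in ball (0:ℂ) 1 \ (Q '' ball 0 1), ENNReal.ofReal (deriv T (H t).re * ‖deriv H t‖ ^ 2))
    (up : ∀ δ : ℝ, 0 < δ → δ < 1 → ∃ C : ℝ, ∀ ε > (0:ℝ), ∀ T : ℝ → ℝ, Trunc ε T →
      ∫⁻ t in ball (0:ℂ) 1 \ (Q '' ball 0 1), ENNReal.ofReal (deriv T (H t).re * ‖deriv H t‖ ^ 2) ≤
        ENNReal.ofReal (Real.pi * Sr a δ + ε * C))
    (fourK : ∀ {h : ℂ → ℂ}, DifferentiableOn ℂ h (ball 0 1 \ {0}) → ∀ {a : ℕ → ℂ},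
      (∀ ω ∈ ball (0:ℂ) 1, ω ≠ 0 → HasSum (fun j => a j * ω ^ j) (ω ^ 7 * h ω)) → ∀ r : ℝ, 0 < r → r < 1 →
      ∀ k : ℕ, 1 ≤ k → k ≤ 7 →
      fk (fun θ => (h (circleMap 0 r θ)).re) k = a (7 + k) * (r : ℂ) ^ k + (starRingEnd ℂ) (a (7 - k)) * ((r : ℂ) ^ k)⁻¹) :
    ∑ k ∈ ({1, 3, 5, 7} : Finset ℕ), vp k * ‖a (7 + k) + (starRingEnd ℂ) (a (7 - k))‖ ^ 2 ≤
      ∑ k ∈ ({1, 3, 5, 7} : Finset ℕ), (k : ℝ) * (‖a (7 - k)‖ ^ 2 - ‖a (7 + k)‖ ^ 2) := by
  have hdh := main_ineq_dh c hH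
  set y : ℕ → ℂ := fun k => a (7 + k) + (starRingEnd ℂ) (a (7 - k)) with hy
  have hr01 : ∀ᶠ r in 𝓝[<] (1:ℝ), 0 < r ∧ r < 1 := by
    filter_upwards [self_mem_nhdsWithin,
      nhdsWithin_le_nhds (lt_mem_nhds (show (0:ℝ) < 1 by norm_num))] with r hr1 hr0
    exact ⟨hr0, hr1⟩
  -- the approximation claim
  have claim : ∀ ε > (0:ℝ), ∀ T : ℝ → ℝ, Trunc ε T → ∀ φ : ℝ → ℝ, Continuous φ →
      (∀ θ : ℝ, Tendsto (v1 T H Q) (𝓝[ball 0 1] (circleMap 0 1 θ)) (𝓝 (φ θ))) →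
      ∀ k : ℕ, 1 ≤ k → k ≤ 7 → ‖fk φ k - y k‖ ≤ 4 * ε := by
    intro ε hε T hT φ hφ hlim k hk1 hk7
    have hTc : Continuous T := hT.c1.continuous
    have l1 := main_ineq_lim c hH hTc hφ hlim k
    have l2 : Tendsto (fun r : ℝ => fk (fun θ => (H (Q (circleMap 0 r θ))).re) k) (𝓝[<] 1)
        (𝓝 (y k)) := by
      have l3 : Tendsto (fun r : ℝ => a (7 + k) * (r : ℂ) ^ k +
          (starRingEnd ℂ) (a (7 - k)) * ((r : ℂ) ^ k)⁻¹) (𝓝[<] 1) (𝓝 (y k)) := by
        have l4 : ContinuousAt (fun r : ℝ => a (7 + k) * (r : ℂ) ^ k +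
            (starRingEnd ℂ) (a (7 - k)) * ((r : ℂ) ^ k)⁻¹) 1 := by
          refine ContinuousAt.add ?_ ?_
          · fun_prop
          · refine ContinuousAt.mul continuousAt_const (ContinuousAt.inv₀ (by fun_prop) ?_)
            simp
        have l5 := l4.tendsto
        simp only [ofReal_one, one_pow, mul_one, inv_one] at l5
        exact l5.mono_left nhdsWithin_le_nhds
      refine l3.congr' ?_
      filter_upwards [hr01] with r hr
      exact (fourK (h := fun w => H (Q w)) hdh ha r hr.1 hr.2 k hk1 hk7).symm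
    refine le_of_tendsto (l1.sub l2).norm ?_
    filter_upwards [hr01] with r hr
    have hc := main_ineq_cont c hH hr.1 hr.2
    have hb := main_ineq_fkb (x := fun θ => T (H (Q (circleMap 0 r θ))).re)
      (y := fun θ => (H (Q (circleMap 0 r θ))).re) (hTc.comp hc) hc (M := 2 * ε)
      (fun θ => hT.cl _) k
    linarith
  have hvp : ∀ k ∈ ({1, 3, 5, 7} : Finset ℕ), 0 < vp k := by
    intro k hk
    simp only [Finset.mem_insert, Finset.mem_singleton] at hk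
    unfold vp
    rcases hk with rfl | rfl | rfl | rfl <;> norm_num
  have hkk : ∀ k ∈ ({1, 3, 5, 7} : Finset ℕ), 1 ≤ k ∧ k ≤ 7 := by
    intro k hk
    simp only [Finset.mem_insert, Finset.mem_singleton] at hk
    omega
  by_cases hL : ∑ k ∈ ({1, 3, 5, 7} : Finset ℕ), vp k * ‖y k‖ ^ 2 = 0
  · -- all y vanish
    have hz := (Finset.sum_eq_zero_iff_of_nonneg (fun k hk =>
      mul_nonneg (hvp k hk).le (sq_nonneg _))).mp hL
    have hnn : ∀ k ∈ ({1, 3, 5, 7} : Finset ℕ), ‖a (7 + k)‖ = ‖a (7 - k)‖ := by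
      intro k hk
      have h6 := hz k hk
      rcases mul_eq_zero.mp h6 with h7 | h7
      · exact absurd h7 (hvp k hk).ne'
      · have h8 : y k = 0 := by simpa using h7
        have h9 : a (7 + k) = -(starRingEnd ℂ) (a (7 - k)) := eq_neg_of_add_eq_zero_left h8
        rw [h9, norm_neg, RCLike.norm_conj]
    change ∑ k ∈ ({1, 3, 5, 7} : Finset ℕ), vp k * ‖y k‖ ^ 2 ≤ _
    rw [hL]
    apply Finset.sum_nonneg
    intro k hk
    rw [hnn k hk, sub_self, mul_zero]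
  · have hLpos : 0 < ∑ k ∈ ({1, 3, 5, 7} : Finset ℕ), vp k * ‖y k‖ ^ 2 :=
      lt_of_le_of_ne (Finset.sum_nonneg fun k hk => mul_nonneg (hvp k hk).le (sq_nonneg _))
        (Ne.symm hL)
    -- sequences
    have hex : ∀ n : ℕ, ∃ T : ℝ → ℝ, Trunc (1 / ((n:ℝ) + 1)) T := fun n =>
      trunc_exists _ (by positivity)
    choose T hT using hex
    have hex2 := fun n : ℕ => low (1 / ((n:ℝ) + 1)) (by positivity) (T n) (hT n)
    choose φ hφc hφl hφi using hex2
    have hconv : ∀ k ∈ ({1, 3, 5, 7} : Finset ℕ),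
        Tendsto (fun n => fk (φ n) k) atTop (𝓝 (y k)) := by
      intro k hk
      rw [tendsto_iff_norm_sub_tendsto_zero]
      refine squeeze_zero (fun n => norm_nonneg _) (fun n => claim _ (by positivity) (T n) (hT n)
        (φ n) (hφc n) (hφl n) k (hkk k hk).1 (hkk k hk).2) ?_
      have h6 := (tendsto_one_div_add_atTop_nhds_zero_nat (𝕜 := ℝ)).const_mul 4
      rw [mul_zero] at h6
      exact h6
    have hLn : Tendsto (fun n => ∑ k ∈ ({1, 3, 5, 7} : Finset ℕ), vp k * ‖fk (φ n) k‖ ^ 2) atTop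
        (𝓝 (∑ k ∈ ({1, 3, 5, 7} : Finset ℕ), vp k * ‖y k‖ ^ 2)) := by
      apply tendsto_finsetSum
      intro k hk
      exact ((hconv k hk).norm.pow 2).const_mul _
    have hδ : ∀ δ : ℝ, 0 < δ → δ < 1 →
        ∑ k ∈ ({1, 3, 5, 7} : Finset ℕ), vp k * ‖y k‖ ^ 2 ≤ Sr a δ := by
      intro δ h0 h1'
      obtain ⟨C, hC⟩ := up δ h0 h1'
      have hupn : ∀ᶠ n in atTop, Real.pi * ∑ k ∈ ({1, 3, 5, 7} : Finset ℕ),
          vp k * ‖fk (φ n) k‖ ^ 2 ≤ Real.pi * Sr a δ + 1 / ((n:ℝ) + 1) * C := by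
        filter_upwards [hLn.eventually (lt_mem_nhds hLpos)] with n hn
        have h6 := (hφi n).trans (hC (1 / ((n:ℝ) + 1)) (by positivity) (T n) (hT n))
        rw [ENNReal.ofReal_le_ofReal_iff'] at h6
        rcases h6 with h6 | h6
        · exact h6
        · have h7 : 0 < Real.pi * ∑ k ∈ ({1, 3, 5, 7} : Finset ℕ), vp k * ‖fk (φ n) k‖ ^ 2 :=
            mul_pos Real.pi_pos hn
          linarith
      have hl : Tendsto (fun n : ℕ => Real.pi * Sr a δ + 1 / ((n:ℝ) + 1) * C) atTop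
          (𝓝 (Real.pi * Sr a δ)) := by
        have h6 := ((tendsto_one_div_add_atTop_nhds_zero_nat (𝕜 := ℝ)).mul_const C).const_add
          (Real.pi * Sr a δ)
        rw [zero_mul, add_zero] at h6
        exact h6
      have h8 := le_of_tendsto_of_tendsto (hLn.const_mul Real.pi) hl hupn
      exact le_of_mul_le_mul_left h8 Real.pi_pos
    have hcont : Tendsto (Sr a) (𝓝[<] 1) (𝓝 (Sr a 1)) := by
      have h6 : ContinuousAt (Sr a) 1 := by
        unfold Sr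
        refine tendsto_finsetSum _ fun k _ => ?_
        refine ContinuousAt.mul continuousAt_const (ContinuousAt.sub ?_ ?_)
        · refine ContinuousAt.mul continuousAt_const (ContinuousAt.inv₀ (by fun_prop) ?_)
          simp
        · fun_prop
      exact h6.tendsto.mono_left nhdsWithin_le_nhds
    have h9 : ∑ k ∈ ({1, 3, 5, 7} : Finset ℕ), vp k * ‖y k‖ ^ 2 ≤ Sr a 1 := by
      refine ge_of_tendsto hcont ?_
      filter_upwards [hr01] with r hr
      exact hδ r hr.1 hr.2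
    refine h9.trans ?_
    have h10 : Sr a 1 = ∑ k ∈ (Finset.Icc 1 7 : Finset ℕ),
        (k : ℝ) * (‖a (7 - k)‖ ^ 2 - ‖a (7 + k)‖ ^ 2) := by
      unfold Sr
      refine Finset.sum_congr rfl fun k _ => ?_
      rw [one_pow, inv_one, mul_one, mul_one]
    have h11 : (Finset.Icc 1 7 : Finset ℕ) = {1, 2, 3, 4, 5, 6, 7} := by decide
    rw [h10, h11]
    rw [Finset.sum_insert (by decide), Finset.sum_insert (by decide), Finset.sum_insert (by decide),
      Finset.sum_insert (by decide), Finset.sum_insert (by decide), Finset.sum_insert (by decide),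
      Finset.sum_singleton, Finset.sum_insert (by decide), Finset.sum_insert (by decide),
      Finset.sum_insert (by decide), Finset.sum_singleton]
    have e2 : a (7 - 2) = 0 := h5
    have e4 : a (7 - 4) = 0 := h3
    have e6 : a (7 - 6) = 0 := h1
    rw [e2, e4, e6, norm_zero]
    have n2 := sq_nonneg ‖a (7 + 2)‖
    have n4 := sq_nonneg ‖a (7 + 4)‖
    have n6 := sq_nonneg ‖a (7 + 6)‖
    push_cast
    linarith

end Pool.Agent.Helper859.Br.D2
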