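import Mathlib
set_option linter.all false
open Complex MeasureTheory Set Filter Topology Metric

namespace Pool.Agent.Helper859.Br

/-- squared norm of the gradient of a real function on the plane -/
noncomputable def gn (v : ℂ → ℝ) (w : ℂ) : ℝ := (fderiv ℝ v w 1) ^ 2 + (fderiv ℝ v w I) ^ 2

/-- smooth truncations at level eps -/
structure Trunc (ε : ℝ) (T : ℝ → ℝ) : Prop where
  c1 : ContDiff ℝ 1 T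
  odd : ∀ x, T (-x) = -T x
  d0 : ∀ x, 0 ≤ deriv T x
  d1 : ∀ x, deriv T x ≤ 1
  z : ∀ x, |x| ≤ ε → T x = 0
  cl : ∀ x, |T x - x| ≤ 2 * ε

/-- the glued configuration -/
structure Cfg (F P Q : ℂ → ℂ) : Prop where
  dF : DifferentiableOn ℂ F (ball 0 1)
  dP : DifferentiableOn ℂ P (ball 0 1)
  dQ : DifferentiableOn ℂ Q (ball 0 1)
  iF : InjOn F (ball 0 1)
  iP : InjOn P (ball 0 1)
  iQ : InjOn Q (ball 0 1)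
  oF : ∀ z ∈ ball (0:ℂ) 1, F (-z) = -F z
  oP : ∀ z ∈ ball (0:ℂ) 1, P (-z) = -P z
  oQ : ∀ z ∈ ball (0:ℂ) 1, Q (-z) = -Q z
  bF : ∃ C : ℝ, ∀ z ∈ ball (0:ℂ) 1, ‖F z‖ ≤ C
  mP : MapsTo P (ball 0 1) (ball 0 1)
  mQ : MapsTo Q (ball 0 1) (ball 0 1)
  cov : ball (0:ℂ) 1 ⊆ P '' ball 0 1 ∪ Q '' ball 0 1
  rel : ∀ z ∈ ball (0:ℂ) 1, ∀ w ∈ ball (0:ℂ) 1, P z = Q w → w = F z

/-- admissible functions on the punctured disc: real part vanishes on the unit circle -/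
structure Adm (H : ℂ → ℂ) : Prop where
  d : DifferentiableOn ℂ H {0}ᶜ
  odd : ∀ t, H (-t) = -H t
  b : ∀ ε > (0:ℝ), ∃ r < (1:ℝ), ∀ t : ℂ, r ≤ ‖t‖ → ‖t‖ < 1 → |(H t).re| ≤ ε

/-- points z of the disc whose P-image is covered (Us) or not covered (Vs) by Q -/
def Us (P Q : ℂ → ℂ) : Set ℂ := {z | z ∈ ball (0:ℂ) 1 ∧ P z ∈ Q '' ball 0 1}
def Vs (P Q : ℂ → ℂ) : Set ℂ := {z | z ∈ ball (0:ℂ) 1 ∧ P z ∉ Q '' ball 0 1}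

open Classical in
/-- the second-sheet function -/
noncomputable def Wf (T : ℝ → ℝ) (H F P Q : ℂ → ℂ) (w : ℂ) : ℝ :=
  if w ∈ F '' Vs P Q then T (H (P (Function.invFunOn F (ball 0 1) w))).re else 0

/-- the function on the disc of Q -/
noncomputable def v1 (T : ℝ → ℝ) (H Q : ℂ → ℂ) (w : ℂ) : ℝ := T (H (Q w)).re

/-- doubled Fourier coefficient -/
noncomputable def fk (φ : ℝ → ℝ) (k : ℕ) : ℂ :=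
  (Real.pi : ℂ)⁻¹ * ∫ θ in (0:ℝ)..(2 * Real.pi), (φ θ : ℂ) * exp (-((k : ℂ) * θ * I))

/-- circle functional -/
noncomputable def Wn (φ : ℝ → ℝ) : ℝ :=
  (∫ θ in (0:ℝ)..(2 * Real.pi), (φ θ) ^ 2) +
    Real.pi * ∑ k ∈ ({3, 5, 7} : Finset ℕ), ((k : ℝ) - 1) * ‖fk φ k‖ ^ 2

noncomputable def vp (k : ℕ) : ℝ := ((k:ℝ) ^ 2 + 2 * k - 1) / (2 * k)

/-- the coefficient side of the area identity; `a` are the coefficients of `ω^7 H(Q ω)` -/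
noncomputable def Sr (a : ℕ → ℂ) (r : ℝ) : ℝ :=
  ∑ k ∈ (Finset.Icc 1 7 : Finset ℕ), (k : ℝ) * (‖a (7 - k)‖ ^ 2 * (r ^ (2 * k))⁻¹ - ‖a (7 + k)‖ ^ 2 * r ^ (2 * k))

/-- the Grunsky form of the odd map, in terms of the coefficients of `Y`, `Q ω * Y (ω^2) = q ω` -/
noncomputable def Gam (g1 g2 g3 g4 g5 e57 e77 x1 x3 x5 x7 : ℂ) : ℂ :=
  g1 * x1 ^ 2 + 6 * g2 * x1 * x3 + 10 * g3 * x1 * x5 + 14 * g4 * x1 * x7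
    + 3 * (g1 ^ 3 + 3 * g1 * g2 + 3 * g3) * x3 ^ 2
    + 30 * (g1 ^ 2 * g2 + g1 * g3 + g2 ^ 2 + g4) * x3 * x5
    + 42 * (g1 ^ 2 * g3 + g1 * g2 ^ 2 + g1 * g4 + 2 * g2 * g3 + g5) * x3 * x7
    + 5 * (g1 ^ 5 + 5 * g1 ^ 3 * g2 + 5 * g1 ^ 2 * g3 + 15 * g1 * g2 ^ 2 + 5 * g1 * g4 + 15 * g2 * g3 + 5 * g5) * x5 ^ 2
    + e57 * x5 * x7 + e77 * x7 ^ 2

/-- the Faber form -/
noncomputable def Nn (ρ : ℝ) (g1 g2 g3 x1 x3 x5 x7 : ℂ) : ℝ :=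
  ρ * ‖x1 - 3 * g1 * x3 + 5 * (g1 ^ 2 - g2) * x5 + 7 * (-g1 ^ 3 + 2 * g1 * g2 - g3) * x7‖ ^ 2
    + 3 * ρ ^ 3 * ‖x3 - 5 * g1 * x5 + 7 * (2 * g1 ^ 2 - g2) * x7‖ ^ 2
    + 5 * ρ ^ 5 * ‖x5 - 7 * g1 * x7‖ ^ 2 + 7 * ρ ^ 7 * ‖x7‖ ^ 2

/-- the finite dimensional constraints -/
structure JJ (ρ : ℝ) (g1 g2 g3 g4 g5 e57 e77 : ℂ) : Prop where
  lo : ∀ x1 x3 x5 x7 : ℂ, Nn ρ g1 g2 g3 x1 x3 x5 x7 - (Gam g1 g2 g3 g4 g5 e57 e77 x1 x3 x5 x7).re ≤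
    ‖x1‖ ^ 2 + 3 * ‖x3‖ ^ 2 + 5 * ‖x5‖ ^ 2 + 7 * ‖x7‖ ^ 2
  up : ∀ x1 x3 x5 x7 : ℂ, (Gam g1 g2 g3 g4 g5 e57 e77 x1 x3 x5 x7).re - Nn ρ g1 g2 g3 x1 x3 x5 x7 ≤
    3 / 8 * ‖x3‖ ^ 2 + 20 / 21 * ‖x5‖ ^ 2 + 63 / 40 * ‖x7‖ ^ 2

/-- real forms, with independent powers r1, r3, r5, r7 of the radius parameter -/
noncomputable def NR (c r1 r3 r5 r7 a b u v p s x3 x5 x7 : ℝ) : ℝ :=
  r1 * ((p - 3 * c * x3 + 5 * (c ^ 2 - a) * x5 + 7 * (-c ^ 3 + 2 * c * a - u) * x7) ^ 2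
      + (s - 5 * b * x5 + 7 * (2 * c * b - v) * x7) ^ 2)
    + 3 * r3 * ((x3 - 5 * c * x5 + 7 * (2 * c ^ 2 - a) * x7) ^ 2 + (7 * b * x7) ^ 2)
    + 5 * r5 * (x5 - 7 * c * x7) ^ 2 + 7 * r7 * x7 ^ 2

noncomputable def GR (c a b u v g4 g5 e57 e77 p s x3 x5 x7 : ℝ) : ℝ :=
  c * (p ^ 2 - s ^ 2) + 6 * (a * p - b * s) * x3 + 10 * (u * p - v * s) * x5 + 14 * g4 * p * x7
    + 3 * (c ^ 3 + 3 * c * a + 3 * u) * x3 ^ 2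
    + 30 * (c ^ 2 * a + c * u + a ^ 2 - b ^ 2 + g4) * x3 * x5
    + 42 * (c ^ 2 * u + c * (a ^ 2 - b ^ 2) + c * g4 + 2 * (a * u - b * v) + g5) * x3 * x7
    + 5 * (c ^ 5 + 5 * c ^ 3 * a + 5 * c ^ 2 * u + 15 * c * (a ^ 2 - b ^ 2) + 5 * c * g4 + 15 * (a * u - b * v) + 5 * g5) * x5 ^ 2
    + e57 * x5 * x7 + e77 * x7 ^ 2

noncomputable def VA (c r1 r3 r5 r7 a b u v g4 g5 e57 e77 p s x3 x5 x7 : ℝ) : ℝ :=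
  p ^ 2 + s ^ 2 + 3 * x3 ^ 2 + 5 * x5 ^ 2 + 7 * x7 ^ 2 - NR c r1 r3 r5 r7 a b u v p s x3 x5 x7
    - GR c a b u v g4 g5 e57 e77 p s x3 x5 x7
noncomputable def VB (c r1 r3 r5 r7 a b u v g4 g5 e57 e77 p s x3 x5 x7 : ℝ) : ℝ :=
  3 / 8 * x3 ^ 2 + 20 / 21 * x5 ^ 2 + 63 / 40 * x7 ^ 2 + NR c r1 r3 r5 r7 a b u v p s x3 x5 x7
    - GR c a b u v g4 g5 e57 e77 p s x3 x5 x7
noncomputable def VC (c r1 r3 r5 r7 a b u v g4 g5 e57 e77 p s x3 x5 x7 : ℝ) : ℝ :=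
  p ^ 2 + s ^ 2 + 3 * x3 ^ 2 + 5 * x5 ^ 2 + 7 * x7 ^ 2 - NR c r1 r3 r5 r7 a b u v p s x3 x5 x7
    + GR c a b u v g4 g5 e57 e77 p s x3 x5 x7
noncomputable def VD (c r1 r3 r5 r7 a b u v g4 g5 e57 e77 p s x3 x5 x7 : ℝ) : ℝ :=
  3 / 8 * x3 ^ 2 + 20 / 21 * x5 ^ 2 + 63 / 40 * x7 ^ 2 + NR c r1 r3 r5 r7 a b u v p s x3 x5 x7
    + GR c a b u v g4 g5 e57 e77 p s x3 x5 x7

structure RR (c ρ a b u v g4 g5 e57 e77 : ℝ) : Prop where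
  A : ∀ p s x3 x5 x7 : ℝ, s * x7 = 0 → 0 ≤ VA c ρ (ρ ^ 3) (ρ ^ 5) (ρ ^ 7) a b u v g4 g5 e57 e77 p s x3 x5 x7
  B : ∀ p s x3 x5 x7 : ℝ, s * x7 = 0 → 0 ≤ VB c ρ (ρ ^ 3) (ρ ^ 5) (ρ ^ 7) a b u v g4 g5 e57 e77 p s x3 x5 x7
  C : ∀ p s x3 x5 x7 : ℝ, s * x7 = 0 → 0 ≤ VC c ρ (ρ ^ 3) (ρ ^ 5) (ρ ^ 7) a b u v g4 g5 e57 e77 p s x3 x5 x7
  D : ∀ p s x3 x5 x7 : ℝ, s * x7 = 0 → 0 ≤ VD c ρ (ρ ^ 3) (ρ ^ 5) (ρ ^ 7) a b u v g4 g5 e57 e77 p s x3 x5 x7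

/-- tangent value at rm evaluated at r -/
noncomputable def tg (rm r : ℝ) (j : ℕ) : ℝ := rm ^ j + j * rm ^ (j - 1) * (r - rm)

/-- test functions -/
noncomputable def HH (α1 α3 α5 α7 t : ℂ) : ℂ :=
  (α1 * (t ^ 1)⁻¹ - (starRingEnd ℂ) α1 * t ^ 1) + (α3 * (t ^ 3)⁻¹ - (starRingEnd ℂ) α3 * t ^ 3)
    + (α5 * (t ^ 5)⁻¹ - (starRingEnd ℂ) α5 * t ^ 5) + (α7 * (t ^ 7)⁻¹ - (starRingEnd ℂ) α7 * t ^ 7)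

/-- class of triples used for the uniformisation -/
structure Tri (F : ℂ → ℂ) (C : ℝ) (P Q k : ℂ → ℂ) : Prop where
  dP : DifferentiableOn ℂ P (ball 0 1)
  dQ : DifferentiableOn ℂ Q (ball 0 1)
  dk : DifferentiableOn ℂ k (ball 0 1)
  mP : MapsTo P (ball 0 1) (ball 0 1)
  mQ : MapsTo Q (ball 0 1) (ball 0 1)
  P0 : P 0 = 0
  Q0 : Q 0 = 0
  bk : ∀ t ∈ ball (0:ℂ) 1, ‖k t‖ ≤ C
  kQ : ∀ w ∈ ball (0:ℂ) 1, k (Q w) = w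
  kP : ∀ z ∈ ball (0:ℂ) 1, k (P z) = F z

end Pool.Agent.Helper859.Br
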