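import Pool.Agent.Helper859.Br.Defs
set_option linter.all false
open Complex MeasureTheory Set Filter Topology Metric

namespace Pool.Agent.Helper859.Br.K1
open Pool.Agent.Helper859.Br

theorem exY {Q : ℂ → ℂ} (dQ : DifferentiableOn ℂ Q (ball 0 1)) (iQ : InjOn Q (ball 0 1))
    (oQ : ∀ z ∈ ball (0:ℂ) 1, Q (-z) = -Q z) {q : ℝ} (hq : 0 < q) (hQ : deriv Q 0 = (q : ℂ)) :
    ∃ Y : ℂ → ℂ, DifferentiableOn ℂ Y (ball 0 1) ∧ (∀ x ∈ ball (0:ℂ) 1, Y x ≠ 0) ∧ Y 0 = 1 ∧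
      (∀ ω ∈ ball (0:ℂ) 1, Q ω * Y (ω ^ 2) = q * ω) := by
  have h0mem : (0:ℂ) ∈ ball (0:ℂ) 1 := by simp
  have hqC : (q : ℂ) ≠ 0 := by exact_mod_cast hq.ne'
  have hQ0 : Q 0 = 0 := by
    have h := oQ 0 h0mem
    rw [neg_zero] at h
    have h2 : (2:ℂ) * Q 0 = 0 := by linear_combination h
    rcases mul_eq_zero.mp h2 with h3 | h3
    · norm_num at h3
    · exact h3
  set R : ℂ → ℂ := dslope Q 0 with hR
  have hR0 : R 0 = q := by rw [hR, dslope_same, hQ]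
  have hRne : ∀ w, w ≠ 0 → R w = Q w / w := by
    intro w hw
    rw [hR, dslope_of_ne _ hw, slope_def_field, hQ0, sub_zero, sub_zero]
  have dR : DifferentiableOn ℂ R (ball 0 1) :=
    (Complex.differentiableOn_dslope (isOpen_ball.mem_nhds h0mem)).mpr dQ
  have hRnz : ∀ w ∈ ball (0:ℂ) 1, R w ≠ 0 := by
    intro w hw
    by_cases h : w = 0
    · rw [h, hR0]; exact hqC
    · rw [hRne w h]
      refine div_ne_zero ?_ h
      intro h1
      exact h (iQ hw h0mem (by rw [h1, hQ0]))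
  have hnegmem : ∀ w ∈ ball (0:ℂ) 1, -w ∈ ball (0:ℂ) 1 := by
    intro w hw; simpa using hw
  have hReven : ∀ w ∈ ball (0:ℂ) 1, R (-w) = R w := by
    intro w hw
    by_cases h : w = 0
    · rw [h, neg_zero]
    · rw [hRne w h, hRne (-w) (neg_ne_zero.mpr h), oQ w hw, neg_div_neg_eq]
  set m : ℂ → ℂ := fun w => q / R w with hm
  have dm : DifferentiableOn ℂ m (ball 0 1) := (differentiableOn_const _).div dR hRnz
  have hmeq : ∀ s ∈ ball (0:ℂ) 1, ∀ t : ℂ, s ^ 2 = t ^ 2 → m t = m s := by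
    intro s hs t h
    rcases sq_eq_sq_iff_eq_or_eq_neg.mp h with h1 | h1
    · rw [h1]
    · have : t = -s := by rw [h1, neg_neg]
      rw [this]
      show (q : ℂ) / R (-s) = q / R s
      rw [hReven s hs]
  set Y : ℂ → ℂ := fun x => m (x ^ (1/2 : ℂ)) with hY
  have hhalf : ∀ x : ℂ, (x ^ (1/2 : ℂ)) ^ 2 = x := by
    intro x
    have := Complex.cpow_nat_inv_pow x (n := 2) (by norm_num)
    simpa using this
  have hsqmem : ∀ s : ℂ, s ^ 2 ∈ ball (0:ℂ) 1 → s ∈ ball (0:ℂ) 1 := by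
    intro s hs
    rw [mem_ball_zero_iff] at hs ⊢
    rw [norm_pow] at hs
    have := norm_nonneg s
    nlinarith
  have hYeq : ∀ s ∈ ball (0:ℂ) 1, Y (s ^ 2) = m s := by
    intro s hs
    exact hmeq s hs _ (hhalf (s ^ 2)).symm
  have hdiff0 : ∀ x ∈ ball (0:ℂ) 1, x ≠ 0 → DifferentiableAt ℂ Y x := by
    intro x hx hx0
    by_cases hsl : x ∈ slitPlane
    · have h1 : DifferentiableAt ℂ (fun y : ℂ => y ^ (1/2 : ℂ)) x :=
        differentiableAt_id.cpow_const hsl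
      have h2 : x ^ (1/2 : ℂ) ∈ ball (0:ℂ) 1 := hsqmem _ (by rw [hhalf]; exact hx)
      have h3 : DifferentiableAt ℂ m (x ^ (1/2 : ℂ)) :=
        dm.differentiableAt (isOpen_ball.mem_nhds h2)
      exact DifferentiableAt.comp (g := m) (f := fun y : ℂ => y ^ (1/2 : ℂ)) x h3 h1
    · have hsl' : -x ∈ slitPlane := by
        rw [Complex.mem_slitPlane_iff] at hsl ⊢
        push Not at hsl
        left
        rw [Complex.neg_re]
        rcases lt_or_eq_of_le hsl.1 with h | h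
        · linarith
        · exact absurd (Complex.ext h hsl.2) hx0
      have h1 : DifferentiableAt ℂ (fun y : ℂ => I * (-y) ^ (1/2 : ℂ)) x := by
        have h4 : DifferentiableAt ℂ (fun y : ℂ => (-y) ^ (1/2 : ℂ)) x :=
          DifferentiableAt.cpow_const (differentiableAt_id.neg) hsl'
        exact h4.const_mul I
      have hsq : ∀ y : ℂ, (I * (-y) ^ (1/2 : ℂ)) ^ 2 = y := by
        intro y
        rw [mul_pow, hhalf, I_sq]; ring
      have h2 : I * (-x) ^ (1/2 : ℂ) ∈ ball (0:ℂ) 1 := hsqmem _ (by rw [hsq]; exact hx)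
      have h3 : DifferentiableAt ℂ m (I * (-x) ^ (1/2 : ℂ)) :=
        dm.differentiableAt (isOpen_ball.mem_nhds h2)
      have h5 : DifferentiableAt ℂ (m ∘ (fun y : ℂ => I * (-y) ^ (1/2 : ℂ))) x :=
        DifferentiableAt.comp (g := m) (f := fun y : ℂ => I * (-y) ^ (1/2 : ℂ)) x h3 h1
      refine h5.congr_of_eventuallyEq ?_
      filter_upwards [isOpen_ball.mem_nhds hx] with y hy
      have h6 : I * (-y) ^ (1/2 : ℂ) ∈ ball (0:ℂ) 1 := hsqmem _ (by rw [hsq]; exact hy)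
      have h7 := hYeq _ h6
      rw [hsq] at h7
      exact h7
  have hcont0 : ContinuousAt Y 0 := by
    have h1 : ContinuousAt (fun y : ℂ => y ^ (1/2 : ℂ)) 0 :=
      Complex.continuousAt_cpow_const_of_re_pos (Or.inl (by simp)) (by norm_num)
    have h2 : ContinuousAt m ((0:ℂ) ^ (1/2 : ℂ)) := by
      rw [Complex.zero_cpow (by norm_num)]
      exact (dm.differentiableAt (isOpen_ball.mem_nhds h0mem)).continuousAt
    exact ContinuousAt.comp (f := fun y : ℂ => y ^ (1/2 : ℂ)) h2 h1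
  have hdiffat0 : DifferentiableAt ℂ Y 0 := by
    apply AnalyticAt.differentiableAt
    apply Complex.analyticAt_of_differentiable_on_punctured_nhds_of_continuousAt _ hcont0
    rw [eventually_nhdsWithin_iff]
    filter_upwards [isOpen_ball.mem_nhds h0mem] with y hy hy0
    exact hdiff0 y hy hy0
  have hsq' : ∀ x ∈ ball (0:ℂ) 1, x ^ (1/2 : ℂ) ∈ ball (0:ℂ) 1 := by
    intro x hx
    exact hsqmem _ (by rw [hhalf]; exact hx)
  refine ⟨Y, ?_, ?_, ?_, ?_⟩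
  · intro x hx
    by_cases h : x = 0
    · rw [h]; exact hdiffat0.differentiableWithinAt
    · exact (hdiff0 x hx h).differentiableWithinAt
  · intro x hx
    exact div_ne_zero hqC (hRnz _ (hsq' x hx))
  · show (q:ℂ) / R ((0:ℂ) ^ (1/2 : ℂ)) = 1
    rw [Complex.zero_cpow (by norm_num), hR0, div_self hqC]
  · intro ω hω
    rw [hYeq ω hω]
    show Q ω * (q / R ω) = q * ω
    by_cases h : ω = 0
    · rw [h, hQ0]; simp
    · have h1 := hRnz ω hω
      rw [hRne ω h] at h1 ⊢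
      have h2 : Q ω ≠ 0 := by
        intro h3; rw [h3] at h1; simp at h1
      field_simp

theorem termb (α : ℂ) (k : ℕ) (t : ℂ) (ht : t ≠ 0) (ht1 : ‖t‖ ≤ 1) :
    |(α * (t ^ k)⁻¹ - (starRingEnd ℂ) α * t ^ k).re| ≤ ‖α‖ * ((‖t‖ ^ k)⁻¹ - ‖t‖ ^ k) := by
  have htn : 0 < ‖t‖ := norm_pos_iff.mpr ht
  have hk : 0 < ‖t‖ ^ k := by positivity
  have hinv : (t ^ k)⁻¹ = (starRingEnd ℂ) (t ^ k) * (((‖t‖ ^ k) ^ 2)⁻¹ : ℝ) := by
    rw [Complex.inv_def, Complex.normSq_eq_norm_sq, norm_pow]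
  have e1 : α * (t ^ k)⁻¹ = (α * (starRingEnd ℂ) (t ^ k)) * (((‖t‖ ^ k) ^ 2)⁻¹ : ℝ) := by
    rw [hinv]; ring
  have e2 : ((starRingEnd ℂ) α * t ^ k).re = (α * (starRingEnd ℂ) (t ^ k)).re := by
    rw [← Complex.conj_re]
    congr 1
    rw [map_mul, Complex.conj_conj]
  rw [Complex.sub_re, e1, Complex.re_mul_ofReal, e2]
  have e3 : (α * (starRingEnd ℂ) (t ^ k)).re * ((‖t‖ ^ k) ^ 2)⁻¹ - (α * (starRingEnd ℂ) (t ^ k)).re
      = (α * (starRingEnd ℂ) (t ^ k)).re * (((‖t‖ ^ k) ^ 2)⁻¹ - 1) := by ring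
  rw [e3, abs_mul]
  have h1 : |(α * (starRingEnd ℂ) (t ^ k)).re| ≤ ‖α‖ * ‖t‖ ^ k := by
    refine (Complex.abs_re_le_norm _).trans ?_
    rw [norm_mul, RCLike.norm_conj, norm_pow]
  have hle1 : ‖t‖ ^ k ≤ 1 := pow_le_one₀ htn.le ht1
  have h2 : 0 ≤ ((‖t‖ ^ k) ^ 2)⁻¹ - 1 := by
    have : (‖t‖ ^ k) ^ 2 ≤ 1 := by nlinarith
    have := (one_le_inv₀ (by positivity)).mpr this
    linarith
  rw [abs_of_nonneg h2]
  calc |(α * (starRingEnd ℂ) (t ^ k)).re| * (((‖t‖ ^ k) ^ 2)⁻¹ - 1)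
      ≤ (‖α‖ * ‖t‖ ^ k) * (((‖t‖ ^ k) ^ 2)⁻¹ - 1) := mul_le_mul_of_nonneg_right h1 h2
    _ = ‖α‖ * ((‖t‖ ^ k)⁻¹ - ‖t‖ ^ k) := by field_simp

theorem admH (α1 α3 α5 α7 : ℂ) : Adm (HH α1 α3 α5 α7) := by
  refine ⟨?_, ?_, ?_⟩
  · intro t ht
    have ht0 : t ≠ 0 := ht
    have hk : ∀ k : ℕ, t ^ k ≠ 0 := fun k => pow_ne_zero k ht0
    apply DifferentiableAt.differentiableWithinAt
    have hd : ∀ (α : ℂ) (k : ℕ), DifferentiableAt ℂ
        (fun t : ℂ => α * (t ^ k)⁻¹ - (starRingEnd ℂ) α * t ^ k) t := by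
      intro α k
      have h1 : DifferentiableAt ℂ (fun t : ℂ => t ^ k) t := differentiableAt_id.pow k
      exact ((h1.inv (hk k)).const_mul α).sub (h1.const_mul _)
    exact (((hd α1 1).add (hd α3 3)).add (hd α5 5)).add (hd α7 7)
  · intro t
    have h : ∀ k : ℕ, Odd k → (-t) ^ k = -t ^ k := fun k hk => hk.neg_pow t
    unfold HH
    rw [h 1 (by decide), h 3 (by decide), h 5 (by decide), h 7 (by decide)]
    simp only [inv_neg]
    ring
  · intro ε hε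
    set φ : ℝ → ℝ := fun s => ‖α1‖ * ((s ^ 1)⁻¹ - s ^ 1) + ‖α3‖ * ((s ^ 3)⁻¹ - s ^ 3)
      + ‖α5‖ * ((s ^ 5)⁻¹ - s ^ 5) + ‖α7‖ * ((s ^ 7)⁻¹ - s ^ 7) with hφ
    have hc : ContinuousAt φ 1 := by
      have hd : ∀ (a : ℝ) (k : ℕ), ContinuousAt (fun s : ℝ => a * ((s ^ k)⁻¹ - s ^ k)) 1 := by
        intro a k
        have h1 : ContinuousAt (fun s : ℝ => s ^ k) 1 := (continuous_pow k).continuousAt
        exact ((h1.inv₀ (by simp)).sub h1).const_mul a
      exact (((hd _ 1).add (hd _ 3)).add (hd _ 5)).add (hd _ 7)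
    have hφ1 : φ 1 = 0 := by simp [hφ]
    obtain ⟨δ, hδ, hδ2⟩ := Metric.continuousAt_iff.mp hc ε hε
    refine ⟨max (1/2) (1 - δ/2), max_lt (by norm_num) (by linarith), ?_⟩
    intro t ht1 ht2
    have h1 : 1/2 ≤ ‖t‖ := (le_max_left _ _).trans ht1
    have h2 : 1 - δ/2 ≤ ‖t‖ := (le_max_right _ _).trans ht1
    have ht0 : t ≠ 0 := by
      intro h; rw [h, norm_zero] at h1; norm_num at h1
    have h3 := hδ2 (x := ‖t‖) (by rw [Real.dist_eq, abs_lt]; constructor <;> linarith)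
    rw [hφ1, Real.dist_eq, sub_zero] at h3
    have h4 : |(HH α1 α3 α5 α7 t).re| ≤ φ ‖t‖ := by
      unfold HH
      simp only [Complex.add_re]
      have a1 := termb α1 1 t ht0 ht2.le
      have a3 := termb α3 3 t ht0 ht2.le
      have a5 := termb α5 5 t ht0 ht2.le
      have a7 := termb α7 7 t ht0 ht2.le
      rw [abs_le] at a1 a3 a5 a7 ⊢
      simp only [hφ]
      constructor <;> linarith
    exact h4.trans ((le_abs_self _).trans h3.le)

end Pool.Agent.Helper859.Br.K1
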