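import Pool.Agent.Helper859.Br.Defs
set_option linter.all false
open Complex MeasureTheory Set Filter Topology Metric

namespace Pool.Agent.Helper859.Br.K3
open Pool.Agent.Helper859.Br

/-- `f` is given by the power series `s` on the unit disc -/
def PS (f : ℂ → ℂ) (s : PowerSeries ℂ) : Prop :=
  ∀ x ∈ ball (0:ℂ) 1, HasSum (fun n => PowerSeries.coeff n s * x ^ n) (f x)

theorem PS.add {f g : ℂ → ℂ} {s t : PowerSeries ℂ} (hf : PS f s) (hg : PS g t) :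
    PS (fun x => f x + g x) (s + t) := by
  intro x hx
  have h := (hf x hx).add (hg x hx)
  refine h.congr_fun ?_
  intro n
  rw [map_add, add_mul]

theorem PS.sub {f g : ℂ → ℂ} {s t : PowerSeries ℂ} (hf : PS f s) (hg : PS g t) :
    PS (fun x => f x - g x) (s - t) := by
  intro x hx
  have h := (hf x hx).sub (hg x hx)
  refine h.congr_fun ?_
  intro n
  rw [map_sub, sub_mul]

theorem PS.const (c : ℂ) : PS (fun _ => c) (PowerSeries.C c) := by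
  intro x hx
  have h := hasSum_single (f := fun n => PowerSeries.coeff n (PowerSeries.C c) * x ^ n) 0 (by
    intro n hn
    simp only [PowerSeries.coeff_C, if_neg hn, zero_mul])
  simpa [PowerSeries.coeff_C] using h

theorem PS.X : PS (fun x => x) PowerSeries.X := by
  intro x hx
  have h := hasSum_single (f := fun n => PowerSeries.coeff n (PowerSeries.X : PowerSeries ℂ) * x ^ n) 1 (by
    intro n hn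
    simp only [PowerSeries.coeff_X, if_neg hn, zero_mul])
  simpa [PowerSeries.coeff_X] using h

theorem PS.mul {f g : ℂ → ℂ} {s t : PowerSeries ℂ} (hf : PS f s) (hg : PS g t) :
    PS (fun x => f x * g x) (s * t) := by
  intro x hx
  have h1 := hf x hx
  have h2 := hg x hx
  have n1 := h1.summable.norm
  have n2 := h2.summable.norm
  have h3 := (summable_norm_sum_mul_antidiagonal_of_summable_norm n1 n2).of_norm.hasSum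
  rw [← tsum_mul_tsum_eq_tsum_sum_antidiagonal_of_summable_norm n1 n2, h1.tsum_eq, h2.tsum_eq] at h3
  refine h3.congr_fun ?_
  intro n
  rw [PowerSeries.coeff_mul, Finset.sum_mul]
  refine Finset.sum_congr rfl fun p hp => ?_
  rw [← Finset.HasAntidiagonal.mem_antidiagonal.1 hp, pow_add]
  ring

theorem PS.pow {f : ℂ → ℂ} {s : PowerSeries ℂ} (hf : PS f s) (k : ℕ) :
    PS (fun x => f x ^ k) (s ^ k) := by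
  induction k with
  | zero => simpa using PS.const 1
  | succ k ih =>
    have := ih.mul hf
    simpa only [pow_succ] using this

theorem PS.exists_of {f : ℂ → ℂ} (hf : DifferentiableOn ℂ f (ball 0 1)) :
    ∃ s : PowerSeries ℂ, PS f s ∧ PowerSeries.coeff 0 s = f 0 ∧ PowerSeries.coeff 1 s = deriv f 0 := by
  refine ⟨PowerSeries.mk fun n => ((n.factorial : ℂ))⁻¹ * iteratedDeriv n f 0, ?_, ?_, ?_⟩
  · intro x hx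
    have h := Complex.hasSum_taylorSeries_on_ball hf hx
    refine h.congr_fun ?_
    intro n
    rw [PowerSeries.coeff_mk, sub_zero, smul_eq_mul, smul_eq_mul]
    ring
  · simp
  · simp

theorem PS.unique {f : ℂ → ℂ} {s t : PowerSeries ℂ} (hs : PS f s) (ht : PS f t) : s = t := by
  have key : ∀ u : PowerSeries ℂ, PS f u → HasFPowerSeriesAt f
      (FormalMultilinearSeries.ofScalars ℂ (fun n => PowerSeries.coeff n u)) 0 := by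
    intro u hu
    rw [hasFPowerSeriesAt_iff]
    filter_upwards [ball_mem_nhds (0:ℂ) one_pos] with z hz
    rw [zero_add]
    refine (hu z hz).congr_fun ?_
    intro n
    rw [FormalMultilinearSeries.coeff_ofScalars, smul_eq_mul, mul_comm]
  have h := (key s hs).eq_formalMultilinearSeries (key t ht)
  ext n
  have h1 := congrArg (fun p => FormalMultilinearSeries.coeff p n) h
  simpa only [FormalMultilinearSeries.coeff_ofScalars] using h1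

theorem coeff_mul_range (s t : PowerSeries ℂ) (n : ℕ) : PowerSeries.coeff n (s * t) =
    ∑ k ∈ Finset.range (n + 1), PowerSeries.coeff k s * PowerSeries.coeff (n - k) t := by
  rw [PowerSeries.coeff_mul, Finset.Nat.sum_antidiagonal_eq_sum_range_succ
    (fun i j => PowerSeries.coeff i s * PowerSeries.coeff j t)]

/-- the first eight coefficients -/
structure Co (s : PowerSeries ℂ) (a0 a1 a2 a3 a4 a5 a6 a7 : ℂ) : Prop where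
  h0 : PowerSeries.coeff 0 s = a0
  h1 : PowerSeries.coeff 1 s = a1
  h2 : PowerSeries.coeff 2 s = a2
  h3 : PowerSeries.coeff 3 s = a3
  h4 : PowerSeries.coeff 4 s = a4
  h5 : PowerSeries.coeff 5 s = a5
  h6 : PowerSeries.coeff 6 s = a6
  h7 : PowerSeries.coeff 7 s = a7

theorem Co.mul {s t : PowerSeries ℂ} {a0 a1 a2 a3 a4 a5 a6 a7 b0 b1 b2 b3 b4 b5 b6 b7 : ℂ} (hs : Co s a0 a1 a2 a3 a4 a5 a6 a7) (ht : Co t b0 b1 b2 b3 b4 b5 b6 b7) :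
    Co (s * t) (a0 * b0) (a0 * b1 + a1 * b0) (a0 * b2 + a1 * b1 + a2 * b0) (a0 * b3 + a1 * b2 + a2 * b1 + a3 * b0) (a0 * b4 + a1 * b3 + a2 * b2 + a3 * b1 + a4 * b0) (a0 * b5 + a1 * b4 + a2 * b3 + a3 * b2 + a4 * b1 + a5 * b0) (a0 * b6 + a1 * b5 + a2 * b4 + a3 * b3 + a4 * b2 + a5 * b1 + a6 * b0) (a0 * b7 + a1 * b6 + a2 * b5 + a3 * b4 + a4 * b3 + a5 * b2 + a6 * b1 + a7 * b0) := by
  constructor <;>
  simp only [coeff_mul_range, Finset.sum_range_succ, Finset.sum_range_zero, zero_add, Nat.sub_zero,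
    Nat.reduceSub, Nat.sub_self, hs.h0, hs.h1, hs.h2, hs.h3, hs.h4, hs.h5, hs.h6, hs.h7,
    ht.h0, ht.h1, ht.h2, ht.h3, ht.h4, ht.h5, ht.h6, ht.h7]

theorem Co.cg {s : PowerSeries ℂ} {a0 a1 a2 a3 a4 a5 a6 a7 b0 b1 b2 b3 b4 b5 b6 b7 : ℂ} (hs : Co s a0 a1 a2 a3 a4 a5 a6 a7) (e0 : a0 = b0) (e1 : a1 = b1) (e2 : a2 = b2) (e3 : a3 = b3) (e4 : a4 = b4) (e5 : a5 = b5) (e6 : a6 = b6) (e7 : a7 = b7) :
    Co s b0 b1 b2 b3 b4 b5 b6 b7 := by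
  subst e0 e1 e2 e3 e4 e5 e6 e7
  exact hs

theorem co_S2 {S : PowerSeries ℂ} {g1 g2 g3 g4 g5 g6 g7 : ℂ} (hS : Co S 1 g1 g2 g3 g4 g5 g6 g7) :
    Co (S * S)
      (1)
      (2 * g1)
      (g1 ^ 2 + 2 * g2)
      (2 * g1 * g2 + 2 * g3)
      (2 * g1 * g3 + g2 ^ 2 + 2 * g4)
      (2 * g1 * g4 + 2 * g2 * g3 + 2 * g5)
      (2 * g1 * g5 + 2 * g2 * g4 + g3 ^ 2 + 2 * g6)
      (2 * g1 * g6 + 2 * g2 * g5 + 2 * g3 * g4 + 2 * g7)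
      := by
  refine (Co.mul hS hS).cg ?_ ?_ ?_ ?_ ?_ ?_ ?_ ?_ <;> ring

theorem co_S3 {S : PowerSeries ℂ} {g1 g2 g3 g4 g5 g6 g7 : ℂ} (hS : Co S 1 g1 g2 g3 g4 g5 g6 g7) :
    Co (S * S * S)
      (1)
      (3 * g1)
      (3 * g1 ^ 2 + 3 * g2)
      (g1 ^ 3 + 6 * g1 * g2 + 3 * g3)
      (3 * g1 ^ 2 * g2 + 6 * g1 * g3 + 3 * g2 ^ 2 + 3 * g4)
      (3 * g1 ^ 2 * g3 + 3 * g1 * g2 ^ 2 + 6 * g1 * g4 + 6 * g2 * g3 + 3 * g5)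
      (3 * g1 ^ 2 * g4 + 6 * g1 * g2 * g3 + 6 * g1 * g5 + g2 ^ 3 + 6 * g2 * g4 + 3 * g3 ^ 2 + 3 * g6)
      (3 * g1 ^ 2 * g5 + 6 * g1 * g2 * g4 + 3 * g1 * g3 ^ 2 + 6 * g1 * g6 + 3 * g2 ^ 2 * g3 + 6 * g2 * g5 + 6 * g3 * g4 + 3 * g7)
      := by
  refine (Co.mul (co_S2 hS) hS).cg ?_ ?_ ?_ ?_ ?_ ?_ ?_ ?_ <;> ring

theorem co_S5 {S : PowerSeries ℂ} {g1 g2 g3 g4 g5 g6 g7 : ℂ} (hS : Co S 1 g1 g2 g3 g4 g5 g6 g7) :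
    Co (S * S * S * (S * S))
      (1)
      (5 * g1)
      (10 * g1 ^ 2 + 5 * g2)
      (10 * g1 ^ 3 + 20 * g1 * g2 + 5 * g3)
      (5 * g1 ^ 4 + 30 * g1 ^ 2 * g2 + 20 * g1 * g3 + 10 * g2 ^ 2 + 5 * g4)
      (g1 ^ 5 + 20 * g1 ^ 3 * g2 + 30 * g1 ^ 2 * g3 + 30 * g1 * g2 ^ 2 + 20 * g1 * g4 + 20 * g2 * g3 + 5 * g5)
      (5 * g1 ^ 4 * g2 + 20 * g1 ^ 3 * g3 + 30 * g1 ^ 2 * g2 ^ 2 + 30 * g1 ^ 2 * g4 + 60 * g1 * g2 * g3 + 20 * g1 * g5 + 10 * g2 ^ 3 + 20 * g2 * g4 + 10 * g3 ^ 2 + 5 * g6)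
      (5 * g1 ^ 4 * g3 + 10 * g1 ^ 3 * g2 ^ 2 + 20 * g1 ^ 3 * g4 + 60 * g1 ^ 2 * g2 * g3 + 30 * g1 ^ 2 * g5 + 20 * g1 * g2 ^ 3 + 60 * g1 * g2 * g4 + 30 * g1 * g3 ^ 2 + 20 * g1 * g6 + 30 * g2 ^ 2 * g3 + 20 * g2 * g5 + 20 * g3 * g4 + 5 * g7)
      := by
  refine (Co.mul (co_S3 hS) (co_S2 hS)).cg ?_ ?_ ?_ ?_ ?_ ?_ ?_ ?_ <;> ring

theorem co_S7 {S : PowerSeries ℂ} {g1 g2 g3 g4 g5 g6 g7 : ℂ} (hS : Co S 1 g1 g2 g3 g4 g5 g6 g7) :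
    Co (S * S * S * (S * S) * (S * S))
      (1)
      (7 * g1)
      (21 * g1 ^ 2 + 7 * g2)
      (35 * g1 ^ 3 + 42 * g1 * g2 + 7 * g3)
      (35 * g1 ^ 4 + 105 * g1 ^ 2 * g2 + 42 * g1 * g3 + 21 * g2 ^ 2 + 7 * g4)
      (21 * g1 ^ 5 + 140 * g1 ^ 3 * g2 + 105 * g1 ^ 2 * g3 + 105 * g1 * g2 ^ 2 + 42 * g1 * g4 + 42 * g2 * g3 + 7 * g5)
      (7 * g1 ^ 6 + 105 * g1 ^ 4 * g2 + 140 * g1 ^ 3 * g3 + 210 * g1 ^ 2 * g2 ^ 2 + 105 * g1 ^ 2 * g4 + 210 * g1 * g2 * g3 + 42 * g1 * g5 + 35 * g2 ^ 3 + 42 * g2 * g4 + 21 * g3 ^ 2 + 7 * g6)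
      (g1 ^ 7 + 42 * g1 ^ 5 * g2 + 105 * g1 ^ 4 * g3 + 210 * g1 ^ 3 * g2 ^ 2 + 140 * g1 ^ 3 * g4 + 420 * g1 ^ 2 * g2 * g3 + 105 * g1 ^ 2 * g5 + 140 * g1 * g2 ^ 3 + 210 * g1 * g2 * g4 + 105 * g1 * g3 ^ 2 + 42 * g1 * g6 + 105 * g2 ^ 2 * g3 + 42 * g2 * g5 + 42 * g3 * g4 + 7 * g7)
      := by
  refine (Co.mul (co_S5 hS) (co_S2 hS)).cg ?_ ?_ ?_ ?_ ?_ ?_ ?_ ?_ <;> ring

/-- the first four coefficients -/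
structure Cq (s : PowerSeries ℂ) (a0 a1 a2 a3 : ℂ) : Prop where
  h0 : PowerSeries.coeff 0 s = a0
  h1 : PowerSeries.coeff 1 s = a1
  h2 : PowerSeries.coeff 2 s = a2
  h3 : PowerSeries.coeff 3 s = a3

theorem Cq.mul {s t : PowerSeries ℂ} {a0 a1 a2 a3 b0 b1 b2 b3 : ℂ} (hs : Cq s a0 a1 a2 a3) (ht : Cq t b0 b1 b2 b3) :
    Cq (s * t) (a0 * b0) (a0 * b1 + a1 * b0) (a0 * b2 + a1 * b1 + a2 * b0) (a0 * b3 + a1 * b2 + a2 * b1 + a3 * b0) := by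
  constructor <;>
  simp only [coeff_mul_range, Finset.sum_range_succ, Finset.sum_range_zero, zero_add, Nat.sub_zero,
    Nat.reduceSub, Nat.sub_self, hs.h0, hs.h1, hs.h2, hs.h3,
    ht.h0, ht.h1, ht.h2, ht.h3]

theorem Cq.cg {s : PowerSeries ℂ} {a0 a1 a2 a3 b0 b1 b2 b3 : ℂ} (hs : Cq s a0 a1 a2 a3) (e0 : a0 = b0) (e1 : a1 = b1) (e2 : a2 = b2) (e3 : a3 = b3) :
    Cq s b0 b1 b2 b3 := by
  subst e0 e1 e2 e3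
  exact hs

theorem cq_T2 {T : PowerSeries ℂ} {g1 g2 g3 : ℂ}
    (hT : Cq T 1 (-g1) (g1 ^ 2 - g2) (-g1 ^ 3 + 2 * g1 * g2 - g3)) :
    Cq (T * T) (1) (-2 * g1) (3 * g1 ^ 2 - 2 * g2) (-4 * g1 ^ 3 + 6 * g1 * g2 - 2 * g3) := by
  refine (Cq.mul hT hT).cg ?_ ?_ ?_ ?_ <;> ring

theorem cq_T3 {T : PowerSeries ℂ} {g1 g2 g3 : ℂ}
    (hT : Cq T 1 (-g1) (g1 ^ 2 - g2) (-g1 ^ 3 + 2 * g1 * g2 - g3)) :
    Cq (T * T * T) (1) (-3 * g1) (6 * g1 ^ 2 - 3 * g2) (-10 * g1 ^ 3 + 12 * g1 * g2 - 3 * g3) := by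
  refine (Cq.mul (cq_T2 hT) hT).cg ?_ ?_ ?_ ?_ <;> ring

theorem cq_T5 {T : PowerSeries ℂ} {g1 g2 g3 : ℂ}
    (hT : Cq T 1 (-g1) (g1 ^ 2 - g2) (-g1 ^ 3 + 2 * g1 * g2 - g3)) :
    Cq (T * T * T * (T * T)) (1) (-5 * g1) (15 * g1 ^ 2 - 5 * g2) (-35 * g1 ^ 3 + 30 * g1 * g2 - 5 * g3) := by
  refine (Cq.mul (cq_T3 hT) (cq_T2 hT)).cg ?_ ?_ ?_ ?_ <;> ring

theorem cq_T7 {T : PowerSeries ℂ} {g1 g2 g3 : ℂ}
    (hT : Cq T 1 (-g1) (g1 ^ 2 - g2) (-g1 ^ 3 + 2 * g1 * g2 - g3)) :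
    Cq (T * T * T * (T * T) * (T * T)) (1) (-7 * g1) (28 * g1 ^ 2 - 7 * g2) (-84 * g1 ^ 3 + 56 * g1 * g2 - 7 * g3) := by
  refine (Cq.mul (cq_T5 hT) (cq_T2 hT)).cg ?_ ?_ ?_ ?_ <;> ring

theorem cq_inv {S T : PowerSeries ℂ} {g1 g2 g3 g4 g5 g6 g7 : ℂ} (hS : Co S 1 g1 g2 g3 g4 g5 g6 g7) (h : S * T = 1) :
    Cq T 1 (-g1) (g1 ^ 2 - g2) (-g1 ^ 3 + 2 * g1 * g2 - g3) := by
  have e0 := congrArg (PowerSeries.coeff 0) h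
  have e1 := congrArg (PowerSeries.coeff 1) h
  have e2 := congrArg (PowerSeries.coeff 2) h
  have e3 := congrArg (PowerSeries.coeff 3) h
  simp only [coeff_mul_range, Finset.sum_range_succ, Finset.sum_range_zero, zero_add, Nat.sub_zero,
    Nat.reduceSub, Nat.sub_self, hS.h0, hS.h1, hS.h2, hS.h3, PowerSeries.coeff_one, one_mul,
    if_true, OfNat.ofNat_ne_zero, one_ne_zero, if_false] at e0 e1 e2 e3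
  have f1 : PowerSeries.coeff 1 T = -g1 := by linear_combination e1 - g1 * e0
  have f2 : PowerSeries.coeff 2 T = g1 ^ 2 - g2 := by linear_combination e2 - g1 * f1 - g2 * e0
  have f3 : PowerSeries.coeff 3 T = -g1 ^ 3 + 2 * g1 * g2 - g3 := by linear_combination e3 - g1 * f2 - g2 * f1 - g3 * e0
  exact ⟨e0, f1, f2, f3⟩

theorem real_ineq (x1 x3 x5 x7 c1 c3 c5 c7 : ℂ)
    (h : 1 * ‖c1 + (starRingEnd ℂ) x1‖ ^ 2 + 7 / 3 * ‖c3 + (starRingEnd ℂ) x3‖ ^ 2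
      + 17 / 5 * ‖c5 + (starRingEnd ℂ) x5‖ ^ 2 + 31 / 7 * ‖c7 + (starRingEnd ℂ) x7‖ ^ 2 ≤
      1 * (‖x1‖ ^ 2 - ‖c1‖ ^ 2) + 3 * (‖x3‖ ^ 2 - ‖c3‖ ^ 2) + 5 * (‖x5‖ ^ 2 - ‖c5‖ ^ 2)
        + 7 * (‖x7‖ ^ 2 - ‖c7‖ ^ 2)) :
    -(x1 * c1 + 3 * (x3 * c3) + 5 * (x5 * c5) + 7 * (x7 * c7)).re ≤
      ‖x1‖ ^ 2 + 3 * ‖x3‖ ^ 2 + 5 * ‖x5‖ ^ 2 + 7 * ‖x7‖ ^ 2 ∧
    (x1 * c1 + 3 * (x3 * c3) + 5 * (x5 * c5) + 7 * (x7 * c7)).re ≤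
      3 / 8 * ‖x3‖ ^ 2 + 20 / 21 * ‖x5‖ ^ 2 + 63 / 40 * ‖x7‖ ^ 2 := by
  have hn : ∀ z : ℂ, ‖z‖ ^ 2 = z.re ^ 2 + z.im ^ 2 := by
    intro z
    rw [Complex.sq_norm, Complex.normSq_apply]
    ring
  have hre : (x1 * c1 + 3 * (x3 * c3) + 5 * (x5 * c5) + 7 * (x7 * c7)).re =
      (x1.re * c1.re - x1.im * c1.im) + 3 * (x3.re * c3.re - x3.im * c3.im)
        + 5 * (x5.re * c5.re - x5.im * c5.im) + 7 * (x7.re * c7.re - x7.im * c7.im) := by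
    have e3 : ∀ z : ℂ, ((3 : ℂ) * z).re = 3 * z.re := fun z => by
      rw [show (3 : ℂ) = ((3 : ℝ) : ℂ) by norm_num, Complex.re_ofReal_mul]
    have e5 : ∀ z : ℂ, ((5 : ℂ) * z).re = 5 * z.re := fun z => by
      rw [show (5 : ℂ) = ((5 : ℝ) : ℂ) by norm_num, Complex.re_ofReal_mul]
    have e7 : ∀ z : ℂ, ((7 : ℂ) * z).re = 7 * z.re := fun z => by
      rw [show (7 : ℂ) = ((7 : ℝ) : ℂ) by norm_num, Complex.re_ofReal_mul]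
    rw [Complex.add_re, Complex.add_re, Complex.add_re, e3, e5, e7, Complex.mul_re, Complex.mul_re,
      Complex.mul_re, Complex.mul_re]
  rw [hre]
  simp only [hn, Complex.add_re, Complex.add_im, Complex.conj_re, Complex.conj_im] at h ⊢
  have k1 := sq_nonneg c1.re
  have k2 := sq_nonneg c1.im
  constructor
  · have l1 := add_nonneg (sq_nonneg (x1.re + c1.re)) (sq_nonneg (x1.im - c1.im))
    have l3 := add_nonneg (sq_nonneg (x3.re + c3.re)) (sq_nonneg (x3.im - c3.im))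
    have l5 := add_nonneg (sq_nonneg (x5.re + c5.re)) (sq_nonneg (x5.im - c5.im))
    have l7 := add_nonneg (sq_nonneg (x7.re + c7.re)) (sq_nonneg (x7.im - c7.im))
    nlinarith [l1, l3, l5, l7]
  · have l1 := add_nonneg (sq_nonneg c1.re) (sq_nonneg c1.im)
    have l3 := add_nonneg (sq_nonneg (c3.re - x3.re / 8)) (sq_nonneg (c3.im + x3.im / 8))
    have l5 := add_nonneg (sq_nonneg (c5.re - 4 * x5.re / 21)) (sq_nonneg (c5.im + 4 * x5.im / 21))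
    have l7 := add_nonneg (sq_nonneg (c7.re - 9 * x7.re / 40)) (sq_nonneg (c7.im + 9 * x7.im / 40))
    nlinarith [l1, l3, l5, l7]

/-- the power series of `ω^7 H(Q ω)` in `ω^2` -/
noncomputable def SA (S T : PowerSeries ℂ) (h1 h3 h5 h7 b1 b3 b5 b7 : ℂ) : PowerSeries ℂ :=
  PowerSeries.C h7 * (S * S * S * (S * S) * (S * S)) + PowerSeries.C h5 * (PowerSeries.X ^ 1 * (S * S * S * (S * S)))
    + PowerSeries.C h3 * (PowerSeries.X ^ 2 * (S * S * S)) + PowerSeries.C h1 * (PowerSeries.X ^ 3 * S)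
    - PowerSeries.C b1 * (PowerSeries.X ^ 4 * T) - PowerSeries.C b3 * (PowerSeries.X ^ 5 * (T * T * T))
    - PowerSeries.C b5 * (PowerSeries.X ^ 6 * (T * T * T * (T * T)))
    - PowerSeries.C b7 * (PowerSeries.X ^ 7 * (T * T * T * (T * T) * (T * T)))

theorem SA_coeff (S T : PowerSeries ℂ) (h1 h3 h5 h7 b1 b3 b5 b7 : ℂ) (n : ℕ) :
    PowerSeries.coeff n (SA S T h1 h3 h5 h7 b1 b3 b5 b7) =
    h7 * PowerSeries.coeff n (S * S * S * (S * S) * (S * S))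
    + h5 * (if 1 ≤ n then PowerSeries.coeff (n - 1) (S * S * S * (S * S)) else 0)
    + h3 * (if 2 ≤ n then PowerSeries.coeff (n - 2) (S * S * S) else 0)
    + h1 * (if 3 ≤ n then PowerSeries.coeff (n - 3) S else 0)
    - b1 * (if 4 ≤ n then PowerSeries.coeff (n - 4) T else 0)
    - b3 * (if 5 ≤ n then PowerSeries.coeff (n - 5) (T * T * T) else 0)
    - b5 * (if 6 ≤ n then PowerSeries.coeff (n - 6) (T * T * T * (T * T)) else 0)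
    - b7 * (if 7 ≤ n then PowerSeries.coeff (n - 7) (T * T * T * (T * T) * (T * T)) else 0) := by
  simp only [SA, map_add, map_sub, PowerSeries.coeff_C_mul, PowerSeries.coeff_X_pow_mul']

theorem SA_co {S T : PowerSeries ℂ} {g1 g2 g3 g4 g5 g6 g7 : ℂ} (hS : Co S 1 g1 g2 g3 g4 g5 g6 g7)
    (hT : Cq T 1 (-g1) (g1 ^ 2 - g2) (-g1 ^ 3 + 2 * g1 * g2 - g3)) (x1 x3 x5 x7 b1 b3 b5 b7 : ℂ) :
    Co (SA S T (x1 - 3 * g1 * x3 + 5 * (g1 ^ 2 - g2) * x5 + 7 * (-g1 ^ 3 + 2 * g1 * g2 - g3) * x7) (x3 - 5 * g1 * x5 + 7 * (2 * g1 ^ 2 - g2) * x7) (x5 - 7 * g1 * x7) x7 b1 b3 b5 b7) x7 x5 x3 x1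
      (g1 * x1 + 3 * g2 * x3 + 5 * g3 * x5 + 7 * g4 * x7 - b1)
      (g2 * x1 + (g1 ^ 3 + 3 * g1 * g2 + 3 * g3) * x3 + 5 * (g1 ^ 2 * g2 + g1 * g3 + g2 ^ 2 + g4) * x5 + 7 * (g1 ^ 2 * g3 + g1 * g2 ^ 2 + g1 * g4 + 2 * g2 * g3 + g5) * x7 - (-g1 * b1 + b3))
      (g3 * x1 + 3 * (g1 ^ 2 * g2 + g1 * g3 + g2 ^ 2 + g4) * x3 + (g1 ^ 5 + 5 * g1 ^ 3 * g2 + 5 * g1 ^ 2 * g3 + 15 * g1 * g2 ^ 2 + 5 * g1 * g4 + 15 * g2 * g3 + 5 * g5) * x5 + 7 * (g1 ^ 4 * g2 + g1 ^ 3 * g3 + 3 * g1 ^ 2 * g2 ^ 2 + g1 ^ 2 * g4 + 6 * g1 * g2 * g3 + g1 * g5 + 2 * g2 ^ 3 + 3 * g2 * g4 + 2 * g3 ^ 2 + g6) * x7 - ((g1 ^ 2 - g2) * b1 + -3 * g1 * b3 + b5))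
      (g4 * x1 + 3 * (g1 ^ 2 * g3 + g1 * g2 ^ 2 + g1 * g4 + 2 * g2 * g3 + g5) * x3 + 5 * (g1 ^ 4 * g2 + g1 ^ 3 * g3 + 3 * g1 ^ 2 * g2 ^ 2 + g1 ^ 2 * g4 + 6 * g1 * g2 * g3 + g1 * g5 + 2 * g2 ^ 3 + 3 * g2 * g4 + 2 * g3 ^ 2 + g6) * x5 + (g1 ^ 7 + 7 * g1 ^ 5 * g2 + 7 * g1 ^ 4 * g3 + 42 * g1 ^ 3 * g2 ^ 2 + 7 * g1 ^ 3 * g4 + 63 * g1 ^ 2 * g2 * g3 + 7 * g1 ^ 2 * g5 + 49 * g1 * g2 ^ 3 + 42 * g1 * g2 * g4 + 35 * g1 * g3 ^ 2 + 7 * g1 * g6 + 63 * g2 ^ 2 * g3 + 21 * g2 * g5 + 35 * g3 * g4 + 7 * g7) * x7 - ((-g1 ^ 3 + 2 * g1 * g2 - g3) * b1 + (6 * g1 ^ 2 - 3 * g2) * b3 + -5 * g1 * b5 + b7))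
      := by
  have s3 := co_S3 hS
  have s5 := co_S5 hS
  have s7 := co_S7 hS
  have t3 := cq_T3 hT
  have t5 := cq_T5 hT
  have t7 := cq_T7 hT
  constructor
  · rw [SA_coeff, s7.h0]
    rw [if_neg (by norm_num : ¬ 1 ≤ 0), if_neg (by norm_num : ¬ 2 ≤ 0), if_neg (by norm_num : ¬ 3 ≤ 0), if_neg (by norm_num : ¬ 4 ≤ 0), if_neg (by norm_num : ¬ 5 ≤ 0), if_neg (by norm_num : ¬ 6 ≤ 0), if_neg (by norm_num : ¬ 7 ≤ 0)]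
    ring
  · rw [SA_coeff, s7.h1]
    rw [if_pos (by norm_num : 1 ≤ 1), if_neg (by norm_num : ¬ 2 ≤ 1), if_neg (by norm_num : ¬ 3 ≤ 1), if_neg (by norm_num : ¬ 4 ≤ 1), if_neg (by norm_num : ¬ 5 ≤ 1), if_neg (by norm_num : ¬ 6 ≤ 1), if_neg (by norm_num : ¬ 7 ≤ 1)]
    simp only [Nat.reduceSub, Nat.sub_self, s5.h0]
    ring
  · rw [SA_coeff, s7.h2]
    rw [if_pos (by norm_num : 1 ≤ 2), if_pos (by norm_num : 2 ≤ 2), if_neg (by norm_num : ¬ 3 ≤ 2), if_neg (by norm_num : ¬ 4 ≤ 2), if_neg (by norm_num : ¬ 5 ≤ 2), if_neg (by norm_num : ¬ 6 ≤ 2), if_neg (by norm_num : ¬ 7 ≤ 2)]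
    simp only [Nat.reduceSub, Nat.sub_self, s5.h1, s3.h0]
    ring
  · rw [SA_coeff, s7.h3]
    rw [if_pos (by norm_num : 1 ≤ 3), if_pos (by norm_num : 2 ≤ 3), if_pos (by norm_num : 3 ≤ 3), if_neg (by norm_num : ¬ 4 ≤ 3), if_neg (by norm_num : ¬ 5 ≤ 3), if_neg (by norm_num : ¬ 6 ≤ 3), if_neg (by norm_num : ¬ 7 ≤ 3)]
    simp only [Nat.reduceSub, Nat.sub_self, s5.h2, s3.h1, hS.h0]
    ring
  · rw [SA_coeff, s7.h4]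
    rw [if_pos (by norm_num : 1 ≤ 4), if_pos (by norm_num : 2 ≤ 4), if_pos (by norm_num : 3 ≤ 4), if_pos (by norm_num : 4 ≤ 4), if_neg (by norm_num : ¬ 5 ≤ 4), if_neg (by norm_num : ¬ 6 ≤ 4), if_neg (by norm_num : ¬ 7 ≤ 4)]
    simp only [Nat.reduceSub, Nat.sub_self, s5.h3, s3.h2, hS.h1, hT.h0]
    ring
  · rw [SA_coeff, s7.h5]
    rw [if_pos (by norm_num : 1 ≤ 5), if_pos (by norm_num : 2 ≤ 5), if_pos (by norm_num : 3 ≤ 5), if_pos (by norm_num : 4 ≤ 5), if_pos (by norm_num : 5 ≤ 5), if_neg (by norm_num : ¬ 6 ≤ 5), if_neg (by norm_num : ¬ 7 ≤ 5)]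
    simp only [Nat.reduceSub, Nat.sub_self, s5.h4, s3.h3, hS.h2, hT.h1, t3.h0]
    ring
  · rw [SA_coeff, s7.h6]
    rw [if_pos (by norm_num : 1 ≤ 6), if_pos (by norm_num : 2 ≤ 6), if_pos (by norm_num : 3 ≤ 6), if_pos (by norm_num : 4 ≤ 6), if_pos (by norm_num : 5 ≤ 6), if_pos (by norm_num : 6 ≤ 6), if_neg (by norm_num : ¬ 7 ≤ 6)]
    simp only [Nat.reduceSub, Nat.sub_self, s5.h5, s3.h4, hS.h3, hT.h2, t3.h1, t5.h0]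
    ring
  · rw [SA_coeff, s7.h7]
    rw [if_pos (by norm_num : 1 ≤ 7), if_pos (by norm_num : 2 ≤ 7), if_pos (by norm_num : 3 ≤ 7), if_pos (by norm_num : 4 ≤ 7), if_pos (by norm_num : 5 ≤ 7), if_pos (by norm_num : 6 ≤ 7), if_pos (by norm_num : 7 ≤ 7)]
    simp only [Nat.reduceSub, Nat.sub_self, s5.h6, s3.h5, hS.h4, hT.h3, t3.h2, t5.h1, t7.h0]
    ring

theorem gam_id (g1 g2 g3 g4 g5 g6 g7 x1 x3 x5 x7 b1 b3 b5 b7 : ℂ) :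
    x1 * (g1 * x1 + 3 * g2 * x3 + 5 * g3 * x5 + 7 * g4 * x7 - b1)
      + 3 * (x3 * (g2 * x1 + (g1 ^ 3 + 3 * g1 * g2 + 3 * g3) * x3 + 5 * (g1 ^ 2 * g2 + g1 * g3 + g2 ^ 2 + g4) * x5 + 7 * (g1 ^ 2 * g3 + g1 * g2 ^ 2 + g1 * g4 + 2 * g2 * g3 + g5) * x7 - (-g1 * b1 + b3)))
      + 5 * (x5 * (g3 * x1 + 3 * (g1 ^ 2 * g2 + g1 * g3 + g2 ^ 2 + g4) * x3 + (g1 ^ 5 + 5 * g1 ^ 3 * g2 + 5 * g1 ^ 2 * g3 + 15 * g1 * g2 ^ 2 + 5 * g1 * g4 + 15 * g2 * g3 + 5 * g5) * x5 + 7 * (g1 ^ 4 * g2 + g1 ^ 3 * g3 + 3 * g1 ^ 2 * g2 ^ 2 + g1 ^ 2 * g4 + 6 * g1 * g2 * g3 + g1 * g5 + 2 * g2 ^ 3 + 3 * g2 * g4 + 2 * g3 ^ 2 + g6) * x7 - ((g1 ^ 2 - g2) * b1 + -3 * g1 * b3 + b5)))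
      + 7 * (x7 * (g4 * x1 + 3 * (g1 ^ 2 * g3 + g1 * g2 ^ 2 + g1 * g4 + 2 * g2 * g3 + g5) * x3 + 5 * (g1 ^ 4 * g2 + g1 ^ 3 * g3 + 3 * g1 ^ 2 * g2 ^ 2 + g1 ^ 2 * g4 + 6 * g1 * g2 * g3 + g1 * g5 + 2 * g2 ^ 3 + 3 * g2 * g4 + 2 * g3 ^ 2 + g6) * x5 + (g1 ^ 7 + 7 * g1 ^ 5 * g2 + 7 * g1 ^ 4 * g3 + 42 * g1 ^ 3 * g2 ^ 2 + 7 * g1 ^ 3 * g4 + 63 * g1 ^ 2 * g2 * g3 + 7 * g1 ^ 2 * g5 + 49 * g1 * g2 ^ 3 + 42 * g1 * g2 * g4 + 35 * g1 * g3 ^ 2 + 7 * g1 * g6 + 63 * g2 ^ 2 * g3 + 21 * g2 * g5 + 35 * g3 * g4 + 7 * g7) * x7 - ((-g1 ^ 3 + 2 * g1 * g2 - g3) * b1 + (6 * g1 ^ 2 - 3 * g2) * b3 + -5 * g1 * b5 + b7))) =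
    Gam g1 g2 g3 g4 g5 (70 * (g1 ^ 4 * g2 + g1 ^ 3 * g3 + 3 * g1 ^ 2 * g2 ^ 2 + g1 ^ 2 * g4 + 6 * g1 * g2 * g3 + g1 * g5 + 2 * g2 ^ 3 + 3 * g2 * g4 + 2 * g3 ^ 2 + g6)) (7 * (g1 ^ 7 + 7 * g1 ^ 5 * g2 + 7 * g1 ^ 4 * g3 + 42 * g1 ^ 3 * g2 ^ 2 + 7 * g1 ^ 3 * g4 + 63 * g1 ^ 2 * g2 * g3 + 7 * g1 ^ 2 * g5 + 49 * g1 * g2 ^ 3 + 42 * g1 * g2 * g4 + 35 * g1 * g3 ^ 2 + 7 * g1 * g6 + 63 * g2 ^ 2 * g3 + 21 * g2 * g5 + 35 * g3 * g4 + 7 * g7)) x1 x3 x5 x7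
      - (b1 * (x1 - 3 * g1 * x3 + 5 * (g1 ^ 2 - g2) * x5 + 7 * (-g1 ^ 3 + 2 * g1 * g2 - g3) * x7) + 3 * (b3 * (x3 - 5 * g1 * x5 + 7 * (2 * g1 ^ 2 - g2) * x7)) + 5 * (b5 * (x5 - 7 * g1 * x7)) + 7 * (b7 * x7)) := by
  unfold Gam
  ring

theorem v_pos {q w y : ℂ} (hq : q ≠ 0) (hw : w ≠ 0) (hy : y ≠ 0) (h : ℂ) :
    w ^ 7 * (q ^ 1 * h * ((q * w * y⁻¹) ^ 1)⁻¹) = h * ((w ^ 2) ^ 3 * y) ∧
    w ^ 7 * (q ^ 3 * h * ((q * w * y⁻¹) ^ 3)⁻¹) = h * ((w ^ 2) ^ 2 * (y * y * y)) ∧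
    w ^ 7 * (q ^ 5 * h * ((q * w * y⁻¹) ^ 5)⁻¹) = h * ((w ^ 2) ^ 1 * (y * y * y * (y * y))) ∧
    w ^ 7 * (q ^ 7 * h * ((q * w * y⁻¹) ^ 7)⁻¹) = h * (y * y * y * (y * y) * (y * y)) := by
  refine ⟨?_, ?_, ?_, ?_⟩ <;> field_simp

theorem HH_val {q w y : ℂ} (hq : q ≠ 0) (hw : w ≠ 0) (hy : y ≠ 0) (h1 h3 h5 h7 : ℂ) :
    h7 * (y * y * y * (y * y) * (y * y)) + h5 * ((w ^ 2) ^ 1 * (y * y * y * (y * y)))
      + h3 * ((w ^ 2) ^ 2 * (y * y * y)) + h1 * ((w ^ 2) ^ 3 * y)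
      - (q ^ 1 * (starRingEnd ℂ) (q ^ 1 * h1)) * ((w ^ 2) ^ 4 * y⁻¹)
      - (q ^ 3 * (starRingEnd ℂ) (q ^ 3 * h3)) * ((w ^ 2) ^ 5 * (y⁻¹ * y⁻¹ * y⁻¹))
      - (q ^ 5 * (starRingEnd ℂ) (q ^ 5 * h5)) * ((w ^ 2) ^ 6 * (y⁻¹ * y⁻¹ * y⁻¹ * (y⁻¹ * y⁻¹)))
      - (q ^ 7 * (starRingEnd ℂ) (q ^ 7 * h7)) * ((w ^ 2) ^ 7 * (y⁻¹ * y⁻¹ * y⁻¹ * (y⁻¹ * y⁻¹) * (y⁻¹ * y⁻¹))) =
    w ^ 7 * HH (q ^ 1 * h1) (q ^ 3 * h3) (q ^ 5 * h5) (q ^ 7 * h7) (q * w * y⁻¹) := by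
  unfold HH
  generalize (starRingEnd ℂ) (q ^ 1 * h1) = k1
  generalize (starRingEnd ℂ) (q ^ 3 * h3) = k3
  generalize (starRingEnd ℂ) (q ^ 5 * h5) = k5
  generalize (starRingEnd ℂ) (q ^ 7 * h7) = k7
  have e1 := (v_pos hq hw hy h1).1
  have e3 := (v_pos hq hw hy h3).2.1
  have e5 := (v_pos hq hw hy h5).2.2.1
  have e7 := (v_pos hq hw hy h7).2.2.2
  rw [← e1, ← e3, ← e5, ← e7]
  ring

theorem b_val (q : ℝ) (j : ℕ) (h : ℂ) :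
    ((q : ℂ) ^ j * (starRingEnd ℂ) ((q : ℂ) ^ j * h)) * h = (((q ^ 2) ^ j * ‖h‖ ^ 2 : ℝ) : ℂ) := by
  rw [map_mul, map_pow, Complex.conj_ofReal]
  have := Complex.conj_mul' h
  push_cast
  rw [← this, ← pow_mul, mul_comm 2 j, pow_mul]
  ring

/-- from the analytic inequality to the finite dimensional constraints -/
theorem J_of {Q Y : ℂ → ℂ} {q : ℝ} (hq : 0 < q) (dY : DifferentiableOn ℂ Y (ball 0 1)) (Yn : ∀ x ∈ ball (0:ℂ) 1, Y x ≠ 0)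
    (Y0 : Y 0 = 1) (hY : ∀ ω ∈ ball (0:ℂ) 1, Q ω * Y (ω ^ 2) = q * ω)
    (admH : ∀ α1 α3 α5 α7 : ℂ, Adm (HH α1 α3 α5 α7))
    (mi : ∀ H : ℂ → ℂ, Adm H → ∀ a : ℕ → ℂ,
      (∀ ω ∈ ball (0:ℂ) 1, ω ≠ 0 → HasSum (fun j => a j * ω ^ j) (ω ^ 7 * H (Q ω))) → a 1 = 0 → a 3 = 0 → a 5 = 0 →
      ∑ k ∈ ({1, 3, 5, 7} : Finset ℕ), vp k * ‖a (7 + k) + (starRingEnd ℂ) (a (7 - k))‖ ^ 2 ≤
      ∑ k ∈ ({1, 3, 5, 7} : Finset ℕ), (k : ℝ) * (‖a (7 - k)‖ ^ 2 - ‖a (7 + k)‖ ^ 2)) :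
    ∃ g2 g3 g4 g5 e57 e77 : ℂ, JJ (q ^ 2) (deriv Y 0) g2 g3 g4 g5 e57 e77 := by
  obtain ⟨S, hS, S0, S1⟩ := PS.exists_of dY
  have dYi : DifferentiableOn ℂ (fun x => (Y x)⁻¹) (ball 0 1) := fun x hx => (dY x hx).inv (Yn x hx)
  obtain ⟨T, hT, -, -⟩ := PS.exists_of dYi
  have hST : S * T = 1 := by
    have p1 : PS (fun _ => 1) (S * T) := by
      intro x hx
      have := hS.mul hT x hx
      simpa only [mul_inv_cancel₀ (Yn x hx)] using this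
    have p2 : PS (fun _ => 1) (1 : PowerSeries ℂ) := by
      have := PS.const 1
      rwa [map_one] at this
    exact p1.unique p2
  obtain ⟨g1, hg1⟩ : ∃ g1, g1 = deriv Y 0 := ⟨_, rfl⟩
  obtain ⟨g2, hg2⟩ : ∃ g2, g2 = PowerSeries.coeff 2 S := ⟨_, rfl⟩
  obtain ⟨g3, hg3⟩ : ∃ g3, g3 = PowerSeries.coeff 3 S := ⟨_, rfl⟩
  obtain ⟨g4, hg4⟩ : ∃ g4, g4 = PowerSeries.coeff 4 S := ⟨_, rfl⟩
  obtain ⟨g5, hg5⟩ : ∃ g5, g5 = PowerSeries.coeff 5 S := ⟨_, rfl⟩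
  obtain ⟨g6, hg6⟩ : ∃ g6, g6 = PowerSeries.coeff 6 S := ⟨_, rfl⟩
  obtain ⟨g7, hg7⟩ : ∃ g7, g7 = PowerSeries.coeff 7 S := ⟨_, rfl⟩
  have coS : Co S 1 g1 g2 g3 g4 g5 g6 g7 :=
    ⟨by rw [S0, Y0], by rw [S1, hg1], hg2.symm, hg3.symm, hg4.symm, hg5.symm, hg6.symm, hg7.symm⟩
  have cqT := cq_inv coS hST
  rw [← hg1]
  have main : ∀ x1 x3 x5 x7 : ℂ, ∃ c1 c3 c5 c7 : ℂ,
      (1 * ‖c1 + (starRingEnd ℂ) x1‖ ^ 2 + 7 / 3 * ‖c3 + (starRingEnd ℂ) x3‖ ^ 2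
      + 17 / 5 * ‖c5 + (starRingEnd ℂ) x5‖ ^ 2 + 31 / 7 * ‖c7 + (starRingEnd ℂ) x7‖ ^ 2 ≤
      1 * (‖x1‖ ^ 2 - ‖c1‖ ^ 2) + 3 * (‖x3‖ ^ 2 - ‖c3‖ ^ 2) + 5 * (‖x5‖ ^ 2 - ‖c5‖ ^ 2)
        + 7 * (‖x7‖ ^ 2 - ‖c7‖ ^ 2)) ∧
      (x1 * c1 + 3 * (x3 * c3) + 5 * (x5 * c5) + 7 * (x7 * c7)).re =
      (Gam g1 g2 g3 g4 g5 (70 * (g1 ^ 4 * g2 + g1 ^ 3 * g3 + 3 * g1 ^ 2 * g2 ^ 2 + g1 ^ 2 * g4 + 6 * g1 * g2 * g3 + g1 * g5 + 2 * g2 ^ 3 + 3 * g2 * g4 + 2 * g3 ^ 2 + g6)) (7 * (g1 ^ 7 + 7 * g1 ^ 5 * g2 + 7 * g1 ^ 4 * g3 + 42 * g1 ^ 3 * g2 ^ 2 + 7 * g1 ^ 3 * g4 + 63 * g1 ^ 2 * g2 * g3 + 7 * g1 ^ 2 * g5 + 49 * g1 * g2 ^ 3 + 42 * g1 * g2 * g4 + 35 * g1 * g3 ^ 2 + 7 * g1 * g6 + 63 * g2 ^ 2 * g3 + 21 * g2 * g5 + 35 * g3 * g4 + 7 * g7)) x1 x3 x5 x7).re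
        - Nn (q ^ 2) g1 g2 g3 x1 x3 x5 x7 := by
    intro x1 x3 x5 x7
    obtain ⟨h5, hh5⟩ : ∃ h5, h5 = (x5 - 7 * g1 * x7) := ⟨_, rfl⟩
    obtain ⟨h3, hh3⟩ : ∃ h3, h3 = (x3 - 5 * g1 * x5 + 7 * (2 * g1 ^ 2 - g2) * x7) := ⟨_, rfl⟩
    obtain ⟨h1, hh1⟩ : ∃ h1, h1 = (x1 - 3 * g1 * x3 + 5 * (g1 ^ 2 - g2) * x5 + 7 * (-g1 ^ 3 + 2 * g1 * g2 - g3) * x7) := ⟨_, rfl⟩
    obtain ⟨b1, hb1⟩ : ∃ b1, b1 = (q : ℂ) ^ 1 * (starRingEnd ℂ) ((q : ℂ) ^ 1 * h1) := ⟨_, rfl⟩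
    obtain ⟨b3, hb3⟩ : ∃ b3, b3 = (q : ℂ) ^ 3 * (starRingEnd ℂ) ((q : ℂ) ^ 3 * h3) := ⟨_, rfl⟩
    obtain ⟨b5, hb5⟩ : ∃ b5, b5 = (q : ℂ) ^ 5 * (starRingEnd ℂ) ((q : ℂ) ^ 5 * h5) := ⟨_, rfl⟩
    obtain ⟨b7, hb7⟩ : ∃ b7, b7 = (q : ℂ) ^ 7 * (starRingEnd ℂ) ((q : ℂ) ^ 7 * x7) := ⟨_, rfl⟩
    have hC := SA_co coS cqT x1 x3 x5 x7 b1 b3 b5 b7
    rw [← hh1, ← hh3, ← hh5] at hC
    have hA : PS (fun x => x7 * (Y x * Y x * Y x * (Y x * Y x) * (Y x * Y x))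
        + h5 * (x ^ 1 * (Y x * Y x * Y x * (Y x * Y x)))
        + h3 * (x ^ 2 * (Y x * Y x * Y x)) + h1 * (x ^ 3 * Y x)
        - b1 * (x ^ 4 * (Y x)⁻¹) - b3 * (x ^ 5 * ((Y x)⁻¹ * (Y x)⁻¹ * (Y x)⁻¹))
        - b5 * (x ^ 6 * ((Y x)⁻¹ * (Y x)⁻¹ * (Y x)⁻¹ * ((Y x)⁻¹ * (Y x)⁻¹)))
        - b7 * (x ^ 7 * ((Y x)⁻¹ * (Y x)⁻¹ * (Y x)⁻¹ * ((Y x)⁻¹ * (Y x)⁻¹) * ((Y x)⁻¹ * (Y x)⁻¹))))
        (SA S T h1 h3 h5 x7 b1 b3 b5 b7) := by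
      have q2 := hS.mul hS
      have q3 := q2.mul hS
      have q5 := q3.mul q2
      have q7 := q5.mul q2
      have r2 := hT.mul hT
      have r3 := r2.mul hT
      have r5 := r3.mul r2
      have r7 := r5.mul r2
      exact (((((((((PS.const x7).mul q7).add ((PS.const h5).mul ((PS.X.pow 1).mul q5))).add
        ((PS.const h3).mul ((PS.X.pow 2).mul q3))).add ((PS.const h1).mul ((PS.X.pow 3).mul hS))).sub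
        ((PS.const b1).mul ((PS.X.pow 4).mul hT))).sub ((PS.const b3).mul ((PS.X.pow 5).mul r3))).sub
        ((PS.const b5).mul ((PS.X.pow 6).mul r5))).sub ((PS.const b7).mul ((PS.X.pow 7).mul r7)))
    obtain ⟨a, ha⟩ : ∃ a : ℕ → ℂ, a = fun n => if Even n then
      PowerSeries.coeff (n / 2) (SA S T h1 h3 h5 x7 b1 b3 b5 b7) else 0 := ⟨_, rfl⟩
    have aodd : ∀ n, ¬ Even n → a n = 0 := fun n hn => by rw [ha]; exact if_neg hn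
    have aeven : ∀ n, a (2 * n) = PowerSeries.coeff n (SA S T h1 h3 h5 x7 b1 b3 b5 b7) := fun n => by
      rw [ha]
      simp
    have hsum : ∀ ω ∈ ball (0:ℂ) 1, ω ≠ 0 → HasSum (fun j => a j * ω ^ j)
        (ω ^ 7 * HH ((q : ℂ) ^ 1 * h1) ((q : ℂ) ^ 3 * h3) ((q : ℂ) ^ 5 * h5) ((q : ℂ) ^ 7 * x7) (Q ω)) := by
      intro ω hω hω0
      have hx : ω ^ 2 ∈ ball (0:ℂ) 1 := by
        rw [mem_ball_zero_iff] at hω ⊢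
        rw [norm_pow]
        exact pow_lt_one₀ (norm_nonneg _) hω two_ne_zero
      have hs := hA (ω ^ 2) hx
      have hy0 := Yn _ hx
      have hQ : Q ω = (q : ℂ) * ω * (Y (ω ^ 2))⁻¹ := by
        rw [← hY ω hω, mul_inv_cancel_right₀ hy0]
      have hq0 : (q : ℂ) ≠ 0 := by exact_mod_cast hq.ne'
      have hval := HH_val hq0 hω0 hy0 h1 h3 h5 x7
      rw [← hb1, ← hb3, ← hb5, ← hb7] at hval
      rw [hQ, ← hval]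
      have hinj : Function.Injective (fun n : ℕ => 2 * n) := fun m n h => by
        simp only at h
        omega
      rw [← hinj.hasSum_iff]
      · refine hs.congr_fun fun n => ?_
        simp only [Function.comp_apply, aeven, pow_mul]
      · intro n hn
        have : ¬ Even n := by
          rintro ⟨m, hm⟩
          exact hn ⟨m, by simp only; omega⟩
        rw [aodd n this, zero_mul]
    have hm := mi (HH ((q : ℂ) ^ 1 * h1) ((q : ℂ) ^ 3 * h3) ((q : ℂ) ^ 5 * h5) ((q : ℂ) ^ 7 * x7))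
      (admH _ _ _ _) a hsum (aodd 1 (by decide)) (aodd 3 (by decide)) (aodd 5 (by decide))
    have m1 : (1 : ℕ) ∉ ({3, 5, 7} : Finset ℕ) := by decide
    have m3 : (3 : ℕ) ∉ ({5, 7} : Finset ℕ) := by decide
    have m5 : (5 : ℕ) ∉ ({7} : Finset ℕ) := by decide
    rw [Finset.sum_insert m1, Finset.sum_insert m3, Finset.sum_insert m5, Finset.sum_singleton,
      Finset.sum_insert m1, Finset.sum_insert m3, Finset.sum_insert m5, Finset.sum_singleton] at hm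
    have a0 : a (7 - 7) = x7 := (aeven 0).trans hC.h0
    have a2 : a (7 - 5) = x5 := (aeven 1).trans hC.h1
    have a4 : a (7 - 3) = x3 := (aeven 2).trans hC.h2
    have a6 : a (7 - 1) = x1 := (aeven 3).trans hC.h3
    have a8 := (aeven 4).trans hC.h4
    have a10 := (aeven 5).trans hC.h5
    have a12 := (aeven 6).trans hC.h6
    have a14 := (aeven 7).trans hC.h7
    have v1 : vp 1 = 1 := by norm_num [vp]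
    have v3 : vp 3 = 7 / 3 := by norm_num [vp]
    have v5 : vp 5 = 17 / 5 := by norm_num [vp]
    have v7 : vp 7 = 31 / 7 := by norm_num [vp]
    have n8 : a (7 + 1) = a (2 * 4) := rfl
    have n10 : a (7 + 3) = a (2 * 5) := rfl
    have n12 : a (7 + 5) = a (2 * 6) := rfl
    have n14 : a (7 + 7) = a (2 * 7) := rfl
    rw [a0, a2, a4, a6, n8, n10, n12, n14, v1, v3, v5, v7] at hm
    refine ⟨a (2 * 4), a (2 * 5), a (2 * 6), a (2 * 7), ?_, ?_⟩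
    · push_cast at hm
      linarith
    · rw [a8, a10, a12, a14, gam_id, ← hh1, ← hh3, ← hh5]
      have hN : b1 * h1 + 3 * (b3 * h3) + 5 * (b5 * h5) + 7 * (b7 * x7) =
          ((Nn (q ^ 2) g1 g2 g3 x1 x3 x5 x7 : ℝ) : ℂ) := by
        rw [hb1, hb3, hb5, hb7, b_val, b_val, b_val, b_val]
        unfold Nn
        rw [← hh1, ← hh3, ← hh5]
        push_cast
        ring
      rw [hN, Complex.sub_re, Complex.ofReal_re]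
  refine ⟨g2, g3, g4, g5, 70 * (g1 ^ 4 * g2 + g1 ^ 3 * g3 + 3 * g1 ^ 2 * g2 ^ 2 + g1 ^ 2 * g4 + 6 * g1 * g2 * g3 + g1 * g5 + 2 * g2 ^ 3 + 3 * g2 * g4 + 2 * g3 ^ 2 + g6),
    7 * (g1 ^ 7 + 7 * g1 ^ 5 * g2 + 7 * g1 ^ 4 * g3 + 42 * g1 ^ 3 * g2 ^ 2 + 7 * g1 ^ 3 * g4 + 63 * g1 ^ 2 * g2 * g3 + 7 * g1 ^ 2 * g5 + 49 * g1 * g2 ^ 3 + 42 * g1 * g2 * g4 + 35 * g1 * g3 ^ 2 + 7 * g1 * g6 + 63 * g2 ^ 2 * g3 + 21 * g2 * g5 + 35 * g3 * g4 + 7 * g7), ⟨?_, ?_⟩⟩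
  · intro x1 x3 x5 x7
    obtain ⟨c1, c3, c5, c7, i1, i2⟩ := main x1 x3 x5 x7
    have := (real_ineq x1 x3 x5 x7 c1 c3 c5 c7 i1).1
    rw [i2] at this
    linarith
  · intro x1 x3 x5 x7
    obtain ⟨c1, c3, c5, c7, i1, i2⟩ := main x1 x3 x5 x7
    have := (real_ineq x1 x3 x5 x7 c1 c3 c5 c7 i1).2
    rw [i2] at this
    exact this


end Pool.Agent.Helper859.Br.K3
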