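import Pool.Agent.Helper859.Br.Defs
set_option linter.all false
open Complex MeasureTheory Set Filter Topology Metric

namespace Pool.Agent.Helper859.Br.K4
open Pool.Agent.Helper859.Br

theorem nsq_mul (a b : ℂ) (n : ℕ) : ‖a ^ n * b‖ ^ 2 = (‖a‖ ^ n) ^ 2 * ‖b‖ ^ 2 := by
  rw [norm_mul, norm_pow, mul_pow]

theorem gam_scale (s g1 g2 g3 g4 g5 e57 e77 x1 x3 x5 x7 : ℂ) :
    Gam (g1 * s ^ 2) (g2 * s ^ 4) (g3 * s ^ 6) (g4 * s ^ 8) (g5 * s ^ 10) (e57 * s ^ 12)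
      (e77 * s ^ 14) x1 x3 x5 x7
      = Gam g1 g2 g3 g4 g5 e57 e77 (s ^ 1 * x1) (s ^ 3 * x3) (s ^ 5 * x5) (s ^ 7 * x7) := by
  unfold Gam
  ring

theorem nn_scale (ρ : ℝ) (s g1 g2 g3 x1 x3 x5 x7 : ℂ) :
    Nn (ρ * ‖s‖ ^ 2) (g1 * s ^ 2) (g2 * s ^ 4) (g3 * s ^ 6) x1 x3 x5 x7
      = Nn ρ g1 g2 g3 (s ^ 1 * x1) (s ^ 3 * x3) (s ^ 5 * x5) (s ^ 7 * x7) := by
  unfold Nn
  have e1 : s ^ 1 * x1 - 3 * g1 * (s ^ 3 * x3) + 5 * (g1 ^ 2 - g2) * (s ^ 5 * x5)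
      + 7 * (-g1 ^ 3 + 2 * g1 * g2 - g3) * (s ^ 7 * x7)
      = s ^ 1 * (x1 - 3 * (g1 * s ^ 2) * x3 + 5 * ((g1 * s ^ 2) ^ 2 - g2 * s ^ 4) * x5
      + 7 * (-(g1 * s ^ 2) ^ 3 + 2 * (g1 * s ^ 2) * (g2 * s ^ 4) - g3 * s ^ 6) * x7) := by ring
  have e2 : s ^ 3 * x3 - 5 * g1 * (s ^ 5 * x5) + 7 * (2 * g1 ^ 2 - g2) * (s ^ 7 * x7)
      = s ^ 3 * (x3 - 5 * (g1 * s ^ 2) * x5 + 7 * (2 * (g1 * s ^ 2) ^ 2 - g2 * s ^ 4) * x7) := by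
    ring
  have e3 : s ^ 5 * x5 - 7 * g1 * (s ^ 7 * x7) = s ^ 5 * (x5 - 7 * (g1 * s ^ 2) * x7) := by ring
  rw [e1, e2, e3, nsq_mul, nsq_mul, nsq_mul, nsq_mul]
  ring

/-- normalise g1 to the positive real number c by rotation and shrinking -/
theorem normJ {ρ : ℝ} (hρ : 0 < ρ) {g1 g2 g3 g4 g5 e57 e77 : ℂ} (h : JJ ρ g1 g2 g3 g4 g5 e57 e77) {c : ℝ} (hc : 0 < c)
    (hg : c ≤ ‖g1‖) : ∃ ρ' : ℝ, 0 < ρ' ∧ ∃ g2' g3' g4' g5' e57' e77' : ℂ, JJ ρ' (c : ℂ) g2' g3' g4' g5' e57' e77' := by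
  have hg0 : g1 ≠ 0 := by
    intro h0
    rw [h0, norm_zero] at hg
    linarith
  obtain ⟨s, hs⟩ := IsAlgClosed.exists_pow_nat_eq ((c : ℂ) / g1) (n := 2) (by norm_num)
  have hs2 : g1 * s ^ 2 = (c : ℂ) := by
    rw [hs]; field_simp
  have hsn : ‖s‖ ^ 2 ≤ 1 := by
    have h1 : ‖s‖ ^ 2 = c / ‖g1‖ := by
      rw [← norm_pow, hs, norm_div, Complex.norm_real, Real.norm_of_nonneg hc.le]
    rw [h1]
    exact (div_le_one (norm_pos_iff.mpr hg0)).mpr hg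
  have hs0 : s ≠ 0 := by
    intro h0
    rw [h0] at hs2
    have : (c : ℂ) = 0 := by rw [← hs2]; ring
    have : c = 0 := by exact_mod_cast this
    linarith
  have hsn1 : ‖s‖ ≤ 1 := by
    have h0 := norm_nonneg s
    nlinarith
  have hle : ∀ (n : ℕ) (x : ℂ), ‖s ^ n * x‖ ^ 2 ≤ ‖x‖ ^ 2 := by
    intro n x
    rw [nsq_mul]
    have h1 : ‖s‖ ^ n ≤ 1 := pow_le_one₀ (norm_nonneg _) hsn1
    have h2 : 0 ≤ ‖s‖ ^ n := by positivity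
    have h3 : (‖s‖ ^ n) ^ 2 ≤ 1 := by nlinarith
    nlinarith [sq_nonneg ‖x‖]
  have hspos : 0 < ‖s‖ := norm_pos_iff.mpr hs0
  refine ⟨ρ * ‖s‖ ^ 2, by positivity, g2 * s ^ 4, g3 * s ^ 6, g4 * s ^ 8, g5 * s ^ 10,
    e57 * s ^ 12, e77 * s ^ 14, ?_⟩
  rw [← hs2]
  constructor
  · intro x1 x3 x5 x7
    rw [gam_scale, nn_scale]
    have h1 := h.lo (s ^ 1 * x1) (s ^ 3 * x3) (s ^ 5 * x5) (s ^ 7 * x7)
    have a1 := hle 1 x1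
    have a3 := hle 3 x3
    have a5 := hle 5 x5
    have a7 := hle 7 x7
    linarith
  · intro x1 x3 x5 x7
    rw [gam_scale, nn_scale]
    have h1 := h.up (s ^ 1 * x1) (s ^ 3 * x3) (s ^ 5 * x5) (s ^ 7 * x7)
    have a1 := hle 1 x1
    have a3 := hle 3 x3
    have a5 := hle 5 x5
    have a7 := hle 7 x7
    linarith

/-- simplest consequences -/
theorem rangeJ {ρ c : ℝ} {g2 g3 g4 g5 e57 e77 : ℂ} (h : JJ ρ (c : ℂ) g2 g3 g4 g5 e57 e77) :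
    c ≤ ρ ∧ ρ ≤ 1 - c := by
  have h1 := h.lo Complex.I 0 0 0
  have h2 := h.up 1 0 0 0
  simp [Nn, Gam] at h1 h2
  constructor <;> linarith

end Pool.Agent.Helper859.Br.K4
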