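import Pool.Agent.Helper859.Br.Defs
set_option linter.all false
open Complex MeasureTheory Set Filter Topology Metric

namespace Pool.Agent.Helper859.Br.R1
open Pool.Agent.Helper859.Br


theorem nsq_30547 (A B : ℝ) : ‖(A : ℂ) + (B : ℂ) * I‖ ^ 2 = A ^ 2 + B ^ 2 := by
  rw [Complex.sq_norm, Complex.normSq_add_mul_I]

theorem Nn_real_30547 (ρ c a b u v p s x3 x5 x7 : ℝ) :
    Nn ρ (c:ℂ) ((a:ℂ) + b * I) ((u:ℂ) + v * I) ((p:ℂ) + s * I) x3 x5 x7 =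
      NR c ρ (ρ ^ 3) (ρ ^ 5) (ρ ^ 7) a b u v p s x3 x5 x7 := by
  unfold Nn NR
  have e1 : ((p:ℂ) + s * I) - 3 * (c:ℂ) * x3 + 5 * ((c:ℂ) ^ 2 - ((a:ℂ) + b * I)) * x5 +
      7 * (-(c:ℂ) ^ 3 + 2 * c * ((a:ℂ) + b * I) - ((u:ℂ) + v * I)) * x7 =
      ((p - 3 * c * x3 + 5 * (c ^ 2 - a) * x5 + 7 * (-c ^ 3 + 2 * c * a - u) * x7 : ℝ) : ℂ) +
        ((s - 5 * b * x5 + 7 * (2 * c * b - v) * x7 : ℝ) : ℂ) * I := by
    push_cast; ring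
  have e2 : (x3:ℂ) - 5 * (c:ℂ) * x5 + 7 * (2 * (c:ℂ) ^ 2 - ((a:ℂ) + b * I)) * x7 =
      ((x3 - 5 * c * x5 + 7 * (2 * c ^ 2 - a) * x7 : ℝ) : ℂ) + ((-(7 * b * x7) : ℝ) : ℂ) * I := by
    push_cast; ring
  have e3 : (x5:ℂ) - 7 * (c:ℂ) * x7 = ((x5 - 7 * c * x7 : ℝ) : ℂ) + ((0 : ℝ) : ℂ) * I := by
    push_cast; ring
  have e4 : (x7:ℂ) = ((x7 : ℝ) : ℂ) + ((0 : ℝ) : ℂ) * I := by
    push_cast; ring
  have e4' : ‖(x7:ℂ)‖ ^ 2 = x7 ^ 2 := by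
    rw [e4, nsq_30547]; ring
  rw [e1, e2, e3, nsq_30547, nsq_30547, nsq_30547, e4']
  ring

theorem Gam_real_30547 (c a b u v g4 h4 g5 h5 e e' f f' p s x3 x5 x7 : ℝ) :
    (Gam (c:ℂ) ((a:ℂ) + b * I) ((u:ℂ) + v * I) ((g4:ℂ) + h4 * I) ((g5:ℂ) + h5 * I)
      ((e:ℂ) + e' * I) ((f:ℂ) + f' * I) ((p:ℂ) + s * I) x3 x5 x7).re =
      GR c a b u v g4 g5 e f p s x3 x5 x7 - 14 * h4 * (s * x7) := by
  unfold Gam GR
  simp only [pow_succ, pow_zero, one_mul, Complex.add_re, Complex.mul_re, Complex.add_im,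
    Complex.mul_im, Complex.ofReal_re, Complex.ofReal_im, Complex.I_re, Complex.I_im,
    Complex.re_ofNat, Complex.im_ofNat, mul_zero, zero_mul, sub_zero, add_zero, zero_add, mul_one]
  ring

theorem Nn_I_30547 (ρ : ℝ) (g1 g2 g3 x1 x3 x5 x7 : ℂ) :
    Nn ρ g1 g2 g3 (I * x1) (I * x3) (I * x5) (I * x7) = Nn ρ g1 g2 g3 x1 x3 x5 x7 := by
  unfold Nn
  have e1 : I * x1 - 3 * g1 * (I * x3) + 5 * (g1 ^ 2 - g2) * (I * x5) +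
      7 * (-g1 ^ 3 + 2 * g1 * g2 - g3) * (I * x7) =
      I * (x1 - 3 * g1 * x3 + 5 * (g1 ^ 2 - g2) * x5 + 7 * (-g1 ^ 3 + 2 * g1 * g2 - g3) * x7) := by ring
  have e2 : I * x3 - 5 * g1 * (I * x5) + 7 * (2 * g1 ^ 2 - g2) * (I * x7) =
      I * (x3 - 5 * g1 * x5 + 7 * (2 * g1 ^ 2 - g2) * x7) := by ring
  have e3 : I * x5 - 7 * g1 * (I * x7) = I * (x5 - 7 * g1 * x7) := by ring
  rw [e1, e2, e3]
  simp only [norm_mul, Complex.norm_I, one_mul]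

theorem Gam_I_30547 (g1 g2 g3 g4 g5 e57 e77 x1 x3 x5 x7 : ℂ) :
    Gam g1 g2 g3 g4 g5 e57 e77 (I * x1) (I * x3) (I * x5) (I * x7) =
      - Gam g1 g2 g3 g4 g5 e57 e77 x1 x3 x5 x7 := by
  have h : I ^ 2 = -1 := Complex.I_sq
  have h2 : ∀ k : ℂ, Gam g1 g2 g3 g4 g5 e57 e77 (k * x1) (k * x3) (k * x5) (k * x7) =
      k ^ 2 * Gam g1 g2 g3 g4 g5 e57 e77 x1 x3 x5 x7 := by
    intro k
    unfold Gam
    ring
  rw [h2, h, neg_one_mul]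

theorem RR_of_JJ {c ρ : ℝ} {g2 g3 g4 g5 e57 e77 : ℂ} (h : JJ ρ (c : ℂ) g2 g3 g4 g5 e57 e77) :
    RR c ρ g2.re g2.im g3.re g3.im g4.re g5.re e57.re e77.re := by
  have hN : ∀ p s x3 x5 x7 : ℝ, Nn ρ (c:ℂ) g2 g3 ((p:ℂ) + s * I) x3 x5 x7 =
      NR c ρ (ρ ^ 3) (ρ ^ 5) (ρ ^ 7) g2.re g2.im g3.re g3.im p s x3 x5 x7 := by
    intro p s x3 x5 x7
    rw [← Nn_real_30547, Complex.re_add_im, Complex.re_add_im]
  have hG : ∀ p s x3 x5 x7 : ℝ, s * x7 = 0 →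
      (Gam (c:ℂ) g2 g3 g4 g5 e57 e77 ((p:ℂ) + s * I) x3 x5 x7).re =
      GR c g2.re g2.im g3.re g3.im g4.re g5.re e57.re e77.re p s x3 x5 x7 := by
    intro p s x3 x5 x7 hsx
    have h1 := Gam_real_30547 c g2.re g2.im g3.re g3.im g4.re g4.im g5.re g5.im e57.re e57.im
      e77.re e77.im p s x3 x5 x7
    rw [Complex.re_add_im, Complex.re_add_im, Complex.re_add_im, Complex.re_add_im,
      Complex.re_add_im, Complex.re_add_im, hsx, mul_zero, sub_zero] at h1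
    exact h1
  have hr : ∀ x : ℝ, ‖(x:ℂ)‖ ^ 2 = x ^ 2 := by
    intro x
    rw [Complex.norm_real, Real.norm_eq_abs, sq_abs]
  have hI : ∀ x : ℂ, ‖I * x‖ = ‖x‖ := by
    intro x
    rw [norm_mul, Complex.norm_I, one_mul]
  refine ⟨?_, ?_, ?_, ?_⟩
  · intro p s x3 x5 x7 hsx
    have h1 := h.lo (I * ((p:ℂ) + s * I)) (I * x3) (I * x5) (I * x7)
    rw [Nn_I_30547, Gam_I_30547, Complex.neg_re, hN, hG p s x3 x5 x7 hsx, hI, hI, hI, hI,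
      nsq_30547, hr, hr, hr] at h1
    unfold VA
    linarith
  · intro p s x3 x5 x7 hsx
    have h1 := h.up ((p:ℂ) + s * I) x3 x5 x7
    rw [hN, hG p s x3 x5 x7 hsx, hr, hr, hr] at h1
    unfold VB
    linarith
  · intro p s x3 x5 x7 hsx
    have h1 := h.lo ((p:ℂ) + s * I) x3 x5 x7
    rw [hN, hG p s x3 x5 x7 hsx, nsq_30547, hr, hr, hr] at h1
    unfold VC
    linarith
  · intro p s x3 x5 x7 hsx
    have h1 := h.up (I * ((p:ℂ) + s * I)) (I * x3) (I * x5) (I * x7)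
    rw [Nn_I_30547, Gam_I_30547, Complex.neg_re, hN, hG p s x3 x5 x7 hsx, hI, hI, hI,
      hr, hr, hr] at h1
    unfold VD
    linarith

end Pool.Agent.Helper859.Br.R1

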