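import Pool.Agent.Helper859.Br.A1
import Pool.Agent.Helper859.Br.A2
import Pool.Agent.Helper859.Br.A3
import Pool.Agent.Helper859.Br.A4
import Pool.Agent.Helper859.Br.A5
import Pool.Agent.Helper859.Br.A6
import Pool.Agent.Helper859.Br.B0
import Pool.Agent.Helper859.Br.B1
import Pool.Agent.Helper859.Br.B2
import Pool.Agent.Helper859.Br.B3
import Pool.Agent.Helper859.Br.B4
import Pool.Agent.Helper859.Br.B5
import Pool.Agent.Helper859.Br.C1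
import Pool.Agent.Helper859.Br.C2
import Pool.Agent.Helper859.Br.C3
import Pool.Agent.Helper859.Br.C4
import Pool.Agent.Helper859.Br.C5
import Pool.Agent.Helper859.Br.D0
import Pool.Agent.Helper859.Br.D1
import Pool.Agent.Helper859.Br.D2
import Pool.Agent.Helper859.Br.K1
import Pool.Agent.Helper859.Br.K3
import Pool.Agent.Helper859.Br.K4
import Pool.Agent.Helper859.Br.R1
import Pool.Agent.Helper859.Br.Ct0
import Pool.Agent.Helper859.Br.Ct1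
import Pool.Agent.Helper859.Br.Ct2
import Pool.Agent.Helper859.Br.Ct3
import Pool.Agent.Helper859.Br.Ct4
import Pool.Agent.Helper859.Br.Ct5
import Pool.Agent.Helper859.Br.Ct6
import Pool.Agent.Helper859.Br.Ct7
import Pool.Agent.Helper859.Br.Ct8
import Pool.Agent.Helper859.Br.Ct9
set_option linter.all false
open Complex MeasureTheory Set Filter Topology Metric

namespace Pool.Agent.Helper859.Br.Half
open Pool.Agent.Helper859.Br

/-- the finite certificate: no data with g1 = 707/2000 -/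
theorem noRR {ρ a b u v g4 g5 e57 e77 : ℝ} (h : RR (707 / 2000) ρ a b u v g4 g5 e57 e77)
    (h1 : (707 / 2000 : ℝ) ≤ ρ) (h2 : ρ ≤ 1 - 707 / 2000) : False := by
  rcases le_total ρ (3853 / 10000) with k0 | k0
  · exact Ct0.excl h (by linarith) (by linarith)
  rcases le_total ρ (4031 / 10000) with k1 | k1
  · exact Ct1.excl h (by linarith) (by linarith)
  rcases le_total ρ (4217 / 10000) with k2 | k2
  · exact Ct2.excl h (by linarith) (by linarith)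
  rcases le_total ρ (2183 / 5000) with k3 | k3
  · exact Ct3.excl h (by linarith) (by linarith)
  rcases le_total ρ (897 / 2000) with k4 | k4
  · exact Ct4.excl h (by linarith) (by linarith)
  rcases le_total ρ (581 / 1250) with k5 | k5
  · exact Ct5.excl h (by linarith) (by linarith)
  rcases le_total ρ (487 / 1000) with k6 | k6
  · exact Ct6.excl h (by linarith) (by linarith)
  rcases le_total ρ (5173 / 10000) with k7 | k7
  · exact Ct7.excl h (by linarith) (by linarith)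
  rcases le_total ρ (1117 / 2000) with k8 | k8
  · exact Ct8.excl h (by linarith) (by linarith)
  exact Ct9.excl h (by linarith) (by linarith)

/-- energy lower bound -/
theorem low {F P Q H : ℂ → ℂ} (c : Cfg F P Q) (hH : Adm H) {ε : ℝ} (hε : 0 < ε) {T : ℝ → ℝ} (hT : Trunc ε T) :
    ∃ φ : ℝ → ℝ, Continuous φ ∧
      (∀ θ : ℝ, Tendsto (v1 T H Q) (𝓝[ball 0 1] (circleMap 0 1 θ)) (𝓝 (φ θ))) ∧
      ENNReal.ofReal (Real.pi * ∑ k ∈ ({1, 3, 5, 7} : Finset ℕ), vp k * ‖fk φ k‖ ^ 2) ≤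
        ∫⁻ t in ball (0:ℂ) 1 \ (Q '' ball 0 1), ENNReal.ofReal (deriv T (H t).re * ‖deriv H t‖ ^ 2) := by
  obtain ⟨hFo, hPo, hQo, hUo, hVm, hinv, hinv2, hUs, P0, Q0, F0, h0U, hF', hP', hQ'⟩ := B0.basic c
  have hVint : ∀ z0 ∈ Vs P Q, ‖F z0‖ ≠ 1 → ∀ᶠ z in 𝓝 z0, z ∈ Vs P Q := fun z0 h0 h1 => B2.Vint c z0 h0 h1
  have hLA : ∀ w0 : ℂ, w0 ∉ F '' ball 0 1 → ∀ r < (1:ℝ), ∀ᶠ w in 𝓝 w0, ∀ z ∈ Vs P Q, F z = w → r < ‖P z‖ :=
    fun w0 h r hr => B1.LA c w0 h r hr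
  have td := B3.trace_dich c hH hε hT hLA (fun w0 h1 h r hr => B1.LB c w0 h1 h r hr)
    (fun w0 h1 h hV r hr => B1.LC2 c w0 h1 h hV r hr) (fun w0 h1 h => B2.LC c w0 h1 h) hFo hinv.continuousOn hinv2
  obtain ⟨r1, r2, r3, r4, r5, r6⟩ := B4.Wf_reg c hH hε hT hLA hVint hUo hUs hFo hinv hinv2
  have en := B5.Wf_energy c hH hε hT (fun f s A hs hf hi hA hAs g => A2.cv hs hf hi hA hAs g)
    (fun v h z h' hh hv => A2.gn_comp hh hv) (fun T H z H' hT hH => A2.gn_T hT hH)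
    (fun v u z h => A2.gn_congr h) hVint hVm r1 r5 r6 hF'
  have rwi := A4.rw_ineq A3.wirt
  have ae := A5.annulus_energy rwi
  have aec := A6.annulus_energy_cont ae
  have de := A6.disc_energy aec
  exact D1.energy_low c hH hε hT td r1 r2 r3 r4 en aec de D0.alg_low D0.Wn_nonneg

/-- the main analytic inequality -/
theorem mi {F P Q : ℂ → ℂ} (c : Cfg F P Q) : ∀ H : ℂ → ℂ, Adm H → ∀ a : ℕ → ℂ,
      (∀ ω ∈ ball (0:ℂ) 1, ω ≠ 0 → HasSum (fun j => a j * ω ^ j) (ω ^ 7 * H (Q ω))) → a 1 = 0 → a 3 = 0 → a 5 = 0 →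
      ∑ k ∈ ({1, 3, 5, 7} : Finset ℕ), vp k * ‖a (7 + k) + (starRingEnd ℂ) (a (7 - k))‖ ^ 2 ≤
      ∑ k ∈ ({1, 3, 5, 7} : Finset ℕ), (k : ℝ) * (‖a (7 - k)‖ ^ 2 - ‖a (7 + k)‖ ^ 2) := by
  intro H hH a ha h1 h3 h5
  obtain ⟨hFo, hPo, hQo, hUo, hVm, hinv, hinv2, hUs, P0, Q0, F0, h0U, hF', hP', hQ'⟩ := B0.basic c
  refine D2.main_ineq c hH ha h1 h3 h5 A1.trunc_exists (fun ε hε T hT => low c hH hε hT) ?_
    (fun {h} hh {a} ha r hr0 hr1 k hk hk7 => C4.fourK hh ha r hr0 hr1 k hk hk7)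
  intro δ hδ hδ1
  exact C5.energy_up hH c.dQ c.iQ c.mQ Q0 ha
    (fun {χ} hχ {a b} ha hab hb h0 h1 hχ0 => C1.cutQ c.dQ c.iQ Q0 hχ ha hab hb h0 h1 hχ0)
    (fun {ε} hε {T} hT {Φ} hΦ hΦ0 => C2.partsT hH hε hT hΦ hΦ0)
    (fun {T} hT {χ} hχ {a b} ha hab hb h0 h1 {Φ} hΦ hΦQ hΦ1 => C3.pull hH c.dQ c.iQ c.mQ Q0 hT hχ ha hab hb h0 h1 hΦ hΦQ hΦ1)
    (fun {h} hh {T} hT {χ} hχ {a b} ha hab hb h0 h1 => C3.pull_polar hh hT hχ ha hab hb h0 h1)
    (fun {h} hh {a} ha r hr0 hr1 => C4.fourS hh ha r hr0 hr1) δ hδ hδ1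

theorem half {F P Q : ℂ → ℂ} (c : Cfg F P Q) {q : ℝ} (hq : 0 < q) (hQ : deriv Q 0 = (q : ℂ))
    {Y : ℂ → ℂ} (dY : DifferentiableOn ℂ Y (ball 0 1)) (Yn : ∀ x ∈ ball (0:ℂ) 1, Y x ≠ 0) (Y0 : Y 0 = 1)
    (hY : ∀ ω ∈ ball (0:ℂ) 1, Q ω * Y (ω ^ 2) = q * ω) : ‖deriv Y 0‖ ≤ 707 / 2000 := by
  by_contra hlt
  push Not at hlt
  obtain ⟨g2, g3, g4, g5, e57, e77, hJ⟩ := K3.J_of hq dY Yn Y0 hY K1.admH (mi c)
  obtain ⟨ρ', hρ', g2', g3', g4', g5', e57', e77', hJ'⟩ := K4.normJ (ρ := q ^ 2) (by positivity) hJ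
    (c := 707 / 2000) (by norm_num) hlt.le
  obtain ⟨h1, h2⟩ := K4.rangeJ hJ'
  exact noRR (R1.RR_of_JJ hJ') h1 h2

end Pool.Agent.Helper859.Br.Half
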