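import Pool.Agent.Helper859.Br.Defs
set_option linter.all false
open Complex MeasureTheory Set Filter Topology Metric

namespace Pool.Agent.Helper859.Br.R2
open Pool.Agent.Helper859.Br

theorem tan3' (x y : ℝ) (hx : 0 ≤ x) (hy : 0 ≤ y) : tg y x 3 ≤ x ^ 3 := by
  unfold tg
  have : x ^ 3 - (y ^ 3 + (3:ℕ) * y ^ (3 - 1) * (x - y)) = (x - y) ^ 2 * (x + 2 * y) := by
    push_cast; ring
  have h2 : 0 ≤ (x - y) ^ 2 * (x + 2 * y) := by positivity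
  linarith

theorem tan5' (x y : ℝ) (hx : 0 ≤ x) (hy : 0 ≤ y) : tg y x 5 ≤ x ^ 5 := by
  unfold tg
  have : x ^ 5 - (y ^ 5 + (5:ℕ) * y ^ (5 - 1) * (x - y)) =
      (x - y) ^ 2 * (x ^ 3 + 2 * x ^ 2 * y + 3 * x * y ^ 2 + 4 * y ^ 3) := by
    push_cast; ring
  have h2 : 0 ≤ (x - y) ^ 2 * (x ^ 3 + 2 * x ^ 2 * y + 3 * x * y ^ 2 + 4 * y ^ 3) := by positivity
  linarith

theorem tan7' (x y : ℝ) (hx : 0 ≤ x) (hy : 0 ≤ y) : tg y x 7 ≤ x ^ 7 := by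
  unfold tg
  have : x ^ 7 - (y ^ 7 + (7:ℕ) * y ^ (7 - 1) * (x - y)) =
      (x - y) ^ 2 * (x ^ 5 + 2 * x ^ 4 * y + 3 * x ^ 3 * y ^ 2 + 4 * x ^ 2 * y ^ 3 +
        5 * x * y ^ 4 + 6 * y ^ 5) := by
    push_cast; ring
  have h2 : 0 ≤ (x - y) ^ 2 * (x ^ 5 + 2 * x ^ 4 * y + 3 * x ^ 3 * y ^ 2 + 4 * x ^ 2 * y ^ 3 +
        5 * x * y ^ 4 + 6 * y ^ 5) := by positivity
  linarith

theorem tg_lin' (rm r1 r2 t ρ : ℝ) (j : ℕ) (hρ : ρ = (1 - t) * r1 + t * r2) :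
    (1 - t) * tg rm r1 j + t * tg rm r2 j = tg rm ρ j := by
  unfold tg
  rw [hρ]
  ring

theorem chord' (r1 r2 t ρ : ℝ) (j : ℕ) (h1 : 0 ≤ r1) (h2 : 0 ≤ r2) (ht0 : 0 ≤ t) (ht1 : t ≤ 1)
    (hρ : ρ = (1 - t) * r1 + t * r2) : ρ ^ j ≤ (1 - t) * r1 ^ j + t * r2 ^ j := by
  rw [hρ]
  have h3 : (0:ℝ) ≤ 1 - t := by linarith
  have h4 : (1 - t) + t = 1 := by ring
  have := (convexOn_pow (𝕜 := ℝ) j).2 (Set.mem_Ici.2 h1) (Set.mem_Ici.2 h2) h3 ht0 h4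
  simpa [smul_eq_mul] using this

theorem absA' (X n1 n3 n5 n7 ρ ρ3 ρ5 ρ7 r1 r2 t a3 a5 a7 b3 b5 b7 : ℝ) (hn3 : 0 ≤ n3)
    (hn5 : 0 ≤ n5) (hn7 : 0 ≤ n7) (e : ρ = (1 - t) * r1 + t * r2)
    (h3 : (1 - t) * a3 + t * b3 ≤ ρ3) (h5 : (1 - t) * a5 + t * b5 ≤ ρ5)
    (h7 : (1 - t) * a7 + t * b7 ≤ ρ7)
    (h : 0 ≤ X - (ρ * n1 + 3 * ρ3 * n3 + 5 * ρ5 * n5 + 7 * ρ7 * n7)) :
    0 ≤ (1 - t) * (X - (r1 * n1 + 3 * a3 * n3 + 5 * a5 * n5 + 7 * a7 * n7)) +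
      t * (X - (r2 * n1 + 3 * b3 * n3 + 5 * b5 * n5 + 7 * b7 * n7)) := by
  subst e
  have m3 := mul_nonneg hn3 (sub_nonneg.2 h3)
  have m5 := mul_nonneg hn5 (sub_nonneg.2 h5)
  have m7 := mul_nonneg hn7 (sub_nonneg.2 h7)
  linarith

theorem absB' (X n1 n3 n5 n7 ρ ρ3 ρ5 ρ7 r1 r2 t a3 a5 a7 b3 b5 b7 : ℝ) (hn3 : 0 ≤ n3)
    (hn5 : 0 ≤ n5) (hn7 : 0 ≤ n7) (e : ρ = (1 - t) * r1 + t * r2)
    (h3 : ρ3 ≤ (1 - t) * a3 + t * b3) (h5 : ρ5 ≤ (1 - t) * a5 + t * b5)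
    (h7 : ρ7 ≤ (1 - t) * a7 + t * b7)
    (h : 0 ≤ X + (ρ * n1 + 3 * ρ3 * n3 + 5 * ρ5 * n5 + 7 * ρ7 * n7)) :
    0 ≤ (1 - t) * (X + (r1 * n1 + 3 * a3 * n3 + 5 * a5 * n5 + 7 * a7 * n7)) +
      t * (X + (r2 * n1 + 3 * b3 * n3 + 5 * b5 * n5 + 7 * b7 * n7)) := by
  subst e
  have m3 := mul_nonneg hn3 (sub_nonneg.2 h3)
  have m5 := mul_nonneg hn5 (sub_nonneg.2 h5)
  have m7 := mul_nonneg hn7 (sub_nonneg.2 h7)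
  linarith

/-- interpolation in the radius parameter -/
theorem interp {c ρ a b u v g4 g5 e57 e77 : ℝ} (h : RR c ρ a b u v g4 g5 e57 e77) {r1 r2 rm t : ℝ}
    (h0 : 0 < r1) (h1 : r1 ≤ rm) (h2 : rm ≤ r2) (ht0 : 0 ≤ t) (ht1 : t ≤ 1) (hρ : ρ = (1 - t) * r1 + t * r2)
    (p s x3 x5 x7 : ℝ) (hs : s * x7 = 0) :
    0 ≤ (1 - t) * VA c r1 (tg rm r1 3) (tg rm r1 5) (tg rm r1 7) a b u v g4 g5 e57 e77 p s x3 x5 x7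
        + t * VA c r2 (tg rm r2 3) (tg rm r2 5) (tg rm r2 7) a b u v g4 g5 e57 e77 p s x3 x5 x7 ∧
    0 ≤ (1 - t) * VB c r1 (r1 ^ 3) (r1 ^ 5) (r1 ^ 7) a b u v g4 g5 e57 e77 p s x3 x5 x7
        + t * VB c r2 (r2 ^ 3) (r2 ^ 5) (r2 ^ 7) a b u v g4 g5 e57 e77 p s x3 x5 x7 ∧
    0 ≤ (1 - t) * VC c r1 (tg rm r1 3) (tg rm r1 5) (tg rm r1 7) a b u v g4 g5 e57 e77 p s x3 x5 x7
        + t * VC c r2 (tg rm r2 3) (tg rm r2 5) (tg rm r2 7) a b u v g4 g5 e57 e77 p s x3 x5 x7 ∧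
    0 ≤ (1 - t) * VD c r1 (r1 ^ 3) (r1 ^ 5) (r1 ^ 7) a b u v g4 g5 e57 e77 p s x3 x5 x7
        + t * VD c r2 (r2 ^ 3) (r2 ^ 5) (r2 ^ 7) a b u v g4 g5 e57 e77 p s x3 x5 x7 := by
  have hrm : 0 < rm := h0.trans_le h1
  have hr2 : 0 < r2 := hrm.trans_le h2
  have hρ0 : 0 ≤ ρ := by
    rw [hρ]
    have := mul_nonneg (by linarith : 0 ≤ 1 - t) h0.le
    have := mul_nonneg ht0 hr2.le
    linarith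
  set n1 : ℝ := (p - 3 * c * x3 + 5 * (c ^ 2 - a) * x5 + 7 * (-c ^ 3 + 2 * c * a - u) * x7) ^ 2
      + (s - 5 * b * x5 + 7 * (2 * c * b - v) * x7) ^ 2 with hn1
  set n3 : ℝ := (x3 - 5 * c * x5 + 7 * (2 * c ^ 2 - a) * x7) ^ 2 + (7 * b * x7) ^ 2 with hn3
  set n5 : ℝ := (x5 - 7 * c * x7) ^ 2 with hn5
  set n7 : ℝ := x7 ^ 2 with hn7
  have k3 : 0 ≤ n3 := by positivity
  have k5 : 0 ≤ n5 := by positivity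
  have k7 : 0 ≤ n7 := by positivity
  have hNR : ∀ r1 r3 r5 r7 : ℝ, NR c r1 r3 r5 r7 a b u v p s x3 x5 x7 =
      r1 * n1 + 3 * r3 * n3 + 5 * r5 * n5 + 7 * r7 * n7 := fun _ _ _ _ => rfl
  set G := GR c a b u v g4 g5 e57 e77 p s x3 x5 x7 with hG
  have t3 : (1 - t) * tg rm r1 3 + t * tg rm r2 3 ≤ ρ ^ 3 := by
    rw [tg_lin' _ _ _ _ _ _ hρ]; exact tan3' _ _ hρ0 hrm.le
  have t5 : (1 - t) * tg rm r1 5 + t * tg rm r2 5 ≤ ρ ^ 5 := by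
    rw [tg_lin' _ _ _ _ _ _ hρ]; exact tan5' _ _ hρ0 hrm.le
  have t7 : (1 - t) * tg rm r1 7 + t * tg rm r2 7 ≤ ρ ^ 7 := by
    rw [tg_lin' _ _ _ _ _ _ hρ]; exact tan7' _ _ hρ0 hrm.le
  have c3 := chord' r1 r2 t ρ 3 h0.le hr2.le ht0 ht1 hρ
  have c5 := chord' r1 r2 t ρ 5 h0.le hr2.le ht0 ht1 hρ
  have c7 := chord' r1 r2 t ρ 7 h0.le hr2.le ht0 ht1 hρ
  have hA := h.A p s x3 x5 x7 hs
  have hB := h.B p s x3 x5 x7 hs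
  have hC := h.C p s x3 x5 x7 hs
  have hD := h.D p s x3 x5 x7 hs
  unfold VA at hA
  unfold VB at hB
  unfold VC at hC
  unfold VD at hD
  unfold VA VB VC VD
  rw [hNR] at hA hB hC hD
  simp only [hNR, ← hG] at hA hB hC hD ⊢
  refine ⟨?_, ?_, ?_, ?_⟩
  · have := absA' (p ^ 2 + s ^ 2 + 3 * x3 ^ 2 + 5 * x5 ^ 2 + 7 * x7 ^ 2 - G) n1 n3 n5 n7 ρ (ρ ^ 3)
      (ρ ^ 5) (ρ ^ 7) r1 r2 t _ _ _ _ _ _ k3 k5 k7 hρ t3 t5 t7 (by linarith)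
    linarith
  · have := absB' (3 / 8 * x3 ^ 2 + 20 / 21 * x5 ^ 2 + 63 / 40 * x7 ^ 2 - G) n1 n3 n5 n7 ρ (ρ ^ 3)
      (ρ ^ 5) (ρ ^ 7) r1 r2 t _ _ _ _ _ _ k3 k5 k7 hρ c3 c5 c7 (by linarith)
    linarith
  · have := absA' (p ^ 2 + s ^ 2 + 3 * x3 ^ 2 + 5 * x5 ^ 2 + 7 * x7 ^ 2 + G) n1 n3 n5 n7 ρ (ρ ^ 3)
      (ρ ^ 5) (ρ ^ 7) r1 r2 t _ _ _ _ _ _ k3 k5 k7 hρ t3 t5 t7 (by linarith)
    linarith
  · have := absB' (3 / 8 * x3 ^ 2 + 20 / 21 * x5 ^ 2 + 63 / 40 * x7 ^ 2 + G) n1 n3 n5 n7 ρ (ρ ^ 3)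
      (ρ ^ 5) (ρ ^ 7) r1 r2 t _ _ _ _ _ _ k3 k5 k7 hρ c3 c5 c7 (by linarith)
    linarith

theorem quadpos (A0 A1 A2 A3 A4 A5 B0 B1 B2 a u b v : ℝ) (h5 : 0 < A5) (h2 : 0 < 4 * A3 * A5 - A4 ^ 2)
    (h0 : 0 < 4 * A0 * A3 * A5 + A1 * A4 * A2 - A0 * A4 ^ 2 - A3 * A2 ^ 2 - A5 * A1 ^ 2)
    (hb : 0 < B2) (hb2 : 0 < 4 * B0 * B2 - B1 ^ 2) :
    0 < A0 + A1 * a + A2 * u + A3 * a ^ 2 + A4 * (a * u) + A5 * u ^ 2 + B0 * b ^ 2 + B1 * (b * v) + B2 * v ^ 2 := by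
  have hS : 0 ≤ B0 * b ^ 2 + B1 * (b * v) + B2 * v ^ 2 := by
    have e : 4 * B2 * (B0 * b ^ 2 + B1 * (b * v) + B2 * v ^ 2) =
        (2 * B2 * v + B1 * b) ^ 2 + (4 * B0 * B2 - B1 ^ 2) * b ^ 2 := by ring
    have e2 : 0 ≤ 4 * B2 * (B0 * b ^ 2 + B1 * (b * v) + B2 * v ^ 2) := by
      rw [e]
      exact add_nonneg (sq_nonneg _) (mul_nonneg hb2.le (sq_nonneg _))
    exact nonneg_of_mul_nonneg_right e2 (by linarith)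
  have hR : 0 < A0 + A1 * a + A2 * u + A3 * a ^ 2 + A4 * (a * u) + A5 * u ^ 2 := by
    have e : 4 * A5 * (4 * A3 * A5 - A4 ^ 2) *
        (A0 + A1 * a + A2 * u + A3 * a ^ 2 + A4 * (a * u) + A5 * u ^ 2) =
        (4 * A3 * A5 - A4 ^ 2) * (2 * A5 * u + A4 * a + A2) ^ 2 +
          ((4 * A3 * A5 - A4 ^ 2) * a + (2 * A1 * A5 - A2 * A4)) ^ 2 +
          4 * A5 * (4 * A0 * A3 * A5 + A1 * A4 * A2 - A0 * A4 ^ 2 - A3 * A2 ^ 2 - A5 * A1 ^ 2) := by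
      ring
    have e2 : 0 < 4 * A5 * (4 * A3 * A5 - A4 ^ 2) *
        (A0 + A1 * a + A2 * u + A3 * a ^ 2 + A4 * (a * u) + A5 * u ^ 2) := by
      rw [e]
      have q1 : 0 ≤ (4 * A3 * A5 - A4 ^ 2) * (2 * A5 * u + A4 * a + A2) ^ 2 :=
        mul_nonneg h2.le (sq_nonneg _)
      have q2 : 0 ≤ ((4 * A3 * A5 - A4 ^ 2) * a + (2 * A1 * A5 - A2 * A4)) ^ 2 := sq_nonneg _
      have q3 : 0 < 4 * A5 *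
          (4 * A0 * A3 * A5 + A1 * A4 * A2 - A0 * A4 ^ 2 - A3 * A2 ^ 2 - A5 * A1 ^ 2) :=
        mul_pos (by linarith) h0
      linarith
    exact pos_of_mul_pos_right e2 (mul_pos (by linarith : (0:ℝ) < 4 * A5) h2).le
  linarith

end Pool.Agent.Helper859.Br.R2
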