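import Pool.Agent.Helper859.Br.Defs
set_option linter.all false
open Complex MeasureTheory Set Filter Topology Metric

namespace Pool.Agent.Helper859.Br.U1
open Pool.Agent.Helper859.Br

theorem tri_nonempty {F : ℂ → ℂ} (dF : DifferentiableOn ℂ F (ball 0 1)) (F0 : F 0 = 0) {C : ℝ} (hC : 1 ≤ C)
    (hF : ∀ z ∈ ball (0:ℂ) 1, ‖F z‖ < C) : ∃ P Q k : ℂ → ℂ, Tri F C P Q k := by
  have hC0 : 0 < C := by linarith
  have hCc : (C : ℂ) ≠ 0 := by exact_mod_cast hC0.ne'
  have hn : ‖(C : ℂ)‖ = C := by rw [Complex.norm_real, Real.norm_of_nonneg hC0.le]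
  refine ⟨fun z => F z / C, fun w => w / C, fun t => C * t, ?_⟩
  constructor
  · exact dF.div_const _
  · exact (differentiable_id.div_const _).differentiableOn
  · exact (differentiable_id.const_mul _).differentiableOn
  · intro z hz
    rw [mem_ball_zero_iff, norm_div, hn, div_lt_one hC0]
    exact hF z hz
  · intro z hz
    rw [mem_ball_zero_iff] at hz ⊢
    rw [norm_div, hn, div_lt_one hC0]
    linarith
  · simp [F0]
  · simp
  · intro t ht
    rw [mem_ball_zero_iff] at ht
    rw [norm_mul, hn]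
    nlinarith
  · intro w hw
    show (C : ℂ) * (w / C) = w
    field_simp
  · intro z hz
    show (C : ℂ) * (F z / C) = F z
    field_simp

/-- derivative at 0 of Q is bounded by 1 and nonzero -/
theorem tri_deriv {F : ℂ → ℂ} {C : ℝ} {P Q k : ℂ → ℂ} (h : Tri F C P Q k) : ‖deriv Q 0‖ ≤ 1 ∧ deriv Q 0 ≠ 0 := by
  constructor
  · exact Complex.norm_deriv_le_one_of_mapsTo_ball h.dQ (by rw [h.Q0]; exact h.mQ.mono_right ball_subset_closedBall) one_pos
  · have h0 : (0:ℂ) ∈ ball (0:ℂ) 1 := mem_ball_self one_pos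
    have hQ : DifferentiableAt ℂ Q 0 := h.dQ.differentiableAt (isOpen_ball.mem_nhds h0)
    have hk : DifferentiableAt ℂ k (Q 0) := by
      rw [h.Q0]; exact h.dk.differentiableAt (isOpen_ball.mem_nhds h0)
    have e1 : (fun w => k (Q w)) =ᶠ[𝓝 0] fun w => w := by
      filter_upwards [isOpen_ball.mem_nhds h0] with w hw
      exact h.kQ w hw
    have e2 := e1.deriv_eq
    have e3 : deriv (fun w => k (Q w)) 0 = deriv k (Q 0) * deriv Q 0 :=
      deriv_comp (0:ℂ) hk hQ
    rw [e3] at e2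
    have e4 : deriv (fun w : ℂ => w) 0 = 1 := deriv_id 0
    rw [e4] at e2
    intro hz
    rw [hz, mul_zero] at e2
    exact zero_ne_one e2

end Pool.Agent.Helper859.Br.U1
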