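import Pool.Agent.Helper859.Br.Defs
set_option linter.all false
open Complex MeasureTheory Set Filter Topology Metric

namespace Pool.Agent.Helper859.Br.U2
open Pool.Agent.Helper859.Br

/-- uniformly bounded holomorphic functions converging pointwise converge locally uniformly -/
theorem tri_max_tlu {ι : Type*} {l : Filter ι} [l.NeBot] {U : Set ℂ} (hU : IsOpen U)
    {F : ι → ℂ → ℂ} {f : ℂ → ℂ} {M : ℝ}
    (hd : ∀ i, DifferentiableOn ℂ (F i) U) (hb : ∀ i, ∀ z ∈ U, ‖F i z‖ ≤ M)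
    (hp : ∀ z ∈ U, Tendsto (fun i => F i z) l (𝓝 (f z))) :
    TendstoLocallyUniformlyOn F f l U := by
  obtain ⟨i0⟩ : Nonempty ι := l.nonempty_of_neBot
  rw [Metric.tendstoLocallyUniformlyOn_iff]
  intro ε hε x hx
  obtain ⟨R, hR, hRU⟩ := Metric.isOpen_iff.1 hU x hx
  have hM : 0 ≤ M := le_trans (norm_nonneg _) (hb i0 x hx)
  have key : ∀ i, ∀ z ∈ ball x R, dist (F i z) (F i x) ≤ (2 * M + 1) / R * dist z x := by
    intro i z hz
    apply Complex.dist_le_div_mul_dist_of_mapsTo_ball ((hd i).mono hRU) _ hz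
    intro w hw
    rw [mem_closedBall, dist_eq_norm]
    have h1 := hb i w (hRU hw)
    have h2 := hb i x hx
    have h3 := norm_sub_le (F i w) (F i x)
    linarith
  set L : ℝ := (2 * M + 1) / R with hL
  have hLp : 0 < L := by positivity
  have keyf : ∀ z ∈ ball x R, dist (f z) (f x) ≤ L * dist z x := by
    intro z hz
    have h1 : Tendsto (fun i => dist (F i z) (F i x)) l (𝓝 (dist (f z) (f x))) :=
      (hp z (hRU hz)).dist (hp x hx)
    exact le_of_tendsto h1 (Eventually.of_forall fun i => key i z hz)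
  refine ⟨ball x (min R (ε / (4 * L))), mem_nhdsWithin_of_mem_nhds (ball_mem_nhds _ (by positivity)), ?_⟩
  have hx' : ∀ᶠ i in l, dist (F i x) (f x) < ε / 4 := (Metric.tendsto_nhds.1 (hp x hx)) _ (by positivity)
  filter_upwards [hx'] with i hi y hy
  have hy1 : y ∈ ball x R := ball_subset_ball (min_le_left _ _) hy
  have hy2 : dist y x < ε / (4 * L) := lt_of_lt_of_le hy (min_le_right _ _)
  have hy3 : L * dist y x < ε / 4 := by
    calc L * dist y x < L * (ε / (4 * L)) := by gcongr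
      _ = ε / 4 := by field_simp
  have h1 := key i y hy1
  have h2 := keyf y hy1
  calc dist (f y) (F i y) ≤ dist (f y) (f x) + dist (f x) (F i x) + dist (F i x) (F i y) :=
        dist_triangle4 _ _ _ _
    _ < ε := by
        rw [dist_comm (f x), dist_comm (F i x) (F i y)]
        linarith

theorem tri_max_lim (f : ℕ → ℂ → ℂ) (M : ℝ) (hd : ∀ n, DifferentiableOn ℂ (f n) (ball 0 1))
    (hb : ∀ n, ∀ z ∈ ball (0 : ℂ) 1, ‖f n z‖ ≤ M) :
    ∃ g : ℂ → ℂ, DifferentiableOn ℂ g (ball 0 1) ∧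
      (∀ z ∈ ball (0 : ℂ) 1, Tendsto (fun n => f n z) (hyperfilter ℕ : Filter ℕ) (𝓝 (g z))) ∧
      TendstoLocallyUniformlyOn f g (hyperfilter ℕ : Filter ℕ) (ball 0 1) := by
  have hex : ∀ z : ℂ, ∃ a : ℂ, z ∈ ball (0 : ℂ) 1 →
      Tendsto (fun n => f n z) (hyperfilter ℕ : Filter ℕ) (𝓝 a) := by
    intro z
    by_cases hz : z ∈ ball (0 : ℂ) 1
    · obtain ⟨a, _, ha⟩ := (isCompact_closedBall (0 : ℂ) M).ultrafilter_le_nhds'
        ((hyperfilter ℕ).map (fun n => f n z)) (by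
          rw [Ultrafilter.mem_map]
          refine Filter.univ_mem' fun n => ?_
          rw [Set.mem_preimage, mem_closedBall_zero_iff]
          exact hb n z hz)
      exact ⟨a, fun _ => ha⟩
    · exact ⟨0, fun h => absurd h hz⟩
  choose g hg using hex
  have htlu := tri_max_tlu (l := (hyperfilter ℕ : Filter ℕ)) isOpen_ball hd hb hg
  exact ⟨g, htlu.differentiableOn (Eventually.of_forall hd) isOpen_ball, hg, htlu⟩

/-- compactness of the class: the supremum of |Q'(0)| is attained -/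
theorem tri_max {F : ℂ → ℂ} (dF : DifferentiableOn ℂ F (ball 0 1)) {C : ℝ} (hC : 1 ≤ C)
    (hne : ∃ P Q k : ℂ → ℂ, Tri F C P Q k)
    (hd : ∀ P Q k : ℂ → ℂ, Tri F C P Q k → ‖deriv Q 0‖ ≤ 1) :
    ∃ P Q k : ℂ → ℂ, Tri F C P Q k ∧ ∀ P' Q' k' : ℂ → ℂ, Tri F C P' Q' k' → ‖deriv Q' 0‖ ≤ ‖deriv Q 0‖ := by
  obtain ⟨P0, Q0, k0, h0⟩ := hne
  obtain ⟨S, hS⟩ : ∃ S : Set ℝ, S = {r | ∃ P Q k : ℂ → ℂ, Tri F C P Q k ∧ r = ‖deriv Q 0‖} :=
    ⟨_, rfl⟩
  have hSne : S.Nonempty := ⟨‖deriv Q0 0‖, by rw [hS]; exact ⟨P0, Q0, k0, h0, rfl⟩⟩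
  have hSb : BddAbove S := by
    refine ⟨1, ?_⟩
    intro r hr
    rw [hS] at hr
    obtain ⟨P, Q, k, h, rfl⟩ := hr
    exact hd P Q k h
  have hseq : ∀ n : ℕ, ∃ P Q k : ℂ → ℂ, Tri F C P Q k ∧ sSup S - 1 / ((n : ℝ) + 1) < ‖deriv Q 0‖ := by
    intro n
    obtain ⟨r, hr, hlt⟩ := exists_lt_of_lt_csSup hSne
      (sub_lt_self (sSup S) (by positivity : (0 : ℝ) < 1 / ((n : ℝ) + 1)))
    rw [hS] at hr
    obtain ⟨P, Q, k, h, rfl⟩ := hr
    exact ⟨P, Q, k, h, hlt⟩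
  choose Pn Qn kn hT hlt using hseq
  obtain ⟨P, hPd, hPp, hPu⟩ := tri_max_lim Pn 1 (fun n => (hT n).dP)
    (fun n z hz => (mem_ball_zero_iff.1 ((hT n).mP hz)).le)
  obtain ⟨Q, hQd, hQp, hQu⟩ := tri_max_lim Qn 1 (fun n => (hT n).dQ)
    (fun n z hz => (mem_ball_zero_iff.1 ((hT n).mQ hz)).le)
  obtain ⟨k, hkd, hkp, hku⟩ := tri_max_lim kn C (fun n => (hT n).dk)
    (fun n z hz => (hT n).bk z hz)
  have h0mem : (0 : ℂ) ∈ ball (0 : ℂ) 1 := mem_ball_self one_pos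
  have hPs : ∀ z ∈ ball (0 : ℂ) 1, ‖P z‖ ≤ ‖z‖ := by
    intro z hz
    refine le_of_tendsto (hPp z hz).norm (Eventually.of_forall fun n => ?_)
    exact Complex.norm_le_norm_of_mapsTo_ball (hT n).dP
      ((hT n).mP.mono_right ball_subset_closedBall) (hT n).P0 (mem_ball_zero_iff.1 hz)
  have hQs : ∀ z ∈ ball (0 : ℂ) 1, ‖Q z‖ ≤ ‖z‖ := by
    intro z hz
    refine le_of_tendsto (hQp z hz).norm (Eventually.of_forall fun n => ?_)
    exact Complex.norm_le_norm_of_mapsTo_ball (hT n).dQ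
      ((hT n).mQ.mono_right ball_subset_closedBall) (hT n).Q0 (mem_ball_zero_iff.1 hz)
  have hmP : MapsTo P (ball 0 1) (ball 0 1) := fun z hz =>
    mem_ball_zero_iff.2 (lt_of_le_of_lt (hPs z hz) (mem_ball_zero_iff.1 hz))
  have hmQ : MapsTo Q (ball 0 1) (ball 0 1) := fun z hz =>
    mem_ball_zero_iff.2 (lt_of_le_of_lt (hQs z hz) (mem_ball_zero_iff.1 hz))
  have hcomp : ∀ (g : ℕ → ℂ) (x : ℂ), x ∈ ball (0 : ℂ) 1 → (∀ n, g n ∈ ball (0 : ℂ) 1) →
      Tendsto g (hyperfilter ℕ : Filter ℕ) (𝓝 x) →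
      Tendsto (fun n => kn n (g n)) (hyperfilter ℕ : Filter ℕ) (𝓝 (k x)) := by
    intro g x hx hg hgx
    refine hku.tendsto_comp (hkd.continuousOn x hx) hx ?_
    exact tendsto_nhdsWithin_iff.2 ⟨hgx, Eventually.of_forall hg⟩
  refine ⟨P, Q, k, ⟨hPd, hQd, hkd, hmP, hmQ, ?_, ?_, ?_, ?_, ?_⟩, ?_⟩
  · refine tendsto_nhds_unique (hPp 0 h0mem) ?_
    refine tendsto_const_nhds.congr fun n => ?_
    exact (hT n).P0.symm
  · refine tendsto_nhds_unique (hQp 0 h0mem) ?_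
    refine tendsto_const_nhds.congr fun n => ?_
    exact (hT n).Q0.symm
  · intro t ht
    exact le_of_tendsto (hkp t ht).norm (Eventually.of_forall fun n => (hT n).bk t ht)
  · intro w hw
    have h1 := hcomp (fun n => Qn n w) (Q w) (hmQ hw) (fun n => (hT n).mQ hw) (hQp w hw)
    refine tendsto_nhds_unique h1 (tendsto_const_nhds.congr fun n => ?_)
    exact ((hT n).kQ w hw).symm
  · intro z hz
    have h1 := hcomp (fun n => Pn n z) (P z) (hmP hz) (fun n => (hT n).mP hz) (hPp z hz)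
    refine tendsto_nhds_unique h1 (tendsto_const_nhds.congr fun n => ?_)
    exact ((hT n).kP z hz).symm
  · intro P' Q' k' h'
    have h1 : ‖deriv Q' 0‖ ≤ sSup S := le_csSup hSb (by rw [hS]; exact ⟨P', Q', k', h', rfl⟩)
    refine h1.trans ?_
    have h2 : Tendsto (fun n => ‖deriv (Qn n) 0‖) (hyperfilter ℕ : Filter ℕ) (𝓝 ‖deriv Q 0‖) := by
      have h3 := (hQu.deriv (Eventually.of_forall fun n => (hT n).dQ) isOpen_ball).tendsto_at h0mem
      exact h3.norm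
    have h4 : Tendsto (fun n : ℕ => sSup S - 1 / ((n : ℝ) + 1)) (hyperfilter ℕ : Filter ℕ)
        (𝓝 (sSup S)) := by
      have h5 := (tendsto_one_div_add_atTop_nhds_zero_nat (𝕜 := ℝ)).const_sub (sSup S)
      rw [sub_zero] at h5
      exact h5.mono_left Nat.hyperfilter_le_atTop
    exact le_of_tendsto_of_tendsto h4 h2 (Eventually.of_forall fun n => (hlt n).le)

end Pool.Agent.Helper859.Br.U2
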