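import Pool.Agent.Helper859.Br.Defs
set_option linter.all false
open Complex MeasureTheory Set Filter Topology Metric

namespace Pool.Agent.Helper859.Br.U3
open Pool.Agent.Helper859.Br

/-- Blaschke factor -/
noncomputable def bl (c w : ℂ) : ℂ := (w - c) / (1 - (starRingEnd ℂ) c * w)

theorem bl_den_ne {c w : ℂ} (hc : ‖c‖ < 1) (hw : ‖w‖ < 1) : 1 - (starRingEnd ℂ) c * w ≠ 0 := by
  intro h
  have h1 : (starRingEnd ℂ) c * w = 1 := by linear_combination -h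
  have h2 : ‖(starRingEnd ℂ) c * w‖ = 1 := by rw [h1]; simp
  rw [norm_mul, RCLike.norm_conj] at h2
  have : ‖c‖ * ‖w‖ < 1 := by
    nlinarith [norm_nonneg c, norm_nonneg w]
  linarith

theorem bl_norm_lt {c w : ℂ} (hc : ‖c‖ < 1) (hw : ‖w‖ < 1) : ‖bl c w‖ < 1 := by
  have hne := bl_den_ne hc hw
  rw [bl, norm_div, div_lt_one (norm_pos_iff.2 hne)]
  have h1 : ‖w - c‖ ^ 2 < ‖1 - (starRingEnd ℂ) c * w‖ ^ 2 := by
    have e1 : ‖w - c‖ ^ 2 = ‖w‖ ^ 2 + ‖c‖ ^ 2 - 2 * (w * (starRingEnd ℂ) c).re := by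
      rw [← Complex.normSq_eq_norm_sq, ← Complex.normSq_eq_norm_sq, ← Complex.normSq_eq_norm_sq,
        Complex.normSq_sub]
    have e2 : ‖1 - (starRingEnd ℂ) c * w‖ ^ 2 = 1 + ‖w‖ ^ 2 * ‖c‖ ^ 2 - 2 * (w * (starRingEnd ℂ) c).re := by
      rw [← Complex.normSq_eq_norm_sq, ← Complex.normSq_eq_norm_sq, ← Complex.normSq_eq_norm_sq,
        Complex.normSq_sub]
      simp [Complex.normSq_mul, Complex.normSq_conj, mul_comm]
    rw [e1, e2]
    have h3 : ‖c‖ ^ 2 < 1 := by nlinarith [norm_nonneg c]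
    have h4 : ‖w‖ ^ 2 < 1 := by nlinarith [norm_nonneg w]
    nlinarith
  exact lt_of_pow_lt_pow_left₀ 2 (norm_nonneg _) h1

theorem bl_hasDerivAt {c w : ℂ} (hc : ‖c‖ < 1) (hw : ‖w‖ < 1) :
    HasDerivAt (bl c) ((1 - (starRingEnd ℂ) c * c) / (1 - (starRingEnd ℂ) c * w) ^ 2) w := by
  have hne := bl_den_ne hc hw
  have h1 : HasDerivAt (fun w : ℂ => w - c) 1 w := (hasDerivAt_id w).sub_const c
  have h2 : HasDerivAt (fun w : ℂ => 1 - (starRingEnd ℂ) c * w) (-(starRingEnd ℂ) c) w := by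
    have := ((hasDerivAt_id w).const_mul ((starRingEnd ℂ) c)).const_sub 1
    simpa using this
  have h3 := h1.div h2 hne
  refine h3.congr_deriv ?_
  congr 1
  ring

theorem bl_deriv_ne {c w : ℂ} (hc : ‖c‖ < 1) (hw : ‖w‖ < 1) :
    (1 - (starRingEnd ℂ) c * c) / (1 - (starRingEnd ℂ) c * w) ^ 2 ≠ 0 :=
  div_ne_zero (bl_den_ne hc hc) (pow_ne_zero _ (bl_den_ne hc hw))

theorem bl_inj {c w v : ℂ} (hc : ‖c‖ < 1) (hw : ‖w‖ < 1) (hv : ‖v‖ < 1) (h : bl c w = bl c v) :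
    w = v := by
  have h1 := bl_den_ne hc hw
  have h2 := bl_den_ne hc hv
  rw [bl, bl, div_eq_div_iff h1 h2] at h
  have h3 : (w - v) * (1 - (starRingEnd ℂ) c * c) = 0 := by linear_combination h
  rcases mul_eq_zero.1 h3 with h4 | h4
  · linear_combination h4
  · exact absurd h4 (bl_den_ne hc hc)

theorem bl_self (c : ℂ) : bl c c = 0 := by simp [bl]

theorem bl_zero (c : ℂ) : bl c 0 = -c := by simp [bl]

theorem bl_eq_zero {c w : ℂ} (hc : ‖c‖ < 1) (hw : ‖w‖ < 1) (h : bl c w = 0) : w = c := by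
  rw [← bl_self c] at h
  exact bl_inj hc hw hc h

/-- derivative of a continuous square root -/
theorem sqrt_hasDerivAt {h k : ℂ → ℂ} {z k' : ℂ} (hc : ContinuousAt h z) (hk : HasDerivAt k k' z)
    (he : ∀ x, h x ^ 2 = k x) (hz : h z ≠ 0) : HasDerivAt h (k' / (2 * h z)) z := by
  rw [hasDerivAt_iff_tendsto_slope] at hk ⊢
  have h1 : Tendsto (fun x => h x + h z) (𝓝[≠] z) (𝓝 (2 * h z)) := by
    have : Tendsto (fun x => h x + h z) (𝓝 z) (𝓝 (h z + h z)) := hc.tendsto.add tendsto_const_nhds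
    rw [← two_mul] at this
    exact this.mono_left nhdsWithin_le_nhds
  have hne : (2 * h z) ≠ 0 := mul_ne_zero two_ne_zero hz
  have h2 := hk.div h1 hne
  refine h2.congr' ?_
  have h3 : ∀ᶠ x in 𝓝[≠] z, h x + h z ≠ 0 := h1.eventually_ne hne
  filter_upwards [h3, self_mem_nhdsWithin] with x hx hxz
  have hxz' : x - z ≠ 0 := sub_ne_zero.2 hxz
  simp only [slope_def_field, Pi.div_apply]
  rw [← he x, ← he z]
  field_simp
  ring


theorem bl_inv {c w : ℂ} (hc : ‖c‖ < 1) (hw : ‖w‖ < 1) : bl (-c) (bl c w) = w := by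
  have h1 := bl_den_ne hc hw
  have h2 := bl_den_ne hc hc
  have h3 : 1 - (starRingEnd ℂ) (-c) * bl c w =
      (1 - (starRingEnd ℂ) c * c) / (1 - (starRingEnd ℂ) c * w) := by
    rw [bl, map_neg, eq_div_iff h1]
    have h6 := div_mul_cancel₀ (w - c) h1
    linear_combination ((starRingEnd ℂ) c) * h6
  have h4 : bl c w - -c = w * (1 - (starRingEnd ℂ) c * c) / (1 - (starRingEnd ℂ) c * w) := by
    rw [bl, sub_neg_eq_add, div_add' _ _ _ h1]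
    congr 1
    ring
  have h5 : bl (-c) (bl c w) = (bl c w - -c) / (1 - (starRingEnd ℂ) (-c) * bl c w) := rfl
  rw [h5, h3, h4, div_div_div_cancel_right₀ h1, mul_div_assoc, div_self h2, mul_one]

theorem ball_sc : IsSimplyConnected (ball (0 : ℂ) 1) := by
  have h1 : ContractibleSpace (ball (0 : ℂ) 1) :=
    (convex_ball (0 : ℂ) 1).contractibleSpace ⟨0, mem_ball_self one_pos⟩
  show SimplyConnectedSpace (ball (0 : ℂ) 1)
  exact SimplyConnectedSpace.ofContractible _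

theorem half_step {φ : ℂ → ℂ} (hφ : DifferentiableOn ℂ φ (ball 0 1))
    (hm : MapsTo φ (ball 0 1) (ball 0 1)) {c : ℂ} (hc : ‖c‖ < 1) (hcφ : c ∉ φ '' ball 0 1) :
    ∃ s : ℂ → ℂ, (∀ z ∈ ball (0 : ℂ) 1, ‖s z‖ < 1 ∧ s z ≠ 0 ∧ s z ^ 2 = bl c (φ z) ∧
      HasDerivAt s ((1 - (starRingEnd ℂ) c * c) / (1 - (starRingEnd ℂ) c * φ z) ^ 2 *
        deriv φ z / (2 * s z)) z) := by
  have hlt : ∀ z ∈ ball (0 : ℂ) 1, ‖φ z‖ < 1 := fun z hz => by simpa using hm hz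
  have hd : ∀ z ∈ ball (0 : ℂ) 1, HasDerivAt (fun z => bl c (φ z))
      ((1 - (starRingEnd ℂ) c * c) / (1 - (starRingEnd ℂ) c * φ z) ^ 2 * deriv φ z) z := by
    intro z hz
    exact (bl_hasDerivAt hc (hlt z hz)).comp z
      (hφ.differentiableAt (isOpen_ball.mem_nhds hz)).hasDerivAt
  have k0 : ∀ z ∈ ball (0 : ℂ) 1, bl c (φ z) ≠ 0 := by
    intro z hz h
    exact hcφ ⟨z, hz, bl_eq_zero hc (hlt z hz) h⟩
  obtain ⟨s, hsc, hs⟩ := Complex.exists_continuousOn_pow_eq ball_sc isOpen_ball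
    (g := fun z => bl c (φ z)) (fun z hz => (hd z hz).continuousAt.continuousWithinAt)
    (by rintro ⟨z, hz, h0⟩; exact k0 z hz h0) two_ne_zero
  have hne : ∀ z ∈ ball (0 : ℂ) 1, s z ≠ 0 := by
    intro z hz h0
    have := hs z
    rw [h0] at this
    exact k0 z hz (by rw [← this]; simp)
  refine ⟨s, fun z hz => ⟨?_, hne z hz, hs z, ?_⟩⟩
  · have e1 : ‖s z‖ ^ 2 = ‖bl c (φ z)‖ := by rw [← norm_pow, hs z]
    have e2 := bl_norm_lt hc (hlt z hz)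
    by_contra hcon
    push Not at hcon
    nlinarith [norm_nonneg (s z)]
  · exact sqrt_hasDerivAt (hsc.continuousAt (isOpen_ball.mem_nhds hz)) (hd z hz) hs (hne z hz)

theorem deriv_calc (c s0 q : ℂ) (hs : s0 ^ 2 = -c) (hs0 : s0 ≠ 0) (hs1 : ‖s0‖ < 1) (hq : q ≠ 0) :
    ‖q‖ < ‖(1 - (starRingEnd ℂ) s0 * s0) / (1 - (starRingEnd ℂ) s0 * s0) ^ 2 *
      ((1 - (starRingEnd ℂ) c * c) / (1 - (starRingEnd ℂ) c * 0) ^ 2 * q / (2 * s0))‖ := by
  obtain ⟨t, ht⟩ : ∃ t, t = ‖s0‖ := ⟨_, rfl⟩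
  have ht0 : 0 < t := by rw [ht]; exact norm_pos_iff.2 hs0
  have ht1' : t < 1 := by rw [ht]; exact hs1
  have ec : t ^ 2 = ‖c‖ := by rw [ht, ← norm_pow, hs, norm_neg]
  have e1 : ‖(1 : ℂ) - (starRingEnd ℂ) s0 * s0‖ = 1 - t ^ 2 := by
    have : (1 : ℂ) - (starRingEnd ℂ) s0 * s0 = ((1 - t ^ 2 : ℝ) : ℂ) := by
      rw [mul_comm, Complex.mul_conj, Complex.normSq_eq_norm_sq, ← ht]
      push_cast
      rfl
    rw [this, Complex.norm_real, Real.norm_of_nonneg]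
    nlinarith
  have e2 : ‖(1 : ℂ) - (starRingEnd ℂ) c * c‖ = 1 - t ^ 4 := by
    have : (1 : ℂ) - (starRingEnd ℂ) c * c = ((1 - t ^ 4 : ℝ) : ℂ) := by
      rw [mul_comm, Complex.mul_conj, Complex.normSq_eq_norm_sq, ← ec]
      push_cast
      ring
    rw [this, Complex.norm_real, Real.norm_of_nonneg]
    have : t ^ 2 < 1 := by nlinarith
    nlinarith [sq_nonneg t]
  have hφ0 : 0 < ‖q‖ := norm_pos_iff.2 hq
  rw [norm_mul, norm_div, norm_pow, norm_div, norm_mul, norm_div, norm_pow, e1, norm_mul, e2, ← ht]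
  have e3 : ‖(1 : ℂ) - (starRingEnd ℂ) c * 0‖ = 1 := by simp
  have e4 : ‖(2 : ℂ)‖ = 2 := by simp
  rw [e3, e4]
  have ht1 : 0 < 1 - t ^ 2 := by nlinarith
  have e5 : (1 - t ^ 2) / (1 - t ^ 2) ^ 2 * ((1 - t ^ 4) / 1 ^ 2 * ‖q‖ / (2 * t))
      = ‖q‖ * ((1 + t ^ 2) / (2 * t)) := by
    field_simp
    ring
  rw [e5]
  have e6 : 1 < (1 + t ^ 2) / (2 * t) := by
    rw [lt_div_iff₀ (by positivity)]
    nlinarith [sq_nonneg (1 - t)]
  nlinarith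

/-- Koebe square-root step: if a point of the disc is omitted then |Q'(0)| can be increased -/
theorem tri_step {F : ℂ → ℂ} {C : ℝ} {P Q k : ℂ → ℂ} (h : Tri F C P Q k) (hQ0 : deriv Q 0 ≠ 0)
    (c : ℂ) (hc : c ∈ ball (0:ℂ) 1) (hcP : c ∉ P '' ball 0 1) (hcQ : c ∉ Q '' ball 0 1) :
    ∃ P' Q' k' : ℂ → ℂ, Tri F C P' Q' k' ∧ ‖deriv Q 0‖ < ‖deriv Q' 0‖ := by
  have hc1 : ‖c‖ < 1 := by simpa using hc
  obtain ⟨sP, hsP⟩ := half_step h.dP h.mP hc1 hcP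
  obtain ⟨sQ, hsQ⟩ := half_step h.dQ h.mQ hc1 hcQ
  have h0 : (0 : ℂ) ∈ ball (0 : ℂ) 1 := mem_ball_self one_pos
  obtain ⟨s0, hs0⟩ : ∃ s0, s0 = sQ 0 := ⟨_, rfl⟩
  have hs0sq : s0 ^ 2 = -c := by rw [hs0, (hsQ 0 h0).2.2.1, h.Q0, bl_zero]
  have hs0ne : s0 ≠ 0 := by rw [hs0]; exact (hsQ 0 h0).2.1
  have hs01 : ‖s0‖ < 1 := by rw [hs0]; exact (hsQ 0 h0).1
  -- choose the sign of sP
  obtain ⟨tP, htP, htP0⟩ : ∃ tP : ℂ → ℂ, (∀ z ∈ ball (0 : ℂ) 1, ‖tP z‖ < 1 ∧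
      tP z ^ 2 = bl c (P z) ∧ DifferentiableAt ℂ tP z) ∧ tP 0 = s0 := by
    have h1 : sP 0 ^ 2 = s0 ^ 2 := by rw [hs0sq, (hsP 0 h0).2.2.1, h.P0, bl_zero]
    rcases sq_eq_sq_iff_eq_or_eq_neg.1 h1 with h2 | h2
    · exact ⟨sP, fun z hz => ⟨(hsP z hz).1, (hsP z hz).2.2.1, (hsP z hz).2.2.2.differentiableAt⟩, h2⟩
    · refine ⟨fun z => -sP z, fun z hz => ⟨?_, ?_, ?_⟩, ?_⟩
      · rw [norm_neg]; exact (hsP z hz).1
      · rw [neg_sq]; exact (hsP z hz).2.2.1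
      · exact (hsP z hz).2.2.2.differentiableAt.neg
      · show -sP 0 = s0
        rw [h2, neg_neg]
  have hns0 : ‖-s0‖ < 1 := by rwa [norm_neg]
  have hnc : ‖-c‖ < 1 := by rwa [norm_neg]
  have hk1 : ∀ t ∈ ball (0 : ℂ) 1, ‖bl (-s0) t‖ < 1 := fun t ht => bl_norm_lt hns0 (by simpa using ht)
  have hk2 : ∀ t ∈ ball (0 : ℂ) 1, ‖(bl (-s0) t) ^ 2‖ < 1 := by
    intro t ht
    rw [norm_pow]
    exact pow_lt_one₀ (norm_nonneg _) (hk1 t ht) two_ne_zero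
  have hk3 : ∀ t ∈ ball (0 : ℂ) 1, bl (-c) ((bl (-s0) t) ^ 2) ∈ ball (0 : ℂ) 1 := by
    intro t ht
    simpa using bl_norm_lt hnc (hk2 t ht)
  have hQ'd : ∀ z ∈ ball (0 : ℂ) 1, HasDerivAt (fun z => bl s0 (sQ z))
      ((1 - (starRingEnd ℂ) s0 * s0) / (1 - (starRingEnd ℂ) s0 * sQ z) ^ 2 *
      ((1 - (starRingEnd ℂ) c * c) / (1 - (starRingEnd ℂ) c * Q z) ^ 2 *
        deriv Q z / (2 * sQ z))) z := by
    intro z hz
    exact (bl_hasDerivAt hs01 (hsQ z hz).1).comp z (hsQ z hz).2.2.2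
  have hQlt : ∀ z ∈ ball (0 : ℂ) 1, ‖Q z‖ < 1 := fun z hz => by simpa using h.mQ hz
  have hPlt : ∀ z ∈ ball (0 : ℂ) 1, ‖P z‖ < 1 := fun z hz => by simpa using h.mP hz
  refine ⟨fun z => bl s0 (tP z), fun z => bl s0 (sQ z),
    fun t => k (bl (-c) ((bl (-s0) t) ^ 2)), ?_, ?_⟩
  · refine ⟨?_, ?_, ?_, ?_, ?_, ?_, ?_, ?_, ?_, ?_⟩
    · intro z hz
      exact ((bl_hasDerivAt hs01 (htP z hz).1).differentiableAt.comp z
        (htP z hz).2.2).differentiableWithinAt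
    · intro z hz
      exact (hQ'd z hz).differentiableAt.differentiableWithinAt
    · intro t ht
      have e1 : DifferentiableAt ℂ (bl (-s0)) t :=
        (bl_hasDerivAt hns0 (by simpa using ht)).differentiableAt
      have e2 : DifferentiableAt ℂ (fun t => (bl (-s0) t) ^ 2) t := e1.pow 2
      have e3 : DifferentiableAt ℂ (bl (-c)) ((bl (-s0) t) ^ 2) :=
        (bl_hasDerivAt hnc (hk2 t ht)).differentiableAt
      have e4 : DifferentiableAt ℂ (fun t => bl (-c) ((bl (-s0) t) ^ 2)) t :=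
        DifferentiableAt.comp (g := bl (-c)) (f := fun t => (bl (-s0) t) ^ 2) t e3 e2
      have e5 : DifferentiableAt ℂ k (bl (-c) ((bl (-s0) t) ^ 2)) :=
        h.dk.differentiableAt (isOpen_ball.mem_nhds (hk3 t ht))
      exact (DifferentiableAt.comp (g := k) (f := fun t => bl (-c) ((bl (-s0) t) ^ 2)) t
        e5 e4).differentiableWithinAt
    · intro z hz
      simpa using bl_norm_lt hs01 (htP z hz).1
    · intro z hz
      simpa using bl_norm_lt hs01 (hsQ z hz).1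
    · show bl s0 (tP 0) = 0
      rw [htP0, bl_self]
    · show bl s0 (sQ 0) = 0
      rw [← hs0, bl_self]
    · intro t ht
      exact h.bk _ (hk3 t ht)
    · intro w hw
      show k (bl (-c) ((bl (-s0) (bl s0 (sQ w))) ^ 2)) = w
      rw [bl_inv hs01 (hsQ w hw).1, (hsQ w hw).2.2.1, bl_inv hc1 (hQlt w hw), h.kQ w hw]
    · intro z hz
      show k (bl (-c) ((bl (-s0) (bl s0 (tP z))) ^ 2)) = F z
      rw [bl_inv hs01 (htP z hz).1, (htP z hz).2.1, bl_inv hc1 (hPlt z hz), h.kP z hz]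
  · rw [(hQ'd 0 h0).deriv, ← hs0, h.Q0]
    exact deriv_calc c s0 (deriv Q 0) hs0sq hs0ne hs01 hQ0

end Pool.Agent.Helper859.Br.U3
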