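import Pool.Agent.Helper859.Br.Defs
set_option linter.all false
open Complex MeasureTheory Set Filter Topology Metric

namespace Pool.Agent.Helper859.Br.U4
open Pool.Agent.Helper859.Br

theorem int_const {V : Set ℂ} (hV : IsPreconnected V) {g : ℂ → ℝ} (hg : ContinuousOn g V)
    (hi : ∀ z ∈ V, ∃ n : ℤ, g z = n) {x y : ℂ} (hx : x ∈ V) (hy : y ∈ V) : g x = g y := by
  by_contra hne
  have hp : (g '' V).OrdConnected := (hV.image g hg).ordConnected
  have key : ∀ a ∈ V, ∀ b ∈ V, g a < g b → False := by
    intro a ha b hb hab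
    obtain ⟨m, hm⟩ := hi a ha
    obtain ⟨n, hn⟩ := hi b hb
    have hmn : m < n := by
      have : (m:ℝ) < n := by rw [← hm, ← hn]; exact hab
      exact_mod_cast this
    have hmn' : (m:ℝ) + 1 ≤ n := by exact_mod_cast hmn
    have hmem : (m:ℝ) + 1/2 ∈ g '' V := by
      apply hp.out (mem_image_of_mem g ha) (mem_image_of_mem g hb)
      constructor
      · rw [hm]; linarith
      · rw [hn]; linarith
    obtain ⟨c, hc, hgc⟩ := hmem
    obtain ⟨k, hk⟩ := hi c hc
    rw [hk] at hgc
    have h1 : (2:ℝ) * k = 2 * m + 1 := by linarith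
    have h2 : (2:ℤ) * k = 2 * m + 1 := by exact_mod_cast h1
    omega
  rcases lt_or_gt_of_ne hne with h | h
  · exact key x hx y hy h
  · exact key y hy x hx h

/-- topological lemma: if two open connected sets cover the disc and lie in it, their intersection is connected -/
theorem inter_conn (V1 V2 : Set ℂ) (h1 : IsOpen V1) (h2 : IsOpen V2) (c1 : IsPreconnected V1) (c2 : IsPreconnected V2)
    (hu : V1 ∪ V2 = ball (0:ℂ) 1) : IsPreconnected (V1 ∩ V2) := by
  classical
  by_cases e1 : (V1 \ V2).Nonempty
  swap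
  · rw [Set.not_nonempty_iff_eq_empty, Set.diff_eq_empty] at e1
    rwa [Set.inter_eq_left.mpr e1]
  by_cases e2 : (V2 \ V1).Nonempty
  swap
  · rw [Set.not_nonempty_iff_eq_empty, Set.diff_eq_empty] at e2
    rwa [Set.inter_eq_right.mpr e2]
  intro U W hU hW hUW hneU hneW
  by_contra hemp
  rw [Set.not_nonempty_iff_eq_empty] at hemp
  obtain ⟨pa, hpa, hpaU⟩ := hneU
  obtain ⟨pb, hpb, hpbW⟩ := hneW
  set A : Set ℂ := V1 ∩ V2 ∩ U with hA
  set B : Set ℂ := V1 ∩ V2 ∩ W with hB
  have oA : IsOpen A := (h1.inter h2).inter hU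
  have oB : IsOpen B := (h1.inter h2).inter hW
  have hAB : ∀ z, z ∈ A → z ∉ B := by
    intro z hz hz'
    have : z ∈ V1 ∩ V2 ∩ (U ∩ W) := ⟨hz.1, hz.2, hz'.2⟩
    rw [hemp] at this
    exact this
  have hABu : ∀ z, z ∈ V1 → z ∈ V2 → z ∈ A ∨ z ∈ B := by
    intro z hz1 hz2
    rcases hUW ⟨hz1, hz2⟩ with h | h
    · exact Or.inl ⟨⟨hz1, hz2⟩, h⟩
    · exact Or.inr ⟨⟨hz1, hz2⟩, h⟩
  have s1 : V1 ⊆ ball (0:ℂ) 1 := hu ▸ Set.subset_union_left
  have s2 : V2 ⊆ ball (0:ℂ) 1 := hu ▸ Set.subset_union_right
  -- distance functions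
  set a : ℂ → ℝ := fun z => infDist z (V1 \ V2) with ha
  set b : ℂ → ℝ := fun z => infDist z (V2 \ V1) with hb
  have ca : Continuous a := continuous_infDist_pt _
  have cb : Continuous b := continuous_infDist_pt _
  have a0 : ∀ z, 0 ≤ a z := fun z => infDist_nonneg
  have b0 : ∀ z, 0 ≤ b z := fun z => infDist_nonneg
  have apos : ∀ z ∈ V2, 0 < a z := by
    intro z hz
    rcases (a0 z).lt_or_eq with h | h
    · exact h
    · exfalso
      have hc : z ∈ closure (V1 \ V2) := (mem_closure_iff_infDist_zero e1).mpr h.symm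
      have : closure (V1 \ V2) ⊆ V2ᶜ :=
        closure_minimal (fun w hw => hw.2) h2.isClosed_compl
      exact this hc hz
  have bpos : ∀ z ∈ V1, 0 < b z := by
    intro z hz
    rcases (b0 z).lt_or_eq with h | h
    · exact h
    · exfalso
      have hc : z ∈ closure (V2 \ V1) := (mem_closure_iff_infDist_zero e2).mpr h.symm
      have : closure (V2 \ V1) ⊆ V1ᶜ :=
        closure_minimal (fun w hw => hw.2) h1.isClosed_compl
      exact this hc hz
  have abpos : ∀ z ∈ ball (0:ℂ) 1, 0 < a z + b z := by
    intro z hz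
    rw [← hu] at hz
    rcases hz with h | h
    · have := bpos z h; have := a0 z; linarith
    · have := apos z h; have := b0 z; linarith
  set φ : ℂ → ℝ := fun z => a z / (a z + b z) with hφ
  have cφ : ∀ z ∈ ball (0:ℂ) 1, ContinuousAt φ z := by
    intro z hz
    exact ca.continuousAt.div (ca.add cb).continuousAt (abpos z hz).ne'
  have φ0 : ∀ z ∈ V1 \ V2, φ z = 0 := by
    intro z hz
    have : a z = 0 := infDist_zero_of_mem hz
    simp [hφ, this]
  have φ1 : ∀ z ∈ V2 \ V1, φ z = 1 := by
    intro z hz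
    have : b z = 0 := infDist_zero_of_mem hz
    have h' := apos z hz.1
    simp [hφ, this, h'.ne']
  set u : ℂ → ℂ := fun z => if z ∈ B then Complex.exp (2 * Real.pi * I * (φ z : ℝ)) else 1 with hudef
  have cxp : ∀ z ∈ ball (0:ℂ) 1, ContinuousAt (fun z => Complex.exp (2 * Real.pi * I * (φ z : ℝ))) z := by
    intro z hz
    have h := cφ z hz
    have h' : ContinuousAt (fun z => ((φ z : ℝ) : ℂ)) z := Complex.continuous_ofReal.continuousAt.comp h
    exact (continuousAt_const.mul h').cexp
  have cu : ∀ z ∈ ball (0:ℂ) 1, ContinuousAt u z := by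
    intro z hz
    by_cases hzB : z ∈ B
    · have he : (fun z => Complex.exp (2 * Real.pi * I * (φ z : ℝ))) =ᶠ[𝓝 z] u := by
        filter_upwards [oB.mem_nhds hzB] with w hw
        simp [hudef, hw]
      exact (cxp z hz).congr he
    · by_cases hzA : z ∈ A
      · have he : (fun z => (1:ℂ)) =ᶠ[𝓝 z] u := by
          filter_upwards [oA.mem_nhds hzA] with w hw
          simp [hudef, hAB w hw]
        exact continuousAt_const.congr he
      · have hval : Complex.exp (2 * Real.pi * I * (φ z : ℝ)) = 1 := by
          rw [← hu] at hz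
          by_cases hz1 : z ∈ V1
          · have hz2 : z ∉ V2 := by
              intro hz2
              rcases hABu z hz1 hz2 with h | h
              · exact hzA h
              · exact hzB h
            rw [φ0 z ⟨hz1, hz2⟩]; simp
          · have hz2 : z ∈ V2 := by
              rcases hz with h | h
              · exact absurd h hz1
              · exact h
            rw [φ1 z ⟨hz2, hz1⟩]
            simp [Complex.exp_two_pi_mul_I]
        have huz : u z = 1 := by simp [hudef, hzB]
        unfold ContinuousAt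
        rw [huz]
        apply Filter.Tendsto.if'
        · have := (cxp z hz).tendsto
          rwa [hval] at this
        · exact tendsto_const_nhds
  have hcon : Convex ℝ (ball (0:ℂ) 1) := convex_ball 0 1
  have hsc : IsSimplyConnected (ball (0:ℂ) 1) := by
    haveI : ContractibleSpace (ball (0:ℂ) 1) := hcon.contractibleSpace ⟨0, by simp⟩
    show SimplyConnectedSpace (ball (0:ℂ) 1)
    infer_instance
  obtain ⟨L, hLc, hL⟩ := Complex.exists_continuousOn_eqOn_exp_comp hsc isOpen_ball
    (g := u) (fun z hz => (cu z hz).continuousWithinAt) (by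
      rintro ⟨z, hz, hz0⟩
      simp only [hudef] at hz0
      split_ifs at hz0 with h
      · exact Complex.exp_ne_zero _ hz0
      · exact one_ne_zero hz0)
  have hLat : ∀ z ∈ ball (0:ℂ) 1, ContinuousAt (fun z => (L z).im / (2 * Real.pi)) z := by
    intro z hz
    have h := hLc.continuousAt (isOpen_ball.mem_nhds hz)
    exact (Complex.continuous_im.continuousAt.comp h).div_const _
  have hpi : (2 * Real.pi) ≠ 0 := by positivity
  have hLB : ∀ z ∈ ball (0:ℂ) 1, z ∈ B → ∃ n : ℤ, (L z).im / (2 * Real.pi) = φ z + n := by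
    intro z hz hzB
    have h := hL hz
    simp only [Function.comp_apply, hudef, hzB, if_true] at h
    rw [Complex.exp_eq_exp_iff_exists_int] at h
    obtain ⟨n, hn⟩ := h
    refine ⟨n, ?_⟩
    have him := congrArg Complex.im hn
    simp at him
    rw [him]
    field_simp
  have hLN : ∀ z ∈ ball (0:ℂ) 1, z ∉ B → ∃ n : ℤ, (L z).im / (2 * Real.pi) = n := by
    intro z hz hzB
    have h := hL hz
    simp only [Function.comp_apply, hudef, hzB, if_false] at h
    rw [Complex.exp_eq_one_iff] at h
    obtain ⟨n, hn⟩ := h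
    refine ⟨n, ?_⟩
    have him := congrArg Complex.im hn
    simp at him
    rw [him]
    field_simp
  -- g1, g2
  have gen : ∀ (V : Set ℂ) (c : ℤ), IsPreconnected V → V ⊆ ball (0:ℂ) 1 → 
      (∀ z ∈ V, z ∉ A → z ∉ B → φ z = c) → ∀ x ∈ V, ∀ y ∈ V,
      (L x).im / (2 * Real.pi) - (if x ∈ B then φ x - c else 0) = 
        (L y).im / (2 * Real.pi) - (if y ∈ B then φ y - c else 0) := by
    intro V c hV hVs hc x hx y hy
    apply int_const (g := fun z => (L z).im / (2 * Real.pi) - (if z ∈ B then φ z - c else 0)) hV _ _ hx hy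
    · intro z hz
      apply ContinuousAt.continuousWithinAt
      apply (hLat z (hVs hz)).sub
      have hcc : ContinuousAt (fun z => φ z - c) z := (cφ z (hVs hz)).sub continuousAt_const
      by_cases hzB : z ∈ B
      · have he : (fun z => φ z - c) =ᶠ[𝓝 z] (fun z => if z ∈ B then φ z - c else 0) := by
          filter_upwards [oB.mem_nhds hzB] with w hw
          simp [hw]
        exact hcc.congr he
      · by_cases hzA : z ∈ A
        · have he : (fun z => (0:ℝ)) =ᶠ[𝓝 z] (fun z => if z ∈ B then φ z - c else 0) := by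
            filter_upwards [oA.mem_nhds hzA] with w hw
            simp [hAB w hw]
          exact continuousAt_const.congr he
        · have hv : φ z - c = 0 := by rw [hc z hz hzA hzB]; simp
          have huz : (if z ∈ B then φ z - c else 0) = 0 := by simp [hzB]
          unfold ContinuousAt
          simp only [huz]
          apply Filter.Tendsto.if'
          · have := hcc.tendsto
            rwa [hv] at this
          · exact tendsto_const_nhds
    · intro z hz
      by_cases hzB : z ∈ B
      · obtain ⟨n, hn⟩ := hLB z (hVs hz) hzB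
        refine ⟨n + c, ?_⟩
        simp only [hzB, if_true]
        rw [hn]; push_cast; ring
      · obtain ⟨n, hn⟩ := hLN z (hVs hz) hzB
        refine ⟨n, ?_⟩
        simp only [hzB, if_false]
        rw [hn]; ring
  have hpaA : pa ∈ A := ⟨hpa, hpaU⟩
  have hpbB : pb ∈ B := ⟨hpb, hpbW⟩
  have hpanB : pa ∉ B := hAB pa hpaA
  have k1 := gen V1 0 c1 s1 (by
    intro z hz hzA hzB
    have hz2 : z ∉ V2 := by
      intro hz2
      rcases hABu z hz hz2 with h | h
      · exact hzA h
      · exact hzB h
    rw [φ0 z ⟨hz, hz2⟩]; simp) pa hpa.1 pb hpb.1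
  have k2 := gen V2 1 c2 s2 (by
    intro z hz hzA hzB
    have hz1 : z ∉ V1 := by
      intro hz1
      rcases hABu z hz1 hz with h | h
      · exact hzA h
      · exact hzB h
    rw [φ1 z ⟨hz, hz1⟩]; simp) pa hpa.2 pb hpb.2
  simp only [hpanB, hpbB, if_true, if_false] at k1 k2
  push_cast at k1 k2
  linarith

end Pool.Agent.Helper859.Br.U4
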