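import Pool.Agent.Helper859.Br.Defs
set_option linter.all false
open Complex MeasureTheory Set Filter Topology Metric

namespace Pool.Agent.Helper859.Br.U5
open Pool.Agent.Helper859.Br

theorem loc_open {U : Set ℂ} (hU : IsOpen U) {f : ℂ → ℂ} (hf : DifferentiableOn ℂ f U)
    (hi : InjOn f U) {z : ℂ} (hz : z ∈ U) : 𝓝 (f z) ≤ map f (𝓝 z) := by
  rcases (hf.analyticAt (hU.mem_nhds hz)).eventually_constant_or_nhds_le_map_nhds with h | h
  · exfalso
    have h1 : ∀ᶠ w in 𝓝 z, f w = f z ∧ w ∈ U := h.and (hU.mem_nhds hz)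
    have h2 : ∀ᶠ w in 𝓝 z, w = z := by
      filter_upwards [h1] with w hw
      exact hi hw.2 hz hw.1
    have h3 : ∀ᶠ w in 𝓝[≠] z, w = z := h2.filter_mono nhdsWithin_le_nhds
    have h4 : ∀ᶠ w in 𝓝[≠] z, w ≠ z := self_mem_nhdsWithin
    obtain ⟨w, hw1, hw2⟩ := (h3.and h4).exists
    exact hw2 hw1
  · exact h

theorem inv_facts' {U : Set ℂ} (hU : IsOpen U) {f : ℂ → ℂ}
    (hf : DifferentiableOn ℂ f U) (hi : InjOn f U) :
    IsOpen (f '' U) ∧ ∃ g : ℂ → ℂ, DifferentiableOn ℂ g (f '' U) ∧ (∀ z ∈ U, g (f z) = z) := by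
  have hleft : ∀ z ∈ U, Function.invFunOn f U (f z) = z := fun z hz => hi.leftInvOn_invFunOn hz
  have hopen : ∀ z ∈ U, ∀ N ∈ 𝓝 z, f '' (N ∩ U) ∈ 𝓝 (f z) := by
    intro z hz N hN
    exact loc_open hU hf hi hz (Filter.image_mem_map (Filter.inter_mem hN (hU.mem_nhds hz)))
  have hVo : IsOpen (f '' U) := by
    rw [isOpen_iff_mem_nhds]
    rintro _ ⟨z, hz, rfl⟩
    have := hopen z hz U (hU.mem_nhds hz)
    rwa [inter_self] at this
  have hcont : ∀ z ∈ U, ContinuousAt (Function.invFunOn f U) (f z) := by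
    intro z hz
    unfold ContinuousAt
    rw [hleft z hz]
    intro N hN
    rw [Filter.mem_map]
    filter_upwards [hopen z hz N hN]
    rintro _ ⟨x, ⟨hx1, hx2⟩, rfl⟩
    show Function.invFunOn f U (f x) ∈ N
    rw [hleft x hx2]
    exact hx1
  refine ⟨hVo, Function.invFunOn f U, ?_, hleft⟩
  rintro _ ⟨z, hz, rfl⟩
  apply DifferentiableAt.differentiableWithinAt
  apply AnalyticAt.differentiableAt (𝕜 := ℂ)
  refine Complex.analyticAt_of_differentiable_on_punctured_nhds_of_continuousAt ?_ (hcont z hz)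
  have hf' : DifferentiableOn ℂ (deriv f) U := hf.deriv hU
  rcases (hf'.analyticAt (hU.mem_nhds hz)).eventually_eq_zero_or_eventually_ne_zero with h | h
  · exfalso
    rw [Metric.eventually_nhds_iff_ball] at h
    obtain ⟨ε, hε, hev⟩ := h
    obtain ⟨R, hR, hRU⟩ := Metric.isOpen_iff.1 hU z hz
    set δ := min ε R with hδ
    have hδ0 : 0 < δ := lt_min hε hR
    have hbU : ball z δ ⊆ U := (ball_subset_ball (min_le_right _ _)).trans hRU
    have hconst : ∀ w ∈ ball z δ, f w = f z := by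
      intro w hw
      have hconv : Convex ℝ (ball z δ) := convex_ball _ _
      have := hconv.norm_image_sub_le_of_norm_deriv_le (𝕜 := ℂ) (f := f) (C := 0) (x := z) (y := w)
        (fun x hx => hf.differentiableAt (hU.mem_nhds (hbU hx)))
        (fun x hx => by rw [hev x (ball_subset_ball (min_le_left _ _) hx)]; simp)
        (mem_ball_self hδ0) hw
      rw [zero_mul] at this
      have := norm_le_zero_iff.1 this
      linear_combination this
    have hw : z + ((δ / 2 : ℝ) : ℂ) ∈ ball z δ := by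
      rw [mem_ball, dist_eq_norm, add_sub_cancel_left, Complex.norm_real,
        Real.norm_of_nonneg (by positivity)]
      linarith
    have h1 := hi (hbU hw) (hbU (mem_ball_self hδ0)) (hconst _ hw)
    have h2 : ((δ / 2 : ℝ) : ℂ) = 0 := by linear_combination h1
    rw [Complex.ofReal_eq_zero] at h2
    linarith
  · rw [eventually_nhdsWithin_iff] at h
    have h0 : Tendsto (Function.invFunOn f U) (𝓝 (f z)) (𝓝 z) := by
      have := hcont z hz
      unfold ContinuousAt at this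
      rwa [hleft z hz] at this
    have h1 := h0.eventually h
    have h2 : ∀ᶠ t in 𝓝[≠] (f z), Function.invFunOn f U t ∈ ({z}ᶜ : Set ℂ) →
        deriv f (Function.invFunOn f U t) ≠ 0 := h1.filter_mono nhdsWithin_le_nhds
    have h3' : ∀ᶠ t in 𝓝 (f z), t ∈ f '' U := hVo.mem_nhds ⟨z, hz, rfl⟩
    have h3 : ∀ᶠ t in 𝓝[≠] (f z), t ∈ f '' U := h3'.filter_mono nhdsWithin_le_nhds
    have h4 : ∀ᶠ t in 𝓝[≠] (f z), t ≠ f z := self_mem_nhdsWithin
    filter_upwards [h2, h3, h4] with t ht1 ht3 ht2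
    obtain ⟨x, hx, rfl⟩ := ht3
    rw [hleft x hx] at ht1
    have hne : x ≠ z := fun e => ht2 (by rw [e])
    have hs : HasStrictDerivAt f (deriv f x) x :=
      (hf.analyticAt (hU.mem_nhds hx)).hasStrictDerivAt
    have h5 : HasStrictDerivAt (Function.invFunOn f U) (deriv f x)⁻¹ (f x) := by
      apply hs.to_local_left_inverse (ht1 hne)
      filter_upwards [hU.mem_nhds hx] with y hy
      exact hleft y hy
    exact h5.hasDerivAt.differentiableAt

theorem injP {F P Q k : ℂ → ℂ} {C : ℝ} (h : Tri F C P Q k) (iF : InjOn F (ball 0 1)) :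
    InjOn P (ball 0 1) := by
  intro x hx y hy hxy
  apply iF hx hy
  rw [← h.kP x hx, ← h.kP y hy, hxy]

theorem injQ {F P Q k : ℂ → ℂ} {C : ℝ} (h : Tri F C P Q k) : InjOn Q (ball 0 1) := by
  intro x hx y hy hxy
  rw [← h.kQ x hx, ← h.kQ y hy, hxy]

theorem near0' {F P Q k : ℂ → ℂ} {C : ℝ} (h : Tri F C P Q k) :
    ∀ᶠ z in 𝓝 (0:ℂ), P z = Q (F z) := by
  have h0 : (0:ℂ) ∈ ball (0:ℂ) 1 := mem_ball_self one_pos
  obtain ⟨hV2, -⟩ := inv_facts' isOpen_ball h.dQ (injQ h)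
  have hPc : Tendsto P (𝓝 0) (𝓝 0) := by
    have := (h.dP.differentiableAt (isOpen_ball.mem_nhds h0)).continuousAt
    unfold ContinuousAt at this
    rwa [h.P0] at this
  have h1 : Q '' ball 0 1 ∈ 𝓝 (0:ℂ) := hV2.mem_nhds ⟨0, h0, h.Q0⟩
  filter_upwards [hPc.eventually h1, isOpen_ball.mem_nhds h0] with z hz1 hz2
  obtain ⟨w, hw, hwe⟩ := hz1
  have h2 := h.kP z hz2
  rw [← hwe, h.kQ w hw] at h2
  rw [← h2, hwe]

/-- z-side relation -/
theorem zside {F G P Q k : ℂ → ℂ} {C : ℝ} (h : Tri F C P Q k) (iF : InjOn F (ball 0 1))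
    (dF : DifferentiableOn ℂ F (ball 0 1)) (dG : DifferentiableOn ℂ G (ball 0 1)) (F0 : F 0 = 0)
    (hGF : ∀ᶠ z in 𝓝 (0:ℂ), G (F z) = z)
    (hconn : IsPreconnected (P '' ball 0 1 ∩ Q '' ball 0 1)) :
    ∀ z ∈ ball (0:ℂ) 1, ∀ w ∈ ball (0:ℂ) 1, P z = Q w → z = G w := by
  intro z hz w hw hzw
  have h0 : (0:ℂ) ∈ ball (0:ℂ) 1 := mem_ball_self one_pos
  obtain ⟨hV1, p, hp, hpP⟩ := inv_facts' isOpen_ball h.dP (injP h iF)
  obtain ⟨hV2, -⟩ := inv_facts' isOpen_ball h.dQ (injQ h)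
  have hW : IsOpen (P '' ball 0 1 ∩ Q '' ball 0 1) := hV1.inter hV2
  have h0W : (0:ℂ) ∈ P '' ball 0 1 ∩ Q '' ball 0 1 := ⟨⟨0, h0, h.P0⟩, ⟨0, h0, h.Q0⟩⟩
  have hp0 : p 0 = 0 := by
    have := hpP 0 h0
    rwa [h.P0] at this
  have a1 : AnalyticOnNhd ℂ p (P '' ball 0 1 ∩ Q '' ball 0 1) :=
    (hp.mono inter_subset_left).analyticOnNhd hW
  have hkm : MapsTo k (P '' ball 0 1 ∩ Q '' ball 0 1) (ball 0 1) := by
    rintro t ⟨-, ⟨x, hx, rfl⟩⟩
    rw [h.kQ x hx]
    exact hx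
  have hsub : P '' ball 0 1 ∩ Q '' ball 0 1 ⊆ ball 0 1 := by
    rintro t ⟨-, ⟨x, hx, rfl⟩⟩
    exact h.mQ hx
  have a2 : AnalyticOnNhd ℂ (fun t => G (k t)) (P '' ball 0 1 ∩ Q '' ball 0 1) :=
    (dG.comp (h.dk.mono hsub) hkm).analyticOnNhd hW
  have hpc : Tendsto p (𝓝 0) (𝓝 0) := by
    have := (hp.differentiableAt (hV1.mem_nhds h0W.1)).continuousAt
    unfold ContinuousAt at this
    rwa [hp0] at this
  have hev : p =ᶠ[𝓝 0] (fun t => G (k t)) := by
    filter_upwards [hpc.eventually hGF, hV1.mem_nhds h0W.1] with t ht1 ht2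
    obtain ⟨x, hx, rfl⟩ := ht2
    rw [hpP x hx] at ht1 ⊢
    rw [h.kP x hx, ht1]
  have heq := a1.eqOn_of_preconnected_of_eventuallyEq a2 hconn h0W hev
  have h1 := heq (⟨⟨z, hz, rfl⟩, ⟨w, hw, hzw.symm⟩⟩ : P z ∈ P '' ball 0 1 ∩ Q '' ball 0 1)
  beta_reduce at h1
  rw [hpP z hz, hzw, h.kQ w hw] at h1
  exact h1

/-- P = Q o F near 0 -/
theorem near0 {F P Q k : ℂ → ℂ} {C : ℝ} (h : Tri F C P Q k)
    (dF : DifferentiableOn ℂ F (ball 0 1)) (F0 : F 0 = 0) : ∀ᶠ z in 𝓝 (0:ℂ), P z = Q (F z) := by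
  exact near0' h

/-- oddness -/
theorem oddPQ {F G P Q k : ℂ → ℂ} {C : ℝ} (h : Tri F C P Q k) (iF : InjOn F (ball 0 1))
    (dF : DifferentiableOn ℂ F (ball 0 1)) (F0 : F 0 = 0)
    (oF : ∀ z ∈ ball (0:ℂ) 1, F (-z) = -F z)
    (hcov : ball (0:ℂ) 1 ⊆ P '' ball 0 1 ∪ Q '' ball 0 1)
    (hconn : IsPreconnected (P '' ball 0 1 ∩ Q '' ball 0 1)) :
    (∀ z ∈ ball (0:ℂ) 1, P (-z) = -P z) ∧ (∀ z ∈ ball (0:ℂ) 1, Q (-z) = -Q z) := by
  have h0 : (0:ℂ) ∈ ball (0:ℂ) 1 := mem_ball_self one_pos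
  have hneg : ∀ z ∈ ball (0:ℂ) 1, -z ∈ ball (0:ℂ) 1 := by
    intro z hz
    rw [mem_ball_zero_iff] at hz ⊢
    rwa [norm_neg]
  obtain ⟨hV1, p, hp, hpP⟩ := inv_facts' isOpen_ball h.dP (injP h iF)
  obtain ⟨hV2, -⟩ := inv_facts' isOpen_ball h.dQ (injQ h)
  have hW : IsOpen (P '' ball 0 1 ∩ Q '' ball 0 1) := hV1.inter hV2
  have h0W : (0:ℂ) ∈ P '' ball 0 1 ∩ Q '' ball 0 1 := ⟨⟨0, h0, h.P0⟩, ⟨0, h0, h.Q0⟩⟩
  have hp0 : p 0 = 0 := by
    have := hpP 0 h0
    rwa [h.P0] at this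
  have hk0 : k 0 = 0 := by
    have := h.kQ 0 h0
    rwa [h.Q0] at this
  have hpm : MapsTo p (P '' ball 0 1) (ball 0 1) := by
    rintro t ⟨x, hx, rfl⟩
    rw [hpP x hx]
    exact hx
  have hkm : MapsTo k (Q '' ball 0 1) (ball 0 1) := by
    rintro t ⟨x, hx, rfl⟩
    rw [h.kQ x hx]
    exact hx
  have hsubQ : Q '' ball 0 1 ⊆ ball 0 1 := by
    rintro t ⟨x, hx, rfl⟩
    exact h.mQ hx
  have dA : DifferentiableOn ℂ (fun t => -P (-p t)) (P '' ball 0 1) :=
    (h.dP.comp hp.neg (fun t ht => hneg _ (hpm ht))).neg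
  have dB : DifferentiableOn ℂ (fun t => -Q (-k t)) (Q '' ball 0 1) :=
    (h.dQ.comp (h.dk.mono hsubQ).neg (fun t ht => hneg _ (hkm ht))).neg
  have hpc : Tendsto p (𝓝 0) (𝓝 0) := by
    have := (hp.differentiableAt (hV1.mem_nhds h0W.1)).continuousAt
    unfold ContinuousAt at this
    rwa [hp0] at this
  have hn0 := near0' h
  have hn0' : ∀ᶠ z in 𝓝 (0:ℂ), P (-z) = Q (F (-z)) := by
    have hc : Tendsto (fun z : ℂ => -z) (𝓝 0) (𝓝 0) := by
      have := (continuous_neg (G := ℂ)).tendsto 0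
      rwa [neg_zero] at this
    exact hc.eventually hn0
  have hev : (fun t => -P (-p t)) =ᶠ[𝓝 0] (fun t => -Q (-k t)) := by
    filter_upwards [hpc.eventually hn0', hV1.mem_nhds h0W.1] with t ht1 ht2
    obtain ⟨x, hx, rfl⟩ := ht2
    rw [hpP x hx] at ht1 ⊢
    rw [h.kP x hx, ht1, oF x hx]
  have hAB := ((dA.mono inter_subset_left).analyticOnNhd hW).eqOn_of_preconnected_of_eventuallyEq
    ((dB.mono inter_subset_right).analyticOnNhd hW) hconn h0W hev
  classical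
  set τ : ℂ → ℂ := fun t => if t ∈ P '' ball 0 1 then -P (-p t) else -Q (-k t) with hτ
  have hτA : ∀ t ∈ P '' ball 0 1, τ t = -P (-p t) := fun t ht => by
    simp only [hτ]
    rw [if_pos ht]
  have hτB : ∀ t ∈ Q '' ball 0 1, τ t = -Q (-k t) := by
    intro t ht
    by_cases ht1 : t ∈ P '' ball 0 1
    · rw [hτA t ht1]
      exact hAB ⟨ht1, ht⟩
    · simp only [hτ]
      rw [if_neg ht1]
  have hτd : DifferentiableOn ℂ τ (ball 0 1) := by
    intro t ht
    apply DifferentiableAt.differentiableWithinAt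
    rcases hcov ht with ht1 | ht1
    · have h1 := dA.differentiableAt (hV1.mem_nhds ht1)
      refine h1.congr_of_eventuallyEq ?_
      filter_upwards [hV1.mem_nhds ht1] with s hs
      exact hτA s hs
    · have h1 := dB.differentiableAt (hV2.mem_nhds ht1)
      refine h1.congr_of_eventuallyEq ?_
      filter_upwards [hV2.mem_nhds ht1] with s hs
      exact hτB s hs
  have hτm : MapsTo τ (ball 0 1) (ball 0 1) := by
    intro t ht
    rcases hcov ht with ht1 | ht1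
    · rw [hτA t ht1]
      exact hneg _ (h.mP (hneg _ (hpm ht1)))
    · rw [hτB t ht1]
      exact hneg _ (h.mQ (hneg _ (hkm ht1)))
  have hτ0 : τ 0 = 0 := by
    rw [hτA 0 h0W.1, hp0, neg_zero, h.P0, neg_zero]
  have hτ' : deriv τ 0 = 1 := by
    have e1 : τ =ᶠ[𝓝 0] (fun t => -Q (-k t)) := by
      filter_upwards [hV2.mem_nhds h0W.2] with s hs
      exact hτB s hs
    rw [e1.deriv_eq]
    have dQ0 : HasDerivAt Q (deriv Q 0) 0 := (h.dQ.differentiableAt (isOpen_ball.mem_nhds h0)).hasDerivAt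
    have dk0 : HasDerivAt k (deriv k 0) 0 := (h.dk.differentiableAt (isOpen_ball.mem_nhds h0)).hasDerivAt
    have c1 : HasDerivAt (fun w => k (Q w)) (deriv k 0 * deriv Q 0) 0 := by
      have dk0' : HasDerivAt k (deriv k 0) (Q 0) := by rw [h.Q0]; exact dk0
      exact dk0'.comp 0 dQ0
    have c2 : HasDerivAt (fun w => k (Q w)) 1 0 := by
      refine (hasDerivAt_id (0:ℂ)).congr_of_eventuallyEq ?_
      filter_upwards [isOpen_ball.mem_nhds h0] with s hs
      exact h.kQ s hs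
    have c3 := c1.unique c2
    have c4 : HasDerivAt (fun t => -Q (-k t)) (-(deriv Q 0 * -deriv k 0)) 0 := by
      have dQ0' : HasDerivAt Q (deriv Q 0) (-k 0) := by rw [hk0, neg_zero]; exact dQ0
      exact (dQ0'.comp 0 dk0.neg).neg
    rw [c4.deriv, ← c3]
    ring
  have hid : ∀ t ∈ ball (0:ℂ) 1, τ t = t := by
    have hm : MapsTo τ (ball 0 1) (ball (τ 0) 1) := by rw [hτ0]; exact hτm
    have h1 := Complex.affine_of_mapsTo_ball_of_norm_dslope_eq_div hτd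
      (hm.mono_right ball_subset_closedBall) h0
      (by rw [dslope_same, hτ']; norm_num)
    intro t ht
    have h2 := h1 ht
    simp only [dslope_same, hτ', hτ0, sub_zero, smul_eq_mul, mul_one, zero_add] at h2
    exact h2
  constructor
  · intro z hz
    have h1 := hid (P z) (h.mP hz)
    rw [hτA _ ⟨z, hz, rfl⟩, hpP z hz] at h1
    rw [← h1, neg_neg]
  · intro w hw
    have h1 := hid (Q w) (h.mQ hw)
    rw [hτB _ ⟨w, hw, rfl⟩, h.kQ w hw] at h1
    rw [← h1, neg_neg]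

end Pool.Agent.Helper859.Br.U5
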