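import Pool.Agent.Helper859.Br.Defs
set_option linter.all false
open Complex MeasureTheory Set Filter Topology Metric

namespace Pool.Agent.Helper859.Br.U6
open Pool.Agent.Helper859.Br

/-- final uniformisation statement, all ingredients given as hypotheses -/
theorem unif
    (tri_nonempty : ∀ {F : ℂ → ℂ}, DifferentiableOn ℂ F (ball 0 1) → F 0 = 0 → ∀ {C : ℝ}, 1 ≤ C →
      (∀ z ∈ ball (0:ℂ) 1, ‖F z‖ < C) → ∃ P Q k : ℂ → ℂ, Tri F C P Q k)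
    (tri_deriv : ∀ {F : ℂ → ℂ} {C : ℝ} {P Q k : ℂ → ℂ}, Tri F C P Q k → ‖deriv Q 0‖ ≤ 1 ∧ deriv Q 0 ≠ 0)
    (tri_max : ∀ {F : ℂ → ℂ}, DifferentiableOn ℂ F (ball 0 1) → ∀ {C : ℝ}, 1 ≤ C →
      (∃ P Q k : ℂ → ℂ, Tri F C P Q k) →
      (∀ P Q k : ℂ → ℂ, Tri F C P Q k → ‖deriv Q 0‖ ≤ 1) →
      ∃ P Q k : ℂ → ℂ, Tri F C P Q k ∧ ∀ P' Q' k' : ℂ → ℂ, Tri F C P' Q' k' → ‖deriv Q' 0‖ ≤ ‖deriv Q 0‖)
    (tri_step : ∀ {F : ℂ → ℂ} {C : ℝ} {P Q k : ℂ → ℂ}, Tri F C P Q k → deriv Q 0 ≠ 0 →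
      ∀ c : ℂ, c ∈ ball (0:ℂ) 1 → c ∉ P '' ball 0 1 → c ∉ Q '' ball 0 1 →
      ∃ P' Q' k' : ℂ → ℂ, Tri F C P' Q' k' ∧ ‖deriv Q 0‖ < ‖deriv Q' 0‖)
    (inter_conn : ∀ (V1 V2 : Set ℂ), IsOpen V1 → IsOpen V2 → IsPreconnected V1 → IsPreconnected V2 →
      V1 ∪ V2 = ball (0:ℂ) 1 → IsPreconnected (V1 ∩ V2))
    (zside : ∀ {F G P Q k : ℂ → ℂ} {C : ℝ}, Tri F C P Q k → InjOn F (ball 0 1) →
      DifferentiableOn ℂ F (ball 0 1) → DifferentiableOn ℂ G (ball 0 1) → F 0 = 0 →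
      (∀ᶠ z in 𝓝 (0:ℂ), G (F z) = z) → IsPreconnected (P '' ball 0 1 ∩ Q '' ball 0 1) →
      ∀ z ∈ ball (0:ℂ) 1, ∀ w ∈ ball (0:ℂ) 1, P z = Q w → z = G w)
    (near0 : ∀ {F P Q k : ℂ → ℂ} {C : ℝ}, Tri F C P Q k →
      DifferentiableOn ℂ F (ball 0 1) → F 0 = 0 → ∀ᶠ z in 𝓝 (0:ℂ), P z = Q (F z))
    (oddPQ : ∀ {F G P Q k : ℂ → ℂ} {C : ℝ}, Tri F C P Q k → InjOn F (ball 0 1) →
      DifferentiableOn ℂ F (ball 0 1) → F 0 = 0 → (∀ z ∈ ball (0:ℂ) 1, F (-z) = -F z) →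
      (ball (0:ℂ) 1 ⊆ P '' ball 0 1 ∪ Q '' ball 0 1) →
      IsPreconnected (P '' ball 0 1 ∩ Q '' ball 0 1) →
      (∀ z ∈ ball (0:ℂ) 1, P (-z) = -P z) ∧ (∀ z ∈ ball (0:ℂ) 1, Q (-z) = -Q z))
    {F G : ℂ → ℂ} (dF : DifferentiableOn ℂ F (ball 0 1)) (dG : DifferentiableOn ℂ G (ball 0 1))
    (iF : InjOn F (ball 0 1)) (iG : InjOn G (ball 0 1))
    (oF : ∀ z ∈ ball (0:ℂ) 1, F (-z) = -F z) (oG : ∀ z ∈ ball (0:ℂ) 1, G (-z) = -G z)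
    (bF : ∃ C : ℝ, ∀ z ∈ ball (0:ℂ) 1, ‖F z‖ ≤ C) (bG : ∃ C : ℝ, ∀ z ∈ ball (0:ℂ) 1, ‖G z‖ ≤ C)
    (hGF : ∀ᶠ z in 𝓝 (0:ℂ), G (F z) = z) :
    ∃ P Q : ℂ → ℂ, Cfg F P Q ∧ Cfg G Q P ∧ (∀ᶠ z in 𝓝 (0:ℂ), P z = Q (F z)) ∧
      (∃ q : ℝ, 0 < q ∧ deriv Q 0 = (q : ℂ)) := by
  have h0 : (0:ℂ) ∈ ball (0:ℂ) 1 := by simp
  have F0 : F 0 = 0 := by
    have := oF 0 h0
    rw [neg_zero] at this
    exact self_eq_neg.1 this
  obtain ⟨C0, hC0⟩ := bF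
  have hC1 : (1:ℝ) ≤ |C0| + 1 := by have := abs_nonneg C0; linarith
  have hFC : ∀ z ∈ ball (0:ℂ) 1, ‖F z‖ < |C0| + 1 := fun z hz => by
    have := hC0 z hz
    have := le_abs_self C0
    linarith
  obtain ⟨P, Q, k, hT, hmax⟩ := tri_max dF hC1 (tri_nonempty dF F0 hC1 hFC)
    (fun P Q k h => (tri_deriv h).1)
  have hd0 : deriv Q 0 ≠ 0 := (tri_deriv hT).2
  have hcov : ball (0:ℂ) 1 ⊆ P '' ball 0 1 ∪ Q '' ball 0 1 := by
    intro c hc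
    by_contra hcn
    rw [Set.mem_union, not_or] at hcn
    obtain ⟨P', Q', k', hT', hlt⟩ := tri_step hT hd0 c hc hcn.1 hcn.2
    exact absurd (hmax P' Q' k' hT') (not_le.2 hlt)
  have iP : InjOn P (ball 0 1) := by
    intro z hz w hw h
    apply iF hz hw
    rw [← hT.kP z hz, ← hT.kP w hw, h]
  have iQ : InjOn Q (ball 0 1) := by
    intro z hz w hw h
    rw [← hT.kQ z hz, ← hT.kQ w hw, h]
  have hpre : IsPreconnected (ball (0:ℂ) 1) := (convex_ball _ _).isPreconnected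
  have hopen : ∀ f : ℂ → ℂ, DifferentiableOn ℂ f (ball 0 1) → InjOn f (ball 0 1) →
      IsOpen (f '' ball 0 1) := by
    intro f hf hi
    have hA : AnalyticOnNhd ℂ f (ball 0 1) := hf.analyticOnNhd isOpen_ball
    rcases hA.is_constant_or_isOpen hpre with ⟨w, hw⟩ | h
    · exfalso
      have h2 : ((1/2 : ℝ) : ℂ) ∈ ball (0:ℂ) 1 := by
        rw [mem_ball_zero_iff, Complex.norm_real]
        norm_num
      have h3 := hi h0 h2 ((hw 0 h0).trans (hw _ h2).symm)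
      have h4 : (0:ℝ) = 1/2 := by exact_mod_cast h3
      norm_num at h4
    · exact h _ subset_rfl isOpen_ball
  have hun : P '' ball 0 1 ∪ Q '' ball 0 1 = ball (0:ℂ) 1 := by
    apply Set.Subset.antisymm _ hcov
    apply Set.union_subset
    · exact hT.mP.image_subset
    · exact hT.mQ.image_subset
  have hconn : IsPreconnected (P '' ball 0 1 ∩ Q '' ball 0 1) :=
    inter_conn _ _ (hopen P hT.dP iP) (hopen Q hT.dQ iQ) (hpre.image _ hT.dP.continuousOn)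
      (hpre.image _ hT.dQ.continuousOn) hun
  obtain ⟨oP, oQ⟩ := oddPQ (G := G) hT iF dF F0 oF hcov hconn
  have zs := zside (G := G) hT iF dF dG F0 hGF hconn
  have wr : ∀ z ∈ ball (0:ℂ) 1, ∀ w ∈ ball (0:ℂ) 1, P z = Q w → w = F z := by
    intro z hz w hw h
    rw [← hT.kP z hz, h, hT.kQ w hw]
  obtain ⟨u, hu1, hu2⟩ : ∃ u : ℂ, ‖u‖ = 1 ∧ u * deriv Q 0 = ((‖deriv Q 0‖ : ℝ) : ℂ) := by
    have hn : (‖deriv Q 0‖ : ℝ) ≠ 0 := norm_ne_zero_iff.2 hd0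
    have hnc : ((‖deriv Q 0‖ : ℝ) : ℂ) ≠ 0 := by exact_mod_cast hn
    refine ⟨(starRingEnd ℂ) (deriv Q 0) / ((‖deriv Q 0‖ : ℝ) : ℂ), ?_, ?_⟩
    · rw [norm_div, RCLike.norm_conj, Complex.norm_real, norm_norm, div_self hn]
    · rw [div_mul_eq_mul_div, mul_comm, Complex.mul_conj, Complex.normSq_eq_norm_sq,
        div_eq_iff hnc]
      push_cast
      ring
  have hu0 : u ≠ 0 := by
    intro h
    rw [h, norm_zero] at hu1
    exact zero_ne_one hu1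
  have hball : ∀ t : ℂ, t ∈ ball (0:ℂ) 1 → u * t ∈ ball (0:ℂ) 1 := by
    intro t ht
    rw [mem_ball_zero_iff] at ht ⊢
    rwa [norm_mul, hu1, one_mul]
  have hball' : ∀ t : ℂ, t ∈ ball (0:ℂ) 1 → u⁻¹ * t ∈ ball (0:ℂ) 1 := by
    intro t ht
    rw [mem_ball_zero_iff] at ht ⊢
    rwa [norm_mul, norm_inv, hu1, inv_one, one_mul]
  have hcov1 : ball (0:ℂ) 1 ⊆ (fun z => u * P z) '' ball 0 1 ∪ (fun z => u * Q z) '' ball 0 1 := by
    intro t ht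
    rcases hcov (hball' t ht) with ⟨z, hz, hzt⟩ | ⟨z, hz, hzt⟩
    · exact Or.inl ⟨z, hz, by show u * P z = t; rw [hzt, mul_inv_cancel_left₀ hu0]⟩
    · exact Or.inr ⟨z, hz, by show u * Q z = t; rw [hzt, mul_inv_cancel_left₀ hu0]⟩
  refine ⟨fun z => u * P z, fun z => u * Q z, ?_, ?_, ?_, ?_⟩
  · refine ⟨dF, hT.dP.const_mul u, hT.dQ.const_mul u, iF, ?_, ?_, oF, ?_, ?_, ⟨C0, hC0⟩, ?_, ?_,
      hcov1, ?_⟩
    · intro z hz w hw h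
      exact iP hz hw (mul_left_cancel₀ hu0 h)
    · intro z hz w hw h
      exact iQ hz hw (mul_left_cancel₀ hu0 h)
    · intro z hz
      show u * P (-z) = -(u * P z)
      rw [oP z hz, mul_neg]
    · intro z hz
      show u * Q (-z) = -(u * Q z)
      rw [oQ z hz, mul_neg]
    · intro z hz
      exact hball _ (hT.mP hz)
    · intro z hz
      exact hball _ (hT.mQ hz)
    · intro z hz w hw h
      exact wr z hz w hw (mul_left_cancel₀ hu0 h)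
  · refine ⟨dG, hT.dQ.const_mul u, hT.dP.const_mul u, iG, ?_, ?_, oG, ?_, ?_, bG, ?_, ?_,
      by rw [Set.union_comm]; exact hcov1, ?_⟩
    · intro z hz w hw h
      exact iQ hz hw (mul_left_cancel₀ hu0 h)
    · intro z hz w hw h
      exact iP hz hw (mul_left_cancel₀ hu0 h)
    · intro z hz
      show u * Q (-z) = -(u * Q z)
      rw [oQ z hz, mul_neg]
    · intro z hz
      show u * P (-z) = -(u * P z)
      rw [oP z hz, mul_neg]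
    · intro z hz
      exact hball _ (hT.mQ hz)
    · intro z hz
      exact hball _ (hT.mP hz)
    · intro z hz w hw h
      exact zs w hw z hz (mul_left_cancel₀ hu0 h).symm
  · filter_upwards [near0 hT dF F0] with z hz
    rw [hz]
  · refine ⟨‖deriv Q 0‖, norm_pos_iff.2 hd0, ?_⟩
    rw [← hu2]
    exact deriv_const_mul u (hT.dQ.differentiableAt (ball_mem_nhds _ one_pos))

end Pool.Agent.Helper859.Br.U6
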