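import Pool.Agent.Helper859.Br.Defs
set_option linter.all false
open Complex MeasureTheory Set Filter Topology Metric

namespace Pool.Agent.Helper859.Br.Z1
open Pool.Agent.Helper859.Br

theorem sqrtBall {h : ℂ → ℂ} (dh : DifferentiableOn ℂ h (ball 0 1)) (h0 : h 0 = 1)
    (hne : ∀ z ∈ ball (0:ℂ) 1, h z ≠ 0) :
    ∃ s : ℂ → ℂ, DifferentiableOn ℂ s (ball 0 1) ∧ s 0 = 1 ∧ ∀ z ∈ ball (0:ℂ) 1, s z ^ 2 = h z := by
  have hd : DifferentiableOn ℂ (fun z => deriv h z / h z) (ball 0 1) :=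
    (dh.deriv isOpen_ball).div dh hne
  obtain ⟨L, hL⟩ := (hd.isExactOn_ball).with_val_at 0 0
  have hL0 : L 0 = 0 := hL.1
  have hLd : ∀ z ∈ ball (0:ℂ) 1, HasDerivAt L (deriv h z / h z) z := hL.2
  have h0m : (0:ℂ) ∈ ball (0:ℂ) 1 := by simp
  have hdh : ∀ z ∈ ball (0:ℂ) 1, HasDerivAt h (deriv h z) z := fun z hz =>
    ((dh z hz).differentiableAt (isOpen_ball.mem_nhds hz)).hasDerivAt
  have hc : ∀ z ∈ ball (0:ℂ) 1, HasDerivAt (fun z => h z * exp (-L z)) 0 z := by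
    intro z hz
    have h1 := (hdh z hz).mul ((hLd z hz).neg.cexp)
    refine h1.congr_deriv ?_
    have := hne z hz
    field_simp
    simp
  have hconst : ∀ z ∈ ball (0:ℂ) 1, h z * exp (-L z) = 1 := by
    intro z hz
    have h2 : (fun z => h z * exp (-L z)) z = (fun z => h z * exp (-L z)) 0 := by
      apply isOpen_ball.is_const_of_deriv_eq_zero (convex_ball (0:ℂ) 1).isPreconnected
        (f := fun z => h z * exp (-L z))
        (fun w hw => (hc w hw).differentiableAt.differentiableWithinAt)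
        (fun w hw => (hc w hw).deriv) hz h0m
    simp only [] at h2
    rw [h2, h0, hL0]
    simp
  refine ⟨fun z => exp (L z / 2), ?_, by simp [hL0], ?_⟩
  · intro z hz
    exact (((hLd z hz).differentiableAt.div_const 2).cexp).differentiableWithinAt
  · intro z hz
    have h3 := hconst z hz
    rw [Complex.exp_neg] at h3
    have h4 : exp (L z) ≠ 0 := Complex.exp_ne_zero _
    have h5 : h z = exp (L z) := by
      field_simp at h3
      exact h3
    rw [h5, ← Complex.exp_nat_mul]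
    congr 1
    push_cast
    ring

theorem sq_mem_ball {z : ℂ} (hz : z ∈ ball (0:ℂ) 1) : z ^ 2 ∈ ball (0:ℂ) 1 := by
  simp only [mem_ball, dist_zero_right] at hz ⊢
  rw [norm_pow]
  exact pow_lt_one₀ (norm_nonneg _) hz (by norm_num)

theorem neg_mem_ball0 {z : ℂ} (hz : z ∈ ball (0:ℂ) 1) : -z ∈ ball (0:ℂ) 1 := by
  simp only [mem_ball, dist_zero_right] at hz ⊢
  rwa [norm_neg]

/-- square-root transform of a univalent function -/
theorem oddT {f : ℂ → ℂ} (df : DifferentiableOn ℂ f (ball 0 1)) (jf : InjOn f (ball 0 1)) (f0 : f 0 = 0)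
    (f1 : deriv f 0 = 1) (bf : ∃ C : ℝ, ∀ z ∈ ball (0:ℂ) 1, ‖f z‖ ≤ C) :
    ∃ F : ℂ → ℂ, DifferentiableOn ℂ F (ball 0 1) ∧ InjOn F (ball 0 1) ∧
      (∀ z ∈ ball (0:ℂ) 1, F (-z) = -F z) ∧ (∃ C : ℝ, ∀ z ∈ ball (0:ℂ) 1, ‖F z‖ ≤ C) ∧
      (∀ z ∈ ball (0:ℂ) 1, F z ^ 2 = f (z ^ 2)) ∧ deriv F 0 = 1 := by
  have h0m : (0:ℂ) ∈ ball (0:ℂ) 1 := by simp
  have dh : DifferentiableOn ℂ (dslope f 0) (ball 0 1) :=
    (Complex.differentiableOn_dslope (isOpen_ball.mem_nhds h0m)).mpr df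
  have hf : ∀ z, f z = z * dslope f 0 z := by
    intro z
    have := sub_smul_dslope f 0 z
    rw [f0] at this
    simpa using this.symm
  have hh0 : dslope f 0 0 = 1 := by rw [dslope_same, f1]
  have hne : ∀ z ∈ ball (0:ℂ) 1, dslope f 0 z ≠ 0 := by
    intro z hz h
    by_cases hz0 : z = 0
    · rw [hz0, hh0] at h
      exact one_ne_zero h
    · apply hz0
      apply jf hz h0m
      rw [f0, hf z, h, mul_zero]
  obtain ⟨s, ds, s0, hs⟩ := sqrtBall dh hh0 hne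
  have hsq : ∀ z ∈ ball (0:ℂ) 1, (z * s (z ^ 2)) ^ 2 = f (z ^ 2) := by
    intro z hz
    rw [hf (z ^ 2), mul_pow, hs _ (sq_mem_ball hz)]
  have dS : DifferentiableOn ℂ (fun z => s (z ^ 2)) (ball 0 1) := by
    apply ds.comp (f := fun z : ℂ => z ^ 2) (by fun_prop)
    intro z hz
    exact sq_mem_ball hz
  refine ⟨fun z => z * s (z ^ 2), ?_, ?_, ?_, ?_, hsq, ?_⟩
  · exact differentiableOn_id.mul dS
  · intro a ha b hb hab
    simp only [] at hab
    have h1 : f (a ^ 2) = f (b ^ 2) := by rw [← hsq a ha, ← hsq b hb, hab]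
    have h2 : a ^ 2 = b ^ 2 := jf (sq_mem_ball ha) (sq_mem_ball hb) h1
    rcases sq_eq_sq_iff_eq_or_eq_neg.mp h2 with h3 | h3
    · exact h3
    · have h4 : a * s (a ^ 2) = 0 := by
        have h5 : b = -a := by rw [h3, neg_neg]
        rw [h5] at hab
        have h6 : (-a) ^ 2 = a ^ 2 := by ring
        rw [h6] at hab
        linear_combination hab / 2
      have h7 : f (a ^ 2) = 0 := by rw [← hsq a ha, h4]; simp
      have h8 : a ^ 2 = 0 := jf (sq_mem_ball ha) h0m (by rw [h7, f0])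
      have h9 : a = 0 := by simpa using h8
      have h10 : b = 0 := by
        rw [h9] at h3
        have := h3.symm
        simpa using this
      rw [h9, h10]
  · intro z hz
    simp only []
    have h6 : (-z) ^ 2 = z ^ 2 := by ring
    rw [h6]
    ring
  · obtain ⟨C, hC⟩ := bf
    refine ⟨C + 1, fun z hz => ?_⟩
    have h1 := hsq z hz
    have h2 : ‖z * s (z ^ 2)‖ ^ 2 ≤ C := by
      rw [← norm_pow, h1]
      exact hC _ (sq_mem_ball hz)
    simp only []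
    nlinarith [sq_nonneg (‖z * s (z ^ 2)‖ - 1), norm_nonneg (z * s (z ^ 2))]
  · have h1 : HasDerivAt (fun z => s (z ^ 2)) (deriv (fun z => s (z ^ 2)) 0) 0 :=
      ((dS 0 h0m).differentiableAt (isOpen_ball.mem_nhds h0m)).hasDerivAt
    have h2 := (hasDerivAt_id (0:ℂ)).mul h1
    have h3 : deriv (fun z => z * s (z ^ 2)) 0 = 1 := by
      have h4 : HasDerivAt (fun z => z * s (z ^ 2)) 1 0 := by
        refine h2.congr_deriv ?_
        simp [s0]
      exact h4.deriv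
    exact h3

/-- the transforms are inverse to each other near 0 -/
theorem oddT_inv {f g F G : ℂ → ℂ} (df : DifferentiableOn ℂ f (ball 0 1)) (dg : DifferentiableOn ℂ g (ball 0 1))
    (dF : DifferentiableOn ℂ F (ball 0 1)) (dG : DifferentiableOn ℂ G (ball 0 1))
    (f0 : f 0 = 0) (hgf : ∀ᶠ z in 𝓝 (0:ℂ), g (f z) = z)
    (F0 : F 0 = 0) (G0 : G 0 = 0)
    (hF : ∀ z ∈ ball (0:ℂ) 1, F z ^ 2 = f (z ^ 2)) (hG : ∀ z ∈ ball (0:ℂ) 1, G z ^ 2 = g (z ^ 2))
    (F1 : deriv F 0 = 1) (G1 : deriv G 0 = 1) : ∀ᶠ z in 𝓝 (0:ℂ), G (F z) = z := by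
  have h0m : (0:ℂ) ∈ ball (0:ℂ) 1 := by simp
  have hdF : HasDerivAt F 1 0 := by
    rw [← F1]
    exact ((dF 0 h0m).differentiableAt (isOpen_ball.mem_nhds h0m)).hasDerivAt
  have hdG : HasDerivAt G 1 0 := by
    rw [← G1]
    exact ((dG 0 h0m).differentiableAt (isOpen_ball.mem_nhds h0m)).hasDerivAt
  have hdu : HasDerivAt (fun z => G (F z)) 1 0 := by
    have h1 : HasDerivAt G 1 (F 0) := by rw [F0]; exact hdG
    have h2 : HasDerivAt (fun z => G (F z)) (1 * 1) 0 := HasDerivAt.comp (0:ℂ) h1 hdF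
    rw [mul_one] at h2
    exact h2
  have hds : HasDerivAt (fun z => G (F z) + z) 2 0 := by
    have h1 := hdu.add (hasDerivAt_id (0:ℂ))
    refine h1.congr_deriv ?_
    norm_num
  have hne : ∀ᶠ z in 𝓝[≠] (0:ℂ), G (F z) + z ≠ 0 := hds.eventually_ne (by norm_num)
  have hne' : ∀ᶠ z in 𝓝 (0:ℂ), z ≠ 0 → G (F z) + z ≠ 0 := eventually_nhdsWithin_iff.mp hne
  have hFm : ∀ᶠ z in 𝓝 (0:ℂ), F z ∈ ball (0:ℂ) 1 := by
    have h1 : ContinuousAt F 0 := hdF.continuousAt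
    have h2 : ball (0:ℂ) 1 ∈ 𝓝 (F 0) := by rw [F0]; exact isOpen_ball.mem_nhds h0m
    exact h1 h2
  have hzm : ∀ᶠ z in 𝓝 (0:ℂ), z ∈ ball (0:ℂ) 1 := isOpen_ball.mem_nhds h0m
  have hsqt : Tendsto (fun z : ℂ => z ^ 2) (𝓝 0) (𝓝 0) := by
    have : ContinuousAt (fun z : ℂ => z ^ 2) 0 := by fun_prop
    simpa [ContinuousAt] using this
  have hgf' : ∀ᶠ z in 𝓝 (0:ℂ), g (f (z ^ 2)) = z ^ 2 := hsqt.eventually hgf
  filter_upwards [hne', hFm, hzm, hgf'] with z h1 h2 h3 h4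
  by_cases hz : z = 0
  · rw [hz, F0, G0]
  · have h5 : G (F z) ^ 2 = z ^ 2 := by
      rw [hG _ h2, hF _ h3, h4]
    have h6 : (G (F z) - z) * (G (F z) + z) = 0 := by
      linear_combination h5
    rcases mul_eq_zero.mp h6 with h7 | h7
    · exact sub_eq_zero.mp h7
    · exact absurd h7 (h1 hz)

end Pool.Agent.Helper859.Br.Z1
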