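import Pool.Agent.Helper859.Br.Defs
set_option linter.all false
open Complex MeasureTheory Set Filter Topology Metric

namespace Pool.Agent.Helper859.Br.Z2
open Pool.Agent.Helper859.Br

/-- coefficient comparison -/
theorem coef_cmp {f F P Q Y Z : ℂ → ℂ} {q : ℝ} (hq : 0 < q)
    (df : DifferentiableOn ℂ f (ball 0 1)) (f0 : f 0 = 0) (f1 : deriv f 0 = 1)
    (dF : DifferentiableOn ℂ F (ball 0 1)) (F0 : F 0 = 0) (F1 : deriv F 0 = 1)
    (oF : ∀ z ∈ ball (0:ℂ) 1, F (-z) = -F z)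
    (hF : ∀ z ∈ ball (0:ℂ) 1, F z ^ 2 = f (z ^ 2))
    (dY : DifferentiableOn ℂ Y (ball 0 1)) (Y0 : Y 0 = 1) (dZ : DifferentiableOn ℂ Z (ball 0 1)) (Z0 : Z 0 = 1)
    (hY : ∀ ω ∈ ball (0:ℂ) 1, Q ω * Y (ω ^ 2) = q * ω)
    (hZ : ∀ z ∈ ball (0:ℂ) 1, P z * Z (z ^ 2) = q * z)
    (hPQ : ∀ᶠ z in 𝓝 (0:ℂ), P z = Q (F z)) :
    iteratedDeriv 2 f 0 / 2 = 2 * (deriv Y 0 - deriv Z 0) := by
  have hball : ball (0:ℂ) 1 ∈ 𝓝 (0:ℂ) := ball_mem_nhds _ one_pos
  have hqC : (q : ℂ) ≠ 0 := by exact_mod_cast hq.ne'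
  obtain ⟨h, hh⟩ : ∃ h, h = dslope f 0 := ⟨_, rfl⟩
  have dh : DifferentiableOn ℂ h (ball 0 1) := by
    rw [hh]; exact (Complex.differentiableOn_dslope hball).2 df
  have fh : ∀ x, f x = x * h x := by
    intro x
    have := sub_smul_dslope f 0 x
    rw [sub_zero, f0, sub_zero, smul_eq_mul] at this
    rw [hh]
    exact this.symm
  have h0 : h 0 = 1 := by rw [hh, dslope_same, f1]
  -- the relation in z
  have hFc : Tendsto F (𝓝 0) (𝓝 0) := by
    have h1 : ContinuousAt F 0 := (dF.differentiableAt hball).continuousAt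
    have h2 : Tendsto F (𝓝 0) (𝓝 (F 0)) := h1
    rwa [F0] at h2
  have hA : ∀ᶠ z in 𝓝 (0:ℂ), z * Y (f (z ^ 2)) = F z * Z (z ^ 2) := by
    filter_upwards [hPQ, hball, hFc hball] with z hz hzb hFz
    have e1 := hZ z hzb
    have e2 := hY (F z) hFz
    rw [hF z hzb, ← hz] at e2
    have e3 : (q : ℂ) * (z * Y (f (z ^ 2))) = q * (F z * Z (z ^ 2)) := by
      calc (q : ℂ) * (z * Y (f (z ^ 2))) = (q * z) * Y (f (z ^ 2)) := by ring
        _ = (P z * Z (z ^ 2)) * Y (f (z ^ 2)) := by rw [e1]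
        _ = (P z * Y (f (z ^ 2))) * Z (z ^ 2) := by ring
        _ = (q * F z) * Z (z ^ 2) := by rw [e2]
        _ = q * (F z * Z (z ^ 2)) := by ring
    exact mul_left_cancel₀ hqC e3
  -- the relation in x = z ^ 2
  have hB : ∀ᶠ x in 𝓝 (0:ℂ), x * Y (f x) ^ 2 = f x * Z x ^ 2 := by
    obtain ⟨ε, hε, hε2⟩ := Metric.eventually_nhds_iff_ball.1 (hA.and hball)
    have h3 : ball (0:ℂ) (ε ^ 2) ∈ 𝓝 (0:ℂ) := ball_mem_nhds _ (by positivity)
    filter_upwards [h3] with x hx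
    obtain ⟨z, hz⟩ := IsAlgClosed.exists_pow_nat_eq x (n := 2) (by norm_num)
    have hzε : z ∈ ball (0:ℂ) ε := by
      rw [mem_ball_zero_iff] at hx ⊢
      rw [← hz, norm_pow] at hx
      exact lt_of_pow_lt_pow_left₀ 2 hε.le hx
    obtain ⟨e1, hzb⟩ := hε2 z hzε
    rw [← hz]
    have e2 := hF z hzb
    calc z ^ 2 * Y (f (z ^ 2)) ^ 2 = (z * Y (f (z ^ 2))) ^ 2 := by ring
      _ = (F z * Z (z ^ 2)) ^ 2 := by rw [e1]
      _ = F z ^ 2 * Z (z ^ 2) ^ 2 := by ring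
      _ = f (z ^ 2) * Z (z ^ 2) ^ 2 := by rw [e2]
  have hC : (fun x => Y (f x) ^ 2) =ᶠ[𝓝 0] fun x => h x * Z x ^ 2 := by
    filter_upwards [hB] with x hx
    by_cases hx0 : x = 0
    · subst hx0
      rw [f0, Y0, h0, Z0]; ring
    · rw [fh x] at hx
      rw [fh x]
      have : x * Y (x * h x) ^ 2 = x * (h x * Z x ^ 2) := by rw [hx]; ring
      exact mul_left_cancel₀ hx0 this
  have df0 : HasDerivAt f 1 0 := by
    have := (df.differentiableAt hball).hasDerivAt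
    rwa [f1] at this
  have dY0 : HasDerivAt Y (deriv Y 0) (f 0) := by
    rw [f0]; exact (dY.differentiableAt hball).hasDerivAt
  have dZ0 : HasDerivAt Z (deriv Z 0) 0 := (dZ.differentiableAt hball).hasDerivAt
  have dh0 : HasDerivAt h (deriv h 0) 0 := (dh.differentiableAt hball).hasDerivAt
  have e1 := (dY0.comp (0:ℂ) df0).pow 2
  have e2 := dh0.mul (dZ0.pow 2)
  have e3 := (e2.congr_of_eventuallyEq (f := fun x => h x * Z x ^ 2)
    (Eventually.of_forall fun x => rfl)).congr_of_eventuallyEq hC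
  have e4 := HasDerivAt.unique e1 e3
  have e5 : 2 * deriv Y 0 = deriv h 0 + 2 * deriv Z 0 := by
    simp only [Function.comp_apply, f0, Y0, Z0, h0] at e4
    simpa [Z0] using e4
  -- second derivative
  have e6 : iteratedDeriv 2 f 0 = 2 * deriv h 0 := by
    have hf : f = fun x => x * h x := funext fh
    have g1 : deriv f =ᶠ[𝓝 0] fun x => h x + x * deriv h x := by
      filter_upwards [hball] with x hx
      have hdx : HasDerivAt h (deriv h x) x :=
        (dh.differentiableAt (isOpen_ball.mem_nhds hx)).hasDerivAt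
      have := (hasDerivAt_id x).mul hdx
      have h9 : HasDerivAt f (1 * h x + x * deriv h x) x := by
        rw [hf]; exact this
      rw [h9.deriv, one_mul]
    rw [iteratedDeriv_succ, iteratedDeriv_one, g1.deriv_eq]
    have hdd : DifferentiableAt ℂ (deriv h) 0 := (dh.analyticAt hball).deriv.differentiableAt
    have g2 := dh0.add ((hasDerivAt_id (0:ℂ)).mul hdd.hasDerivAt)
    have g3 : HasDerivAt (fun x => h x + x * deriv h x) (deriv h 0 + (1 * deriv h 0 +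
        0 * deriv (deriv h) 0)) 0 := g2
    rw [g3.deriv]; ring
  rw [e6]
  linear_combination (-1 : ℂ) * e5

end Pool.Agent.Helper859.Br.Z2
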