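import Pool.Agent.Helper859.Br.Defs
set_option linter.all false
open Complex MeasureTheory Set Filter Topology Metric

namespace Pool.Agent.Helper859.Br.Z3
open Pool.Agent.Helper859.Br

/-- bounded case -/
theorem bdd_case
    (oddT : ∀ {f : ℂ → ℂ}, DifferentiableOn ℂ f (ball 0 1) → InjOn f (ball 0 1) → f 0 = 0 →
      deriv f 0 = 1 → (∃ C : ℝ, ∀ z ∈ ball (0:ℂ) 1, ‖f z‖ ≤ C) →
      ∃ F : ℂ → ℂ, DifferentiableOn ℂ F (ball 0 1) ∧ InjOn F (ball 0 1) ∧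
        (∀ z ∈ ball (0:ℂ) 1, F (-z) = -F z) ∧ (∃ C : ℝ, ∀ z ∈ ball (0:ℂ) 1, ‖F z‖ ≤ C) ∧
        (∀ z ∈ ball (0:ℂ) 1, F z ^ 2 = f (z ^ 2)) ∧ deriv F 0 = 1)
    (oddT_inv : ∀ {f g F G : ℂ → ℂ}, DifferentiableOn ℂ f (ball 0 1) → DifferentiableOn ℂ g (ball 0 1) →
      DifferentiableOn ℂ F (ball 0 1) → DifferentiableOn ℂ G (ball 0 1) → f 0 = 0 →
      (∀ᶠ z in 𝓝 (0:ℂ), g (f z) = z) → F 0 = 0 → G 0 = 0 →
      (∀ z ∈ ball (0:ℂ) 1, F z ^ 2 = f (z ^ 2)) → (∀ z ∈ ball (0:ℂ) 1, G z ^ 2 = g (z ^ 2)) →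
      deriv F 0 = 1 → deriv G 0 = 1 → ∀ᶠ z in 𝓝 (0:ℂ), G (F z) = z)
    (unif : ∀ {F G : ℂ → ℂ}, DifferentiableOn ℂ F (ball 0 1) → DifferentiableOn ℂ G (ball 0 1) →
      InjOn F (ball 0 1) → InjOn G (ball 0 1) →
      (∀ z ∈ ball (0:ℂ) 1, F (-z) = -F z) → (∀ z ∈ ball (0:ℂ) 1, G (-z) = -G z) →
      (∃ C : ℝ, ∀ z ∈ ball (0:ℂ) 1, ‖F z‖ ≤ C) → (∃ C : ℝ, ∀ z ∈ ball (0:ℂ) 1, ‖G z‖ ≤ C) →
      (∀ᶠ z in 𝓝 (0:ℂ), G (F z) = z) →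
      ∃ P Q : ℂ → ℂ, Cfg F P Q ∧ Cfg G Q P ∧ (∀ᶠ z in 𝓝 (0:ℂ), P z = Q (F z)) ∧
        (∃ q : ℝ, 0 < q ∧ deriv Q 0 = (q : ℂ)))
    (exY : ∀ {Q : ℂ → ℂ}, DifferentiableOn ℂ Q (ball 0 1) → InjOn Q (ball 0 1) →
      (∀ z ∈ ball (0:ℂ) 1, Q (-z) = -Q z) → ∀ {q : ℝ}, 0 < q → deriv Q 0 = (q : ℂ) →
      ∃ Y : ℂ → ℂ, DifferentiableOn ℂ Y (ball 0 1) ∧ (∀ x ∈ ball (0:ℂ) 1, Y x ≠ 0) ∧ Y 0 = 1 ∧
        (∀ ω ∈ ball (0:ℂ) 1, Q ω * Y (ω ^ 2) = q * ω))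
    (half : ∀ {F P Q : ℂ → ℂ}, Cfg F P Q → ∀ {q : ℝ}, 0 < q → deriv Q 0 = (q : ℂ) →
      ∀ {Y : ℂ → ℂ}, DifferentiableOn ℂ Y (ball 0 1) → (∀ x ∈ ball (0:ℂ) 1, Y x ≠ 0) → Y 0 = 1 →
      (∀ ω ∈ ball (0:ℂ) 1, Q ω * Y (ω ^ 2) = q * ω) → ‖deriv Y 0‖ ≤ 707 / 2000)
    (coef_cmp : ∀ {f F P Q Y Z : ℂ → ℂ} {q : ℝ}, 0 < q →
      DifferentiableOn ℂ f (ball 0 1) → f 0 = 0 → deriv f 0 = 1 →
      DifferentiableOn ℂ F (ball 0 1) → F 0 = 0 → deriv F 0 = 1 →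
      (∀ z ∈ ball (0:ℂ) 1, F (-z) = -F z) →
      (∀ z ∈ ball (0:ℂ) 1, F z ^ 2 = f (z ^ 2)) →
      DifferentiableOn ℂ Y (ball 0 1) → Y 0 = 1 → DifferentiableOn ℂ Z (ball 0 1) → Z 0 = 1 →
      (∀ ω ∈ ball (0:ℂ) 1, Q ω * Y (ω ^ 2) = q * ω) →
      (∀ z ∈ ball (0:ℂ) 1, P z * Z (z ^ 2) = q * z) →
      (∀ᶠ z in 𝓝 (0:ℂ), P z = Q (F z)) →
      iteratedDeriv 2 f 0 / 2 = 2 * (deriv Y 0 - deriv Z 0))
    {f g : ℂ → ℂ} (df : DifferentiableOn ℂ f (ball 0 1)) (jf : InjOn f (ball 0 1)) (f0 : f 0 = 0) (f1 : deriv f 0 = 1)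
    (dg : DifferentiableOn ℂ g (ball 0 1)) (jg : InjOn g (ball 0 1)) (hgf : ∀ᶠ z in 𝓝 (0:ℂ), g (f z) = z)
    (bf : ∃ C : ℝ, ∀ z ∈ ball (0:ℂ) 1, ‖f z‖ ≤ C) (bg : ∃ C : ℝ, ∀ z ∈ ball (0:ℂ) 1, ‖g z‖ ≤ C) :
    ‖iteratedDeriv 2 f 0‖ / 2 ≤ 707 / 500 := by
  have h0 : (ball (0:ℂ) 1) ∈ 𝓝 (0:ℂ) := ball_mem_nhds _ one_pos
  have g0 : g 0 = 0 := by
    have := hgf.self_of_nhds
    rwa [f0] at this
  have dfa : DifferentiableAt ℂ f 0 := df.differentiableAt h0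
  have dga : DifferentiableAt ℂ g 0 := dg.differentiableAt h0
  have g1 : deriv g 0 = 1 := by
    have h1 : deriv (fun z => g (f z)) 0 = deriv g (f 0) * deriv f 0 :=
      deriv_comp (h₂ := g) (h := f) 0 (by rw [f0]; exact dga) dfa
    have h2 : deriv (fun z => g (f z)) 0 = 1 := by
      have : (fun z => g (f z)) =ᶠ[𝓝 0] (fun z => z) := hgf
      rw [this.deriv_eq]
      exact deriv_id _
    rw [h2, f0, f1, mul_one] at h1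
    exact h1.symm
  obtain ⟨F, dF, jF, oF, bF, sF, F1⟩ := oddT df jf f0 f1 bf
  obtain ⟨G, dG, jG, oG, bG, sG, G1⟩ := oddT dg jg g0 g1 bg
  have m0 : (0:ℂ) ∈ ball (0:ℂ) 1 := mem_ball_self one_pos
  have F0 : F 0 = 0 := by
    have := oF 0 m0
    rw [neg_zero] at this
    exact self_eq_neg.1 this
  have G0 : G 0 = 0 := by
    have := oG 0 m0
    rw [neg_zero] at this
    exact self_eq_neg.1 this
  have hGF := oddT_inv df dg dF dG f0 hgf F0 G0 sF sG F1 G1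
  obtain ⟨P, Q, cfg, cfg', hPQ, q, hq, hQ1⟩ := unif dF dG jF jG oF oG bF bG hGF
  have hP1 : deriv P 0 = (q : ℂ) := by
    have h1 : deriv (fun z => Q (F z)) 0 = deriv Q (F 0) * deriv F 0 :=
      deriv_comp (h₂ := Q) (h := F) 0 (by rw [F0]; exact cfg.dQ.differentiableAt h0)
        (dF.differentiableAt h0)
    have h2 : P =ᶠ[𝓝 0] (fun z => Q (F z)) := hPQ
    rw [h2.deriv_eq, h1, F0, F1, hQ1, mul_one]
  obtain ⟨Y, dY, Yne, Y0, hY⟩ := exY cfg.dQ cfg.iQ cfg.oQ hq hQ1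
  obtain ⟨Z, dZ, Zne, Z0, hZ⟩ := exY cfg.dP cfg.iP cfg.oP hq hP1
  have n1 := half cfg hq hQ1 dY Yne Y0 hY
  have n2 := half cfg' hq hP1 dZ Zne Z0 hZ
  have hc := coef_cmp hq df f0 f1 dF F0 F1 oF sF dY Y0 dZ Z0 hY hZ hPQ
  have hn : ‖iteratedDeriv 2 f 0‖ / 2 = ‖iteratedDeriv 2 f 0 / 2‖ := by
    rw [norm_div]; norm_num
  rw [hn, hc, norm_mul]
  have h3 : ‖deriv Y 0 - deriv Z 0‖ ≤ 707 / 2000 + 707 / 2000 :=
    (norm_sub_le _ _).trans (add_le_add n1 n2)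
  have h4 : ‖(2:ℂ)‖ = 2 := by norm_num
  rw [h4]
  linarith

/-- general case by dilation -/
theorem gen_case
    (bdd : ∀ {f g : ℂ → ℂ}, DifferentiableOn ℂ f (ball 0 1) → InjOn f (ball 0 1) → f 0 = 0 → deriv f 0 = 1 →
      DifferentiableOn ℂ g (ball 0 1) → InjOn g (ball 0 1) → (∀ᶠ z in 𝓝 (0:ℂ), g (f z) = z) →
      (∃ C : ℝ, ∀ z ∈ ball (0:ℂ) 1, ‖f z‖ ≤ C) → (∃ C : ℝ, ∀ z ∈ ball (0:ℂ) 1, ‖g z‖ ≤ C) →
      ‖iteratedDeriv 2 f 0‖ / 2 ≤ 707 / 500)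
    {f g : ℂ → ℂ} (df : DifferentiableOn ℂ f (ball 0 1)) (jf : InjOn f (ball 0 1)) (f0 : f 0 = 0) (f1 : deriv f 0 = 1)
    (dg : DifferentiableOn ℂ g (ball 0 1)) (jg : InjOn g (ball 0 1)) (hgf : ∀ᶠ z in 𝓝 (0:ℂ), g (f z) = z) :
    ‖iteratedDeriv 2 f 0‖ / 2 ≤ 707 / 500 := by
  have hmaps : ∀ r : ℝ, 0 < r → r < 1 → MapsTo (fun z : ℂ => (r:ℂ) * z) (ball 0 1) (ball 0 1) := by
    intro r hr0 hr1 z hz
    rw [mem_ball_zero_iff] at hz ⊢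
    rw [norm_mul, Complex.norm_real, Real.norm_of_nonneg hr0.le]
    nlinarith [norm_nonneg z]
  have hdiff : ∀ r : ℝ, 0 < r → r < 1 → ∀ h : ℂ → ℂ, DifferentiableOn ℂ h (ball 0 1) →
      DifferentiableOn ℂ (fun z => (r:ℂ)⁻¹ * h (r * z)) (ball 0 1) := by
    intro r hr0 hr1 h hh
    apply DifferentiableOn.const_mul
    exact hh.comp (by fun_prop) (hmaps r hr0 hr1)
  have hinj : ∀ r : ℝ, 0 < r → r < 1 → ∀ h : ℂ → ℂ, InjOn h (ball 0 1) →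
      InjOn (fun z => (r:ℂ)⁻¹ * h (r * z)) (ball 0 1) := by
    intro r hr0 hr1 h hh x hx y hy hxy
    have hrc : (r:ℂ) ≠ 0 := by exact_mod_cast hr0.ne'
    have h1 : h (r * x) = h (r * y) := mul_left_cancel₀ (inv_ne_zero hrc) hxy
    exact mul_left_cancel₀ hrc (hh (hmaps r hr0 hr1 hx) (hmaps r hr0 hr1 hy) h1)
  have hbd : ∀ r : ℝ, 0 < r → r < 1 → ∀ h : ℂ → ℂ, DifferentiableOn ℂ h (ball 0 1) →
      ∃ C : ℝ, ∀ z ∈ ball (0:ℂ) 1, ‖(r:ℂ)⁻¹ * h (r * z)‖ ≤ C := by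
    intro r hr0 hr1 h hh
    obtain ⟨C, hC⟩ := (isCompact_closedBall (0:ℂ) r).exists_bound_of_continuousOn
      (hh.continuousOn.mono (closedBall_subset_ball hr1))
    refine ⟨‖(r:ℂ)⁻¹‖ * C, fun z hz => ?_⟩
    rw [norm_mul]
    apply mul_le_mul_of_nonneg_left _ (norm_nonneg _)
    apply hC
    rw [mem_ball_zero_iff] at hz
    rw [mem_closedBall_zero_iff, norm_mul, Complex.norm_real, Real.norm_of_nonneg hr0.le]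
    nlinarith [norm_nonneg z]
  have hder : ∀ r : ℝ, 0 < r → ∀ h : ℂ → ℂ, deriv (fun z => (r:ℂ)⁻¹ * h (r * z)) =
      fun z => deriv h (r * z) := by
    intro r hr0 h
    have hrc : (r:ℂ) ≠ 0 := by exact_mod_cast hr0.ne'
    funext z
    rw [deriv_const_mul_field]
    have h2 := deriv_comp_mul_left (r:ℂ) h z
    rw [h2, smul_eq_mul, inv_mul_cancel_left₀ hrc]
  have key : ∀ r : ℝ, 0 < r → r < 1 → r * (‖iteratedDeriv 2 f 0‖ / 2) ≤ 707 / 500 := by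
    intro r hr0 hr1
    have hrc : (r:ℂ) ≠ 0 := by exact_mod_cast hr0.ne'
    have h1 := bdd (hdiff r hr0 hr1 f df) (hinj r hr0 hr1 f jf) (by simp [f0])
      (by rw [hder r hr0]; simp [f1]) (hdiff r hr0 hr1 g dg) (hinj r hr0 hr1 g jg)
      (by
        have ht : Tendsto (fun z : ℂ => (r:ℂ) * z) (𝓝 0) (𝓝 0) := by
          have : Continuous (fun z : ℂ => (r:ℂ) * z) := by fun_prop
          simpa using this.tendsto 0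
        filter_upwards [ht.eventually hgf] with z hz
        rw [mul_inv_cancel_left₀ hrc, hz, inv_mul_cancel_left₀ hrc])
      (hbd r hr0 hr1 f df) (hbd r hr0 hr1 g dg)
    have h2 : iteratedDeriv 2 (fun z => (r:ℂ)⁻¹ * f (r * z)) 0 = r * iteratedDeriv 2 f 0 := by
      rw [iteratedDeriv_succ, iteratedDeriv_one, iteratedDeriv_succ, iteratedDeriv_one,
        hder r hr0]
      have h3 := deriv_comp_mul_left (r:ℂ) (deriv f) 0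
      rw [h3, smul_eq_mul, mul_zero]
    rw [h2, norm_mul, Complex.norm_real, Real.norm_of_nonneg hr0.le] at h1
    linarith
  by_contra hcon
  push Not at hcon
  have hA : 0 < ‖iteratedDeriv 2 f 0‖ / 2 := lt_trans (by norm_num) hcon
  generalize ‖iteratedDeriv 2 f 0‖ / 2 = A at *
  have h5 : 707 / 500 / A < 1 := (div_lt_one hA).2 hcon
  have h6 : 0 < 707 / 500 / A := by positivity
  have h7 := key ((707 / 500 / A + 1) / 2) (by linarith) (by linarith)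
  have h8 : (707 / 500 / A + 1) / 2 * A = (707 / 500 + A) / 2 := by
    field_simp
  rw [h8] at h7
  linarith

end Pool.Agent.Helper859.Br.Z3
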